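import Mathlib

set_option autoImplicit false

namespace Pool.Agent.H7.GenPos

lemma exists_seq {α : Type*} [Inhabited α] (P : ℕ → (ℕ → α) → α → Prop)
    (hloc : ∀ i v v' y, (∀ s < i, v s = v' s) → P i v y → P i v' y)
    (hex : ∀ i v, ∃ y, P i v y) : ∃ v : ℕ → α, ∀ i, P i v (v i) := by
  classical
  choose F hF using hex
  let w : ℕ → ℕ → α := fun i => Nat.rec (fun _ => default)
    (fun i wi => Function.update wi i (F i wi)) i
  have hw : ∀ i, w (i + 1) = Function.update (w i) i (F i (w i)) := fun i => rfl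
  have hs : ∀ i s, s < i → w i s = w (s + 1) s := by
    intro i
    induction i with
    | zero => intro s hs; omega
    | succ i ih =>
      intro s hs
      rcases Nat.lt_succ_iff_lt_or_eq.1 hs with h | h
      · rw [hw, Function.update_of_ne h.ne, ih s h]
      · rw [h]
  refine ⟨fun s => w (s + 1) s, fun i => hloc i (w i) _ _ (hs i) ?_⟩
  show P i (w i) (w (i + 1) i)
  rw [hw, Function.update_self]
  exact hF i (w i)

/-- One can pick one hyperplane from each of countably many infinite parallel families so that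
no point lies on more than `n` of the chosen hyperplanes. -/
lemma genpos {K : Type*} [Field K] {n : ℕ} (g : ℕ → Fin n → K) (T : ℕ → Set K)
    (hT : ∀ i, (T i).Infinite) :
    ∃ v : ℕ → K, (∀ i, v i ∈ T i) ∧
      ∀ (x : Fin n → K) (S : Finset ℕ), (∀ s ∈ S, g s ⬝ᵥ x = v s) → S.card ≤ n := by
  classical
  have : Inhabited K := ⟨0⟩
  obtain ⟨v, hv⟩ := exists_seq (α := K)
    (fun i v y => y ∈ T i ∧ ∀ S : Finset ℕ, S ⊆ Finset.range i → ∀ x : Fin n → K,
      (∀ s ∈ S, g s ⬝ᵥ x = v s) → g i ∈ Submodule.span K (g '' (S : Set ℕ)) → g i ⬝ᵥ x ≠ y)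
    (by
      intro i v v' y h ⟨h1, h2⟩
      refine ⟨h1, fun S hS x hx => h2 S hS x fun s hs => ?_⟩
      rw [hx s hs, h s (Finset.mem_range.1 (hS hs))])
    (by
      intro i v
      let B : Finset ℕ → Set K := fun S => {y | ∃ x : Fin n → K, (∀ s ∈ S, g s ⬝ᵥ x = v s) ∧
        g i ∈ Submodule.span K (g '' (S : Set ℕ)) ∧ g i ⬝ᵥ x = y}
      have hB : ∀ S, (B S).Finite := by
        intro S
        apply Set.Subsingleton.finite
        rintro _ ⟨x, hx, hsp, rfl⟩ _ ⟨x', hx', -, rfl⟩
        have : ∀ u ∈ Submodule.span K (g '' (S : Set ℕ)), u ⬝ᵥ x = u ⬝ᵥ x' := by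
          intro u hu
          induction hu using Submodule.span_induction with
          | mem u hu =>
            obtain ⟨s, hs, rfl⟩ := hu
            rw [hx s hs, hx' s hs]
          | zero => simp
          | add u u' _ _ h1 h2 => rw [add_dotProduct, add_dotProduct, h1, h2]
          | smul c u _ h1 => rw [smul_dotProduct, smul_dotProduct, h1]
        exact this _ hsp
      have hfin : (⋃ S ∈ ((Finset.range i).powerset : Set (Finset ℕ)), B S).Finite :=
        Set.Finite.biUnion (Finset.finite_toSet _) fun S _ => hB S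
      obtain ⟨y, hy, hy'⟩ := ((hT i).sdiff hfin).nonempty
      refine ⟨y, hy, fun S hS x hx hsp h => hy' ?_⟩
      simp only [Set.mem_iUnion]
      exact ⟨S, Finset.mem_coe.2 (Finset.mem_powerset.2 hS), x, hx, hsp, h⟩)
  refine ⟨v, fun i => (hv i).1, fun x S hS => ?_⟩
  have hli : LinearIndepOn K g (S : Set ℕ) := by
    induction S using Finset.induction_on_max with
    | empty => simp
    | insert a s hlt ih =>
      have h1 : ∀ t ∈ s, g t ⬝ᵥ x = v t := fun t ht => hS t (Finset.mem_insert_of_mem ht)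
      rw [Finset.coe_insert]
      refine (ih h1).insert fun hsp => ?_
      exact (hv a).2 s (fun t ht => Finset.mem_range.2 (hlt t ht)) x h1 hsp
        (hS a (Finset.mem_insert_self _ _))
  have := LinearIndependent.fintype_card_le_finrank (R := K) (b := fun s : (S : Set ℕ) => g s) hli
  simpa using this

/-- Colouring lemma over a countable field. -/
lemma colour {K : Type*} [Field K] [Countable K] {n : ℕ} {Γ : Type*} [Countable Γ] [Nonempty Γ]
    (A : Γ → Fin n → K) (t : ℕ → K) (ht : Function.Injective t) :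
    ∃ c : (Fin n → K) → Fin (n + 1), ∀ (j : Fin (n + 1)) (γ : Γ) (d : K),
      ∃ b : ℕ, ∀ x, A γ ⬝ᵥ x = d + t b → c x ≠ j := by
  classical
  obtain ⟨e, he⟩ := exists_surjective_nat (Fin (n + 1) × Γ × K)
  obtain ⟨v, hv, hcard⟩ := genpos (fun i => A (e i).2.1)
    (fun i => Set.range fun b => (e i).2.2 + t b)
    (fun i => Set.infinite_range_of_injective fun a b h => ht (add_left_cancel h))
  have hx : ∀ x : Fin n → K, ∃ j : Fin (n + 1), ∀ i, A (e i).2.1 ⬝ᵥ x = v i → (e i).1 ≠ j := by
    intro x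
    by_contra hcon
    push Not at hcon
    choose f hf1 hf2 using hcon
    have hinj : Function.Injective f := fun a b h => by rw [← hf2 a, h, hf2 b]
    have := hcard x (Finset.univ.image f) (by
      intro s hs
      obtain ⟨j, -, rfl⟩ := Finset.mem_image.1 hs
      exact hf1 j)
    rw [Finset.card_image_of_injective _ hinj] at this
    simp at this
  choose c hc using hx
  refine ⟨c, fun j γ d => ?_⟩
  obtain ⟨i, hi⟩ := he (j, γ, d)
  obtain ⟨b, hb⟩ := hv i
  refine ⟨b, fun x hx h => hc x i ?_ ?_⟩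
  · simp only [hi] at hb ⊢
    rw [hx, hb]
  · rw [hi, h]

/-- Real version. -/
lemma colour_real {n : ℕ} {Γ : Type*} [Countable Γ] [Nonempty Γ]
    (A : Γ → Fin n → ℝ) (t : ℕ → ℝ) (ht : Function.Injective t) :
    ∃ c : (Fin n → ℝ) → Fin (n + 1), ∀ (j : Fin (n + 1)) (γ : Γ) (d : ℝ),
      ∃ b : ℕ, ∀ x, A γ ⬝ᵥ x = d + t b → c x ≠ j := by
  classical
  let s : Set ℝ := (Set.range fun p : Γ × Fin n => A p.1 p.2) ∪ Set.range t
  have hs : s.Countable := (Set.countable_range _).union (Set.countable_range _)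
  let K : Subfield ℝ := Subfield.closure s
  have : Countable K := by
    rw [← Cardinal.mk_le_aleph0_iff]
    refine (Subfield.cardinalMk_closure_le_max s).trans (max_le ?_ le_rfl)
    exact Cardinal.le_aleph0_iff_set_countable.2 hs
  obtain ⟨π, hπ⟩ := LinearMap.exists_leftInverse_of_injective (Algebra.linearMap K ℝ)
    (LinearMap.ker_eq_bot.2 Subtype.val_injective)
  have hπ' : ∀ k : K, π (k : ℝ) = k := fun k => LinearMap.congr_fun hπ k
  let A' : Γ → Fin n → K := fun γ j => ⟨A γ j, Subfield.subset_closure (Or.inl ⟨(γ, j), rfl⟩)⟩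
  let t' : ℕ → K := fun b => ⟨t b, Subfield.subset_closure (Or.inr ⟨b, rfl⟩)⟩
  obtain ⟨c, hc⟩ := colour A' t' (fun a b h => ht (congrArg Subtype.val h))
  refine ⟨fun x => c (fun j => π (x j)), fun j γ d => ?_⟩
  obtain ⟨b, hb⟩ := hc j γ (π d)
  refine ⟨b, fun x hx => hb _ ?_⟩
  have h1 : A' γ ⬝ᵥ (fun j => π (x j)) = π (A γ ⬝ᵥ x) := by
    simp only [dotProduct, map_sum]
    refine Finset.sum_congr rfl fun j _ => ?_
    have : A γ j * x j = (A' γ j) • x j := rfl
    rw [this, map_smul, smul_eq_mul]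
  rw [h1, hx, map_add, ← hπ' (t' b)]

lemma subseq {α Γ : Type*} (r : Γ → α → α → Prop) (htr : ∀ γ, IsTrans α (r γ)) (L : List Γ) :
    ∀ (f : ℕ → α), (∀ m n, m < n → ∃ γ ∈ L, r γ (f m) (f n)) →
      ∃ γ, ∃ g : ℕ ↪o ℕ, ∀ m n, m < n → r γ (f (g m)) (f (g n)) := by
  induction L with
  | nil =>
    intro f h
    obtain ⟨γ, hγ, -⟩ := h 0 1 one_pos
    simp at hγ
  | cons γ L ih =>
    intro f h
    have := htr γ
    obtain ⟨g, hg | hg⟩ := exists_increasing_or_nonincreasing_subseq (r γ) f
    · exact ⟨γ, g, hg⟩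
    · obtain ⟨γ', g', hg'⟩ := ih (fun k => f (g k)) (by
        intro m n hmn
        obtain ⟨δ, hδ, hr⟩ := h (g m) (g n) (g.strictMono hmn)
        rcases List.mem_cons.1 hδ with rfl | hδ
        · exact absurd hr (hg m n hmn)
        · exact ⟨δ, hδ, hr⟩)
      exact ⟨γ', g'.trans g, hg'⟩

end Pool.Agent.H7.GenPos
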