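import Mathlib
import Pool.Agent.H7.GenPos

set_option autoImplicit false

namespace Pool.Agent.H7.Baton

lemma greedy {V : Type*} [Countable V] (D : ℕ) (nb : V → Finset V) (hD : ∀ v, (nb v).card ≤ D)
    (hsymm : ∀ a b, a ∈ nb b → b ∈ nb a) :
    ∃ c : V → Fin (D + 1), ∀ a b, a ≠ b → a ∈ nb b → c a ≠ c b := by
  classical
  obtain ⟨enc, henc⟩ := exists_injective_nat V
  obtain ⟨v, hv⟩ := Pool.Agent.H7.GenPos.exists_seq (α := Fin (D + 1))
    (fun i v y => ∀ a b, enc b = i → a ∈ nb b → enc a < i → v (enc a) ≠ y)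
    (by
      intro i v v' y h H a b hb ha hlt
      rw [← h _ hlt]
      exact H a b hb ha hlt)
    (by
      intro i v
      by_cases hi : ∃ b, enc b = i
      · obtain ⟨b, hb⟩ := hi
        have hc : ((nb b).image fun a => v (enc a)).card < (Finset.univ : Finset (Fin (D + 1))).card := by
          have := Finset.card_image_le (s := nb b) (f := fun a => v (enc a))
          have := hD b
          simp only [Finset.card_univ, Fintype.card_fin]
          omega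
        obtain ⟨y, -, hy⟩ := Finset.exists_mem_notMem_of_card_lt_card hc
        refine ⟨y, fun a b' hb' ha _ h => hy ?_⟩
        have : b' = b := henc (hb'.trans hb.symm)
        subst this
        exact Finset.mem_image.2 ⟨a, ha, h⟩
      · exact ⟨0, fun a b hb => absurd ⟨b, hb⟩ hi⟩)
  refine ⟨fun a => v (enc a), fun a b hab ha => ?_⟩
  rcases lt_trichotomy (enc a) (enc b) with h | h | h
  · exact hv (enc b) a b rfl ha h
  · exact absurd (henc h) hab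
  · exact (hv (enc a) b a rfl (hsymm a b ha) h).symm

lemma geo (θ : ℝ) (h0 : 0 ≤ θ) (h1 : θ ≤ 1 / 2) (R : ℕ) :
    ∑ j ∈ Finset.Icc (-(R : ℤ)) R, θ ^ j.natAbs ≤ 1 + 4 * θ - 4 * θ ^ (R + 1) := by
  induction R with
  | zero => simp
  | succ R ih =>
    have e : Finset.Icc (-((R + 1 : ℕ) : ℤ)) ((R + 1 : ℕ) : ℤ) =
        insert (-((R + 1 : ℕ) : ℤ)) (insert ((R + 1 : ℕ) : ℤ) (Finset.Icc (-(R : ℤ)) R)) := by
      ext j
      simp only [Finset.mem_Icc, Finset.mem_insert]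
      push_cast
      omega
    rw [e, Finset.sum_insert, Finset.sum_insert]
    · simp only [Int.natAbs_neg, Int.natAbs_natCast]
      have hp : 0 ≤ θ ^ (R + 1) := pow_nonneg h0 _
      have : θ ^ (R + 1 + 1) = θ ^ (R + 1) * θ := pow_succ _ _
      nlinarith
    · simp only [Finset.mem_Icc]; push_cast; omega
    · simp only [Finset.mem_Icc, Finset.mem_insert]; push_cast; omega

noncomputable def ball (n q : ℕ) : Finset (Fin n → ℤ) :=
  (Fintype.piFinset fun _ : Fin n => Finset.Icc (-((3 * n : ℕ) : ℤ)) ((3 * n : ℕ) : ℤ)).filter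
    fun μ => q * ∑ i, (μ i).natAbs ≤ 3 * n

lemma mem_ball {n q : ℕ} (hq : 1 ≤ q) (μ : Fin n → ℤ) :
    μ ∈ ball n q ↔ q * ∑ i, (μ i).natAbs ≤ 3 * n := by
  simp only [ball, Finset.mem_filter, Fintype.mem_piFinset, Finset.mem_Icc]
  refine ⟨fun h => h.2, fun h => ⟨fun i => ?_, h⟩⟩
  have h1 : (μ i).natAbs ≤ ∑ i, (μ i).natAbs :=
    Finset.single_le_sum (f := fun i => (μ i).natAbs) (fun _ _ => Nat.zero_le _) (Finset.mem_univ i)
  have h2 : ∑ i, (μ i).natAbs ≤ q * ∑ i, (μ i).natAbs := Nat.le_mul_of_pos_left _ hq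
  omega

lemma card_ball (n q : ℕ) (hq : 1 ≤ q) (θ ρ : ℝ) (h0 : 0 < θ) (h1 : θ ≤ 1 / 2) (hρ : 0 ≤ ρ)
    (h : 1 ≤ θ ^ 3 * ρ ^ q) : ((ball n q).card : ℝ) ≤ (ρ * (1 + 4 * θ)) ^ n := by
  have a1 : ∀ μ ∈ ball n q, (1 : ℝ) ≤ ρ ^ n * ∏ i, θ ^ (μ i).natAbs := by
    intro μ hμ
    rw [mem_ball hq] at hμ
    rw [Finset.prod_pow_eq_pow_sum]
    set S := ∑ i, (μ i).natAbs
    have hnn : 0 ≤ ρ ^ n * θ ^ S := by positivity
    by_contra hlt
    have hlt' : (ρ ^ n * θ ^ S) ^ q < 1 := pow_lt_one₀ hnn (not_le.1 hlt) (by omega)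
    have e1 : θ ^ (3 * n) ≤ θ ^ (q * S) := pow_le_pow_of_le_one h0.le (by linarith) hμ
    have e2 : 1 ≤ (θ ^ 3 * ρ ^ q) ^ n := one_le_pow₀ h
    have e3 : (θ ^ 3 * ρ ^ q) ^ n = (ρ ^ n) ^ q * θ ^ (3 * n) := by ring
    have e4 : (ρ ^ n * θ ^ S) ^ q = (ρ ^ n) ^ q * θ ^ (q * S) := by ring
    have e5 : (ρ ^ n) ^ q * θ ^ (3 * n) ≤ (ρ ^ n) ^ q * θ ^ (q * S) :=
      mul_le_mul_of_nonneg_left e1 (by positivity)
    linarith
  calc ((ball n q).card : ℝ) = ∑ μ ∈ ball n q, (1 : ℝ) := by simp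
    _ ≤ ∑ μ ∈ ball n q, ρ ^ n * ∏ i, θ ^ (μ i).natAbs := Finset.sum_le_sum a1
    _ ≤ ∑ μ ∈ Fintype.piFinset fun _ : Fin n =>
          Finset.Icc (-((3 * n : ℕ) : ℤ)) ((3 * n : ℕ) : ℤ), ρ ^ n * ∏ i, θ ^ (μ i).natAbs :=
        Finset.sum_le_sum_of_subset_of_nonneg (Finset.filter_subset _ _)
          (fun _ _ _ => by positivity)
    _ = ρ ^ n * ∏ _i : Fin n, ∑ j ∈ Finset.Icc (-((3 * n : ℕ) : ℤ)) ((3 * n : ℕ) : ℤ),
          θ ^ j.natAbs := by
        rw [← Finset.mul_sum, Finset.prod_univ_sum]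
    _ ≤ ρ ^ n * ∏ _i : Fin n, (1 + 4 * θ) := by
        refine mul_le_mul_of_nonneg_left (Finset.prod_le_prod (fun _ _ => ?_) fun _ _ => ?_)
          (by positivity)
        · exact Finset.sum_nonneg fun _ _ => by positivity
        · have := geo θ h0.le h1 (3 * n)
          have hp : 0 ≤ θ ^ (3 * n + 1) := by positivity
          linarith
    _ = (ρ * (1 + 4 * θ)) ^ n := by simp [mul_pow]

lemma pt1 (q : ℤ) (hq : 1 ≤ q) (τ : ℤ) (u w : ℝ) :
    (((⌊u⌋ + τ) / q - (⌊w⌋ + τ) / q : ℤ) : ℝ) ≤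
      |u - w| + (if (⌊u⌋ + τ) % q = 0 then 1 else 0) := by
  have ha := Int.mul_ediv_add_emod (⌊u⌋ + τ) q
  have hb := Int.mul_ediv_add_emod (⌊w⌋ + τ) q
  have ra := Int.emod_nonneg (⌊u⌋ + τ) (by omega : q ≠ 0)
  have rb := Int.emod_lt_of_pos (⌊w⌋ + τ) (by omega : 0 < q)
  set l := (⌊u⌋ + τ) / q
  set l' := (⌊w⌋ + τ) / q
  set r := (⌊u⌋ + τ) % q
  set r' := (⌊w⌋ + τ) % q
  have hu := Int.floor_le u
  have hw := Int.lt_floor_add_one w
  have habs := le_abs_self (u - w)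
  have hnn := abs_nonneg (u - w)
  by_cases hl : l - l' ≤ 0
  · have : ((l - l' : ℤ) : ℝ) ≤ 0 := by exact_mod_cast hl
    split_ifs <;> linarith
  · have k1 : l - l' - 1 + r ≤ ⌊u⌋ - ⌊w⌋ - 1 := by nlinarith
    have k2 : ((l - l' : ℤ) : ℝ) - 1 + (r : ℝ) ≤ (⌊u⌋ : ℝ) - ⌊w⌋ - 1 := by exact_mod_cast k1
    split_ifs with h
    · have : (0 : ℝ) ≤ r := by exact_mod_cast ra
      linarith
    · have : (1 : ℝ) ≤ r := by exact_mod_cast (by omega : (1 : ℤ) ≤ r)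
      linarith

lemma pt2 (q : ℤ) (hq : 1 ≤ q) (τ : ℤ) (u w : ℝ) :
    ((((⌊u⌋ + τ) / q - (⌊w⌋ + τ) / q : ℤ).natAbs : ℕ) : ℝ) ≤
      |u - w| + (if (⌊u⌋ + τ) % q = 0 then 1 else 0) + (if (⌊w⌋ + τ) % q = 0 then 1 else 0) := by
  have h1 := pt1 q hq τ u w
  have h2 := pt1 q hq τ w u
  rw [abs_sub_comm] at h2
  rw [Nat.cast_natAbs, Int.cast_abs, abs_le]
  push_cast at h1 h2 ⊢
  constructor <;> split_ifs at h1 h2 ⊢ <;> linarith

lemma pt3 (q : ℤ) (hq : 1 ≤ q) (τ : ℤ) (u w : ℝ) (h : (⌊u⌋ + τ) / q = (⌊w⌋ + τ) / q) :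
    |u - w| < q := by
  have ha := Int.mul_ediv_add_emod (⌊u⌋ + τ) q
  have hb := Int.mul_ediv_add_emod (⌊w⌋ + τ) q
  have ra := Int.emod_nonneg (⌊u⌋ + τ) (by omega : q ≠ 0)
  have ra' := Int.emod_lt_of_pos (⌊u⌋ + τ) (by omega : 0 < q)
  have rb := Int.emod_nonneg (⌊w⌋ + τ) (by omega : q ≠ 0)
  have rb' := Int.emod_lt_of_pos (⌊w⌋ + τ) (by omega : 0 < q)
  rw [h] at ha
  have k1 : ⌊u⌋ - ⌊w⌋ + 1 ≤ q := by omega
  have k2 : ⌊w⌋ - ⌊u⌋ + 1 ≤ q := by omega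
  have k1' : (⌊u⌋ : ℝ) - ⌊w⌋ + 1 ≤ q := by exact_mod_cast k1
  have k2' : (⌊w⌋ : ℝ) - ⌊u⌋ + 1 ≤ q := by exact_mod_cast k2
  have hu := Int.floor_le u
  have hw := Int.floor_le w
  have hu' := Int.lt_floor_add_one u
  have hw' := Int.lt_floor_add_one w
  rw [abs_lt]
  constructor <;> linarith

lemma shift {n : ℕ} (q : ℕ) (hq : 1 ≤ q) (z : Fin n → ℤ) :
    ∃ τ : Fin q, q * (Finset.univ.filter fun i => (z i + ((τ : ℕ) : ℤ)) % (q : ℤ) = 0).card ≤ n := by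
  have hq' : (0 : ℤ) < q := by exact_mod_cast hq
  let g : Fin n → Fin q := fun i => ⟨((-z i) % (q : ℤ)).toNat, by
    have := Int.emod_lt_of_pos (-z i) hq'
    have := Int.emod_nonneg (-z i) hq'.ne'
    omega⟩
  obtain ⟨τ, -, hτ⟩ := Finset.exists_card_fiber_lt_of_card_lt_mul (s := Finset.univ)
    (t := Finset.univ) (f := g) (n := n / q + 1) (by
      simp only [Finset.card_univ, Fintype.card_fin]
      exact Nat.lt_mul_div_succ n hq)
  refine ⟨τ, ?_⟩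
  have hsub : (Finset.univ.filter fun i => (z i + ((τ : ℕ) : ℤ)) % (q : ℤ) = 0) ⊆
      Finset.univ.filter fun i => g i = τ := by
    intro i hi
    simp only [Finset.mem_filter, Finset.mem_univ, true_and] at hi ⊢
    apply Fin.ext
    have h1 : (-z i) % (q : ℤ) = ((τ : ℕ) : ℤ) := by
      have hτq : ((τ : ℕ) : ℤ) < q := by exact_mod_cast τ.2
      obtain ⟨c, hc⟩ := Int.dvd_of_emod_eq_zero hi
      have : -z i = ((τ : ℕ) : ℤ) + (q : ℤ) * (-c) := by linarith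
      rw [this, Int.add_mul_emod_self_left, Int.emod_eq_of_lt (by positivity) hτq]
    simp only [g, h1, Int.toNat_natCast]
  have h1 := Finset.card_le_card hsub
  have h2 : q * (n / q) ≤ n := Nat.mul_div_le n q
  calc _ ≤ q * (n / q) := Nat.mul_le_mul_left q (by omega)
    _ ≤ n := h2

theorem main (n q : ℕ) (hn : 1 ≤ n) (hq : 1 ≤ q) :
    ∃ c : (Fin n → ℝ) → Fin (q * ((ball n q).card + 1)),
      ∀ f : Fin (q * q + 1) → (Fin n → ℝ),
        (∀ i j : Fin (q * q + 1),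
          ∑ t : Fin n, |f i t - f j t| = |((i : ℕ) : ℝ) - ((j : ℕ) : ℝ)|) →
        ∃ i j : Fin (q * q + 1), c (f i) ≠ c (f j) := by
  classical
  have hqz : (1 : ℤ) ≤ q := by exact_mod_cast hq
  have hqr : (0 : ℝ) < q := by exact_mod_cast hq
  have hnr : (0 : ℝ) < n := by exact_mod_cast hn
  obtain ⟨col, hcol⟩ := greedy (V := Fin n → ℤ) (ball n q).card
    (fun b => (ball n q).image fun μ => b + μ) (fun _ => Finset.card_image_le) (by
      intro a b h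
      obtain ⟨μ, hμ, rfl⟩ := Finset.mem_image.1 h
      refine Finset.mem_image.2 ⟨-μ, ?_, by simp⟩
      rw [mem_ball hq] at hμ ⊢
      simpa using hμ)
  choose τ hτ using fun x : Fin n → ℝ => shift q hq (fun i => ⌊x i * (n / q)⌋)
  let cell : Fin q → (Fin n → ℝ) → Fin n → ℤ := fun s x i =>
    (⌊x i * (n / q)⌋ + ((s : ℕ) : ℤ)) / (q : ℤ)
  refine ⟨fun x => finProdFinEquiv (τ x, col (cell (τ x) x)), fun f hf => ?_⟩
  by_contra hcon
  push Not at hcon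
  have h1 : ∀ i j, τ (f i) = τ (f j) := fun i j =>
    congrArg Prod.fst (finProdFinEquiv.injective (hcon i j))
  have h2 : ∀ i j, col (cell (τ (f i)) (f i)) = col (cell (τ (f j)) (f j)) := fun i j =>
    congrArg Prod.snd (finProdFinEquiv.injective (hcon i j))
  have hsc : ∀ a b : ℝ, |a * (n / q) - b * (n / q)| = |a - b| * (n / q) := by
    intro a b
    rw [← sub_mul, abs_mul, abs_of_pos (div_pos hnr hqr)]
  have step : ∀ i j : Fin (q * q + 1), (j : ℕ) = i + 1 →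
      cell (τ (f 0)) (f j) = cell (τ (f 0)) (f i) := by
    intro i j hij
    by_contra hne
    have e := h2 j i
    rw [h1 j 0, h1 i 0] at e
    refine hcol _ _ hne (Finset.mem_image.2
      ⟨cell (τ (f 0)) (f j) - cell (τ (f 0)) (f i), ?_, by simp⟩) e
    rw [mem_ball hq]
    have b1 := hτ (f j)
    have b2 := hτ (f i)
    rw [h1 j 0] at b1
    rw [h1 i 0] at b2
    have hd := hf j i
    rw [hij] at hd
    have hd' : ∑ t : Fin n, |f j t - f i t| = 1 := by rw [hd]; simp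
    have hs : ((∑ t, ((cell (τ (f 0)) (f j) - cell (τ (f 0)) (f i)) t).natAbs : ℕ) : ℝ) ≤
        (n / q : ℝ) +
        ((Finset.univ.filter fun t => (⌊f j t * (n / q)⌋ + ((τ (f 0) : ℕ) : ℤ)) % (q : ℤ) = 0).card : ℝ)
        + ((Finset.univ.filter fun t =>
          (⌊f i t * (n / q)⌋ + ((τ (f 0) : ℕ) : ℤ)) % (q : ℤ) = 0).card : ℝ) := by
      rw [Nat.cast_sum]
      refine (Finset.sum_le_sum fun t _ => pt2 q hqz ((τ (f 0) : ℕ) : ℤ) (f j t * (n / q))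
        (f i t * (n / q))).trans (le_of_eq ?_)
      simp only [Finset.sum_add_distrib, hsc, ← Finset.sum_mul, hd', one_mul, Finset.sum_boole]
    have b1' : (q : ℝ) * ((Finset.univ.filter fun t =>
        (⌊f j t * (n / q)⌋ + ((τ (f 0) : ℕ) : ℤ)) % (q : ℤ) = 0).card : ℝ) ≤ n := by
      exact_mod_cast b1
    have b2' : (q : ℝ) * ((Finset.univ.filter fun t =>
        (⌊f i t * (n / q)⌋ + ((τ (f 0) : ℕ) : ℤ)) % (q : ℤ) = 0).card : ℝ) ≤ n := by
      exact_mod_cast b2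
    have e3 : (q : ℝ) * (n / q) = n := by field_simp
    have fin := mul_le_mul_of_nonneg_left hs hqr.le
    have : (q : ℝ) * ((∑ t, ((cell (τ (f 0)) (f j) - cell (τ (f 0)) (f i)) t).natAbs : ℕ) : ℝ)
        ≤ 3 * n := by
      rw [mul_add, mul_add, e3] at fin
      linarith
    exact_mod_cast this
  have all : ∀ m : ℕ, ∀ hm : m < q * q + 1, cell (τ (f 0)) (f ⟨m, hm⟩) = cell (τ (f 0)) (f 0) := by
    intro m
    induction m with
    | zero => intro hm; rfl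
    | succ m ih =>
      intro hm
      rw [step ⟨m, by omega⟩ ⟨m + 1, hm⟩ rfl, ih]
  have hl := all (q * q) (Nat.lt_succ_self _)
  have hd := hf ⟨q * q, Nat.lt_succ_self _⟩ 0
  have hlt : ∀ t, |f ⟨q * q, Nat.lt_succ_self _⟩ t - f 0 t| * (n / q) < q := by
    intro t
    have := pt3 q hqz ((τ (f 0) : ℕ) : ℤ) _ _ (congrFun hl t)
    rwa [hsc, Int.cast_natCast] at this
  have hne : (Finset.univ : Finset (Fin n)).Nonempty := ⟨⟨0, hn⟩, Finset.mem_univ _⟩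
  have hsum := Finset.sum_lt_sum_of_nonempty hne fun t _ => hlt t
  rw [← Finset.sum_mul, hd] at hsum
  simp only [Fin.val_zero, Nat.cast_zero, sub_zero, Nat.cast_mul, Finset.sum_const,
    Finset.card_univ, Fintype.card_fin, nsmul_eq_mul] at hsum
  rw [abs_of_pos (by positivity)] at hsum
  have : (q : ℝ) * q * (n / q) = n * q := by field_simp
  linarith

end Pool.Agent.H7.Baton
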