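import Mathlib

set_option autoImplicit false

namespace Pool.Agent.H7.Bicycle

def E : List (Fin 12 × Fin 12) :=
  [(0, 1), (0, 7), (0, 9), (1, 2), (1, 8), (2, 3), (2, 10), (3, 4), (3, 9), (4, 5), (4, 11),
   (5, 6), (5, 10), (6, 7), (6, 8), (7, 11), (8, 9), (8, 11), (9, 10), (10, 11)]

def D : List (Fin 12 × Fin 12) := E ++ E.map Prod.swap

def G : SimpleGraph (Fin 12) where
  Adj a b := (a, b) ∈ D
  symm := ⟨by
    have : ∀ a b : Fin 12, (a, b) ∈ D → (b, a) ∈ D := by decide +kernel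
    exact fun a b h => this a b h⟩
  loopless := ⟨by
    have : ∀ a : Fin 12, (a, a) ∉ D := by decide +kernel
    exact fun a h => this a h⟩

def cnt (f : Fin 12 → Bool) : ℕ := (List.finRange 12).countP f

def ecnt (f : Fin 12 → Bool) : ℕ := D.countP (fun p => f p.1 && f p.2)

def chk (m : ℕ) : Bool :=
  let f : Fin 12 → Bool := fun i => m.testBit i
  (decide (cnt f < 3) || decide (ecnt f + 6 < 4 * cnt f)) &&
  (decide (cnt f < 5) || decide (0 < ecnt f))

lemma all_chk' : ∀ a < 64, ∀ b < 64, chk (64 * a + b) = true := by decide +kernel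

lemma all_chk (m : ℕ) (hm : m < 4096) : chk m = true := by
  have := all_chk' (m / 64) (by omega) (m % 64) (by omega)
  rwa [Nat.div_add_mod] at this

lemma exists_mask (f : Fin 12 → Bool) : ∃ m < 4096, f = fun i : Fin 12 => m.testBit i := by
  refine ⟨Nat.ofBits f, Nat.ofBits_lt_two_pow f, funext fun i => ?_⟩
  rw [Nat.testBit_ofBits_lt f i i.2]

lemma cnt_eq (S : Finset (Fin 12)) : cnt (fun i => decide (i ∈ S)) = S.card := by
  rw [cnt, List.countP_eq_length_filter, ← List.toFinset_card_of_nodup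
    ((List.nodup_finRange 12).filter _)]
  congr 1
  ext i
  simp

lemma D_nodup : D.Nodup := by decide +kernel

lemma ecnt_eq (S : Finset (Fin 12)) (T : Finset (Fin 12 × Fin 12))
    (hT : ∀ p, p ∈ T ↔ p.1 ∈ S ∧ p.2 ∈ S ∧ G.Adj p.1 p.2) :
    ecnt (fun i => decide (i ∈ S)) = T.card := by
  rw [ecnt, List.countP_eq_length_filter, ← List.toFinset_card_of_nodup (D_nodup.filter _)]
  congr 1
  ext p
  rw [hT]
  simp only [G, List.mem_toFinset, List.mem_filter, Bool.and_eq_true, decide_eq_true_eq]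
  tauto

lemma main (S : Finset (Fin 12)) (T : Finset (Fin 12 × Fin 12))
    (hT : ∀ p, p ∈ T ↔ p.1 ∈ S ∧ p.2 ∈ S ∧ G.Adj p.1 p.2) :
    (3 ≤ S.card → T.card + 6 < 4 * S.card) ∧ (5 ≤ S.card → 0 < T.card) := by
  obtain ⟨m, hm, hf⟩ := exists_mask (fun i => decide (i ∈ S))
  have h := all_chk m hm
  simp only [chk, ← hf, cnt_eq, ecnt_eq S T hT, Bool.and_eq_true, Bool.or_eq_true,
    decide_eq_true_eq] at h
  omega

lemma cf : Gᶜ.CliqueFree 5 := by
  classical
  intro S hS
  have h := (main S (Finset.univ.filter fun p => p.1 ∈ S ∧ p.2 ∈ S ∧ G.Adj p.1 p.2)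
    (by simp)).2 (by rw [hS.card_eq])
  obtain ⟨p, hp⟩ := Finset.card_pos.1 h
  simp only [Finset.mem_filter, Finset.mem_univ, true_and] at hp
  exact (hS.isClique hp.1 hp.2.1 hp.2.2.ne).2 hp.2.2

end Pool.Agent.H7.Bicycle
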