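import Mathlib

set_option autoImplicit false

namespace Pool.Agent.H7.Corona

open SimpleGraph

variable {V : Type}

/-- the union of the maximum independent sets -/
def corona [Finite V] (G : SimpleGraph V) : Set V :=
  {v | ∃ S : Finset V, G.IsMaximumIndepSet S ∧ v ∈ S}

/-- the vertices with a neighbour in `X` -/
def nb (G : SimpleGraph V) (X : Set V) : Set V := {v | ∃ x ∈ X, G.Adj x v}

noncomputable def dif (G : SimpleGraph V) (X : Set V) : ℤ := X.ncard - (nb G X).ncard

def Critical (G : SimpleGraph V) (X : Set V) : Prop :=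
  G.IsIndepSet X ∧ ∀ Y, G.IsIndepSet Y → dif G Y ≤ dif G X

/-- the intersection of the critical independent sets -/
def ker (G : SimpleGraph V) : Set V := {v | ∀ X, Critical G X → v ∈ X}

/-- the odd cycles, as edge sets -/
def oddCycles (G : SimpleGraph V) : Set (Set (Sym2 V)) :=
  {E | ∃ (v : V) (c : G.Walk v v), c.IsCycle ∧ Odd c.length ∧ E = {e | e ∈ c.edges}}

end Pool.Agent.H7.Corona
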