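import Mathlib

set_option autoImplicit false

namespace Pool.Agent.H7.Count

open Finset

variable {ι κ : Type} [DecidableEq ι]

/-- subsets of `S` avoiding every forbidden pattern `(A k, B k)` that lies inside `S` -/
def Good (J : Finset κ) (A B : κ → Finset ι) (S : Finset ι) : Finset (Finset ι) :=
  S.powerset.filter (fun T => ∀ k ∈ J, A k ⊆ S → T ∩ A k ≠ B k)

theorem step (J : Finset κ) (A B : κ → Finset ι) (S : Finset ι) (v : ι) (hv : v ∈ S) :
    2 * (Good J A B (S.erase v)).card ≤ (Good J A B S).card +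
      ∑ k ∈ J.filter (fun k => v ∈ A k ∧ A k ⊆ S), (Good J A B (S \ A k)).card := by
  classical
  set G := Good J A B (S.erase v) with hG
  have hn : ∀ T ∈ G, v ∉ T := fun T hT h => by
    have := mem_powerset.1 (mem_filter.1 hT).1 h
    simp at this
  have h1 : (G ∪ G.image (insert v)).card = 2 * G.card := by
    rw [card_union_of_disjoint, card_image_of_injOn]
    · ring
    · intro a ha b hb e
      rw [← erase_insert (hn a ha), e, erase_insert (hn b hb)]
    · rw [disjoint_left]
      intro T hT h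
      obtain ⟨U, -, rfl⟩ := mem_image.1 h
      exact hn _ hT (mem_insert_self _ _)
  have h2 : G ∪ G.image (insert v) ⊆ Good J A B S ∪
      (J.filter (fun k => v ∈ A k ∧ A k ⊆ S)).biUnion
        (fun k => (Good J A B (S \ A k)).image (fun U => U ∪ B k)) := by
    intro T hT
    have hT' : T.erase v ∈ G := by
      rcases mem_union.1 hT with h | h
      · rwa [erase_eq_of_notMem (hn T h)]
      · obtain ⟨U, hU, rfl⟩ := mem_image.1 h
        rwa [erase_insert (hn U hU)]
    obtain ⟨h3, h4⟩ := mem_filter.1 hT'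
    have hTS : T ⊆ S := fun x hx => by
      by_cases e : x = v
      · exact e ▸ hv
      · exact mem_of_mem_erase (mem_powerset.1 h3 (mem_erase.2 ⟨e, hx⟩))
    have h5 : ∀ k ∈ J, A k ⊆ S → v ∉ A k → T ∩ A k ≠ B k := fun k hk hS hvk e =>
      h4 k hk (fun x hx => mem_erase.2 ⟨fun h => hvk (h ▸ hx), hS hx⟩) (by
        rw [← e]; ext x; simp only [mem_inter, mem_erase]
        exact ⟨fun h => ⟨h.1.2, h.2⟩, fun h => ⟨⟨fun e => hvk (e ▸ h.2), h.1⟩, h.2⟩⟩)
    by_cases hg : T ∈ Good J A B S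
    · exact mem_union_left _ hg
    refine mem_union_right _ ?_
    simp only [Good, mem_filter, mem_powerset, hTS, true_and, not_forall, not_not] at hg
    obtain ⟨k, hk, hS, e⟩ := hg
    have hvk : v ∈ A k := by
      by_contra h
      exact h5 k hk hS h e
    refine mem_biUnion.2 ⟨k, mem_filter.2 ⟨hk, hvk, hS⟩, mem_image.2 ⟨T \ A k, ?_, ?_⟩⟩
    · refine mem_filter.2 ⟨mem_powerset.2 (sdiff_subset_sdiff hTS Subset.rfl), fun l hl hS' e' => ?_⟩
      refine h5 l hl (hS'.trans sdiff_subset) (fun h => (mem_sdiff.1 (hS' h)).2 hvk) ?_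
      rw [← e']; ext x; simp only [mem_inter, mem_sdiff]
      exact ⟨fun h => ⟨⟨h.1, (mem_sdiff.1 (hS' h.2)).2⟩, h.2⟩, fun h => ⟨h.1.1, h.2⟩⟩
    · rw [← e, sdiff_union_inter]
  rw [← h1]
  refine (card_le_card h2).trans ((card_union_le _ _).trans (Nat.add_le_add_left ?_ _))
  exact card_biUnion_le.trans (sum_le_sum fun k _ => card_image_le)

theorem grow (J : Finset κ) (A B : κ → Finset ι) (n : ℕ) (β : ℝ) (hβ : 0 < β)
    (hA : ∀ k ∈ J, (A k).card = n + 1)
    (hD : ∀ v, ((J.filter (fun k => v ∈ A k)).card : ℝ) ≤ (2 - β) * β ^ n) (m : ℕ) :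
    ∀ S U : Finset ι, S.card ≤ m → U ⊆ S →
      β ^ U.card * (Good J A B (S \ U)).card ≤ (Good J A B S).card := by
  classical
  induction m with
  | zero =>
    intro S U hS hU
    obtain rfl : S = ∅ := card_eq_zero.1 (by omega)
    obtain rfl : U = ∅ := subset_empty.1 hU
    simp
  | succ m ih =>
    intro S U hS hU
    rcases U.eq_empty_or_nonempty with rfl | ⟨v, hv⟩
    · simp
    have hvS := hU hv
    have hc : (S.erase v).card ≤ m := by rw [card_erase_of_mem hvS]; omega
    have e1 : ∀ W : Finset ι, v ∈ W → S.erase v \ W.erase v = S \ W := fun W hW => by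
      ext x; simp only [mem_sdiff, mem_erase]
      exact ⟨fun h => ⟨h.1.2, fun h' => h.2 ⟨h.1.1, h'⟩⟩,
        fun h => ⟨⟨fun e => h.2 (e ▸ hW), h.1⟩, fun h' => h.2 h'.2⟩⟩
    have h1 : (2 : ℝ) * (Good J A B (S.erase v)).card ≤ (Good J A B S).card +
      ∑ k ∈ J.filter (fun k => v ∈ A k ∧ A k ⊆ S), ((Good J A B (S \ A k)).card : ℝ) := by
      exact_mod_cast step J A B S v hvS
    have hp : 0 < β ^ n := pow_pos hβ n
    have h2 : ∑ k ∈ J.filter (fun k => v ∈ A k ∧ A k ⊆ S), ((Good J A B (S \ A k)).card : ℝ) ≤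
        (J.filter (fun k => v ∈ A k ∧ A k ⊆ S)).card • ((Good J A B (S.erase v)).card / β ^ n) := by
      refine sum_le_card_nsmul _ _ _ fun k hk => ?_
      obtain ⟨hk, h3, h4⟩ := mem_filter.1 hk
      have := ih (S.erase v) ((A k).erase v) hc (erase_subset_erase _ h4)
      rw [e1 _ h3, card_erase_of_mem h3, hA k hk] at this
      rw [le_div_iff₀ hp, mul_comm]
      exact this
    have h3 : ((J.filter (fun k => v ∈ A k ∧ A k ⊆ S)).card : ℝ) ≤ (2 - β) * β ^ n := by
      refine le_trans ?_ (hD v)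
      refine Nat.cast_le.2 (card_le_card fun k hk => ?_)
      obtain ⟨a, b, -⟩ := mem_filter.1 hk
      exact mem_filter.2 ⟨a, b⟩
    have h4 : β * (Good J A B (S.erase v)).card ≤ (Good J A B S).card := by
      rw [nsmul_eq_mul] at h2
      have h5 := mul_le_mul_of_nonneg_right h3
        (show (0 : ℝ) ≤ (Good J A B (S.erase v)).card / β ^ n by positivity)
      have h6 : (2 - β) * β ^ n * ((Good J A B (S.erase v)).card / β ^ n) =
        (2 - β) * (Good J A B (S.erase v)).card := by field_simp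
      linarith
    have h5 := ih (S.erase v) (U.erase v) hc (erase_subset_erase _ hU)
    rw [e1 _ hv] at h5
    rw [← card_erase_add_one hv, pow_succ']
    nlinarith

/-- counting form of the local lemma for forbidden 0/1 patterns -/
theorem exists_good (J : Finset κ) (A B : κ → Finset ι) (n : ℕ) (β : ℝ) (hβ : 0 < β)
    (hA : ∀ k ∈ J, (A k).card = n + 1)
    (hD : ∀ v, ((J.filter (fun k => v ∈ A k)).card : ℝ) ≤ (2 - β) * β ^ n) :
    ∃ T : Finset ι, ∀ k ∈ J, T ∩ A k ≠ B k := by
  classical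
  have h := grow J A B n β hβ hA hD _ (J.biUnion A) (J.biUnion A) le_rfl Subset.rfl
  have h0 : 0 < (Good J A B (J.biUnion A \ J.biUnion A)).card := by
    refine card_pos.2 ⟨∅, mem_filter.2 ⟨by simp, fun k hk hS => ?_⟩⟩
    have := card_le_card hS
    rw [hA k hk] at this
    simp at this
  have h1 : (0 : ℝ) < (Good J A B (J.biUnion A)).card := lt_of_lt_of_le (by positivity) h
  obtain ⟨T, hT⟩ := card_pos.1 (Nat.cast_pos.1 h1)
  exact ⟨T, fun k hk => (mem_filter.1 hT).2 k hk (subset_biUnion_of_mem A hk)⟩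

end Pool.Agent.H7.Count
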