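import Mathlib

set_option autoImplicit false

namespace Pool.Agent.H7.Derived

open Finset

theorem kill {X ι : Type} [Fintype X] [DecidableEq X] [Nonempty X] [DecidableEq ι] (d : ℕ)
    (T : ι → Finset X) (E : Finset ι) (hE : ∀ i ∈ E, d + 2 ≤ (T i).card) :
    ∃ q : ι → X × X, (∀ i ∈ E, (q i).1 ∈ T i ∧ (q i).2 ∈ T i ∧ (q i).1 ≠ (q i).2) ∧
      (((univ : Finset (X → Fin d)).filter (fun φ => ∀ i ∈ E, φ (q i).1 ≠ φ (q i).2)).card : ℝ) ≤
        (d : ℝ) ^ Fintype.card X * (1 - 1 / ((d : ℝ) + 2) ^ 2) ^ E.card := by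
  induction E using Finset.induction with
  | empty => exact ⟨fun _ => (Classical.arbitrary X, Classical.arbitrary X), by simp, by simp⟩
  | insert j E hj ih =>
    obtain ⟨q, hq, hA⟩ := ih (fun i hi => hE i (mem_insert_of_mem hi))
    set A := (univ : Finset (X → Fin d)).filter (fun φ => ∀ i ∈ E, φ (q i).1 ≠ φ (q i).2) with hAd
    obtain ⟨T', hT', hc⟩ := exists_subset_card_eq (hE j (mem_insert_self _ _))
    have hQ : (0 : ℝ) < ((d : ℝ) + 2) ^ 2 := by positivity
    have hQ1 : (0 : ℝ) ≤ 1 - 1 / ((d : ℝ) + 2) ^ 2 := by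
      rw [sub_nonneg, div_le_one hQ]; nlinarith [(Nat.cast_nonneg d : (0 : ℝ) ≤ d)]
    have hcov : A ⊆ T'.offDiag.biUnion (fun p => A.filter (fun φ => φ p.1 = φ p.2)) := by
      intro φ hφ
      obtain ⟨x, hx, y, hy, hxy, e⟩ := exists_ne_map_eq_of_card_lt_of_maps_to (s := T')
        (t := (univ : Finset (Fin d))) (by simp [hc]) (f := φ) (fun _ _ => mem_univ _)
      exact mem_biUnion.2 ⟨(x, y), mem_offDiag.2 ⟨hx, hy, hxy⟩, mem_filter.2 ⟨hφ, e⟩⟩
    have hne : T'.offDiag.Nonempty := by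
      obtain ⟨x, hx, y, hy, hxy⟩ := one_lt_card.1 (show 1 < T'.card by omega)
      exact ⟨(x, y), mem_offDiag.2 ⟨hx, hy, hxy⟩⟩
    obtain ⟨p, hp, hmax⟩ := exists_max_image T'.offDiag
      (fun p : X × X => (A.filter (fun φ : X → Fin d => φ p.1 = φ p.2)).card) hne
    have h1 : A.card ≤ (d + 2) ^ 2 * (A.filter (fun φ => φ p.1 = φ p.2)).card := by
      refine (card_le_card hcov).trans (card_biUnion_le.trans
        ((sum_le_card_nsmul _ _ _ hmax).trans ?_))
      rw [smul_eq_mul, offDiag_card, hc, sq]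
      exact Nat.mul_le_mul_right _ (Nat.sub_le _ _)
    obtain ⟨p1, p2, p3⟩ := mem_offDiag.1 hp
    have hup : ∀ i ∈ E, Function.update q j p i = q i := fun i hi =>
      Function.update_of_ne (fun h : i = j => hj (h ▸ hi)) _ _
    refine ⟨Function.update q j p, fun i hi => ?_, ?_⟩
    · rcases mem_insert.1 hi with rfl | hi
      · rw [Function.update_self]; exact ⟨hT' p1, hT' p2, p3⟩
      · rw [hup i hi]; exact hq i hi
    · have h2 : (univ : Finset (X → Fin d)).filter (fun φ => ∀ i ∈ insert j E,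
          φ (Function.update q j p i).1 ≠ φ (Function.update q j p i).2) =
          A.filter (fun φ => ¬ φ p.1 = φ p.2) := by
        ext φ
        simp only [hAd, mem_filter, mem_univ, true_and, forall_mem_insert, Function.update_self]
        exact ⟨fun h => ⟨fun i hi => hup i hi ▸ h.2 i hi, h.1⟩,
          fun h => ⟨h.2, fun i hi => (hup i hi).symm ▸ h.1 i hi⟩⟩
      have h3 := card_filter_add_card_filter_not (s := A) (fun φ => φ p.1 = φ p.2)
      have h4 : (A.card : ℝ) ≤ ((d : ℝ) + 2) ^ 2 * (A.filter (fun φ => φ p.1 = φ p.2)).card := by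
        exact_mod_cast h1
      have h5 : ((A.filter (fun φ => φ p.1 = φ p.2)).card : ℝ) +
        (A.filter (fun φ => ¬ φ p.1 = φ p.2)).card = A.card := by exact_mod_cast h3
      rw [h2, card_insert_of_notMem hj, pow_succ, ← mul_assoc]
      refine le_trans ?_ (mul_le_mul_of_nonneg_right hA hQ1)
      have h6 : (A.card : ℝ) * (1 / ((d : ℝ) + 2) ^ 2) ≤
          (A.filter (fun φ => φ p.1 = φ p.2)).card := by
        rw [mul_one_div, div_le_iff₀ hQ]; linarith
      linarith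

variable {V ι : Type} [DecidableEq V] [DecidableEq ι]

/-- every choice of at most one pair per edge can be properly coloured with `d` colours -/
def Col (e : ι → Finset V) (d : ℕ) : Prop :=
  ∀ R : ι → V → V → Prop, (∀ i u v, R i u v → u ∈ e i ∧ v ∈ e i ∧ u ≠ v) →
    (∀ i u v u' v', R i u v → R i u' v' → u = u' ∧ v = v') →
    ∃ c : V → Fin d, ∀ i u v, R i u v → c u ≠ c v

theorem sparse {e : ι → Finset V} {d : ℕ} (h : Col e d) (S : Finset V) (E : Finset ι)
    (hE : ∀ i ∈ E, d + 2 ≤ (e i ∩ S).card) : E.card ≤ (d + 2) ^ 2 * d * S.card := by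
  rcases E.eq_empty_or_nonempty with rfl | ⟨j, hj⟩
  · simp
  obtain ⟨x, hx⟩ := card_pos.1 (show 0 < (e j ∩ S).card by have := hE j hj; omega)
  have : Nonempty S := ⟨⟨x, (mem_inter.1 hx).2⟩⟩
  obtain ⟨q, hq, hA⟩ := kill (X := S) d (fun i => (e i).subtype (· ∈ S)) E (fun i hi => by
    rw [card_subtype, filter_mem_eq_inter]; exact hE i hi)
  obtain ⟨c, hc⟩ := h (fun i u v => i ∈ E ∧ u = (q i).1.val ∧ v = (q i).2.val)
    (by
      rintro i _ _ ⟨hi, rfl, rfl⟩
      obtain ⟨a, b, c⟩ := hq i hi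
      exact ⟨mem_subtype.1 a, mem_subtype.1 b, fun h => c (Subtype.ext h)⟩)
    (by rintro i _ _ _ _ ⟨-, rfl, rfl⟩ ⟨-, rfl, rfl⟩; exact ⟨rfl, rfl⟩)
  have h1 : (1 : ℝ) ≤ ((univ : Finset (S → Fin d)).filter
      (fun φ => ∀ i ∈ E, φ (q i).1 ≠ φ (q i).2)).card := by
    exact_mod_cast card_pos.2 ⟨fun v : S => c v.val,
      mem_filter.2 ⟨mem_univ _, fun i hi => hc i _ _ ⟨hi, rfl, rfl⟩⟩⟩
  have hQ : (0 : ℝ) < ((d : ℝ) + 2) ^ 2 := by positivity
  have hQ1 : (0 : ℝ) ≤ 1 - 1 / ((d : ℝ) + 2) ^ 2 := by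
    rw [sub_nonneg, div_le_one hQ]; nlinarith [(Nat.cast_nonneg d : (0 : ℝ) ≤ d)]
  have h2 : (d : ℝ) ^ S.card ≤ Real.exp d ^ S.card :=
    pow_le_pow_left₀ (Nat.cast_nonneg d) (by linarith [Real.add_one_le_exp (d : ℝ)]) _
  have h3 : (1 - 1 / ((d : ℝ) + 2) ^ 2) ^ E.card ≤ Real.exp (-(1 / ((d : ℝ) + 2) ^ 2)) ^ E.card :=
    pow_le_pow_left₀ hQ1 (by linarith [Real.add_one_le_exp (-(1 / ((d : ℝ) + 2) ^ 2))]) _
  rw [Fintype.card_coe] at hA
  have h4 := (h1.trans hA).trans (mul_le_mul h2 h3 (pow_nonneg hQ1 _) (by positivity))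
  rw [← Real.exp_nat_mul, ← Real.exp_nat_mul, ← Real.exp_add, Real.one_le_exp_iff] at h4
  have h5 : (E.card : ℝ) * (1 / ((d : ℝ) + 2) ^ 2) ≤ S.card * d := by linarith
  rw [mul_one_div, div_le_iff₀ hQ] at h5
  have : (E.card : ℝ) ≤ ((d : ℝ) + 2) ^ 2 * d * S.card := by linarith
  exact_mod_cast this

theorem dc (e : ι → Finset V) (S : Finset V) (B : Finset ι) (w : ι → ℕ) :
    ∑ v ∈ S, ∑ i ∈ B.filter (fun i => v ∈ e i), w i = ∑ i ∈ B, (e i ∩ S).card * w i := by
  simp only [sum_filter]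
  rw [sum_comm]
  refine sum_congr rfl fun i _ => ?_
  rw [← sum_filter, sum_const, smul_eq_mul, filter_mem_eq_inter, inter_comm]

theorem greedy (e : ι → Finset V) (D s : ℕ) (S : Finset V) (E : Finset ι)
    (hE : ∀ i ∈ E, s + D ≤ (e i ∩ S).card) (j : ℕ) :
    ∃ X : Finset V, X.card ≤ j ∧ (2 * (E.filter (fun i => (e i ∩ X).card < D)).card ≤ E.card ∨
      2 * S.card * ∑ i ∈ E, (D - (e i ∩ X).card) + j * s * E.card ≤ 2 * S.card * (D * E.card)) := by
  induction j with
  | zero => exact ⟨∅, le_rfl, Or.inr (by simp [mul_comm])⟩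
  | succ j ih =>
    obtain ⟨X, hX, h⟩ := ih
    by_cases h0 : 2 * (E.filter (fun i => (e i ∩ X).card < D)).card ≤ E.card
    · exact ⟨X, by omega, Or.inl h0⟩
    have h := h.resolve_left h0
    set B := E.filter (fun i => (e i ∩ X).card < D) with hB
    have hb : ∀ i ∈ B, s + 1 ≤ (e i ∩ (S \ X)).card := by
      intro i hi
      obtain ⟨h1, h2⟩ := mem_filter.1 hi
      have h3 := hE i h1
      have h4 : (e i ∩ S).card ≤ (e i ∩ (S \ X)).card + (e i ∩ X).card := by
        refine le_trans (card_le_card fun x hx => ?_) (card_union_le _ _)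
        simp only [mem_union, mem_inter, mem_sdiff] at hx ⊢
        tauto
      omega
    obtain ⟨i0, hi0⟩ := card_pos.1 (show 0 < B.card by omega)
    obtain ⟨x0, hx0⟩ := card_pos.1 (show 0 < (e i0 ∩ (S \ X)).card by have := hb i0 hi0; omega)
    obtain ⟨v, hv, hmax⟩ := exists_max_image (S \ X) (fun v => (B.filter (fun i => v ∈ e i)).card)
      ⟨x0, (mem_inter.1 hx0).2⟩
    have h1 : B.card * s ≤ S.card * (B.filter (fun i => v ∈ e i)).card := by
      have h2 := dc e (S \ X) B (fun _ => 1)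
      simp only [← card_eq_sum_ones, mul_one] at h2
      have h3 := card_nsmul_le_sum B (fun i => (e i ∩ (S \ X)).card) s
        (fun i hi => by have := hb i hi; omega)
      have h4 := sum_le_card_nsmul _ _ _ hmax
      have h5 : (S \ X).card ≤ S.card := card_le_card sdiff_subset
      rw [smul_eq_mul] at h3 h4
      exact (h3.trans (h2 ▸ h4)).trans (Nat.mul_le_mul_right _ h5)
    have h2 : ∑ i ∈ E, (D - (e i ∩ insert v X).card) + (B.filter (fun i => v ∈ e i)).card ≤
        ∑ i ∈ E, (D - (e i ∩ X).card) := by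
      rw [hB, filter_filter, card_filter, ← sum_add_distrib]
      refine sum_le_sum fun i _ => ?_
      have h3 : (e i ∩ X).card ≤ (e i ∩ insert v X).card :=
        card_le_card (inter_subset_inter_left (subset_insert _ _))
      split_ifs with h4
      · rw [inter_insert_of_mem h4.2, card_insert_of_notMem
          (fun h => (mem_sdiff.1 hv).2 (mem_inter.1 h).2)]
        omega
      · omega
    refine ⟨insert v X, (card_insert_le _ _).trans (by omega), Or.inr ?_⟩
    have h3 : E.card * s ≤ 2 * B.card * s := Nat.mul_le_mul_right _ (by omega)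
    have h4 := Nat.mul_le_mul_left (2 * S.card) h2
    nlinarith

theorem sparse2 {e : ι → Finset V} {d : ℕ} (h : Col e d) (S : Finset V) (E : Finset ι) (s : ℕ)
    (hs : 2 * d + 4 ≤ s) (hE : ∀ i ∈ E, s ≤ (e i ∩ S).card) :
    E.card * s ≤ 2 * ((d + 2) ^ 2 * d) * (4 * d + 9) * S.card := by
  rcases E.eq_empty_or_nonempty with rfl | ⟨i0, hi0⟩
  · simp
  have hE0 : 0 < E.card := card_pos.2 ⟨i0, hi0⟩
  have hsS : s ≤ S.card := (hE i0 hi0).trans (card_le_card inter_subset_right)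
  obtain ⟨t, rfl⟩ : ∃ t, s = t + (d + 2) := ⟨s - (d + 2), by omega⟩
  obtain ⟨j, hj1, hj2⟩ : ∃ j, 4 * (d + 2) * S.card < j * (t + (d + 2)) ∧
      j * (t + (d + 2)) ≤ (4 * d + 9) * S.card := by
    refine ⟨4 * (d + 2) * S.card / (t + (d + 2)) + 1, ?_, ?_⟩
    · rw [mul_comm _ (t + (d + 2))]; exact Nat.lt_mul_div_succ _ (by omega)
    · have := Nat.div_mul_le_self (4 * (d + 2) * S.card) (t + (d + 2))
      nlinarith
  obtain ⟨X, hX, h1 | h1⟩ := greedy e (d + 2) t S E hE j
  · have h2 := sparse h X (E.filter (fun i => ¬ (e i ∩ X).card < d + 2))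
      (fun i hi => not_lt.1 (mem_filter.1 hi).2)
    have h3 := card_filter_add_card_filter_not (s := E) (fun i => (e i ∩ X).card < d + 2)
    have h4 : E.card ≤ 2 * ((d + 2) ^ 2 * d) * j := by
      have := Nat.mul_le_mul_left ((d + 2) ^ 2 * d) hX
      nlinarith
    calc E.card * (t + (d + 2)) ≤ 2 * ((d + 2) ^ 2 * d) * j * (t + (d + 2)) :=
          Nat.mul_le_mul_right _ h4
      _ = 2 * ((d + 2) ^ 2 * d) * (j * (t + (d + 2))) := by ring
      _ ≤ 2 * ((d + 2) ^ 2 * d) * ((4 * d + 9) * S.card) := Nat.mul_le_mul_left _ hj2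
      _ = _ := by ring
  · exfalso
    have h2 : j * t * E.card ≤ 2 * S.card * (d + 2) * E.card := by
      rw [mul_assoc (2 * S.card)]; omega
    have h3 := Nat.le_of_mul_le_mul_right h2 hE0
    have h4 : j * (d + 2) ≤ j * t := Nat.mul_le_mul_left _ (by omega)
    nlinarith

theorem cheap [Fintype ι] (e : ι → Finset V) (K C r : ℕ) (hr : ∀ i, (e i).card ≤ r)
    (S : Finset V) (hS : S.Nonempty)
    (h : ∀ (E : Finset ι) (s : ℕ), K ≤ s → (∀ i ∈ E, s ≤ (e i ∩ S).card) →
      E.card * s ≤ C * S.card) :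
    ∃ v ∈ S, ∑ i ∈ (univ.filter (fun i => K ≤ (e i ∩ S).card)).filter (fun i => v ∈ e i),
      (e i ∩ S).card ≤ 2 * C * r := by
  refine exists_le_of_sum_le hS ?_
  rw [dc, sum_const, smul_eq_mul]
  have h1 : ∀ i ∈ univ.filter (fun i => K ≤ (e i ∩ S).card), (e i ∩ S).card * (e i ∩ S).card ≤
      ∑ s ∈ range r, if max (s + 1) K ≤ (e i ∩ S).card then 2 * max (s + 1) K else 0 := by
    intro i hi
    have h2 := (mem_filter.1 hi).2
    have h3 : (e i ∩ S).card ≤ r := (card_le_card inter_subset_left).trans (hr i)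
    have h4 : ∀ a : ℕ, a * a ≤ ∑ s ∈ range a, 2 * (s + 1) := by
      intro a
      induction a with
      | zero => simp
      | succ a ih => rw [sum_range_succ]; nlinarith
    refine (h4 _).trans (le_trans (sum_le_sum fun s hs => ?_)
      (sum_le_sum_of_subset (range_subset_range.2 h3)))
    rw [if_pos (max_le (mem_range.1 hs) h2)]
    exact Nat.mul_le_mul_left _ (le_max_left _ _)
  refine (sum_le_sum h1).trans ?_
  rw [sum_comm]
  refine (sum_le_card_nsmul _ _ (2 * (C * S.card)) fun s _ => ?_).trans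
    (by rw [card_range, smul_eq_mul]; exact le_of_eq (by ring))
  rw [← sum_filter, sum_const, smul_eq_mul]
  have := h ((univ.filter (fun i => K ≤ (e i ∩ S).card)).filter
    (fun i => max (s + 1) K ≤ (e i ∩ S).card)) _ (le_max_right _ _) (fun i hi => (mem_filter.1 hi).2)
  nlinarith

theorem defective [Fintype ι] (e : ι → Finset V) (K C r : ℕ) (hK : 1 ≤ K)
    (hr : ∀ i, (e i).card ≤ r)
    (h : ∀ (S : Finset V) (E : Finset ι) (s : ℕ), K ≤ s → (∀ i ∈ E, s ≤ (e i ∩ S).card) →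
      E.card * s ≤ C * S.card) (n : ℕ) :
    ∀ S : Finset V, S.card = n → ∃ ψ : V → Fin (2 * C * r + 1),
      ∀ i a, ((e i ∩ S).filter (fun v => ψ v = a)).card ≤ K := by
  induction n with
  | zero =>
    intro S hS
    rw [card_eq_zero.1 hS]
    exact ⟨fun _ => 0, by simp⟩
  | succ n ih =>
    intro S hS
    obtain ⟨v, hv, hc⟩ := cheap e K C r hr S (card_pos.1 (by omega)) (h S)
    obtain ⟨ψ, hψ⟩ := ih (S.erase v) (by rw [card_erase_of_mem hv]; omega)
    obtain ⟨a, -, ha⟩ := exists_mem_notMem_of_card_lt_card (t := (univ : Finset (Fin (2 * C * r + 1))))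
      (s := ((univ.filter (fun i => K ≤ (e i ∩ S).card)).filter (fun i => v ∈ e i)).biUnion
        (fun i => (e i ∩ S).image ψ)) (by
        rw [card_univ, Fintype.card_fin]
        exact Nat.lt_succ_of_le (card_biUnion_le.trans
          ((sum_le_sum fun i _ => card_image_le).trans hc)))
    refine ⟨Function.update ψ v a, fun i b => ?_⟩
    by_cases h1 : K ≤ (e i ∩ S).card
    swap
    · exact (card_filter_le _ _).trans (by omega)
    by_cases h2 : v ∈ e i ∧ a = b
    · refine (card_le_card (t := {v}) fun x hx => ?_).trans (by simpa)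
      obtain ⟨h3, h4⟩ := mem_filter.1 hx
      by_contra h5
      rw [Function.update_of_ne (by simpa using h5), ← h2.2] at h4
      exact ha (mem_biUnion.2 ⟨i, mem_filter.2 ⟨mem_filter.2 ⟨mem_univ _, h1⟩, h2.1⟩,
        mem_image.2 ⟨x, h3, h4⟩⟩)
    · refine (card_le_card fun x hx => ?_).trans (hψ i b)
      obtain ⟨h3, h4⟩ := mem_filter.1 hx
      have h5 : x ≠ v := by
        rintro rfl
        rw [Function.update_self] at h4
        exact h2 ⟨(mem_inter.1 h3).1, h4⟩
      rw [Function.update_of_ne h5] at h4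
      exact mem_filter.2 ⟨mem_inter.2 ⟨(mem_inter.1 h3).1,
        mem_erase.2 ⟨h5, (mem_inter.1 h3).2⟩⟩, h4⟩

theorem strong {e : ι → Finset V} {d : ℕ} (h : Col e d) {M K : ℕ} (ψ : V → Fin M)
    (hψ : ∀ i a, ((e i).filter (fun v => ψ v = a)).card ≤ K) :
    ∃ c : V → Fin M × (Fin (K + 1) × Fin (K + 1) → Fin d), ∀ i, Set.InjOn c (e i) := by
  have h1 : ∀ i a, ∃ ix : V → Fin (K + 1), Set.InjOn ix ((e i).filter (fun v => ψ v = a)) := by
    intro i a
    classical
    refine ⟨fun v => if h : v ∈ (e i).filter (fun v => ψ v = a) then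
      Fin.castLE ((hψ i a).trans (Nat.le_succ K)) (Finset.equivFin _ ⟨v, h⟩) else 0,
      fun x hx y hy hxy => ?_⟩
    have hx' : x ∈ (e i).filter (fun v => ψ v = a) := hx
    have hy' : y ∈ (e i).filter (fun v => ψ v = a) := hy
    simp only [hx', hy', dif_pos] at hxy
    exact congrArg Subtype.val ((Finset.equivFin _).injective (Fin.castLE_injective _ hxy))
  choose ix hix using h1
  have h2 := fun (a : Fin M) (p : Fin (K + 1) × Fin (K + 1)) =>
    h (fun i u v => u ∈ (e i).filter (fun v => ψ v = a) ∧ v ∈ (e i).filter (fun v => ψ v = a) ∧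
      u ≠ v ∧ ix i a u = p.1 ∧ ix i a v = p.2)
    (fun i u v h => ⟨(mem_filter.1 h.1).1, (mem_filter.1 h.2.1).1, h.2.2.1⟩)
    (fun i u v u' v' h h' => ⟨hix i a h.1 h'.1 (h.2.2.2.1.trans h'.2.2.2.1.symm),
      hix i a h.2.1 h'.2.1 (h.2.2.2.2.trans h'.2.2.2.2.symm)⟩)
  choose c hc using h2
  refine ⟨fun v => (ψ v, fun p => c (ψ v) p v), fun i u hu v hv huv => ?_⟩
  by_contra hne
  obtain ⟨h3, h4⟩ := Prod.mk.inj huv
  have h5 := congrFun h4 (ix i (ψ u) u, ix i (ψ u) v)
  rw [← h3] at h5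
  exact hc (ψ u) _ i u v ⟨mem_filter.2 ⟨hu, rfl⟩, mem_filter.2 ⟨hv, h3.symm⟩, hne, rfl, rfl⟩ h5

end Pool.Agent.H7.Derived
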