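import Mathlib
import Pool.Agent.H11.Girth

set_option autoImplicit false

namespace Pool.Agent.H7.Erdos

open SimpleGraph Finset Pool.Agent.H11.Girth

open Classical in
noncomputable def cols (k : ℕ) {n : ℕ} (G : SimpleGraph (Fin n)) : Finset (Fin n → Fin k) :=
  univ.filter (fun c => ∀ u v, G.Adj u v → c u ≠ c v)

theorem mem_cols {k n : ℕ} {G : SimpleGraph (Fin n)} {c : Fin n → Fin k} :
    c ∈ cols k G ↔ ∀ u v, G.Adj u v → c u ≠ c v := by
  simp [cols]

theorem bern (r : ℕ) : ∀ j, r ^ j * (r + j) ≤ r * (r + 1) ^ j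
  | 0 => by simp
  | j + 1 => by
    have h := bern r j
    calc r ^ (j + 1) * (r + (j + 1)) = r ^ j * (r * (r + j + 1)) := by ring
      _ ≤ r ^ j * ((r + j) * (r + 1)) := Nat.mul_le_mul_left _ (by nlinarith)
      _ = r ^ j * (r + j) * (r + 1) := by ring
      _ ≤ r * (r + 1) ^ j * (r + 1) := Nat.mul_le_mul_right _ h
      _ = r * (r + 1) ^ (j + 1) := by ring

theorem step (k g D B n : ℕ) (hk : 0 < k) (hB : B = (D + 1) ^ g) (hn : n = 2 * k * (2 * B))
    (G : SimpleGraph (Fin n)) (hd : ∀ v, (G.neighborSet v).ncard ≤ D)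
    (hs : 2 * ∑ v, (G.neighborSet v).ncard ≤ D * n) (hD : 0 < D) (hN : (cols k G).Nonempty) :
    ∃ u v, u ≠ v ∧ (G.neighborSet u).ncard < D ∧ (G.neighborSet v).ncard < D ∧
      (∀ p : G.Walk v u, g ≤ p.length) ∧
      (cols k G).card ≤ 8 * k ^ 2 * ((cols k G).filter (fun c => c u = c v)).card := by
  classical
  have hdeg : ∀ v, (G.neighborSet v).ncard = G.degree v := by
    intro v
    rw [← card_neighborSet_eq_degree, Set.ncard_eq_toFinset_card', Set.toFinset_card]
  have hd' : ∀ v, G.degree v ≤ D := fun v => hdeg v ▸ hd v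
  choose Ball hB1 hB2 using fun u => ball_bound G D hd' u g
  set U := univ.filter (fun v => (G.neighborSet v).ncard < D) with hU
  have hUc : k * (2 * B) ≤ U.card := by
    have h1 : (univ.filter (fun v => ¬ (G.neighborSet v).ncard < D)).card * D ≤
        ∑ v, (G.neighborSet v).ncard := by
      calc _ = ∑ _v ∈ univ.filter (fun v => ¬ (G.neighborSet v).ncard < D), D := by simp
        _ ≤ ∑ v ∈ univ.filter (fun v => ¬ (G.neighborSet v).ncard < D),
            (G.neighborSet v).ncard := sum_le_sum (fun v hv => by simpa using hv)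
        _ ≤ _ := sum_le_sum_of_subset (subset_univ _)
    have h2 := card_filter_add_card_filter_not (s := (univ : Finset (Fin n)))
      (fun v => (G.neighborSet v).ncard < D)
    rw [card_univ, Fintype.card_fin, ← hU] at h2
    have h3 : 2 * (univ.filter (fun v => ¬ (G.neighborSet v).ncard < D)).card ≤ n := by
      apply Nat.le_of_mul_le_mul_left _ hD
      nlinarith
    nlinarith
  set A : Finset (Fin n × Fin n) := (U ×ˢ U).filter (fun p => p.2 ∉ Ball p.1) with hA
  have hc : ∀ c ∈ cols k G, 2 * B * B ≤ (A.filter (fun p => c p.1 = c p.2)).card := by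
    intro c _
    obtain ⟨j, -, hj⟩ := exists_le_card_fiber_of_mul_le_card_of_maps_to (s := U)
      (t := (univ : Finset (Fin k))) (f := c) (n := 2 * B) (fun _ _ => mem_univ _)
      ⟨⟨0, hk⟩, mem_univ _⟩ (by simpa using hUc)
    set F := U.filter (fun x => c x = j) with hF
    have hsub : (F.sigma (fun u => F \ Ball u)).card ≤
        (A.filter (fun p => c p.1 = c p.2)).card := by
      apply card_le_card_of_injOn (fun x => (x.1, x.2))
      · intro x hx
        simp only [coe_sigma, Set.mem_sigma_iff, mem_coe, mem_sdiff, hF, mem_filter] at hx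
        simp only [hA, coe_filter, mem_filter, mem_product, Set.mem_ofPred_eq]
        exact ⟨⟨⟨hx.1.1, hx.2.1.1⟩, hx.2.2⟩, hx.1.2.trans hx.2.1.2.symm⟩
      · rintro ⟨a, b⟩ _ ⟨a', b'⟩ _ h
        simp only [Prod.mk.injEq] at h
        obtain ⟨rfl, rfl⟩ := h
        rfl
    refine le_trans ?_ hsub
    rw [card_sigma]
    calc 2 * B * B ≤ F.card * B := Nat.mul_le_mul_right _ hj
      _ = ∑ _u ∈ F, B := by simp
      _ ≤ _ := sum_le_sum (fun u _ => by
          have := le_card_sdiff (Ball u) F
          have := hB1 u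
          omega)
  have hsum : (cols k G).card * (2 * B * B) ≤
      ∑ p ∈ A, ((cols k G).filter (fun c => c p.1 = c p.2)).card := by
    calc _ = ∑ _c ∈ cols k G, 2 * B * B := by simp
      _ ≤ ∑ c ∈ cols k G, (A.filter (fun p => c p.1 = c p.2)).card := sum_le_sum hc
      _ = _ := by
        simp only [card_filter]
        exact sum_comm
  have hBpos : 0 < B := by rw [hB]; positivity
  have hAne : A.Nonempty := by
    obtain ⟨c, hc'⟩ := hN
    have := hc c hc'
    have h2 : 0 < (A.filter (fun p => c p.1 = c p.2)).card := lt_of_lt_of_le (by positivity) this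
    exact (card_pos.1 h2).mono (filter_subset _ _)
  have hAc : A.card ≤ n * n := by
    have := card_le_univ A
    simpa using this
  obtain ⟨p, hp, hle⟩ := exists_le_of_sum_le (s := A)
    (f := fun _ => (cols k G).card * (2 * B * B))
    (g := fun p => n * n * ((cols k G).filter (fun c => c p.1 = c p.2)).card) hAne (by
      rw [sum_const, smul_eq_mul, ← mul_sum]
      exact Nat.mul_le_mul hAc hsum)
  simp only [hA, hU, mem_filter, mem_product, mem_univ, true_and] at hp
  refine ⟨p.1, p.2, fun h => hp.2 (hB2 _ _ (h ▸ Walk.nil) (by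
      have : ∀ (x y : Fin n) (e : x = y), (e ▸ (Walk.nil : G.Walk x x) : G.Walk y x).length = 0 := by
        intro x y e; subst e; rfl
      rw [this]; omega)), hp.1.1, hp.1.2, fun w => ?_, ?_⟩
  · by_contra hlt
    exact hp.2 (hB2 _ _ w (by omega))
  · apply Nat.le_of_mul_le_mul_right _ (show 0 < 2 * B * B by positivity)
    refine hle.trans (le_of_eq ?_)
    have : n * n = 8 * k ^ 2 * (2 * B * B) := by rw [hn]; ring
    rw [this]; ring

theorem ncard_sup_edge {n : ℕ} (G : SimpleGraph (Fin n)) (u v x : Fin n) :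
    ((G ⊔ edge u v).neighborSet x).ncard ≤ (G.neighborSet x).ncard +
      ((if x = u then 1 else 0) + (if x = v then 1 else 0)) := by
  classical
  have h : (G ⊔ edge u v).neighborSet x ⊆ G.neighborSet x ∪
      ((if x = u then {v} else ∅) ∪ (if x = v then {u} else ∅)) := by
    intro y hy
    simp only [mem_neighborSet, sup_adj, edge_adj] at hy
    rcases hy with h | ⟨⟨rfl, rfl⟩ | ⟨rfl, rfl⟩, -⟩
    · exact Or.inl h
    · simp
    · simp
  refine (Set.ncard_le_ncard h).trans ((Set.ncard_union_le _ _).trans ?_)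
  refine Nat.add_le_add_left ((Set.ncard_union_le _ _).trans (Nat.add_le_add ?_ ?_)) _
  · split_ifs <;> simp
  · split_ifs <;> simp

/-- Graphs of large girth and large chromatic number. -/
theorem exists_girth_chrom (g k : ℕ) : ∃ (n : ℕ) (G : SimpleGraph (Fin n)),
    (g : ℕ∞) ≤ G.egirth ∧ ¬ G.Colorable k := by
  classical
  rcases Nat.eq_zero_or_pos k with rfl | hk
  · exact ⟨1, ⊥, by simp, by simp⟩
  obtain ⟨r, hr⟩ : ∃ r, 8 * k ^ 2 = r + 1 := ⟨8 * k ^ 2 - 1, by
    have : 0 < k ^ 2 := by positivity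
    omega⟩
  have hr0 : 0 < r := by nlinarith
  set D := 4 * (r + 1) * k with hD
  set B := (D + 1) ^ g with hB
  set n := 2 * k * (2 * B) with hn
  have hD0 : 0 < D := by positivity
  have hn0 : 0 < n := by positivity
  have key : ∀ m, m ≤ (r + 1) * k * n → ∃ G : SimpleGraph (Fin n), (g : ℕ∞) ≤ G.egirth ∧
      (∀ v, (G.neighborSet v).ncard ≤ D) ∧ ∑ v, (G.neighborSet v).ncard ≤ 2 * m ∧
      (cols k G).card * (r + 1) ^ m ≤ k ^ n * r ^ m := by
    intro m
    induction m with
    | zero =>
      intro _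
      refine ⟨⊥, by simp, by simp, by simp, ?_⟩
      have := card_le_univ (cols k (⊥ : SimpleGraph (Fin n)))
      simpa using this
    | succ m ih =>
      intro hm
      obtain ⟨G, h1, h2, h3, h4⟩ := ih (by omega)
      rcases (cols k G).eq_empty_or_nonempty with he | hne
      · exact ⟨G, h1, h2, by omega, by simp [he]⟩
      obtain ⟨u, v, huv, hu, hv, hfar, hc⟩ := step k g D B n hk hB hn G h2 (by
        have : D * n = 4 * ((r + 1) * k * n) := by rw [hD]; ring
        omega) hD0 hne
      refine ⟨G ⊔ edge v u, girth_add_edge h1 hfar, fun x => ?_, ?_, ?_⟩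
      · have := ncard_sup_edge G v u x
        have := h2 x
        by_cases hx : x = v
        · subst hx; simp [huv.symm] at *; omega
        · by_cases hx' : x = u
          · subst hx'; simp [hx] at *; omega
          · simp [hx, hx'] at *; omega
      · have := sum_le_sum (s := univ) (fun x _ => ncard_sup_edge G v u x)
        simp only [sum_add_distrib, sum_ite_eq', mem_univ, if_true] at this
        omega
      · have hsub : cols k (G ⊔ edge v u) ⊆ (cols k G).filter (fun c => ¬ c u = c v) := by
          intro c hc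
          rw [mem_cols] at hc
          rw [mem_filter, mem_cols]
          exact ⟨fun a b hab => hc a b (Or.inl hab), hc u v (Or.inr (by simp [edge_adj, huv]))⟩
        have h5 := card_le_card hsub
        have h6 := card_filter_add_card_filter_not (s := cols k G) (fun c => c u = c v)
        rw [hr] at hc
        have h7 : (cols k (G ⊔ edge v u)).card * (r + 1) ≤ (cols k G).card * r := by nlinarith
        calc _ = (cols k (G ⊔ edge v u)).card * (r + 1) * (r + 1) ^ m := by ring
          _ ≤ (cols k G).card * r * (r + 1) ^ m := Nat.mul_le_mul_right _ h7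
          _ = (cols k G).card * (r + 1) ^ m * r := by ring
          _ ≤ k ^ n * r ^ m * r := Nat.mul_le_mul_right _ h4
          _ = _ := by ring
  obtain ⟨G, h1, -, -, h4⟩ := key _ le_rfl
  refine ⟨n, G, h1, fun ⟨c⟩ => ?_⟩
  have hpos : 0 < (cols k G).card := card_pos.2 ⟨c, mem_cols.2 (fun u v h => c.valid h)⟩
  have hb : 2 * r ^ (r + 1) ≤ (r + 1) ^ (r + 1) := by
    apply Nat.le_of_mul_le_mul_left _ hr0
    have := bern r (r + 1)
    nlinarith [Nat.zero_le (r ^ (r + 1))]
  have hb2 : 2 ^ (k * n) * r ^ ((r + 1) * k * n) ≤ (r + 1) ^ ((r + 1) * k * n) := by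
    have := Nat.pow_le_pow_left hb (k * n)
    rw [mul_pow, ← pow_mul, ← pow_mul] at this
    simpa [mul_assoc] using this
  have hb3 : k ^ n < 2 ^ (k * n) := by
    rw [pow_mul 2 k n]
    exact Nat.pow_lt_pow_left Nat.lt_two_pow_self hn0.ne'
  have hb4 : k ^ n * r ^ ((r + 1) * k * n) < 2 ^ (k * n) * r ^ ((r + 1) * k * n) :=
    Nat.mul_lt_mul_of_pos_right hb3 (by positivity)
  have hb5 : (r + 1) ^ ((r + 1) * k * n) ≤ (cols k G).card * (r + 1) ^ ((r + 1) * k * n) :=
    Nat.le_mul_of_pos_left _ hpos
  omega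

end Pool.Agent.H7.Erdos
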