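import Pool.Agent.H7.EvenTree1

/-! Basic facts on the counts `c n k`, and the four-block rearrangement. -/

set_option autoImplicit false

namespace Pool.Agent.H7.EvenTree

/-- real-valued counts -/
def d (n k : ℕ) : ℝ := (c n k : ℝ)

theorem d_nonneg (n k : ℕ) : 0 ≤ d n k := Nat.cast_nonneg _

theorem cast_J (f g : ℕ → ℕ) (k : ℕ) :
    ((J f g k : ℕ) : ℝ) = J (fun i => (f i : ℝ)) (fun i => (g i : ℝ)) k := by
  unfold J X
  split_ifs <;> push_cast <;> rfl

theorem d_rec (n k : ℕ) : d n k = J (d ((n + 1) / 2)) (d (n / 2)) k := by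
  unfold d
  rw [c_rec, cast_J]

theorem X_even (f g : ℕ → ℝ) (t : ℕ) : X f g (2 * t) = f t * g t := by
  unfold X
  rw [if_pos (by omega), show 2 * t / 2 = t by omega]

theorem X_odd (f g : ℕ → ℝ) (t : ℕ) : X f g (2 * t + 1) = f t * g (t + 1) + f (t + 1) * g t := by
  unfold X
  rw [if_neg (by omega), show (2 * t + 1) / 2 = t by omega]

theorem X_comm (f g : ℕ → ℝ) (k : ℕ) : X f g k = X g f k := by
  unfold X; split_ifs <;> ring

theorem J_comm (f g : ℕ → ℝ) (k : ℕ) : J f g k = J g f k := by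
  unfold J; rw [X_comm]; ring

theorem X_nonneg (f g : ℕ → ℝ) (hf : ∀ i, 0 ≤ f i) (hg : ∀ i, 0 ≤ g i) (k : ℕ) : 0 ≤ X f g k := by
  unfold X
  split_ifs
  · exact mul_nonneg (hf _) (hg _)
  · exact add_nonneg (mul_nonneg (hf _) (hg _)) (mul_nonneg (hf _) (hg _))

theorem J_nonneg (f g : ℕ → ℝ) (hf : ∀ i, 0 ≤ f i) (hg : ∀ i, 0 ≤ g i) (k : ℕ) : 0 ≤ J f g k :=
  add_nonneg (add_nonneg (hf _) (hg _)) (X_nonneg f g hf hg k)

theorem X_mono (f g f' g' : ℕ → ℝ) (hf : ∀ i, 0 ≤ f i) (hg : ∀ i, 0 ≤ g i)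
    (h1 : ∀ i, f i ≤ f' i) (h2 : ∀ i, g i ≤ g' i) (k : ℕ) : X f g k ≤ X f' g' k := by
  have hf' : ∀ i, 0 ≤ f' i := fun i => (hf i).trans (h1 i)
  unfold X
  split_ifs
  · exact mul_le_mul (h1 _) (h2 _) (hg _) (hf' _)
  · exact add_le_add (mul_le_mul (h1 _) (h2 _) (hg _) (hf' _))
      (mul_le_mul (h1 _) (h2 _) (hg _) (hf' _))

theorem J_mono (f g f' g' : ℕ → ℝ) (hf : ∀ i, 0 ≤ f i) (hg : ∀ i, 0 ≤ g i)
    (h1 : ∀ i, f i ≤ f' i) (h2 : ∀ i, g i ≤ g' i) (k : ℕ) : J f g k ≤ J f' g' k :=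
  add_le_add (add_le_add (h1 k) (h2 k)) (X_mono f g f' g' hf hg h1 h2 k)

theorem d_even (m k : ℕ) : d (2 * m) k = J (d m) (d m) k := by
  rw [d_rec, show (2 * m + 1) / 2 = m by omega, show 2 * m / 2 = m by omega]

theorem d_odd (m k : ℕ) : d (2 * m + 1) k = J (d (m + 1)) (d m) k := by
  rw [d_rec, show (2 * m + 1 + 1) / 2 = m + 1 by omega, show (2 * m + 1) / 2 = m by omega]

theorem d_bal (u v k : ℕ) (h1 : u ≤ v + 1) (h2 : v ≤ u + 1) : J (d u) (d v) k = d (u + v) k := by
  have : u = v ∨ u = v + 1 ∨ v = u + 1 := by omega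
  rcases this with rfl | rfl | rfl
  · rw [← d_even]; congr 1; omega
  · rw [← d_odd]; congr 1; omega
  · rw [J_comm, ← d_odd]; congr 1; omega

theorem d_zero (k : ℕ) : d 0 k = 0 := by simp [d, c_zero]

theorem d_one (k : ℕ) : d 1 k = if k = 1 then 1 else 0 := by
  unfold d; rw [c_one]; split_ifs <;> simp

theorem d_k0 (n : ℕ) : d n 0 = 0 := by
  induction n using Nat.strong_induction_on with
  | _ n ih =>
    by_cases h : 2 ≤ n
    · rw [d_rec]; unfold J X
      simp [ih ((n + 1) / 2) (by omega), ih (n / 2) (by omega)]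
    · have : n = 0 ∨ n = 1 := by omega
      rcases this with rfl | rfl
      · exact d_zero 0
      · rw [d_one]; simp

theorem d_lt (n : ℕ) : ∀ k, n < k → d n k = 0 := by
  induction n using Nat.strong_induction_on with
  | _ n ih =>
    intro k hk
    by_cases h : 2 ≤ n
    · rw [d_rec]; unfold J X
      have a1 := ih ((n + 1) / 2) (by omega)
      have a2 := ih (n / 2) (by omega)
      rw [a1 k (by omega), a2 k (by omega)]
      split_ifs with hp
      · rw [a2 (k / 2) (by omega)]; simp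
      · rw [a2 (k / 2 + 1) (by omega)]
        by_cases h3 : n / 2 < k / 2
        · rw [a2 (k / 2) h3]; simp
        · rw [a1 (k / 2 + 1) (by omega)]; simp
    · have : n = 0 ∨ n = 1 := by omega
      rcases this with rfl | rfl
      · exact d_zero k
      · rw [d_one, if_neg (by omega)]

theorem d_pos (n : ℕ) : ∀ k, 1 ≤ k → k ≤ n → 0 < d n k := by
  induction n using Nat.strong_induction_on with
  | _ n ih =>
    intro k hk hkn
    by_cases h : 2 ≤ n
    · rw [d_rec]
      have a1 := ih ((n + 1) / 2) (by omega)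
      have a2 := ih (n / 2) (by omega)
      by_cases hk1 : k = 1
      · subst hk1
        have := a1 1 le_rfl (by omega)
        have h2 := d_nonneg (n / 2) 1
        have h3 := X_nonneg _ _ (d_nonneg ((n + 1) / 2)) (d_nonneg (n / 2)) 1
        unfold J; linarith
      · have h1 := d_nonneg ((n + 1) / 2) k
        have h2 := d_nonneg (n / 2) k
        have h3 : 0 < X (d ((n + 1) / 2)) (d (n / 2)) k := by
          unfold X
          split_ifs with hp
          · exact mul_pos (a1 _ (by omega) (by omega)) (a2 _ (by omega) (by omega))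
          · have := mul_pos (a1 (k / 2 + 1) (by omega) (by omega)) (a2 (k / 2) (by omega) (by omega))
            have h4 := mul_nonneg (d_nonneg ((n + 1) / 2) (k / 2)) (d_nonneg (n / 2) (k / 2 + 1))
            linarith
        unfold J; linarith
    · have : n = 1 := by omega
      subst this
      rw [d_one, if_pos (by omega)]; norm_num

theorem d_succ (n : ℕ) : ∀ k, d n k ≤ d (n + 1) k := by
  induction n using Nat.strong_induction_on with
  | _ n ih =>
    intro k
    rcases Nat.eq_zero_or_pos n with rfl | hn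
    · rw [d_zero]; exact d_nonneg _ _
    · obtain ⟨m, rfl | rfl⟩ := Nat.even_or_odd' n
      · rw [d_even, d_odd]
        exact J_mono _ _ _ _ (d_nonneg _) (d_nonneg _) (ih m (by omega)) (fun _ => le_rfl) k
      · rw [d_odd, show 2 * m + 1 + 1 = 2 * (m + 1) by ring, d_even]
        exact J_mono _ _ _ _ (d_nonneg _) (d_nonneg _) (fun _ => le_rfl) (ih m (by omega)) k

theorem d_mono (x y k : ℕ) (h : x ≤ y) : d x k ≤ d y k := by
  induction y, h using Nat.le_induction with
  | base => exact le_rfl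
  | succ y _ ih => exact ih.trans (d_succ y k)

theorem d_small (n : ℕ) : d n 1 = n ∧ d n 2 = n * (n - 1) / 2 ∧ d n 3 = n * (n - 1) * (n - 2) / 6 := by
  induction n using Nat.strong_induction_on with
  | _ n ih =>
    by_cases h : 2 ≤ n
    · have x1 : ∀ f g : ℕ → ℝ, X f g 1 = f 0 * g 1 + f 1 * g 0 := fun f g => X_odd f g 0
      have x2 : ∀ f g : ℕ → ℝ, X f g 2 = f 1 * g 1 := fun f g => X_even f g 1
      have x3 : ∀ f g : ℕ → ℝ, X f g 3 = f 1 * g 2 + f 2 * g 1 := fun f g => X_odd f g 1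
      obtain ⟨m, rfl | rfl⟩ := Nat.even_or_odd' n
      · obtain ⟨a1, a2, a3⟩ := ih m (by omega)
        simp only [d_even, J, x1, x2, x3, a1, a2, a3, d_k0]
        push_cast
        refine ⟨by ring, by ring, by ring⟩
      · obtain ⟨a1, a2, a3⟩ := ih m (by omega)
        obtain ⟨b1, b2, b3⟩ := ih (m + 1) (by omega)
        simp only [d_odd, J, x1, x2, x3, a1, a2, a3, b1, b2, b3, d_k0]
        push_cast
        refine ⟨by ring, by ring, by ring⟩
    · have : n = 0 ∨ n = 1 := by omega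
      rcases this with rfl | rfl
      · simp [d_zero]
      · simp [d_one]

/-- the four-block rearrangement -/
theorem rearr (P Q R S : ℕ → ℝ) (hP0 : P 0 = 0) (hQ0 : Q 0 = 0) (hR0 : R 0 = 0) (hS0 : S 0 = 0)
    (hPR : ∀ i, P i ≤ R i) (hQS : ∀ i, Q i ≤ S i)
    (t1 : ∀ i j, i ≤ j → P j * R i ≤ P i * R j) (t2 : ∀ i j, i ≤ j → Q j * S i ≤ Q i * S j)
    (k : ℕ) : J (J P Q) (J R S) k ≤ J (J P S) (J Q R) k := by
  have A : ∀ i i' j, i ≤ j → 0 ≤ (S i' - Q i') * (P i * R j - P j * R i) := fun i i' j h =>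
    mul_nonneg (sub_nonneg.2 (hQS i')) (sub_nonneg.2 (t1 i j h))
  have B : ∀ i i' j, i ≤ j → 0 ≤ (R i' - P i') * (Q i * S j - Q j * S i) := fun i i' j h =>
    mul_nonneg (sub_nonneg.2 (hPR i')) (sub_nonneg.2 (t2 i j h))
  obtain ⟨t, rfl | rfl⟩ := Nat.even_or_odd' k
  · obtain ⟨m, rfl | rfl⟩ := Nat.even_or_odd' t
    · simp only [J, X_even]
      have a := A m m (2 * m) (by omega)
      have b := B m m (2 * m) (by omega)
      nlinarith [a, b]
    · simp only [J, X_even, X_odd]
      have a1 := A m (m + 1) (2 * m + 1) (by omega)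
      have a2 := A (m + 1) m (2 * m + 1) (by omega)
      have b1 := B m (m + 1) (2 * m + 1) (by omega)
      have b2 := B (m + 1) m (2 * m + 1) (by omega)
      have e := mul_nonneg (sub_nonneg.2 (t1 m (m + 1) (by omega)))
        (sub_nonneg.2 (t2 m (m + 1) (by omega)))
      nlinarith [a1, a2, b1, b2, e]
  · obtain ⟨m, rfl | rfl⟩ := Nat.even_or_odd' t
    · simp only [J, X_even, X_odd]
      rcases Nat.eq_zero_or_pos m with rfl | hm
      · simp [hP0, hQ0, hR0, hS0]
        linarith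
      · have a1 := A m (m + 1) (2 * m) (by omega)
        have a2 := A (m + 1) m (2 * m) (by omega)
        have a3 := A m m (2 * m + 1) (by omega)
        have b1 := B m (m + 1) (2 * m) (by omega)
        have b2 := B (m + 1) m (2 * m) (by omega)
        have b3 := B m m (2 * m + 1) (by omega)
        nlinarith [a1, a2, a3, b1, b2, b3]
    · rw [show J (J P Q) (J R S) (2 * (2 * m + 1) + 1) = J P Q (2 * (2 * m + 1) + 1) +
          J R S (2 * (2 * m + 1) + 1) + (J P Q (2 * m + 1) * J R S (2 * (m + 1)) +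
          J P Q (2 * (m + 1)) * J R S (2 * m + 1)) from by rw [J, X_odd]; rfl,
        show J (J P S) (J Q R) (2 * (2 * m + 1) + 1) = J P S (2 * (2 * m + 1) + 1) +
          J Q R (2 * (2 * m + 1) + 1) + (J P S (2 * m + 1) * J Q R (2 * (m + 1)) +
          J P S (2 * (m + 1)) * J Q R (2 * m + 1)) from by rw [J, X_odd]; rfl]
      simp only [J, X_even, X_odd]
      rw [show 2 * m + 1 + 1 = 2 * (m + 1) by ring]
      have a1 := A m (m + 1) (2 * (m + 1)) (by omega)
      have a2 := A (m + 1) m (2 * (m + 1)) (by omega)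
      have a3 := A (m + 1) (m + 1) (2 * m + 1) (by omega)
      have b1 := B m (m + 1) (2 * (m + 1)) (by omega)
      have b2 := B (m + 1) m (2 * (m + 1)) (by omega)
      have b3 := B (m + 1) (m + 1) (2 * m + 1) (by omega)
      nlinarith [a1, a2, a3, b1, b2, b3]

end Pool.Agent.H7.EvenTree
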