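import Pool.Agent.H7.EvenTree2

/-! Total positivity of the counts and the extremal inequality. -/

set_option autoImplicit false

namespace Pool.Agent.H7.EvenTree

/-- adjacent total positivity at size `x` -/
def TP (x : ℕ) : Prop := ∀ k, 1 ≤ k → d x (k + 1) * d (x + 1) k ≤ d x k * d (x + 1) (k + 1)

theorem tp_row (x : ℕ) (h : TP x) (i j : ℕ) (hij : i ≤ j) :
    d x j * d (x + 1) i ≤ d x i * d (x + 1) j := by
  rcases Nat.eq_zero_or_pos i with rfl | hi
  · simp [d_k0]
  induction j, hij using Nat.le_induction with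
  | base => exact le_rfl
  | succ j hj ih =>
    by_cases hx : x < j + 1
    · rw [d_lt x _ hx, zero_mul]; exact mul_nonneg (d_nonneg _ _) (d_nonneg _ _)
    · have p1 := d_pos x j (by omega) (by omega)
      have p2 := d_pos (x + 1) j (by omega) (by omega)
      have h1 := h j (by omega)
      have h2 := mul_le_mul h1 ih (mul_nonneg (d_nonneg _ _) (d_nonneg _ _))
        (mul_nonneg (d_nonneg _ _) (d_nonneg _ _))
      refine le_of_mul_le_mul_left ?_ (mul_pos p1 p2)
      nlinarith [h2]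

theorem tp_all (x y : ℕ) (hxy : x ≤ y) (h : ∀ z, z < y → TP z) (i j : ℕ) (hij : i ≤ j) :
    d x j * d y i ≤ d x i * d y j := by
  rcases Nat.eq_zero_or_pos i with rfl | hi
  · simp [d_k0]
  induction y, hxy using Nat.le_induction with
  | base => rw [mul_comm]
  | succ y hy ih =>
    by_cases hx : x < j
    · rw [d_lt x _ hx, zero_mul]; exact mul_nonneg (d_nonneg _ _) (d_nonneg _ _)
    · have p1 := d_pos y j (by omega) (by omega)
      have p2 := d_pos y i (by omega) (by omega)
      have h1 := ih (fun z hz => h z (by omega))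
      have h3 := tp_row y (h y (by omega)) i j hij
      have h2 := mul_le_mul h1 h3 (mul_nonneg (d_nonneg _ _) (d_nonneg _ _))
        (mul_nonneg (d_nonneg _ _) (d_nonneg _ _))
      refine le_of_mul_le_mul_left ?_ (mul_pos p1 p2)
      nlinarith [h2]

/-- the extremal inequality at size `n` -/
def Main (n : ℕ) : Prop := ∀ a b, a + b = n → ∀ k, J (d a) (d b) k ≤ d n k

theorem main_step (n : ℕ) (hM : ∀ z, z < n → Main z) (hT : ∀ z, z < n → TP z) : Main n := by
  have key : ∀ a b, a ≤ b → a + b = n → ∀ k, J (d a) (d b) k ≤ d n k := by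
    intro a b hab hn k
    by_cases hb : b ≤ a + 1
    · rw [d_bal a b k (by omega) hb, hn]
    · have ea : d a = J (d ((a + 1) / 2)) (d (a / 2)) := funext (d_rec a)
      have eb : d b = J (d ((b + 1) / 2)) (d (b / 2)) := funext (d_rec b)
      rw [ea, eb]
      refine (rearr _ _ _ _ (d_k0 _) (d_k0 _) (d_k0 _) (d_k0 _)
        (fun i => d_mono _ _ i (by omega)) (fun i => d_mono _ _ i (by omega))
        (tp_all _ _ (by omega) (fun z hz => hT z (by omega)))
        (tp_all _ _ (by omega) (fun z hz => hT z (by omega))) k).trans ?_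
      refine (J_mono _ _ (d ((a + 1) / 2 + b / 2)) (d (a / 2 + (b + 1) / 2))
        (J_nonneg _ _ (d_nonneg _) (d_nonneg _)) (J_nonneg _ _ (d_nonneg _) (d_nonneg _))
        (hM _ (by omega) _ _ rfl) (hM _ (by omega) _ _ rfl) k).trans ?_
      rw [d_bal _ _ k (by omega) (by omega)]
      apply le_of_eq; congr 1; omega
  intro a b hn k
  rcases le_total a b with h | h
  · exact key a b h hn k
  · rw [J_comm]; exact key b a h (by omega) k

/-- averaging inequality: deleting a random leaf -/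
def Avg (n : ℕ) : Prop := ∀ k : ℕ, ((n : ℝ) + 1) * d (n + 1) k ≤ ((n : ℝ) + 1) * d n k + k * d (n + 1) k

theorem avg_J (f f' g g' : ℕ → ℝ) (x y : ℝ) (hf : ∀ i, 0 ≤ f i) (hg : ∀ i, 0 ≤ g i)
    (h1 : ∀ i : ℕ, x * f i ≤ x * f' i + i * f i) (h2 : ∀ i : ℕ, y * g i ≤ y * g' i + i * g i) (k : ℕ) :
    (x + y) * J f g k ≤ x * J f' g k + y * J f g' k + k * J f g k := by
  have A : ∀ i j : ℕ, (x + y) * (f i * g j) ≤ x * (f' i * g j) + y * (f i * g' j) +
      ((i : ℝ) + j) * (f i * g j) := by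
    intro i j
    have a := mul_le_mul_of_nonneg_right (h1 i) (hg j)
    have b := mul_le_mul_of_nonneg_right (h2 j) (hf i)
    nlinarith [a, b]
  have a := h1 k
  have b := h2 k
  obtain ⟨t, rfl | rfl⟩ := Nat.even_or_odd' k
  · simp only [J, X_even]
    have e := A t t
    push_cast at *
    nlinarith [a, b, e]
  · simp only [J, X_odd]
    have e := A t (t + 1)
    have e' := A (t + 1) t
    push_cast at *
    nlinarith [a, b, e, e']

theorem avg_step (n : ℕ) (hA : ∀ z, z < n → Avg z) (hM : Main n) : Avg n := by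
  intro k
  rcases Nat.eq_zero_or_pos n with rfl | hn
  · rw [d_zero, zero_add, d_one]
    split_ifs with h
    · subst h; simp
    · simp
  · obtain ⟨x, hx⟩ : ∃ x, (n + 1 + 1) / 2 = x + 1 := ⟨(n + 1 + 1) / 2 - 1, by omega⟩
    obtain ⟨y, hy⟩ : ∃ y, (n + 1) / 2 = y + 1 := ⟨(n + 1) / 2 - 1, by omega⟩
    have e := d_rec (n + 1) k
    rw [hx, hy] at e
    have h := avg_J (d (x + 1)) (d x) (d (y + 1)) (d y) (x + 1) (y + 1) (d_nonneg _) (d_nonneg _)
      (hA x (by omega)) (hA y (by omega)) k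
    rw [← e] at h
    have m1 := hM x (y + 1) (by omega) k
    have m2 := hM (x + 1) y (by omega) k
    have hs : (n : ℝ) + 1 = (x + 1) + (y + 1) := by
      have : n + 1 = (x + 1) + (y + 1) := by omega
      exact_mod_cast this
    have p1 := mul_le_mul_of_nonneg_left m1 (show (0 : ℝ) ≤ x + 1 by positivity)
    have p2 := mul_le_mul_of_nonneg_left m2 (show (0 : ℝ) ≤ y + 1 by positivity)
    rw [hs]
    nlinarith [h, p1, p2]

theorem theta (m : ℕ) : 16 ≤ m → ∀ k, d (m + 1) k ≤ (17 / 32 : ℝ) ^ k * d (2 * m) k := by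
  induction m using Nat.strong_induction_on with
  | _ m ih =>
    intro hm k
    by_cases h : m < 33
    · by_cases hk : k < 34
      · have := finT m k h hk hm
        have h2 : (32 : ℝ) ^ k * d (m + 1) k ≤ 17 ^ k * d (2 * m) k := by
          unfold d; exact_mod_cast this
        rw [div_pow, div_mul_eq_mul_div, le_div_iff₀ (by positivity)]
        linarith
      · rw [d_lt _ _ (by omega)]
        exact mul_nonneg (by positivity) (d_nonneg _ _)
    · obtain ⟨x, hx⟩ : ∃ x, (m + 1 + 1) / 2 = x + 1 := ⟨(m + 1 + 1) / 2 - 1, by omega⟩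
      obtain ⟨y, hy⟩ : ∃ y, (m + 1) / 2 = y + 1 := ⟨(m + 1) / 2 - 1, by omega⟩
      rw [d_rec (m + 1) k, hx, hy, d_even]
      have h1 : ∀ j, d (x + 1) j ≤ (17 / 32 : ℝ) ^ j * d m j := fun j =>
        (ih x (by omega) (by omega) j).trans
          (mul_le_mul_of_nonneg_left (d_mono _ _ j (by omega)) (by positivity))
      have h2 : ∀ j, d (y + 1) j ≤ (17 / 32 : ℝ) ^ j * d m j := fun j =>
        (ih y (by omega) (by omega) j).trans
          (mul_le_mul_of_nonneg_left (d_mono _ _ j (by omega)) (by positivity))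
      refine (J_mono _ _ _ _ (d_nonneg _) (d_nonneg _) h1 h2 k).trans (le_of_eq ?_)
      obtain ⟨t, rfl | rfl⟩ := Nat.even_or_odd' k
      · simp only [J, X_even]; ring
      · simp only [J, X_odd]; ring

/-- the gap constants -/
noncomputable def gam (k : ℕ) : ℝ := if k ≤ 2 then 1 else if k ≤ 5 then 9 / 20 else 9 / (10 * k)

theorem gam_nonneg (k : ℕ) : 0 ≤ gam k := by
  unfold gam; split_ifs <;> positivity

theorem gam_le (k : ℕ) (hk : 3 ≤ k) : gam k ≤ 9 / 20 := by
  unfold gam
  rw [if_neg (by omega)]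
  split_ifs with h
  · exact le_rfl
  · have : (6 : ℝ) ≤ k := by exact_mod_cast (by omega : 6 ≤ k)
    rw [div_le_div_iff₀ (by positivity) (by positivity)]
    linarith

theorem gam_le_one (k : ℕ) : gam k ≤ 1 := by
  by_cases h : 3 ≤ k
  · exact (gam_le k h).trans (by norm_num)
  · unfold gam; rw [if_pos (by omega)]

theorem pow_small (k : ℕ) (hk : 12 ≤ k) : (k : ℝ) ^ 2 * (17 / 32 : ℝ) ^ k ≤ 1 / 8 := by
  induction k, hk using Nat.le_induction with
  | base => norm_num
  | succ k hk ih =>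
    have h : (12 : ℝ) ≤ k := by exact_mod_cast hk
    have p : (0 : ℝ) ≤ (17 / 32 : ℝ) ^ k := by positivity
    have : ((k : ℝ) + 1) ^ 2 * (17 / 32) ≤ (k : ℝ) ^ 2 := by nlinarith
    push_cast
    rw [pow_succ (17 / 32 : ℝ)]
    nlinarith [mul_le_mul_of_nonneg_right this p]

theorem loss (k : ℕ) (hk : 3 ≤ k) :
    2 * ((17 / 32 : ℝ) ^ (k + 1) * ((k / 2 : ℕ) + 1) + (17 / 32 : ℝ) ^ k * (20 * k / 17 - 3)) * (32 / 31)
      ≤ gam (k / 2) - gam k := by
  by_cases h : k < 12
  · interval_cases k <;> simp [gam] <;> norm_num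
  · have h12 : (12 : ℝ) ≤ k := by exact_mod_cast (by omega : 12 ≤ k)
    have ht : 2 * ((k / 2 : ℕ) : ℝ) ≤ k := by exact_mod_cast (by omega : 2 * (k / 2) ≤ k)
    have ht6 : (6 : ℝ) ≤ ((k / 2 : ℕ) : ℝ) := by exact_mod_cast (by omega : 6 ≤ k / 2)
    unfold gam
    rw [if_neg (by omega), if_neg (by omega), if_neg (by omega), if_neg (by omega)]
    set t : ℝ := ((k / 2 : ℕ) : ℝ)
    have a : 9 / (5 * (k : ℝ)) ≤ 9 / (10 * t) := by
      rw [div_le_div_iff₀ (by positivity) (by positivity)]; linarith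
    have b : 9 / (5 * (k : ℝ)) = 9 / (10 * k) + 9 / (10 * k) := by field_simp; norm_num
    have ps := pow_small k (by omega)
    have p : (0 : ℝ) ≤ (17 / 32 : ℝ) ^ k := by positivity
    have e : 2 * ((17 / 32 : ℝ) ^ (k + 1) * (t + 1) + (17 / 32 : ℝ) ^ k * (20 * k / 17 - 3)) * (32 / 31)
        ≤ 4 * k * (17 / 32 : ℝ) ^ k := by
      rw [pow_succ]
      have : 2 * (17 / 32 * (t + 1) + (20 * k / 17 - 3)) * (32 / 31) ≤ 4 * (k : ℝ) := by linarith
      nlinarith [mul_le_mul_of_nonneg_right this p]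
    have e2 : 4 * k * (17 / 32 : ℝ) ^ k ≤ 9 / (10 * k) := by
      rw [le_div_iff₀ (by positivity)]; nlinarith
    linarith

end Pool.Agent.H7.EvenTree
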