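import Pool.Agent.H7.EvenTree3

/-! The quantitative total positivity step and the joint induction. -/

set_option autoImplicit false

namespace Pool.Agent.H7.EvenTree

theorem fin_lemma (C0 C0' C1 C1' Y0 Y0' Y1 Y1' u l x w : ℝ)
    (h0' : 0 ≤ C0') (h1 : 0 ≤ C1) (hY0 : 0 ≤ Y0) (hY1' : 0 ≤ Y1')
    (p0 : 0 < Y0') (p1 : 0 < Y1) (hu : 0 < u) (hl : 0 ≤ l)
    (hU : C0' * Y0 ≤ u * (C0 * Y0')) (hL : l * (C1 * Y1') ≤ C1' * Y1)
    (hX : x * (Y0' * Y1) ≤ Y1' * Y0) (hn : w * u ≤ x * l) :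
    w * (C1 * C0') ≤ C0 * C1' := by
  have a := mul_le_mul hU hL (mul_nonneg hl (mul_nonneg h1 hY1'))
    ((mul_nonneg h0' hY0).trans hU)
  have q : 0 ≤ l * (C0' * C1) := mul_nonneg hl (mul_nonneg h0' h1)
  have b := mul_le_mul_of_nonneg_left hX q
  have r : 0 ≤ C0' * C1 * (Y0' * Y1) := mul_nonneg (mul_nonneg h0' h1) (mul_pos p0 p1).le
  have e := mul_le_mul_of_nonneg_right hn r
  refine le_of_mul_le_mul_right ?_ (mul_pos hu (mul_pos p0 p1))
  nlinarith [a, b, e]

section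
variable (b b' : ℕ → ℝ) (z : ℝ) (hb : ∀ i, 0 ≤ b i) (hb' : ∀ i, 0 ≤ b' i) (hz : 0 ≤ z)
include hb hb' hz

theorem R1 (s1 : ∀ j, 1 ≤ j → b j ≤ (1 - z) * b' j) (s2 : ∀ j, 2 ≤ j → b j ≤ (1 - 2 * z) * b' j)
    (k : ℕ) (hk : 3 ≤ k) : (1 + 3 / 2 * z) * X b b k ≤ X b' b k := by
  have u1 : ∀ j, 1 ≤ j → (1 + z) * b j ≤ b' j := fun j hj => by
    have := mul_le_mul_of_nonneg_left (s1 j hj) (show 0 ≤ 1 + z by linarith)
    nlinarith [mul_nonneg (mul_nonneg hz hz) (hb' j)]
  have u2 : ∀ j, 2 ≤ j → (1 + 2 * z) * b j ≤ b' j := fun j hj => by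
    have := mul_le_mul_of_nonneg_left (s2 j hj) (show 0 ≤ 1 + 2 * z by linarith)
    nlinarith [mul_nonneg (mul_nonneg hz hz) (hb' j)]
  obtain ⟨t, rfl | rfl⟩ := Nat.even_or_odd' k
  · simp only [X_even]
    have := mul_le_mul_of_nonneg_right (u2 t (by omega)) (hb t)
    nlinarith [mul_nonneg hz (mul_nonneg (hb t) (hb t))]
  · simp only [X_odd]
    have a := mul_le_mul_of_nonneg_right (u1 t (by omega)) (hb (t + 1))
    have e := mul_le_mul_of_nonneg_right (u2 (t + 1) (by omega)) (hb t)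
    nlinarith [a, e]

theorem R1' (s1 : ∀ j, 1 ≤ j → b j ≤ (1 - z) * b' j) (s2 : ∀ j, 2 ≤ j → b j ≤ (1 - 2 * z) * b' j)
    (k : ℕ) (hk : 3 ≤ k) : X b' b k ≤ (1 - 3 / 2 * z) * X b' b' k := by
  obtain ⟨t, rfl | rfl⟩ := Nat.even_or_odd' k
  · simp only [X_even]
    have := mul_le_mul_of_nonneg_right (s2 t (by omega)) (hb' t)
    nlinarith [mul_nonneg hz (mul_nonneg (hb' t) (hb' t))]
  · simp only [X_odd]
    have a := mul_le_mul_of_nonneg_right (s1 t (by omega)) (hb' (t + 1))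
    have e := mul_le_mul_of_nonneg_right (s2 (t + 1) (by omega)) (hb' t)
    nlinarith [a, e]

theorem R2 (g : ℕ → ℝ) (hg : ∀ i, 0 ≤ g i) (tp : ∀ i j, i ≤ j → b j * b' i ≤ b i * b' j) (k : ℕ) :
    b k * X b' g k ≤ b' k * X b g k := by
  obtain ⟨t, rfl | rfl⟩ := Nat.even_or_odd' k
  · simp only [X_even]
    have := mul_le_mul_of_nonneg_right (tp t (2 * t) (by omega)) (hg t)
    nlinarith [this]
  · simp only [X_odd]
    have a := mul_le_mul_of_nonneg_right (tp t (2 * t + 1) (by omega)) (hg (t + 1))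
    have e := mul_le_mul_of_nonneg_right (tp (t + 1) (2 * t + 1) (by omega)) (hg t)
    nlinarith [a, e]

theorem R3 (g : ℕ → ℝ) (hg : ∀ i, 0 ≤ g i) (av : ∀ j : ℕ, b' j - b j ≤ j * z * b' j) (k : ℕ) :
    X b' g (k + 1) - X b g (k + 1) ≤ (((k / 2 : ℕ) : ℝ) + 1) * z * X b' g (k + 1) := by
  obtain ⟨t, rfl | rfl⟩ := Nat.even_or_odd' k
  · simp only [X_odd]
    rw [show 2 * t / 2 = t by omega]
    have a := mul_le_mul_of_nonneg_right (av t) (hg (t + 1))
    have e := mul_le_mul_of_nonneg_right (av (t + 1)) (hg t)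
    push_cast at e
    nlinarith [a, e, mul_nonneg hz (mul_nonneg (hb' t) (hg (t + 1)))]
  · rw [show 2 * t + 1 + 1 = 2 * (t + 1) by ring, show (2 * t + 1) / 2 = t by omega]
    simp only [X_even]
    have e := mul_le_mul_of_nonneg_right (av (t + 1)) (hg (t + 1))
    push_cast at e
    nlinarith [e]

end

theorem RX (b b' : ℕ → ℝ) (hb : ∀ i, 0 ≤ b i) (hb' : ∀ i, 0 ≤ b' i) (φ : ℝ) (k : ℕ)
    (e1 : 2 * (1 + φ) * (b (k / 2 + 1) * b' (k / 2)) ≤ b (k / 2 + 1) * b' (k / 2) + b (k / 2) * b' (k / 2 + 1))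
    (e2 : (1 + φ) * (b (k / 2 + 1) * b' (k / 2) + b (k / 2) * b' (k / 2 + 1)) ≤ 2 * (b (k / 2) * b' (k / 2 + 1))) :
    (1 + φ) * (X b' b k * X b b (k + 1)) ≤ X b' b (k + 1) * X b b k ∧
    (1 + φ) * (X b' b' k * X b' b (k + 1)) ≤ X b' b' (k + 1) * X b' b k := by
  obtain ⟨t, rfl | rfl⟩ := Nat.even_or_odd' k
  · rw [show 2 * t / 2 = t by omega] at e1 e2
    simp only [X_even, X_odd]
    constructor
    · nlinarith [mul_le_mul_of_nonneg_right e1 (mul_nonneg (hb t) (hb t))]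
    · nlinarith [mul_le_mul_of_nonneg_right e2 (mul_nonneg (hb' t) (hb' t))]
  · rw [show (2 * t + 1) / 2 = t by omega] at e1 e2
    rw [show 2 * t + 1 + 1 = 2 * (t + 1) by ring]
    simp only [X_even, X_odd]
    constructor
    · nlinarith [mul_le_mul_of_nonneg_right e2 (mul_nonneg (hb (t + 1)) (hb (t + 1)))]
    · nlinarith [mul_le_mul_of_nonneg_right e1 (mul_nonneg (hb' (t + 1)) (hb' (t + 1)))]

theorem X_pos (u v k : ℕ) (hk : 2 ≤ k) (h1 : (k + 1) / 2 ≤ u) (h2 : k / 2 ≤ v) :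
    0 < X (d u) (d v) k := by
  obtain ⟨t, rfl | rfl⟩ := Nat.even_or_odd' k
  · rw [X_even]; exact mul_pos (d_pos _ _ (by omega) (by omega)) (d_pos _ _ (by omega) (by omega))
  · rw [X_odd]
    have := mul_pos (d_pos u (t + 1) (by omega) (by omega)) (d_pos v t (by omega) (by omega))
    have h4 := mul_nonneg (d_nonneg u t) (d_nonneg v (t + 1))
    linarith

/-- quantitative total positivity at size `n` -/
def Gap (n : ℕ) : Prop := ∀ k, 1 ≤ k →
  (1 + gam k * (1 / ((n : ℝ) - 1))) * (d n (k + 1) * d (n + 1) k) ≤ d n k * d (n + 1) (k + 1)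

theorem Gap.tp {n : ℕ} (h : Gap n) : TP n := by
  intro k hk
  by_cases hn : n < k + 1
  · rw [d_lt n _ hn, zero_mul]; exact mul_nonneg (d_nonneg _ _) (d_nonneg _ _)
  · have h2 : (2 : ℝ) ≤ n := by exact_mod_cast (by omega : 2 ≤ n)
    have p : 0 ≤ gam k * (1 / ((n : ℝ) - 1)) :=
      mul_nonneg (gam_nonneg k) (div_nonneg zero_le_one (by linarith))
    have q := mul_nonneg (d_nonneg n (k + 1)) (d_nonneg (n + 1) k)
    nlinarith [h k hk, mul_nonneg p q]

theorem gap_big (m : ℕ) (hm : 16 ≤ m) (hG : Gap m) (hA : Avg m) (k : ℕ) (hk : 3 ≤ k) :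
    (k + 1 ≤ 2 * m → (1 + gam k * (1 / (2 * (m : ℝ) - 1))) * (d (2 * m) (k + 1) * d (2 * m + 1) k) ≤
      d (2 * m) k * d (2 * m + 1) (k + 1)) ∧
    (k + 1 ≤ 2 * m + 1 → (1 + gam k * (1 / (2 * (m : ℝ) - 1))) *
      (d (2 * m + 1) (k + 1) * d (2 * (m + 1)) k) ≤ d (2 * m + 1) k * d (2 * (m + 1)) (k + 1)) := by
  have hmR : (16 : ℝ) ≤ m := by exact_mod_cast hm
  have hkR : (3 : ℝ) ≤ k := by exact_mod_cast hk
  set y : ℝ := 1 / (2 * (m : ℝ) - 1) with hy
  set z : ℝ := 1 / ((m : ℝ) + 1) with hzdef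
  have y0 : 0 < y := div_pos one_pos (by linarith)
  have z0 : 0 < z := div_pos one_pos (by linarith)
  have y1 : y * (2 * m - 1) = 1 := by rw [hy]; exact one_div_mul_cancel (by linarith)
  have z1 : z * (m + 1) = 1 := by rw [hzdef]; exact one_div_mul_cancel (by linarith)
  have y31 : y ≤ 1 / 31 := by rw [hy]; exact one_div_le_one_div_of_le (by norm_num) (by linarith)
  have z17 : z ≤ 1 / 17 := by rw [hzdef]; exact one_div_le_one_div_of_le (by norm_num) (by linarith)
  have zy : z ≤ 2 * y := by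
    rw [hy, hzdef, mul_one_div, div_le_div_iff₀ (by linarith) (by linarith)]; linarith
  have hb := d_nonneg m
  have hb' := d_nonneg (m + 1)
  have tp := tp_row m hG.tp
  have av : ∀ j : ℕ, d (m + 1) j - d m j ≤ j * z * d (m + 1) j := by
    intro j
    have := mul_le_mul_of_nonneg_left (hA j) z0.le
    have e1 : z * (((m : ℝ) + 1) * d (m + 1) j) = d (m + 1) j := by rw [← mul_assoc, z1, one_mul]
    have e2 : z * (((m : ℝ) + 1) * d m j) = d m j := by rw [← mul_assoc, z1, one_mul]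
    nlinarith [this, e1, e2]
  have s1 : ∀ j, 1 ≤ j → d m j ≤ (1 - z) * d (m + 1) j := by
    intro j hj
    have := tp 1 j hj
    rw [(d_small m).1, (d_small (m + 1)).1] at this
    push_cast at this
    have h2 := mul_le_mul_of_nonneg_left this z0.le
    have e1 : z * (d m j * ((m : ℝ) + 1)) = d m j := by rw [mul_comm (d m j), ← mul_assoc, z1, one_mul]
    have e2 : z * ((m : ℝ) * d (m + 1) j) = (1 - z) * d (m + 1) j := by
      rw [← mul_assoc]; congr 1; linarith
    linarith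
  have s2 : ∀ j, 2 ≤ j → d m j ≤ (1 - 2 * z) * d (m + 1) j := by
    intro j hj
    have := tp 2 j hj
    rw [(d_small m).2.1, (d_small (m + 1)).2.1] at this
    push_cast at this
    have h3 : d m j * ((m : ℝ) + 1) ≤ ((m : ℝ) - 1) * d (m + 1) j := by
      refine le_of_mul_le_mul_left ?_ (show (0 : ℝ) < m / 2 by linarith)
      nlinarith [this]
    have h2 := mul_le_mul_of_nonneg_left h3 z0.le
    have e1 : z * (d m j * ((m : ℝ) + 1)) = d m j := by rw [mul_comm (d m j), ← mul_assoc, z1, one_mul]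
    have e2 : z * (((m : ℝ) - 1) * d (m + 1) j) = (1 - 2 * z) * d (m + 1) j := by
      rw [← mul_assoc]; congr 1; linarith
    linarith
  -- the inherited gap
  set t := k / 2 with ht
  have hgt := hG t (by omega)
  set g : ℝ := gam t * (1 / ((m : ℝ) - 1)) with hgdef
  have w1 : (1 / ((m : ℝ) - 1)) * (m - 1) = 1 := one_div_mul_cancel (by linarith)
  have w0 : 0 < 1 / ((m : ℝ) - 1) := div_pos one_pos (by linarith)
  have gt0 := gam_nonneg t
  have gt1 := gam_le_one t
  have gk0 := gam_nonneg k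
  have gk1 := gam_le_one k
  have g0 : 0 ≤ g := mul_nonneg gt0 w0.le
  have hφ : gam t * y * (2 + g) ≤ g := by
    have h1 : y * (2 + g) ≤ 1 / ((m : ℝ) - 1) := by
      have h2 : g ≤ 1 / ((m : ℝ) - 1) := by rw [hgdef]; nlinarith
      have h3 : y * (2 + 1 / ((m : ℝ) - 1)) = 1 / ((m : ℝ) - 1) := by
        have : (m : ℝ) - 1 ≠ 0 := by linarith
        have : 2 * (m : ℝ) - 1 ≠ 0 := by linarith
        rw [hy]; field_simp; ring
      nlinarith
    rw [mul_assoc]; exact mul_le_mul_of_nonneg_left h1 gt0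
  have φ0 : 0 ≤ gam t * y := mul_nonneg gt0 y0.le
  have uu := mul_nonneg (hb (t + 1)) (hb' t)
  have φ1 : gam t * y ≤ 1 := by nlinarith
  obtain ⟨x1, x2⟩ := RX (d m) (d (m + 1)) hb hb' (gam t * y) k
    (by nlinarith [mul_nonneg (mul_nonneg φ0 g0) uu, mul_le_mul_of_nonneg_right hφ uu])
    (by nlinarith [mul_le_mul_of_nonneg_left hgt (sub_nonneg.2 φ1), mul_le_mul_of_nonneg_right hφ uu])
  -- constants
  set θ0 : ℝ := (17 / 32 : ℝ) ^ k with hθ0
  set θ1 : ℝ := (17 / 32 : ℝ) ^ (k + 1) with hθ1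
  have t0 : 0 ≤ θ0 := by positivity
  have t1 : 0 ≤ θ1 := by positivity
  set A : ℝ := θ1 * ((t : ℝ) + 1) with hAdef
  set B : ℝ := θ0 * (20 * k / 17 - 3) with hBdef
  have κ0 : (0 : ℝ) ≤ 20 * k / 17 - 3 := by linarith
  have A0 : 0 ≤ A := mul_nonneg t1 (by positivity)
  have B0 : 0 ≤ B := mul_nonneg t0 κ0
  have hl := loss k hk
  rw [← ht, ← hθ0, ← hθ1, ← hAdef, ← hBdef] at hl
  have l0 : 0 ≤ 1 - 2 * A * y := by nlinarith
  have u0 : 0 < 1 + 2 * B * y := by nlinarith [mul_nonneg B0 y0.le]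
  have hn : (1 + gam k * y) * (1 + 2 * B * y) ≤ (1 + gam t * y) * (1 - 2 * A * y) := by
    have a1 : A * gam t ≤ A := by nlinarith
    have a2 : B * gam k ≤ B := by nlinarith
    have a3 : 0 ≤ gam t - gam k - 2 * A - 2 * B - 2 * y * (A * gam t + B * gam k) := by
      nlinarith [mul_le_mul_of_nonneg_left (add_le_add a1 a2) y0.le,
        mul_le_mul_of_nonneg_right y31 (add_nonneg A0 B0)]
    nlinarith [mul_nonneg y0.le a3]
  have th0 := theta m hm k
  have th1 := theta m hm (k + 1)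
  rw [← hθ0] at th0
  rw [← hθ1] at th1
  have r1 := R1 (d m) (d (m + 1)) z hb hb' z0.le s1 s2 k hk
  have r1' := R1' (d m) (d (m + 1)) z hb hb' z0.le s1 s2 k hk
  have r2 := R2 (d m) (d (m + 1)) z hb hb' z0.le (d m) hb tp (k + 1)
  have r2' := R2 (d m) (d (m + 1)) z hb hb' z0.le (d (m + 1)) hb' tp (k + 1)
  have r3 := R3 (d m) (d (m + 1)) z hb hb' z0.le (d m) hb av k
  have r3' := R3 (d m) (d (m + 1)) z hb hb' z0.le (d (m + 1)) hb' av k
  rw [X_comm (d m) (d (m + 1))] at r2' r3'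
  rw [← ht] at r3 r3'
  have n00 := X_nonneg _ _ hb hb k
  have n10 := X_nonneg _ _ hb' hb k
  have n11 := X_nonneg _ _ hb' hb' k
  have m10 := X_nonneg _ _ hb' hb (k + 1)
  have m11 := X_nonneg _ _ hb' hb' (k + 1)
  have avk := av k
  have bk := hb k
  have bk' := hb' k
  have tz : 0 ≤ ((t : ℝ) + 1) * z := by positivity
  constructor
  · intro hkm
    refine fin_lemma _ _ _ _ (X (d m) (d m) k) (X (d (m + 1)) (d m) k) (X (d m) (d m) (k + 1))
      (X (d (m + 1)) (d m) (k + 1)) (1 + 2 * B * y) (1 - 2 * A * y) (1 + gam t * y) _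
      (d_nonneg _ _) (d_nonneg _ _) n00 m10 (X_pos _ _ _ (by omega) (by omega) (by omega))
      (X_pos _ _ _ (by omega) (by omega) (by omega)) u0 l0 ?_ ?_ x1 hn
    · -- upper bound
      have c0 := d_nonneg (2 * m) k
      have e0 : d (2 * m + 1) k * X (d m) (d m) k - d (2 * m) k * X (d (m + 1)) (d m) k =
          (d (m + 1) k - d m k) * X (d m) (d m) k -
            2 * d m k * (X (d (m + 1)) (d m) k - X (d m) (d m) k) := by
        rw [d_even, d_odd]; unfold J; ring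
      have e1 : 2 * d m k * (3 / 2 * z * X (d m) (d m) k) ≤
          2 * d m k * (X (d (m + 1)) (d m) k - X (d m) (d m) k) :=
        mul_le_mul_of_nonneg_left (by linarith) (by linarith)
      have e2 : (d (m + 1) k - d m k) - 3 * z * d m k ≤ z * (20 * k / 17 - 3) * d (m + 1) k := by
        have f1 := mul_le_mul_of_nonneg_left avk (show 0 ≤ 1 + 3 * z by linarith)
        have f2 : 0 ≤ z * k * d (m + 1) k := by positivity
        nlinarith [mul_le_mul_of_nonneg_left z17 f2]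
      have e3 := mul_le_mul_of_nonneg_right e2 n00
      have e4 : X (d m) (d m) k ≤ X (d (m + 1)) (d m) k := by nlinarith [mul_nonneg z0.le n00]
      have e5 : z * (20 * k / 17 - 3) * d (m + 1) k * X (d m) (d m) k ≤
          (2 * y) * (20 * k / 17 - 3) * (θ0 * d (2 * m) k) * X (d (m + 1)) (d m) k :=
        mul_le_mul (mul_le_mul (mul_le_mul_of_nonneg_right zy κ0) th0 bk' (by positivity)) e4 n00
          (by positivity)
      rw [hBdef]
      nlinarith [e0, e1, e3, e5]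
    · -- lower bound
      have c1 := d_nonneg (2 * m) (k + 1)
      have e0 : d (2 * m) (k + 1) * X (d (m + 1)) (d m) (k + 1) -
          d (2 * m + 1) (k + 1) * X (d m) (d m) (k + 1) =
          2 * d m (k + 1) * X (d (m + 1)) (d m) (k + 1) -
            (d m (k + 1) + d (m + 1) (k + 1)) * X (d m) (d m) (k + 1) := by
        rw [d_even, d_odd]; unfold J; ring
      have e1 := mul_le_mul_of_nonneg_left r3 (hb (k + 1))
      have e2 : d m (k + 1) * (((t : ℝ) + 1) * z * X (d (m + 1)) (d m) (k + 1)) ≤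
          (θ1 * d (2 * m) (k + 1)) * (((t : ℝ) + 1) * (2 * y) * X (d (m + 1)) (d m) (k + 1)) :=
        mul_le_mul ((d_succ m _).trans th1) (mul_le_mul_of_nonneg_right
          (mul_le_mul_of_nonneg_left zy (by positivity)) m10) (mul_nonneg tz m10) (by positivity)
      rw [hAdef]
      nlinarith [e0, e1, e2, r2]
  · intro hkm
    refine fin_lemma _ _ _ _ (X (d (m + 1)) (d m) k) (X (d (m + 1)) (d (m + 1)) k)
      (X (d (m + 1)) (d m) (k + 1)) (X (d (m + 1)) (d (m + 1)) (k + 1))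
      (1 + 2 * B * y) (1 - 2 * A * y) (1 + gam t * y) _
      (d_nonneg _ _) (d_nonneg _ _) n10 m11 (X_pos _ _ _ (by omega) (by omega) (by omega))
      (X_pos _ _ _ (by omega) (by omega) (by omega)) u0 l0 ?_ ?_ x2 hn
    · have c0 := d_nonneg (2 * m + 1) k
      have th0' : d (m + 1) k ≤ θ0 * d (2 * m + 1) k :=
        th0.trans (mul_le_mul_of_nonneg_left (d_succ _ _) t0)
      have e0 : d (2 * (m + 1)) k * X (d (m + 1)) (d m) k -
          d (2 * m + 1) k * X (d (m + 1)) (d (m + 1)) k =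
          (d (m + 1) k - d m k) * X (d (m + 1)) (d (m + 1)) k -
            2 * d (m + 1) k * (X (d (m + 1)) (d (m + 1)) k - X (d (m + 1)) (d m) k) := by
        rw [d_even, d_odd]; unfold J; ring
      have e1 : 2 * d (m + 1) k * (3 / 2 * z * X (d (m + 1)) (d (m + 1)) k) ≤
          2 * d (m + 1) k * (X (d (m + 1)) (d (m + 1)) k - X (d (m + 1)) (d m) k) :=
        mul_le_mul_of_nonneg_left (by linarith) (by linarith)
      have e2 : (d (m + 1) k - d m k) - 3 * z * d (m + 1) k ≤ z * (20 * k / 17 - 3) * d (m + 1) k := by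
        have f2 : 0 ≤ z * k * d (m + 1) k := by positivity
        nlinarith
      have e3 := mul_le_mul_of_nonneg_right e2 n11
      have e5 : z * (20 * k / 17 - 3) * d (m + 1) k * X (d (m + 1)) (d (m + 1)) k ≤
          (2 * y) * (20 * k / 17 - 3) * (θ0 * d (2 * m + 1) k) * X (d (m + 1)) (d (m + 1)) k :=
        mul_le_mul_of_nonneg_right
          (mul_le_mul (mul_le_mul_of_nonneg_right zy κ0) th0' bk' (by positivity)) n11
      rw [hBdef]
      nlinarith [e0, e1, e3, e5]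
    · have c1 := d_nonneg (2 * m + 1) (k + 1)
      have th1' : d (m + 1) (k + 1) ≤ θ1 * d (2 * m + 1) (k + 1) :=
        th1.trans (mul_le_mul_of_nonneg_left (d_succ _ _) t1)
      have e0 : d (2 * m + 1) (k + 1) * X (d (m + 1)) (d (m + 1)) (k + 1) -
          d (2 * (m + 1)) (k + 1) * X (d (m + 1)) (d m) (k + 1) =
          (d m (k + 1) + d (m + 1) (k + 1)) * X (d (m + 1)) (d (m + 1)) (k + 1) -
            2 * d (m + 1) (k + 1) * X (d (m + 1)) (d m) (k + 1) := by
        rw [d_even, d_odd]; unfold J; ring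
      have e1 := mul_le_mul_of_nonneg_left r3' (hb' (k + 1))
      have e2 : d (m + 1) (k + 1) * (((t : ℝ) + 1) * z * X (d (m + 1)) (d (m + 1)) (k + 1)) ≤
          (θ1 * d (2 * m + 1) (k + 1)) *
            (((t : ℝ) + 1) * (2 * y) * X (d (m + 1)) (d (m + 1)) (k + 1)) :=
        mul_le_mul th1' (mul_le_mul_of_nonneg_right
          (mul_le_mul_of_nonneg_left zy (by positivity)) m11) (mul_nonneg tz m11) (by positivity)
      rw [hAdef]
      nlinarith [e0, e1, e2, r2']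

theorem gap_step (n : ℕ) (hG : ∀ z, z < n → Gap z) (hA : ∀ z, z < n → Avg z) : Gap n := by
  intro k hk
  by_cases hn : n < k + 1
  · rw [d_lt n _ hn, zero_mul, mul_zero]; exact mul_nonneg (d_nonneg _ _) (d_nonneg _ _)
  have h2 : (2 : ℝ) ≤ n := by exact_mod_cast (by omega : 2 ≤ n)
  have hne : (n : ℝ) - 1 ≠ 0 := by linarith
  obtain ⟨a1, a2, a3⟩ := d_small n
  obtain ⟨b1, b2, b3⟩ := d_small (n + 1)
  push_cast at b1 b2 b3
  by_cases hk1 : k = 1
  · subst hk1
    rw [show (1 : ℕ) + 1 = 2 from rfl, a1, a2, b1, b2, show gam 1 = 1 by simp [gam]]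
    apply le_of_eq; field_simp; ring
  by_cases hk2 : k = 2
  · subst hk2
    rw [show (2 : ℕ) + 1 = 3 from rfl, a2, a3, b2, b3, show gam 2 = 1 by simp [gam]]
    have e : (1 + 1 * (1 / ((n : ℝ) - 1))) * (n * (n - 1) * (n - 2) / 6 * ((n + 1) * (n + 1 - 1) / 2)) =
        n * n * (n + 1) * (n * (n - 2)) / 12 := by field_simp; ring
    rw [e]
    have p : (0 : ℝ) ≤ n * n * (n + 1) := by positivity
    nlinarith [p]
  have q := mul_nonneg (d_nonneg n (k + 1)) (d_nonneg (n + 1) k)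
  by_cases h32 : n < 32
  · have h := finG n k h32 (by omega) (by omega)
    have h' : (20 * ((n : ℝ) - 1) + 9) * (d n (k + 1) * d (n + 1) k) ≤
        20 * ((n : ℝ) - 1) * (d n k * d (n + 1) (k + 1)) := by
      unfold d
      have e : ((n - 1 : ℕ) : ℝ) = n - 1 := by rw [Nat.cast_sub (by omega)]; simp
      rw [← e]; exact_mod_cast h
    have w0 : 0 < 1 / ((n : ℝ) - 1) := div_pos one_pos (by linarith)
    have w1 : (1 / ((n : ℝ) - 1)) * (n - 1) = 1 := one_div_mul_cancel hne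
    have g1 : 1 + gam k * (1 / ((n : ℝ) - 1)) ≤ 1 + 9 / 20 * (1 / ((n : ℝ) - 1)) := by
      nlinarith [gam_le k (by omega)]
    refine (mul_le_mul_of_nonneg_right g1 q).trans ?_
    refine le_of_mul_le_mul_left ?_ (show (0 : ℝ) < 20 * (n - 1) by linarith)
    have e : 20 * ((n : ℝ) - 1) * (1 + 9 / 20 * (1 / ((n : ℝ) - 1))) = 20 * (n - 1) + 9 := by
      field_simp
    rw [← mul_assoc, e]; exact h'
  · obtain ⟨m, rfl | rfl⟩ := Nat.even_or_odd' n
    · have := (gap_big m (by omega) (hG m (by omega)) (hA m (by omega)) k (by omega)).1 (by omega)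
      push_cast; exact this
    · have := (gap_big m (by omega) (hG m (by omega)) (hA m (by omega)) k (by omega)).2 (by omega)
      rw [show 2 * m + 1 + 1 = 2 * (m + 1) by ring] at q ⊢
      refine le_trans (mul_le_mul_of_nonneg_right ?_ q) this
      have hm : (16 : ℝ) ≤ m := by exact_mod_cast (by omega : 16 ≤ m)
      have : 1 / (((2 * m + 1 : ℕ) : ℝ) - 1) ≤ 1 / (2 * (m : ℝ) - 1) := by
        push_cast; exact one_div_le_one_div_of_le (by linarith) (by linarith)
      nlinarith [gam_nonneg k]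

theorem all (n : ℕ) : Main n ∧ Avg n ∧ Gap n := by
  induction n using Nat.strong_induction_on with
  | _ n ih =>
    have hM := main_step n (fun z hz => (ih z hz).1) (fun z hz => (ih z hz).2.2.tp)
    exact ⟨hM, avg_step n (fun z hz => (ih z hz).2.1) hM,
      gap_step n (fun z hz => (ih z hz).2.2) (fun z hz => (ih z hz).2.1)⟩

theorem extremal (a b k : ℕ) : J (d a) (d b) k ≤ d (a + b) k := (all (a + b)).1 a b rfl k

end Pool.Agent.H7.EvenTree
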