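import Pool.Agent.H7.EvenTree4

/-! Laminar families and leaf sets inducing even trees. -/

set_option autoImplicit false

namespace Pool.Agent.H7.EvenTree

open Finset

variable {α : Type} [DecidableEq α]

/-- the traces of the family `T` on the set form an even tree -/
inductive Good (T : Finset (Finset α)) : Finset α → Prop
  | one (a : α) : Good T {a}
  | join (L1 L2 A1 A2 : Finset α) : Good T L1 → Good T L2 → Disjoint L1 L2 →
      L1.card ≤ L2.card + 1 → L2.card ≤ L1.card + 1 → A1 ∈ T → A2 ∈ T →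
      A1 ∩ (L1 ∪ L2) = L1 → A2 ∩ (L1 ∪ L2) = L2 → Good T (L1 ∪ L2)

theorem Good.nonempty {T : Finset (Finset α)} {L : Finset α} (h : Good T L) : L.Nonempty := by
  induction h with
  | one a => exact singleton_nonempty a
  | join L1 L2 A1 A2 _ _ _ _ _ _ _ _ _ ih _ => exact ih.mono subset_union_left

def Lam (T : Finset (Finset α)) : Prop := ∀ A ∈ T, ∀ B ∈ T, A ⊆ B ∨ B ⊆ A ∨ Disjoint A B

theorem side {T : Finset (Finset α)} (hT : Lam T) {B D A L L1 : Finset α} (hB : B ∈ T) (hD : D ∈ T)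
    (hA : A ∈ T) (hL : L ⊆ B ∪ D) (hAL : A ∩ L = L1) (hne : L1 ≠ L) : L1 ⊆ B ∨ L1 ⊆ D := by
  subst hAL
  rcases hT A hA B hB with h | h | h
  · exact Or.inl (inter_subset_left.trans h)
  · rcases hT A hA D hD with h' | h' | h'
    · exact Or.inr (inter_subset_left.trans h')
    · exact absurd (inter_eq_right.2 (hL.trans (union_subset h h'))) hne
    · left
      intro x hx
      rcases mem_union.1 (hL (mem_inter.1 hx).2) with h1 | h1
      · exact h1
      · exact absurd h1 (disjoint_left.1 h' (mem_inter.1 hx).1)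
  · right
    intro x hx
    rcases mem_union.1 (hL (mem_inter.1 hx).2) with h1 | h1
    · exact absurd h1 (disjoint_left.1 h (mem_inter.1 hx).1)
    · exact h1

theorem inter_left_of {B D L1 L2 : Finset α} (hBD : Disjoint B D) (h1 : L1 ⊆ B) (h2 : L2 ⊆ D) :
    B ∩ (L1 ∪ L2) = L1 := by
  ext x
  simp only [mem_inter, mem_union]
  constructor
  · rintro ⟨hx, h | h⟩
    · exact h
    · exact absurd (h2 h) (disjoint_left.1 hBD hx)
  · intro h; exact ⟨h1 h, Or.inl h⟩

theorem split {T : Finset (Finset α)} (hT : Lam T) {B D L : Finset α} (hB : B ∈ T) (hD : D ∈ T)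
    (hL : L ⊆ B ∪ D) (hG : Good T L) (h1 : ¬ L ⊆ B) (h2 : ¬ L ⊆ D) :
    ∃ L1 L2, L1 ⊆ B ∧ L2 ⊆ D ∧ Good T L1 ∧ Good T L2 ∧ L1.card ≤ L2.card + 1 ∧
      L2.card ≤ L1.card + 1 ∧ L1 ∪ L2 = L := by
  cases hG with
  | one a =>
    rcases mem_union.1 (hL (mem_singleton_self a)) with h | h
    · exact absurd (singleton_subset_iff.2 h) h1
    · exact absurd (singleton_subset_iff.2 h) h2
  | join L1 L2 A1 A2 g1 g2 hd c1 c2 a1 a2 e1 e2 =>
    have n1 : L1 ≠ L1 ∪ L2 := by
      intro h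
      obtain ⟨x, hx⟩ := g2.nonempty
      exact disjoint_left.1 hd (h ▸ mem_union_right L1 hx) hx
    have n2 : L2 ≠ L1 ∪ L2 := by
      intro h
      obtain ⟨x, hx⟩ := g1.nonempty
      exact disjoint_left.1 hd hx (h ▸ mem_union_left L2 hx)
    rcases side hT hB hD a1 hL e1 n1 with s1 | s1 <;> rcases side hT hB hD a2 hL e2 n2 with s2 | s2
    · exact absurd (union_subset s1 s2) h1
    · exact ⟨L1, L2, s1, s2, g1, g2, c1, c2, rfl⟩
    · exact ⟨L2, L1, s2, s1, g2, g1, c2, c1, union_comm _ _⟩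
    · exact absurd (union_subset s1 s2) h2

open Classical in
/-- good subsets of `U` of size `k` -/
noncomputable def GS (T : Finset (Finset α)) (U : Finset α) (k : ℕ) : Finset (Finset α) :=
  U.powerset.filter (fun L => L.card = k ∧ Good T L)

theorem mem_GS {T : Finset (Finset α)} {U L : Finset α} {k : ℕ} :
    L ∈ GS T U k ↔ L ⊆ U ∧ L.card = k ∧ Good T L := by
  unfold GS; simp only [mem_filter, mem_powerset]

/-- pairs of good subsets of balanced sizes -/
noncomputable def PS (T : Finset (Finset α)) (B D : Finset α) (k : ℕ) :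
    Finset (Finset α × Finset α) :=
  if k % 2 = 0 then GS T B (k / 2) ×ˢ GS T D (k / 2)
  else (GS T B (k / 2) ×ˢ GS T D (k / 2 + 1)) ∪ (GS T B (k / 2 + 1) ×ˢ GS T D (k / 2))

theorem mem_PS {T : Finset (Finset α)} {B D : Finset α} {k : ℕ} {p : Finset α × Finset α} :
    p ∈ PS T B D k ↔ p.1 ⊆ B ∧ p.2 ⊆ D ∧ Good T p.1 ∧ Good T p.2 ∧ p.1.card ≤ p.2.card + 1 ∧
      p.2.card ≤ p.1.card + 1 ∧ p.1.card + p.2.card = k := by
  unfold PS
  split_ifs with h
  · simp only [mem_product, mem_GS]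
    constructor
    · rintro ⟨⟨a, b, c⟩, a', b', c'⟩
      exact ⟨a, a', c, c', by omega, by omega, by omega⟩
    · rintro ⟨a, a', c, c', h1, h2, h3⟩
      exact ⟨⟨a, by omega, c⟩, a', by omega, c'⟩
  · simp only [mem_union, mem_product, mem_GS]
    constructor
    · rintro (⟨⟨a, b, c⟩, a', b', c'⟩ | ⟨⟨a, b, c⟩, a', b', c'⟩)
      · exact ⟨a, a', c, c', by omega, by omega, by omega⟩
      · exact ⟨a, a', c, c', by omega, by omega, by omega⟩
    · rintro ⟨a, a', c, c', h1, h2, h3⟩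
      by_cases h4 : p.1.card = k / 2
      · exact Or.inl ⟨⟨a, h4, c⟩, a', by omega, c'⟩
      · exact Or.inr ⟨⟨a, by omega, c⟩, a', by omega, c'⟩

theorem card_PS (T : Finset (Finset α)) (B D : Finset α) (k : ℕ) :
    (PS T B D k).card = X (fun i => (GS T B i).card) (fun i => (GS T D i).card) k := by
  unfold PS X
  split_ifs with h
  · rw [card_product]
  · rw [card_union_of_disjoint, card_product, card_product]
    rw [disjoint_left]
    intro p h1 h2
    have a := (mem_GS.1 (mem_product.1 h1).1).2.1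
    have b := (mem_GS.1 (mem_product.1 h2).1).2.1
    omega

theorem card_GS_union {T : Finset (Finset α)} (hT : Lam T) {B D : Finset α} (hB : B ∈ T)
    (hD : D ∈ T) (hBD : Disjoint B D) (k : ℕ) :
    (GS T (B ∪ D) k).card = J (fun i => (GS T B i).card) (fun i => (GS T D i).card) k := by
  have e : GS T (B ∪ D) k = (GS T B k ∪ GS T D k) ∪ (PS T B D k).image (fun p => p.1 ∪ p.2) := by
    ext L
    simp only [mem_union, mem_image, mem_GS, mem_PS]
    constructor
    · rintro ⟨hL, hk, hG⟩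
      by_cases h1 : L ⊆ B
      · exact Or.inl (Or.inl ⟨h1, hk, hG⟩)
      by_cases h2 : L ⊆ D
      · exact Or.inl (Or.inr ⟨h2, hk, hG⟩)
      obtain ⟨L1, L2, s1, s2, g1, g2, c1, c2, rfl⟩ := split hT hB hD hL hG h1 h2
      refine Or.inr ⟨(L1, L2), ⟨s1, s2, g1, g2, c1, c2, ?_⟩, rfl⟩
      rw [← hk, card_union_of_disjoint (hBD.mono s1 s2)]
    · rintro ((⟨h, hk, hG⟩ | ⟨h, hk, hG⟩) | ⟨p, ⟨s1, s2, g1, g2, c1, c2, c3⟩, rfl⟩)
      · exact ⟨h.trans subset_union_left, hk, hG⟩
      · exact ⟨h.trans subset_union_right, hk, hG⟩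
      · refine ⟨union_subset_union s1 s2, ?_, ?_⟩
        · rw [card_union_of_disjoint (hBD.mono s1 s2), c3]
        · refine Good.join _ _ B D g1 g2 (hBD.mono s1 s2) c1 c2 hB hD (inter_left_of hBD s1 s2) ?_
          rw [union_comm]; exact inter_left_of hBD.symm s2 s1
  rw [e, card_union_of_disjoint, card_union_of_disjoint, card_image_of_injOn, card_PS]
  · rfl
  · intro p hp q hq hpq
    obtain ⟨s1, s2, -⟩ := mem_PS.1 (mem_coe.1 hp)
    obtain ⟨r1, r2, -⟩ := mem_PS.1 (mem_coe.1 hq)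
    have hpq' : p.1 ∪ p.2 = q.1 ∪ q.2 := hpq
    apply Prod.ext
    · rw [← inter_left_of hBD s1 s2, hpq', inter_left_of hBD r1 r2]
    · rw [← inter_left_of hBD.symm s2 s1, union_comm, hpq', union_comm,
        inter_left_of hBD.symm r2 r1]
  · rw [disjoint_left]
    intro L h1 h2
    obtain ⟨x, hx⟩ := (mem_GS.1 h1).2.2.nonempty
    exact disjoint_left.1 hBD ((mem_GS.1 h1).1 hx) ((mem_GS.1 h2).1 hx)
  · rw [disjoint_left]
    intro L h1 h2
    obtain ⟨p, hp, rfl⟩ := mem_image.1 h2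
    obtain ⟨s1, s2, g1, g2, -⟩ := mem_PS.1 hp
    rcases mem_union.1 h1 with h | h
    · obtain ⟨x, hx⟩ := g2.nonempty
      exact disjoint_left.1 hBD ((mem_GS.1 h).1 (mem_union_right _ hx)) (s2 hx)
    · obtain ⟨x, hx⟩ := g1.nonempty
      exact disjoint_left.1 hBD (s1 hx) ((mem_GS.1 h).1 (mem_union_left _ hx))

theorem card_GS_single (T : Finset (Finset α)) (a : α) (k : ℕ) :
    ((GS T {a} k).card : ℝ) = d 1 k := by
  rw [d_one]
  split_ifs with h
  · have : GS T {a} k = {{a}} := by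
      ext L
      rw [mem_GS, mem_singleton]
      constructor
      · rintro ⟨h1, -, h3⟩
        exact (subset_singleton_iff.1 h1).resolve_left h3.nonempty.ne_empty
      · rintro rfl
        exact ⟨subset_rfl, by rw [card_singleton, h], Good.one a⟩
    rw [this]; simp
  · have : GS T {a} k = ∅ := by
      rw [eq_empty_iff_forall_notMem]
      intro L hL
      obtain ⟨h1, h2, h3⟩ := mem_GS.1 hL
      rw [(subset_singleton_iff.1 h1).resolve_left h3.nonempty.ne_empty, card_singleton] at h2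
      exact h h2.symm
    rw [this]; simp

theorem upper {T : Finset (Finset α)} (hT : Lam T) (hne : ∀ A ∈ T, A.Nonempty)
    (hs : ∀ A ∈ T, 2 ≤ A.card → ∃ B ∈ T, ∃ D ∈ T, Disjoint B D ∧ B ∪ D = A) (n : ℕ) :
    ∀ U ∈ T, U.card = n → ∀ k, ((GS T U k).card : ℝ) ≤ d n k := by
  induction n using Nat.strong_induction_on with
  | _ n ih =>
    intro U hU hn k
    by_cases h2 : 2 ≤ U.card
    · obtain ⟨B, hB, D, hD, hBD, rfl⟩ := hs U hU h2
      rw [card_union_of_disjoint hBD] at hn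
      have pB := (hne B hB).card_pos
      have pD := (hne D hD).card_pos
      rw [card_GS_union hT hB hD hBD, cast_J, ← hn]
      refine le_trans (J_mono _ _ (d B.card) (d D.card) (fun _ => Nat.cast_nonneg _)
        (fun _ => Nat.cast_nonneg _) (ih _ (by omega) B hB rfl) (ih _ (by omega) D hD rfl) k)
        (extremal _ _ k)
    · have pU := (hne U hU).card_pos
      obtain ⟨a, rfl⟩ := card_eq_one.1 (show U.card = 1 by omega)
      rw [card_GS_single, ← hn, card_singleton]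

theorem child_bal {T : Finset (Finset α)} (hT : Lam T) (hne : ∀ A ∈ T, A.Nonempty)
    (hev : ∀ A ∈ T, ∀ B ∈ T, B ⊂ A → (∀ D ∈ T, B ⊆ D → D ⊆ A → D = B ∨ D = A) →
      A.card ≤ 2 * B.card + 1 ∧ 2 * B.card ≤ A.card + 1)
    {B D : Finset α} (hB : B ∈ T) (hD : D ∈ T) (hBD : Disjoint B D) (hU : B ∪ D ∈ T) :
    B.card ≤ D.card + 1 ∧ D.card ≤ B.card + 1 := by
  have pD := (hne D hD).card_pos
  have h := hev _ hU B hB (by
    refine Finset.ssubset_iff_subset_ne.2 ⟨subset_union_left, fun h => ?_⟩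
    have := congrArg card h
    rw [card_union_of_disjoint hBD] at this
    omega) (by
    intro C hC h1 h2
    rcases hT C hC D hD with h | h | h
    · obtain ⟨x, hx⟩ := hne B hB
      exact absurd (h (h1 hx)) (disjoint_left.1 hBD hx)
    · exact Or.inr (subset_antisymm h2 (union_subset h1 h))
    · left
      refine subset_antisymm (fun x hx => ?_) h1
      rcases mem_union.1 (h2 hx) with h3 | h3
      · exact h3
      · exact absurd h3 (disjoint_left.1 h hx))
  rw [card_union_of_disjoint hBD] at h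
  omega

theorem exact_even {T : Finset (Finset α)} (hT : Lam T) (hne : ∀ A ∈ T, A.Nonempty)
    (hs : ∀ A ∈ T, 2 ≤ A.card → ∃ B ∈ T, ∃ D ∈ T, Disjoint B D ∧ B ∪ D = A)
    (hev : ∀ A ∈ T, ∀ B ∈ T, B ⊂ A → (∀ D ∈ T, B ⊆ D → D ⊆ A → D = B ∨ D = A) →
      A.card ≤ 2 * B.card + 1 ∧ 2 * B.card ≤ A.card + 1) (n : ℕ) :
    ∀ U ∈ T, U.card = n → ∀ k, ((GS T U k).card : ℝ) = d n k := by
  induction n using Nat.strong_induction_on with
  | _ n ih =>
    intro U hU hn k
    by_cases h2 : 2 ≤ U.card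
    · obtain ⟨B, hB, D, hD, hBD, rfl⟩ := hs U hU h2
      obtain ⟨c1, c2⟩ := child_bal hT hne hev hB hD hBD hU
      rw [card_union_of_disjoint hBD] at hn
      have pB := (hne B hB).card_pos
      have pD := (hne D hD).card_pos
      rw [card_GS_union hT hB hD hBD, cast_J, ← hn, ← d_bal _ _ k c1 c2]
      congr 1
      · exact funext (ih _ (by omega) B hB rfl)
      · exact funext (ih _ (by omega) D hD rfl)
    · have pU := (hne U hU).card_pos
      obtain ⟨a, rfl⟩ := card_eq_one.1 (show U.card = 1 by omega)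
      rw [card_GS_single, ← hn, card_singleton]

variable {β : Type} [DecidableEq β]

theorem good_of_copy {F : Finset (Finset β)} (hF : Lam F) (hne : ∀ A ∈ F, A.Nonempty)
    (hs : ∀ A ∈ F, 2 ≤ A.card → ∃ B ∈ F, ∃ D ∈ F, Disjoint B D ∧ B ∪ D = A)
    (hev : ∀ A ∈ F, ∀ B ∈ F, B ⊂ A → (∀ D ∈ F, B ⊆ D → D ⊆ A → D = B ∨ D = A) →
      A.card ≤ 2 * B.card + 1 ∧ 2 * B.card ≤ A.card + 1)
    {T : Finset (Finset α)} {L : Finset α} {f : β → α} (hf : Function.Injective f)
    (hc : ∀ B ∈ F, ∃ A ∈ T, B.image f = A ∩ L) (n : ℕ) :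
    ∀ B ∈ F, B.card = n → Good T (B.image f) := by
  induction n using Nat.strong_induction_on with
  | _ n ih =>
    intro U hU hn
    by_cases h2 : 2 ≤ U.card
    · obtain ⟨B, hB, D, hD, hBD, rfl⟩ := hs U hU h2
      obtain ⟨c1, c2⟩ := child_bal hF hne hev hB hD hBD hU
      rw [card_union_of_disjoint hBD] at hn
      have pB := (hne B hB).card_pos
      have pD := (hne D hD).card_pos
      obtain ⟨A1, a1, e1⟩ := hc B hB
      obtain ⟨A2, a2, e2⟩ := hc D hD
      rw [image_union]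
      refine Good.join _ _ A1 A2 (ih _ (by omega) B hB rfl) (ih _ (by omega) D hD rfl)
        ((disjoint_image hf).2 hBD) (by rwa [card_image_of_injective _ hf, card_image_of_injective _ hf])
        (by rwa [card_image_of_injective _ hf, card_image_of_injective _ hf]) a1 a2 ?_ ?_
      · rw [e1, e2]; ext x; simp only [mem_inter, mem_union]; tauto
      · rw [e1, e2]; ext x; simp only [mem_inter, mem_union]; tauto
    · have pU := (hne U hU).card_pos
      obtain ⟨a, rfl⟩ := card_eq_one.1 (show U.card = 1 by omega)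
      rw [image_singleton]; exact Good.one _

/-- `f` identifies the part of `F` below `B0` with the traces of `E` on `L` -/
def Copy (F : Finset (Finset β)) (E : Finset (Finset α)) (B0 : Finset β) (L : Finset α)
    (f : β → α) : Prop :=
  Set.InjOn f B0 ∧ B0.image f = L ∧
    ∀ B, B ⊆ B0 → (B ∈ F ↔ B.Nonempty ∧ ∃ A ∈ E, B.image f = A ∩ L)

theorem Copy.congr {F : Finset (Finset β)} {E : Finset (Finset α)} {B0 : Finset β} {L : Finset α}
    {f g : β → α} (h : Copy F E B0 L f) (hfg : ∀ i ∈ B0, f i = g i) : Copy F E B0 L g := by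
  have e : ∀ B, B ⊆ B0 → B.image g = B.image f := fun B hB =>
    image_congr (fun i hi => (hfg i (hB hi)).symm)
  refine ⟨fun i hi j hj hij => h.1 hi hj ?_, by rw [e _ subset_rfl, h.2.1], fun B hB => ?_⟩
  · rw [hfg i hi, hfg j hj, hij]
  · rw [e B hB]; exact h.2.2 B hB

theorem half {F : Finset (Finset β)} {E : Finset (Finset α)} (hE : Lam E) {B1 : Finset β}
    {L L1 A1 : Finset α} {f : β → α} (h : Copy F E B1 L1 f) (a1 : A1 ∈ E) (e1 : A1 ∩ L = L1)
    (B : Finset β) (hB : B ⊆ B1) : B ∈ F ↔ B.Nonempty ∧ ∃ A ∈ E, B.image f = A ∩ L := by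
  rw [h.2.2 B hB]
  have hsub : B.image f ⊆ L1 := h.2.1 ▸ image_subset_image hB
  constructor
  · rintro ⟨hne, A, hA, e⟩
    refine ⟨hne, ?_⟩
    rcases hE A hA A1 a1 with h1 | h1 | h1
    · exact ⟨A, hA, by rw [e, ← e1, ← inter_assoc, inter_eq_left.2 h1]⟩
    · exact ⟨A1, a1, by rw [e, ← e1, ← inter_assoc, inter_eq_right.2 h1]⟩
    · obtain ⟨x, hx⟩ := hne.image f
      rw [e, ← e1] at hx
      exact absurd (mem_inter.1 (mem_inter.1 hx).2).1 (disjoint_left.1 h1 (mem_inter.1 hx).1)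
  · rintro ⟨hne, A, hA, e⟩
    refine ⟨hne, A, hA, subset_antisymm (subset_inter (e ▸ inter_subset_left) hsub) ?_⟩
    rw [e, ← e1]
    exact inter_subset_inter subset_rfl inter_subset_right

theorem glue {F : Finset (Finset β)} {E : Finset (Finset α)} (hF : Lam F) (hE : Lam E)
    (htop : ∃ U ∈ E, ∀ x, x ∈ U) {B1 B2 : Finset β} (b1 : B1 ∈ F) (b2 : B2 ∈ F)
    (b0 : B1 ∪ B2 ∈ F) (hne : (B1 ∪ B2).Nonempty) (hd : Disjoint B1 B2)
    {L1 L2 A1 A2 : Finset α} (hL : Disjoint L1 L2) (a1 : A1 ∈ E) (a2 : A2 ∈ E)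
    (e1 : A1 ∩ (L1 ∪ L2) = L1) (e2 : A2 ∩ (L1 ∪ L2) = L2) {f1 f2 : β → α}
    (h1 : Copy F E B1 L1 f1) (h2 : Copy F E B2 L2 f2) :
    ∃ f, Copy F E (B1 ∪ B2) (L1 ∪ L2) f := by
  let f : β → α := fun i => if i ∈ B1 then f1 i else f2 i
  have k1 : Copy F E B1 L1 f := h1.congr (fun i hi => by simp [f, hi])
  have k2 : Copy F E B2 L2 f := h2.congr (fun i hi => by simp [f, disjoint_right.1 hd hi])
  have m1 : ∀ i ∈ B1, f i ∈ L1 := fun i hi => k1.2.1 ▸ mem_image_of_mem f hi
  have m2 : ∀ i ∈ B2, f i ∈ L2 := fun i hi => k2.2.1 ▸ mem_image_of_mem f hi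
  have inj : Set.InjOn f (B1 ∪ B2 : Finset β) := by
    intro i hi j hj hij
    rcases mem_union.1 (mem_coe.1 hi) with hi | hi <;> rcases mem_union.1 (mem_coe.1 hj) with hj | hj
    · exact k1.1 hi hj hij
    · exact absurd (hij ▸ m2 j hj) (disjoint_left.1 hL (m1 i hi))
    · exact absurd (hij ▸ m2 i hi) (disjoint_left.1 hL (m1 j hj))
    · exact k2.1 hi hj hij
  have im : (B1 ∪ B2).image f = L1 ∪ L2 := by rw [image_union, k1.2.1, k2.2.1]
  refine ⟨f, inj, im, fun B hB => ?_⟩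
  by_cases s1 : B ⊆ B1
  · exact half hE k1 a1 e1 B s1
  by_cases s2 : B ⊆ B2
  · exact half hE k2 a2 e2 B s2
  constructor
  · intro hBF
    have : B = B1 ∪ B2 := by
      by_contra hc
      rcases side hF b1 b2 hBF subset_rfl (inter_eq_left.2 hB) hc with h | h
      · exact s1 h
      · exact s2 h
    subst this
    obtain ⟨U, hU, hall⟩ := htop
    exact ⟨hne, U, hU, by rw [im, inter_eq_right.2 (fun x _ => hall x)]⟩
  · rintro ⟨-, A, hA, e⟩
    have hLA : L1 ∪ L2 ⊆ A1 ∪ A2 :=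
      union_subset_union (e1 ▸ inter_subset_left) (e2 ▸ inter_subset_left)
    by_cases hc : B.image f = L1 ∪ L2
    · have : B = B1 ∪ B2 := by
        apply eq_of_subset_of_card_le hB
        rw [← card_image_of_injOn inj, im, ← hc]
        exact card_image_le
      rw [this]; exact b0
    · exfalso
      have hsub : B.image f ⊆ L1 ∪ L2 := e ▸ inter_subset_right
      rcases side hE a1 a2 hA hLA e.symm hc with h | h
      · apply s1
        intro i hi
        have : f i ∈ L1 := e1 ▸ mem_inter.2 ⟨h (mem_image_of_mem f hi), hsub (mem_image_of_mem f hi)⟩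
        rcases mem_union.1 (hB hi) with h3 | h3
        · exact h3
        · exact absurd (m2 i h3) (disjoint_left.1 hL this)
      · apply s2
        intro i hi
        have : f i ∈ L2 := e2 ▸ mem_inter.2 ⟨h (mem_image_of_mem f hi), hsub (mem_image_of_mem f hi)⟩
        rcases mem_union.1 (hB hi) with h3 | h3
        · exact absurd this (disjoint_left.1 hL (m1 i h3))
        · exact h3

theorem copy_of_good {F : Finset (Finset β)} (hF : Lam F) (hne : ∀ A ∈ F, A.Nonempty)
    (hs : ∀ A ∈ F, 2 ≤ A.card → ∃ B ∈ F, ∃ D ∈ F, Disjoint B D ∧ B ∪ D = A)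
    (hev : ∀ A ∈ F, ∀ B ∈ F, B ⊂ A → (∀ D ∈ F, B ⊆ D → D ⊆ A → D = B ∨ D = A) →
      A.card ≤ 2 * B.card + 1 ∧ 2 * B.card ≤ A.card + 1)
    {E : Finset (Finset α)} (hE : Lam E) (htop : ∃ U ∈ E, ∀ x, x ∈ U) {L : Finset α}
    (hG : Good E L) : ∀ B0 ∈ F, B0.card = L.card → ∃ f, Copy F E B0 L f := by
  induction hG with
  | one a =>
    intro B0 hB0 hc
    obtain ⟨i, rfl⟩ := card_eq_one.1 (hc.trans (card_singleton a))
    refine ⟨fun _ => a, by simp, by simp, fun B hB => ?_⟩
    rcases subset_singleton_iff.1 hB with rfl | rfl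
    · constructor
      · intro h; exact absurd (hne _ h) not_nonempty_empty
      · intro h; exact absurd h.1 not_nonempty_empty
    · obtain ⟨U, hU, hall⟩ := htop
      exact ⟨fun _ => ⟨singleton_nonempty i, U, hU, by
        rw [image_singleton, inter_eq_right.2 (fun x _ => hall x)]⟩, fun _ => hB0⟩
  | join L1 L2 A1 A2 g1 g2 hd c1 c2 a1 a2 e1 e2 ih1 ih2 =>
    intro B0 hB0 hc
    rw [card_union_of_disjoint hd] at hc
    have p1 := g1.nonempty.card_pos
    have p2 := g2.nonempty.card_pos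
    obtain ⟨B, hB, D, hD, hBD, rfl⟩ := hs B0 hB0 (by omega)
    obtain ⟨d1, d2⟩ := child_bal hF hne hev hB hD hBD hB0
    rw [card_union_of_disjoint hBD] at hc
    by_cases h : B.card = L1.card
    · obtain ⟨f1, h1⟩ := ih1 B hB h
      obtain ⟨f2, h2⟩ := ih2 D hD (by omega)
      exact glue hF hE htop hB hD hB0 (hne _ hB0) hBD hd a1 a2 e1 e2 h1 h2
    · obtain ⟨f1, h1⟩ := ih1 D hD (by omega)
      obtain ⟨f2, h2⟩ := ih2 B hB (by omega)
      rw [union_comm B D] at hB0 ⊢
      exact glue hF hE htop hD hB hB0 (hne _ hB0) hBD.symm hd a1 a2 e1 e2 h1 h2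

end Pool.Agent.H7.EvenTree
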