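import Mathlib

namespace Pool.Agent.H7.Flip

open SimpleGraph Finset

/-- `B` (blue edges) and `R` (red edges) form a `(b,r)`-flip graph `B ⊔ R`. -/
def IsFlip {V : Type} (b r : ℕ) (B R : SimpleGraph V) : Prop :=
  Disjoint B R ∧ (∀ v, (B.neighborSet v).ncard = b) ∧ (∀ v, (R.neighborSet v).ncard = r) ∧
    ∀ v, (R.induce (insert v ((B ⊔ R).neighborSet v))).edgeSet.ncard <
      (B.induce (insert v ((B ⊔ R).neighborSet v))).edgeSet.ncard

/-- The orders of `(b,r)`-flip graphs. -/
def orders (b r : ℕ) : Set ℕ :=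
  {n | ∃ (V : Type) (_ : Finite V), Nonempty V ∧ Nat.card V = n ∧
    ∃ B R : SimpleGraph V, IsFlip b r B R}

open Classical in
theorem two_mul {V : Type} [Fintype V] (H : SimpleGraph V) (S : Set V) :
    2 * (H.induce S).edgeSet.ncard =
      #(univ.filter fun q : V × V => q.1 ∈ S ∧ q.2 ∈ S ∧ H.Adj q.1 q.2) := by
  rw [← coe_edgeFinset, Set.ncard_coe_finset, two_mul_card_edgeFinset]
  refine card_bij (fun q _ => (q.1.1, q.2.1)) ?_ ?_ ?_
  · rintro ⟨x, y⟩ h
    simp only [mem_filter, mem_univ, true_and] at h ⊢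
    exact ⟨x.2, y.2, h⟩
  · rintro ⟨x, y⟩ - ⟨z, w⟩ - h
    simp only [Prod.mk.injEq] at h
    exact Prod.ext (Subtype.ext h.1) (Subtype.ext h.2)
  · rintro ⟨x, y⟩ h
    simp only [mem_filter, mem_univ, true_and] at h
    exact ⟨(⟨x, h.1⟩, ⟨y, h.2.1⟩), by simpa using h.2.2, rfl⟩

open Classical in
noncomputable def ind {V : Type} (H : SimpleGraph V) (x y : V) : ℤ := if H.Adj x y then 1 else 0

open Classical in
noncomputable def dl {V : Type} (x y : V) : ℤ := if x = y then 1 else 0

theorem ind_comm {V : Type} (H : SimpleGraph V) (x y : V) : ind H x y = ind H y x := by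
  unfold ind
  by_cases h : H.Adj x y
  · rw [if_pos h, if_pos h.symm]
  · rw [if_neg h, if_neg fun h' => h h'.symm]

theorem ind_self {V : Type} (H : SimpleGraph V) (x : V) : ind H x x = 0 := by simp [ind]

theorem ind_nonneg {V : Type} (H : SimpleGraph V) (x y : V) : 0 ≤ ind H x y := by
  unfold ind; split_ifs <;> simp

theorem ind_le {V : Type} (H : SimpleGraph V) (x y : V) : ind H x y ≤ 1 := by
  unfold ind; split_ifs <;> simp

theorem sum_ind {V : Type} [Fintype V] (H : SimpleGraph V) (x : V) :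
    ∑ y, ind H x y = (H.neighborSet x).ncard := by
  classical
  rw [Set.ncard_eq_toFinset_card']
  simp only [ind]
  rw [Finset.sum_boole]
  congr 2
  ext y
  simp

theorem sum_dl {V : Type} [Fintype V] (x : V) (f : V → ℤ) : ∑ y, dl x y * f y = f x := by
  classical
  simp [dl]

theorem dj {V : Type} {B R : SimpleGraph V} (h : Disjoint B R) {x y : V} (h1 : B.Adj x y) :
    ¬ R.Adj x y := fun h2 => by
  have : (B ⊓ R).Adj x y := ⟨h1, h2⟩
  rw [h.eq_bot] at this
  exact this

/-- triple sum -/
noncomputable def T {V : Type} [Fintype V] (X Y Z : SimpleGraph V) : ℤ :=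
  ∑ v, ∑ x, ∑ y, ind X v x * ind Y v y * ind Z x y

theorem T12 {V : Type} [Fintype V] (X Y Z : SimpleGraph V) : T X Y Z = T Y X Z := by
  unfold T
  refine sum_congr rfl fun v _ => ?_
  rw [sum_comm]
  refine sum_congr rfl fun x _ => sum_congr rfl fun y _ => ?_
  rw [ind_comm Z]; ring

theorem T23 {V : Type} [Fintype V] (X Y Z : SimpleGraph V) : T X Y Z = T X Z Y := by
  unfold T
  rw [sum_comm]
  refine sum_congr rfl fun v _ => sum_congr rfl fun x _ => sum_congr rfl fun y _ => ?_
  rw [ind_comm X]; ring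

/-- open blue cherries -/
noncomputable def O {V : Type} [Fintype V] (B R : SimpleGraph V) : ℤ :=
  ∑ v, ∑ x, ∑ y, ind B v x * ind B v y * (1 - dl x y - ind B x y - ind R x y)

/-- closed red cherries -/
noncomputable def D {V : Type} [Fintype V] (B R : SimpleGraph V) : ℤ :=
  ∑ v, ∑ x, ∑ y, ind R v x * ind R v y * (ind B x y + ind R x y)

theorem gap_nonneg {V : Type} {B R : SimpleGraph V} (h : Disjoint B R) (x y : V) :
    0 ≤ 1 - dl x y - ind B x y - ind R x y := by
  unfold dl ind
  by_cases h0 : x = y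
  · subst h0; simp
  · by_cases h1 : B.Adj x y
    · simp [h0, h1, dj h h1]
    · by_cases h2 : R.Adj x y <;> simp [h0, h1, h2]

theorem loc {V : Type} [Fintype V] {B R : SimpleGraph V} (h : Disjoint B R) (H : SimpleGraph V)
    (v : V) : (2 * (H.induce (insert v ((B ⊔ R).neighborSet v))).edgeSet.ncard : ℤ) =
      ∑ x, ∑ y, (dl v x + (ind B v x + ind R v x)) * (dl v y + (ind B v y + ind R v y)) *
        ind H x y := by
  classical
  have hc : ∀ x, dl v x + (ind B v x + ind R v x) =
      if x ∈ insert v ((B ⊔ R).neighborSet v) then 1 else 0 := by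
    intro x
    unfold dl ind
    by_cases h0 : v = x
    · subst h0; simp
    · have h0' : x ≠ v := fun e => h0 e.symm
      by_cases h1 : B.Adj v x
      · simp [h0, h1, dj h h1]
      · by_cases h2 : R.Adj v x <;> simp [h0, h0', h1, h2]
  have := two_mul H (insert v ((B ⊔ R).neighborSet v))
  have h2 := congrArg (Nat.cast : ℕ → ℤ) this
  rw [card_filter] at h2
  push_cast at h2
  rw [h2]
  rw [Fintype.sum_prod_type]
  refine sum_congr rfl fun x _ => sum_congr rfl fun y _ => ?_
  rw [hc, hc]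
  unfold ind
  by_cases h1 : x ∈ insert v ((B ⊔ R).neighborSet v) <;>
    by_cases h2 : y ∈ insert v ((B ⊔ R).neighborSet v) <;> by_cases h3 : H.Adj x y <;>
    simp only [h1, h2, h3, and_self, and_true, and_false, if_true, if_false,
      mul_one, mul_zero]

theorem key {V : Type} [Fintype V] {b r : ℕ} {B R : SimpleGraph V} (h : IsFlip b r B R) :
    O B R + D B R ≤ Fintype.card V * ((b : ℤ) ^ 2 + b - 2 * r - 2) := by
  obtain ⟨hd, hb, hr, hf⟩ := h
  have sb : ∀ v, ∑ y, ind B v y = b := fun v => by rw [sum_ind, hb]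
  have sr : ∀ v, ∑ y, ind R v y = r := fun v => by rw [sum_ind, hr]
  have gg : ∀ v y, (ind B v y + ind R v y) * (ind B v y - ind R v y) = ind B v y - ind R v y := by
    intro v y
    unfold ind
    by_cases h1 : B.Adj v y
    · simp [h1, dj hd h1]
    · by_cases h2 : R.Adj v y <;> simp [h1, h2]
  have bb : ∀ v y, ind B v y * ind B v y = ind B v y := by
    intro v y
    unfold ind
    split_ifs <;> simp
  have l1 : ∀ v, (2 + 2 * (r - b) : ℤ) ≤ ∑ x, ∑ y, (ind B v x + ind R v x) *
      (ind B v y + ind R v y) * (ind B x y - ind R x y) := by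
    intro v
    have e1 := loc hd B v
    have e2 := loc hd R v
    have e3 : ((R.induce (insert v ((B ⊔ R).neighborSet v))).edgeSet.ncard : ℤ) <
      (B.induce (insert v ((B ⊔ R).neighborSet v))).edgeSet.ncard := by exact_mod_cast hf v
    have e4 : ∑ x, ∑ y, (dl v x + (ind B v x + ind R v x)) * (dl v y + (ind B v y + ind R v y)) *
        ind B x y - ∑ x, ∑ y, (dl v x + (ind B v x + ind R v x)) *
        (dl v y + (ind B v y + ind R v y)) * ind R x y =
        ∑ x, dl v x * ∑ y, dl v y * (ind B x y - ind R x y) +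
        ∑ x, dl v x * ∑ y, (ind B v y + ind R v y) * (ind B x y - ind R x y) +
        ∑ x, (ind B v x + ind R v x) * ∑ y, dl v y * (ind B x y - ind R x y) +
        ∑ x, ∑ y, (ind B v x + ind R v x) * (ind B v y + ind R v y) * (ind B x y - ind R x y) := by
      simp only [mul_sum, ← sum_add_distrib, ← sum_sub_distrib]
      refine sum_congr rfl fun x _ => sum_congr rfl fun y _ => ?_
      ring
    simp only [sum_dl, ind_self, gg, ind_comm B _ v, ind_comm R _ v, sum_sub_distrib, sb, sr] at e4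
    linarith
  have l2 := sum_le_sum fun v (_ : v ∈ univ) => l1 v
  have e5 : ∑ v, ∑ x, ∑ y, (ind B v x + ind R v x) *
      (ind B v y + ind R v y) * (ind B x y - ind R x y) =
      T B B B + T B R B + T R B B + T R R B - T B B R - T B R R - T R B R - T R R R := by
    simp only [T, ← sum_add_distrib, ← sum_sub_distrib]
    refine sum_congr rfl fun v _ => sum_congr rfl fun x _ => sum_congr rfl fun y _ => ?_
    ring
  have e6 : O B R = ∑ v, ∑ x, ind B v x * (∑ y, ind B v y) -
      ∑ v, ∑ x, ind B v x * ∑ y, dl x y * ind B v y - T B B B - T B B R := by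
    simp only [O, T, mul_sum, ← sum_sub_distrib]
    refine sum_congr rfl fun v _ => sum_congr rfl fun x _ => sum_congr rfl fun y _ => ?_
    ring
  have e7 : D B R = T R R B + T R R R := by
    simp only [D, T, ← sum_add_distrib]
    refine sum_congr rfl fun v _ => sum_congr rfl fun x _ => sum_congr rfl fun y _ => ?_
    ring
  simp only [sum_dl, bb, sb, ← sum_mul, sum_const, card_univ, nsmul_eq_mul] at e6 l2
  have t1 := T23 B R B
  have t2 := T12 R B B
  have t3 := T12 B R R
  have t4 := T23 R B R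
  rw [e5] at l2
  rw [e6, e7]
  nlinarith

def Bc (r b : ℕ) : SimpleGraph (Fin (r + 1) × Fin (b + 1)) where
  Adj p q := p.1 = q.1 ∧ p.2 ≠ q.2
  symm := ⟨fun _ _ h => ⟨h.1.symm, h.2.symm⟩⟩
  loopless := ⟨fun _ h => h.2 rfl⟩

def Rc (r b : ℕ) : SimpleGraph (Fin (r + 1) × Fin (b + 1)) where
  Adj p q := (p.1 < q.1 ∧ q.2 = p.2 + 1) ∨ (q.1 < p.1 ∧ p.2 = q.2 + 1)
  symm := ⟨fun _ _ h => h.symm⟩
  loopless := ⟨fun _ h => by rcases h with h | h <;> exact lt_irrefl _ h.1⟩

theorem Rc_iff {r b : ℕ} {p q : Fin (r + 1) × Fin (b + 1)} :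
    (Rc r b).Adj p q ↔ q.1 ≠ p.1 ∧ q.2 = if p.1 < q.1 then p.2 + 1 else p.2 - 1 := by
  change (p.1 < q.1 ∧ q.2 = p.2 + 1) ∨ (q.1 < p.1 ∧ p.2 = q.2 + 1) ↔ _
  rcases lt_trichotomy p.1 q.1 with h | h | h
  · simp [h, h.ne', h.not_gt]
  · simp [h]
  · simp only [h, h.ne, h.not_gt, false_and, true_and, false_or, ne_eq, not_false_eq_true,
      if_false]
    rw [eq_sub_iff_add_eq, eq_comm]

theorem upper (b r : ℕ) (hb : 1 ≤ b) (hr : 2 * r < (b + 1) * b) :
    IsFlip b r (Bc r b) (Rc r b) := by
  classical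
  have one : (1 : Fin (b + 1)) ≠ 0 := by
    obtain ⟨c, rfl⟩ : ∃ c, b = c + 1 := ⟨b - 1, by omega⟩
    exact one_ne_zero
  have nr : ∀ v, ((Rc r b).neighborSet v).ncard = r := by
    intro v
    have : (Rc r b).neighborSet v =
        (fun j => (j, if v.1 < j then v.2 + 1 else v.2 - 1)) '' {v.1}ᶜ := by
      ext q
      rw [mem_neighborSet, Rc_iff]
      constructor
      · rintro ⟨h1, h2⟩
        exact ⟨q.1, h1, Prod.ext rfl h2.symm⟩
      · rintro ⟨j, h1, rfl⟩
        exact ⟨h1, rfl⟩
    rw [this, Set.ncard_image_of_injective _ (fun a c h => (Prod.ext_iff.1 h).1),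
      Set.ncard_compl]
    simp
  refine ⟨?_, fun v => ?_, nr, fun v => ?_⟩
  · rw [disjoint_iff]
    ext p q
    simp only [inf_adj, bot_adj, iff_false, not_and]
    intro h1 h2
    exact (Rc_iff.1 h2).1 h1.1.symm
  · have : (Bc r b).neighborSet v = (fun y => (v.1, y)) '' {v.2}ᶜ := by
      ext q
      constructor
      · rintro ⟨h1, h2⟩
        exact ⟨q.2, h2.symm, Prod.ext h1 rfl⟩
      · rintro ⟨j, h1, rfl⟩
        exact ⟨rfl, fun h => h1 h.symm⟩
    rw [this, Set.ncard_image_of_injective _ (fun a c h => (Prod.ext_iff.1 h).2),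
      Set.ncard_compl]
    simp
  · set S := insert v ((Bc r b ⊔ Rc r b).neighborSet v) with hS
    have e1 := two_mul (Bc r b) S
    have e2 := two_mul (Rc r b) S
    have m1 : ∀ y, (v.1, y) ∈ S := by
      intro y
      by_cases h : y = v.2
      · exact Or.inl (Prod.ext rfl h)
      · exact Or.inr (Or.inl ⟨rfl, fun e => h e.symm⟩)
    have m2 : ∀ p ∈ S, p.1 = v.1 ∨ (Rc r b).Adj v p := by
      rintro p (rfl | h | h)
      · exact Or.inl rfl
      · exact Or.inl h.1.symm
      · exact Or.inr h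
    have uq : ∀ p q, p.1 = v.1 → (Rc r b).Adj v q → (Rc r b).Adj p q → p = v := by
      intro p q h1 h2 h3
      have a1 := (Rc_iff.1 h2).2
      have a2 := (Rc_iff.1 h3).2
      rw [h1] at a2
      refine Prod.ext h1 ?_
      split_ifs at a1 a2
      · exact add_right_cancel (a2.symm.trans a1)
      · exact sub_left_injective (a2.symm.trans a1)
    have tf : ∀ p q, (Rc r b).Adj v p → (Rc r b).Adj v q → ¬ (Rc r b).Adj p q := by
      rintro p q (⟨a1, a2⟩ | ⟨a1, a2⟩) (⟨b1, b2⟩ | ⟨b1, b2⟩) (⟨c1, c2⟩ | ⟨c1, c2⟩)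
      · exact one (by rw [a2, b2] at c2; simpa using c2)
      · exact one (by rw [a2, b2] at c2; simpa using c2)
      · exact lt_irrefl _ (a1.trans (c1.trans b1))
      · exact one (by rw [b2, c2] at a2; simpa using a2)
      · exact one (by rw [a2, c2] at b2; simpa using b2)
      · exact lt_irrefl _ (a1.trans (b1.trans c1))
      · exact one (by rw [a2, c2] at b2; simpa using b2)
      · exact one (by rw [b2, c2] at a2; simpa using a2)
    have c1 : (b + 1) * b ≤ #(univ.filter fun q : (Fin (r + 1) × Fin (b + 1)) ×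
        (Fin (r + 1) × Fin (b + 1)) => q.1 ∈ S ∧ q.2 ∈ S ∧ (Bc r b).Adj q.1 q.2) := by
      have : #((univ : Finset (Fin (b + 1))).offDiag) = (b + 1) * b := by
        rw [offDiag_card, card_univ, Fintype.card_fin, Nat.mul_succ, Nat.add_sub_cancel]
      rw [← this]
      refine card_le_card_of_injOn (fun q => ((v.1, q.1), (v.1, q.2))) ?_ ?_
      · intro q hq
        simp only [coe_filter, mem_univ, true_and, Set.mem_ofPred_eq]
        exact ⟨m1 _, m1 _, rfl, (mem_offDiag.1 hq).2.2⟩
      · intro p _ q _ h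
        simp only [Prod.mk.injEq, true_and] at h
        exact Prod.ext h.1 h.2
    have c2 : #(univ.filter fun q : (Fin (r + 1) × Fin (b + 1)) ×
        (Fin (r + 1) × Fin (b + 1)) => q.1 ∈ S ∧ q.2 ∈ S ∧ (Rc r b).Adj q.1 q.2) ≤ 2 * r := by
      have hN : #((Rc r b).neighborFinset v) = r := by
        rw [← Set.ncard_coe_finset, coe_neighborFinset, nr]
      calc _ ≤ #(({v} ×ˢ (Rc r b).neighborFinset v) ∪ ((Rc r b).neighborFinset v ×ˢ {v})) := by
            refine card_le_card ?_
            rintro ⟨p, q⟩ h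
            simp only [mem_filter, mem_univ, true_and] at h
            obtain ⟨h1, h2, h3⟩ := h
            simp only [mem_union, mem_product, mem_singleton, mem_neighborFinset]
            rcases m2 p h1 with a | a <;> rcases m2 q h2 with c | c
            · exact absurd (c.trans a.symm) (Rc_iff.1 h3).1
            · exact Or.inl ⟨uq p q a c h3, c⟩
            · exact Or.inr ⟨a, uq q p c a h3.symm⟩
            · exact absurd h3 (tf p q a c)
        _ ≤ _ := by
            refine (card_union_le _ _).trans ?_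
            simp only [card_product, card_singleton, hN]
            omega
    have c3 := c1.trans_eq (by convert e1.symm)
    have c4 := (by convert e2 : 2 * ((Rc r b).induce S).edgeSet.ncard = _).trans_le c2
    omega

theorem upper_mem (b r : ℕ) (hb : 1 ≤ b) (hr : 2 * r < (b + 1) * b) :
    (r + 1) * (b + 1) ∈ orders b r :=
  ⟨Fin (r + 1) × Fin (b + 1), inferInstance, inferInstance, by simp, _, _, upper b r hb hr⟩

end Pool.Agent.H7.Flip
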