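import Mathlib

namespace Pool.Agent.H7.Flip3

open Finset Matrix Kronecker

set_option linter.unusedSectionVars false

/-- matrix model of a 3-coloured regular graph with uniform local counts -/
structure Str (V : Type) [Fintype V] [DecidableEq V] (M : Fin 3 → Matrix V V ℤ)
    (d e : Fin 3 → ℤ) : Prop where
  sym : ∀ i x y, M i x y = M i y x
  nn : ∀ i x y, 0 ≤ M i x y
  le : ∀ x y, (1 + (M 0 + M 1 + M 2)) x y ≤ 1
  deg : ∀ i x, ∑ y, M i x y = d i
  eps : ∀ i v, ((1 + (M 0 + M 1 + M 2)) * M i * (1 + (M 0 + M 1 + M 2))) v v = e i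

def Ex (d e : Fin 3 → ℤ) : Prop :=
  ∃ (V : Type) (_ : Fintype V) (_ : DecidableEq V) (_ : Nonempty V) (M : Fin 3 → Matrix V V ℤ),
    Str V M d e

theorem Str.diag {V : Type} [Fintype V] [DecidableEq V] {M : Fin 3 → Matrix V V ℤ}
    {d e : Fin 3 → ℤ} (h : Str V M d e) (i : Fin 3) (x : V) : M i x x = 0 := by
  have h1 := h.le x x
  have a0 := h.nn 0 x x
  have a1 := h.nn 1 x x
  have a2 := h.nn 2 x x
  simp only [Matrix.add_apply, one_apply_eq] at h1
  fin_cases i <;> simp only [Fin.zero_eta, Fin.mk_one, Fin.reduceFinMk] <;> omega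

theorem box_aux {V W : Type} [Fintype V] [DecidableEq V] [Fintype W] [DecidableEq W]
    (G C : Matrix V V ℤ) (G' C' : Matrix W W ℤ) (v : V) (w : W) (h1 : G v v = 0) (h2 : C v v = 0)
    (h3 : G' w w = 0) (h4 : C' w w = 0) :
    ((1 + (G ⊗ₖ (1 : Matrix W W ℤ) + (1 : Matrix V V ℤ) ⊗ₖ G')) *
      (C ⊗ₖ (1 : Matrix W W ℤ) + (1 : Matrix V V ℤ) ⊗ₖ C') *
      (1 + (G ⊗ₖ (1 : Matrix W W ℤ) + (1 : Matrix V V ℤ) ⊗ₖ G'))) (v, w) (v, w) =
      ((1 + G) * C * (1 + G)) v v + ((1 + G') * C' * (1 + G')) w w := by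
  simp only [mul_add, add_mul, Matrix.one_mul, Matrix.mul_one, ← mul_kronecker_mul,
    Matrix.add_apply, kronecker_apply, one_apply_eq, h1, h2, h3, h4]
  ring

theorem box {d e d' e' : Fin 3 → ℤ} (h : Ex d e) (h' : Ex d' e') : Ex (d + d') (e + e') := by
  obtain ⟨V, _, _, _, M, h⟩ := h
  obtain ⟨W, _, _, _, N, h'⟩ := h'
  have hs : (M 0 ⊗ₖ (1 : Matrix W W ℤ) + (1 : Matrix V V ℤ) ⊗ₖ N 0) +
      (M 1 ⊗ₖ (1 : Matrix W W ℤ) + (1 : Matrix V V ℤ) ⊗ₖ N 1) +
      (M 2 ⊗ₖ (1 : Matrix W W ℤ) + (1 : Matrix V V ℤ) ⊗ₖ N 2) =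
      (M 0 + M 1 + M 2) ⊗ₖ (1 : Matrix W W ℤ) + (1 : Matrix V V ℤ) ⊗ₖ (N 0 + N 1 + N 2) := by
    simp only [add_kronecker, kronecker_add]
    abel
  refine ⟨V × W, inferInstance, inferInstance, inferInstance,
    fun i => M i ⊗ₖ (1 : Matrix W W ℤ) + (1 : Matrix V V ℤ) ⊗ₖ N i, ?_, ?_, ?_, ?_, ?_⟩
  · rintro i ⟨x, x'⟩ ⟨y, y'⟩
    simp only [Matrix.add_apply, kronecker_apply, one_apply, h.sym i x y, h'.sym i x' y',
      eq_comm (a := x), eq_comm (a := x')]
  · rintro i ⟨x, x'⟩ ⟨y, y'⟩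
    have := h.nn i x y
    have := h'.nn i x' y'
    simp only [Matrix.add_apply, kronecker_apply, one_apply]
    split_ifs <;> omega
  · rintro ⟨x, x'⟩ ⟨y, y'⟩
    have a := h.le x y
    have c := h'.le x' y'
    rw [hs]
    simp only [Matrix.add_apply, kronecker_apply, one_apply, Prod.mk.injEq] at a c ⊢
    by_cases e1 : x = y <;> by_cases e2 : x' = y' <;>
      simp only [e1, e2, if_true, if_false, and_self, and_true, and_false] at a c ⊢ <;>
      omega
  · rintro i ⟨x, x'⟩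
    simp only [Fintype.sum_prod_type, Matrix.add_apply, kronecker_apply, one_apply,
      sum_add_distrib, Pi.add_apply]
    rw [← h.deg i x, ← h'.deg i x']
    simp
  · rintro i ⟨v, w⟩
    simp only [hs]
    rw [box_aux, h.eps, h'.eps, Pi.add_apply]
    · simp [h.diag]
    · exact h.diag i v
    · simp [h'.diag]
    · exact h'.diag i w

theorem k2 (j : Fin 3) : Ex (Pi.single j 1) (Pi.single j 2) := by
  refine ⟨Fin 2, inferInstance, inferInstance, inferInstance,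
    fun i => if i = j then !![0, 1; 1, 0] else 0, ?_, ?_, ?_, ?_, ?_⟩ <;>
  revert j <;> decide +kernel

theorem cube {d e : Fin 3 → ℤ} (h : Ex d e) (j : Fin 3) (r : ℕ) :
    Ex (d + Pi.single j (r : ℤ)) (e + Pi.single j (2 * r : ℤ)) := by
  induction r with
  | zero => simpa using h
  | succ r ih =>
    have := box ih (k2 j)
    rw [add_assoc, add_assoc, ← Pi.single_add, ← Pi.single_add] at this
    push_cast
    rw [mul_add, mul_one]
    exact this

theorem blow {d e : Fin 3 → ℤ} (h : Ex d e) (m : ℕ) (hm : 0 < m) :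
    Ex ((m : ℤ) • d + Pi.single 0 ((m : ℤ) - 1))
      (((m : ℤ) ^ 2) • e + Pi.single 0 ((1 + (d 0 + d 1 + d 2)) * ((m : ℤ) ^ 2 - m) : ℤ)) := by
  obtain ⟨V, _, _, _, M, h⟩ := h
  have : Nonempty (Fin m) := ⟨⟨0, hm⟩⟩
  let J : Matrix (Fin m) (Fin m) ℤ := Matrix.of fun _ _ => 1
  let K : Fin 3 → Matrix (Fin m) (Fin m) ℤ := Pi.single 0 (J - 1)
  have hJ : J * J = (m : ℤ) • J := by
    ext a c
    simp [J, Matrix.mul_apply]
  have hs : 1 + ((M 0 ⊗ₖ J + (1 : Matrix V V ℤ) ⊗ₖ K 0) + (M 1 ⊗ₖ J + (1 : Matrix V V ℤ) ⊗ₖ K 1) +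
      (M 2 ⊗ₖ J + (1 : Matrix V V ℤ) ⊗ₖ K 2)) = (1 + (M 0 + M 1 + M 2)) ⊗ₖ J := by
    ext ⟨x, a⟩ ⟨y, c⟩
    simp only [K, J, Matrix.add_apply, kronecker_apply, one_apply, Prod.mk.injEq, Pi.single_apply,
      of_apply]
    by_cases e1 : x = y <;> by_cases e2 : a = c <;> simp [e1, e2, one_apply]
    ring
  have hB : ∀ v, ((1 + (M 0 + M 1 + M 2)) * (1 + (M 0 + M 1 + M 2))) v v =
      1 + (d 0 + d 1 + d 2) := by
    intro v
    rw [Matrix.mul_apply, ← h.deg 0 v, ← h.deg 1 v, ← h.deg 2 v]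
    have : (1 : ℤ) = ∑ y, (1 : Matrix V V ℤ) v y := by simp [one_apply]
    rw [this]
    simp only [← sum_add_distrib]
    refine sum_congr rfl fun y _ => ?_
    have a := h.le v y
    have a0 := h.nn 0 v y
    have a1 := h.nn 1 v y
    have a2 := h.nn 2 v y
    simp only [Matrix.add_apply, h.sym _ y v, one_apply, eq_comm (a := y)] at a ⊢
    have : (if v = y then 1 else 0) + (M 0 v y + M 1 v y + M 2 v y) = 0 ∨
        (if v = y then 1 else 0) + (M 0 v y + M 1 v y + M 2 v y) = 1 := by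
      split_ifs at a ⊢ <;> omega
    rcases this with t | t <;> rw [t] <;> simp
  refine ⟨V × Fin m, inferInstance, inferInstance, inferInstance,
    fun i => M i ⊗ₖ J + (1 : Matrix V V ℤ) ⊗ₖ K i, ?_, ?_, ?_, ?_, ?_⟩
  · rintro i ⟨x, a⟩ ⟨y, c⟩
    simp only [K, J, Matrix.add_apply, kronecker_apply, h.sym i x y, Pi.single_apply, of_apply]
    split_ifs <;> simp [one_apply, eq_comm]
  · rintro i ⟨x, a⟩ ⟨y, c⟩
    have := h.nn i x y
    simp only [K, J, Matrix.add_apply, kronecker_apply, Pi.single_apply, of_apply]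
    split_ifs
    · simp only [Matrix.sub_apply, one_apply, of_apply]
      split_ifs <;> omega
    · simpa using this
  · rintro ⟨x, a⟩ ⟨y, c⟩
    rw [hs]
    simpa [J] using h.le x y
  · rintro i ⟨x, a⟩
    simp only [K, J, Fintype.sum_prod_type, Matrix.add_apply, kronecker_apply, sum_add_distrib,
      Pi.add_apply, Pi.single_apply, of_apply, Pi.smul_apply, ← h.deg i x]
    split_ifs <;> simp [one_apply, mul_sum]
  · rintro i ⟨v, a⟩
    simp only [hs]
    rw [Matrix.mul_add, Matrix.add_mul]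
    simp only [← mul_kronecker_mul, Matrix.add_apply, kronecker_apply, Matrix.mul_one, hB, h.eps,
      K, Pi.single_apply, Pi.add_apply, Pi.smul_apply]
    have j3 : (J * J * J) a a = (m : ℤ) ^ 2 := by
      rw [hJ, Matrix.smul_mul, hJ]
      simp [J, sq]
    rw [j3]
    split_ifs
    · rw [Matrix.mul_sub, Matrix.sub_mul, Matrix.sub_apply, j3, Matrix.mul_one, hJ]
      simp [J, mul_comm]
    · simp [mul_comm]

section base

variable {V P : Type} [Fintype V] [DecidableEq V] [DecidableEq P]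

def rel (f : V → P) : Matrix V V ℤ := Matrix.of fun x y => if f x = f y ∧ x ≠ y then 1 else 0

theorem rel_ne {f : V → P} {x y : V} (h : rel f x y ≠ 0) : f x = f y ∧ x ≠ y := by
  by_contra hc
  exact h (by simp only [rel, of_apply, if_neg hc])

theorem rel_nn (f : V → P) (x y : V) : 0 ≤ rel f x y := by
  simp only [rel, of_apply]
  split_ifs <;> simp

theorem rel_sym (f : V → P) (x y : V) : rel f x y = rel f y x := by
  simp only [rel, of_apply, eq_comm (a := f x), ne_comm (a := x)]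

theorem mul_ne {A B : Matrix V V ℤ} {x y : V} (h : (A * B) x y ≠ 0) :
    ∃ z, A x z ≠ 0 ∧ B z y ≠ 0 := by
  rw [Matrix.mul_apply] at h
  obtain ⟨z, -, hz⟩ := exists_ne_zero_of_sum_ne_zero h
  exact ⟨z, mul_ne_zero_iff.1 hz⟩

theorem rel_eq (f : V → P) :
    rel f = Matrix.of (fun x y => if f x = f y then (1 : ℤ) else 0) - 1 := by
  ext x y
  simp only [rel, of_apply, Matrix.sub_apply, one_apply]
  by_cases e : x = y
  · simp [e]
  · simp [e]

theorem rel_row {f : V → P} {k : ℕ} (hk : ∀ x, #{y | f x = f y} = k + 1) (x : V) :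
    ∑ y, rel f x y = k := by
  rw [rel_eq]
  have : ∑ y, (1 : Matrix V V ℤ) x y = 1 := by simp [one_apply]
  simp only [Matrix.sub_apply, of_apply, sum_sub_distrib, this, Finset.sum_boole, hk]
  simp

theorem rel_sq {f : V → P} {k : ℕ} (hk : ∀ x, #{y | f x = f y} = k + 1) :
    rel f * rel f = (k : ℤ) • (1 : Matrix V V ℤ) + ((k : ℤ) - 1) • rel f := by
  have : Matrix.of (fun x y => if f x = f y then (1 : ℤ) else 0) *
      Matrix.of (fun x y => if f x = f y then (1 : ℤ) else 0) =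
      ((k : ℤ) + 1) • Matrix.of (fun x y => if f x = f y then (1 : ℤ) else 0) := by
    ext x y
    simp only [Matrix.mul_apply, of_apply, Matrix.smul_apply, smul_eq_mul]
    by_cases e : f x = f y
    · simp only [← e, eq_comm (b := f x), ← ite_and, ite_mul, one_mul, zero_mul, and_self,
        Finset.sum_boole, hk]
      simp
    · rw [if_neg e, mul_zero]
      refine sum_eq_zero fun z _ => ?_
      by_cases e1 : f x = f z
      · rw [if_neg fun e2 => e (e1.trans e2), mul_zero]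
      · rw [if_neg e1, zero_mul]
  rw [rel_eq]
  simp only [Matrix.mul_sub, Matrix.sub_mul, this, Matrix.mul_one, Matrix.one_mul]
  module

structure Girth (f g : V → P) : Prop where
  u : ∀ x y, f x = f y → g x = g y → x = y
  g4 : ∀ a b c d, f a = f b → g b = g c → f c = f d → g d = g a → a ≠ b → b ≠ c → c ≠ d →
    d ≠ a → False
  g6 : ∀ a b c d e h, f a = f b → g b = g c → f c = f d → g d = g e → f e = f h → g h = g a →
    a ≠ b → b ≠ c → c ≠ d → d ≠ e → e ≠ h → h ≠ a → False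

theorem Girth.swap {f g : V → P} (h : Girth f g) : Girth g f :=
  ⟨fun x y a b => h.u x y b a,
    fun a b c d h1 h2 h3 h4 n1 n2 n3 n4 => h.g4 b c d a h2 h3 h4 h1 n2 n3 n4 n1,
    fun a b c d e k h1 h2 h3 h4 h5 h6 n1 n2 n3 n4 n5 n6 =>
      h.g6 b c d e k a h2 h3 h4 h5 h6 h1 n2 n3 n4 n5 n6 n1⟩

theorem Girth.words {f g : V → P} (h : Girth f g) (v : V) :
    rel f v v = 0 ∧ (rel f * rel g) v v = 0 ∧ (rel f * (rel g * rel f)) v v = 0 ∧
    (rel f * (rel g * (rel f * rel g))) v v = 0 ∧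
    (rel f * (rel g * (rel f * (rel g * rel f)))) v v = 0 ∧
    (rel f * (rel g * (rel f * (rel g * (rel f * rel g))))) v v = 0 := by
  refine ⟨?_, ?_, ?_, ?_, ?_, ?_⟩ <;> by_contra hc
  · exact (rel_ne hc).2 rfl
  · obtain ⟨a, h1, h2⟩ := mul_ne hc
    exact (rel_ne h1).2 (h.u _ _ (rel_ne h1).1 (rel_ne h2).1.symm)
  · obtain ⟨a, h1, hc⟩ := mul_ne hc
    obtain ⟨b, h2, h3⟩ := mul_ne hc
    exact (rel_ne h2).2 (h.u _ _ ((rel_ne h3).1.trans (rel_ne h1).1).symm (rel_ne h2).1)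
  · obtain ⟨a, h1, hc⟩ := mul_ne hc
    obtain ⟨b, h2, hc⟩ := mul_ne hc
    obtain ⟨c, h3, h4⟩ := mul_ne hc
    exact h.g4 v a b c (rel_ne h1).1 (rel_ne h2).1 (rel_ne h3).1 (rel_ne h4).1 (rel_ne h1).2
      (rel_ne h2).2 (rel_ne h3).2 (rel_ne h4).2
  · obtain ⟨a, h1, hc⟩ := mul_ne hc
    obtain ⟨b, h2, hc⟩ := mul_ne hc
    obtain ⟨c, h3, hc⟩ := mul_ne hc
    obtain ⟨d, h4, h5⟩ := mul_ne hc
    have e := (rel_ne h5).1.trans (rel_ne h1).1
    by_cases da : d = a
    · subst da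
      exact (rel_ne h3).2 (h.u _ _ (rel_ne h3).1 ((rel_ne h4).1.trans (rel_ne h2).1).symm)
    · exact h.g4 d a b c e (rel_ne h2).1 (rel_ne h3).1 (rel_ne h4).1 da (rel_ne h2).2
        (rel_ne h3).2 (rel_ne h4).2
  · obtain ⟨a, h1, hc⟩ := mul_ne hc
    obtain ⟨b, h2, hc⟩ := mul_ne hc
    obtain ⟨c, h3, hc⟩ := mul_ne hc
    obtain ⟨d, h4, hc⟩ := mul_ne hc
    obtain ⟨e, h5, h6⟩ := mul_ne hc
    exact h.g6 v a b c d e (rel_ne h1).1 (rel_ne h2).1 (rel_ne h3).1 (rel_ne h4).1 (rel_ne h5).1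
      (rel_ne h6).1 (rel_ne h1).2 (rel_ne h2).2 (rel_ne h3).2 (rel_ne h4).2 (rel_ne h5).2
      (rel_ne h6).2

theorem base [Nonempty V] {f g : V → P} (h : Girth f g) {k : ℕ}
    (hf : ∀ x, #{y | f x = f y} = k + 1) (hg : ∀ x, #{y | g x = g y} = k + 1) :
    Str V ![rel f + rel g, 0, rel f * rel g + rel g * rel f] ![2 * k, 0, 2 * k ^ 2]
      ![2 * k ^ 3 + 4 * k ^ 2 + 2 * k, 0, 4 * k ^ 3 + 2 * k ^ 2] := by
  have f2 := rel_sq hf
  have g2 := rel_sq hg
  have f3 : ∀ A : Matrix V V ℤ, rel f * (rel f * A) = (k : ℤ) • A + ((k : ℤ) - 1) • (rel f * A) := by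
    intro A
    rw [← Matrix.mul_assoc, f2]
    rw [Matrix.add_mul, Matrix.smul_mul, Matrix.smul_mul, Matrix.one_mul]
  have g3 : ∀ A : Matrix V V ℤ, rel g * (rel g * A) = (k : ℤ) • A + ((k : ℤ) - 1) • (rel g * A) := by
    intro A
    rw [← Matrix.mul_assoc, g2]
    rw [Matrix.add_mul, Matrix.smul_mul, Matrix.smul_mul, Matrix.one_mul]
  have row : ∀ (p q : V → P), (∀ x, #{y | p x = p y} = k + 1) → (∀ x, #{y | q x = q y} = k + 1) →
      ∀ x, ∑ y, (rel p * rel q) x y = (k : ℤ) ^ 2 := by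
    intro p q hp hq x
    simp only [Matrix.mul_apply]
    rw [sum_comm]
    simp only [← mul_sum, rel_row hq, ← sum_mul, rel_row hp, sq]
  have pn : ∀ (p q : V → P) x y, 0 ≤ (rel p * rel q) x y := fun p q x y =>
    sum_nonneg fun z _ => mul_nonneg (rel_nn _ _ _) (rel_nn _ _ _)
  have ps : ∀ (p q : V → P) x y, (rel p * rel q) x y = (rel q * rel p) y x := by
    intro p q x y
    simp only [Matrix.mul_apply]
    exact sum_congr rfl fun z _ => by rw [rel_sym p x z, rel_sym q z y, mul_comm]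
  refine ⟨?_, ?_, ?_, ?_, ?_⟩
  · intro i x y
    fin_cases i
    · simp [rel_sym f x y, rel_sym g x y]
    · simp
    · simp [ps f g x y, ps g f x y, add_comm]
  · intro i x y
    fin_cases i
    · simpa using add_nonneg (rel_nn f x y) (rel_nn g x y)
    · simp
    · simpa using add_nonneg (pn f g x y) (pn g f x y)
  · intro x y
    simp only [cons_val_zero, cons_val_one, Matrix.cons_val, add_zero]
    set B := 1 + (rel f + rel g + (rel f * rel g + rel g * rel f)) with hB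
    have b1 : ∑ z, B x z = 1 + 2 * k + 2 * k ^ 2 := by
      simp only [hB, Matrix.add_apply, sum_add_distrib, rel_row hf, rel_row hg, row f g hf hg,
        row g f hg hf, one_apply]
      simp
      ring
    have b2 : (B * B) x x = 1 + 2 * k + 2 * k ^ 2 := by
      obtain ⟨w1, w2, w3, w4, w5, w6⟩ := h.words x
      obtain ⟨u1, u2, u3, u4, u5, u6⟩ := h.swap.words x
      simp only [hB, Matrix.mul_add, Matrix.add_mul, Matrix.mul_assoc, Matrix.one_mul,
        Matrix.mul_one, f2, g2, f3, g3, Matrix.mul_smul, Matrix.add_apply,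
        Matrix.smul_apply, one_apply_eq, smul_eq_mul, w1, w2, w3, w4, u1, u2, u3, u4]
      ring
    have bs : ∀ z, B z x = B x z := by
      intro z
      simp only [hB, Matrix.add_apply, rel_sym f z x, rel_sym g z x, ps f g z x, ps g f z x,
        one_apply, eq_comm (a := z)]
      ring
    simp only [Matrix.mul_apply, bs] at b2
    have z0 : ∑ z, (B x z * B x z - B x z) = 0 := by rw [sum_sub_distrib, b1, b2, sub_self]
    rw [sum_eq_zero_iff_of_nonneg (fun z _ => by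
      rcases le_or_gt (B x z) 0 with t | t <;> nlinarith)] at z0
    have := z0 y (mem_univ y)
    nlinarith
  · intro i x
    fin_cases i
    · simp [sum_add_distrib, rel_row hf, rel_row hg, two_mul]
    · simp
    · simp [sum_add_distrib, row f g hf hg, row g f hg hf, two_mul]
  · intro i x
    obtain ⟨w1, w2, w3, w4, w5, w6⟩ := h.words x
    obtain ⟨u1, u2, u3, u4, u5, u6⟩ := h.swap.words x
    fin_cases i <;>
    simp only [cons_val_zero, cons_val_one, Matrix.cons_val, add_zero, Fin.zero_eta, Fin.mk_one,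
      Fin.reduceFinMk, Matrix.mul_zero, Matrix.zero_mul, Matrix.zero_apply, Matrix.smul_mul, smul_add,
      Matrix.mul_add, Matrix.add_mul, Matrix.mul_assoc, Matrix.one_mul,
      Matrix.mul_one, f2, g2, f3, g3, Matrix.mul_smul, Matrix.add_apply,
      Matrix.smul_apply, one_apply_eq, smul_eq_mul, w1, w2, w3, w4, w5, w6, u1, u2, u3, u4, u5,
      u6] <;> ring

end base

theorem quad (k : ℕ) (hp : (k + 1).Prime) :
    Ex ![2 * k, 0, 2 * k ^ 2] ![2 * k ^ 3 + 4 * k ^ 2 + 2 * k, 0, 4 * k ^ 3 + 2 * k ^ 2] := by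
  have : Fact (k + 1).Prime := ⟨hp⟩
  let F := ZMod (k + 1)
  let f : F × F × F × F → F × F × F := fun v => (v.1, v.2.1, v.2.2.1)
  let g : F × F × F × F → F × F × F :=
    fun v => (v.2.2.2, v.2.1 - v.1 * v.2.2.2, v.2.2.1 - v.1 * v.2.2.2 ^ 2)
  refine ⟨F × F × F × F, inferInstance, inferInstance, inferInstance, _,
    base (f := f) (g := g) ⟨?_, ?_, ?_⟩ ?_ ?_⟩
  · rintro ⟨a0, a1, a2, s⟩ ⟨b0, b1, b2, t⟩ h1 h2
    simp only [f, g, Prod.mk.injEq] at h1 h2 ⊢
    exact ⟨h1.1, h1.2.1, h1.2.2, h2.1⟩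
  · rintro ⟨a0, a1, a2, s⟩ ⟨b0, b1, b2, t⟩ ⟨c0, c1, c2, u⟩ ⟨d0, d1, d2, w⟩ h1 h2 h3 h4 n1 n2 - -
    simp only [f, g, Prod.mk.injEq, ne_eq] at h1 h2 h3 h4 n1 n2
    obtain ⟨rfl, rfl, rfl⟩ := h1
    obtain ⟨rfl, rfl, rfl⟩ := h3
    obtain ⟨rfl, e1, e2⟩ := h2
    obtain ⟨rfl, e3, e4⟩ := h4
    have : (c0 - a0) * (w - t) = 0 := by linear_combination - e1 - e3
    rcases mul_eq_zero.1 this with z | z
    · obtain rfl : c0 = a0 := sub_eq_zero.1 z
      exact n2 ⟨rfl, by linear_combination e1, by linear_combination e2, rfl⟩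
    · exact n1 ⟨rfl, rfl, rfl, sub_eq_zero.1 z⟩
  · rintro ⟨a0, a1, a2, s⟩ ⟨b0, b1, b2, t⟩ ⟨c0, c1, c2, u⟩ ⟨d0, d1, d2, w⟩ ⟨p0, p1, p2, x⟩
      ⟨q0, q1, q2, y⟩ h1 h2 h3 h4 h5 h6 n1 n2 n3 - - -
    simp only [f, g, Prod.mk.injEq, ne_eq] at h1 h2 h3 h4 h5 h6 n1 n2 n3
    obtain ⟨rfl, rfl, rfl⟩ := h1
    obtain ⟨rfl, rfl, rfl⟩ := h3
    obtain ⟨rfl, rfl, rfl⟩ := h5
    obtain ⟨rfl, e1, e2⟩ := h2
    obtain ⟨rfl, e3, e4⟩ := h4
    obtain ⟨rfl, e5, e6⟩ := h6
    have : (c0 - a0) * ((t - w) * (t - y)) = 0 := by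
      linear_combination (e2 + e4 + e6) - (w + y) * (e1 + e3 + e5)
    rcases mul_eq_zero.1 this with z | z
    · obtain rfl : c0 = a0 := sub_eq_zero.1 z
      exact n2 ⟨rfl, by linear_combination e1, by linear_combination e2, rfl⟩
    · rcases mul_eq_zero.1 z with z | z
      · exact n3 ⟨rfl, rfl, rfl, sub_eq_zero.1 z⟩
      · exact n1 ⟨rfl, rfl, rfl, (sub_eq_zero.1 z).symm⟩
  · rintro ⟨a0, a1, a2, s⟩
    have : ({y | f (a0, a1, a2, s) = f y} : Finset _) = univ.image fun t : F => (a0, a1, a2, t) := by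
      ext ⟨b0, b1, b2, t⟩
      simp [f]
    rw [this, card_image_of_injective _ (fun a b h => by simpa using h)]
    simp [F]
  · rintro ⟨a0, a1, a2, s⟩
    have : ({y | g (a0, a1, a2, s) = g y} : Finset _) =
        univ.image fun t : F => (t, a1 + (t - a0) * s, a2 + (t - a0) * s ^ 2, s) := by
      ext ⟨b0, b1, b2, t⟩
      simp only [g, mem_filter, mem_univ, true_and, Prod.mk.injEq, mem_image]
      constructor
      · rintro ⟨rfl, e1, e2⟩
        exact ⟨b0, rfl, by linear_combination e1, by linear_combination e2, rfl⟩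
      · rintro ⟨c, rfl, rfl, rfl, rfl⟩
        exact ⟨rfl, by ring, by ring⟩
    rw [this, card_image_of_injective _ (fun a b h => (Prod.ext_iff.1 h).1)]
    simp [F]

end Pool.Agent.H7.Flip3
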