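import Mathlib

namespace Pool.Agent.H7.HillWalk

open Finset

/-- vertex weight -/
noncomputable def w (n p : ℤ) : ℝ := 1 / ((n : ℝ) ^ 2 - (p : ℝ) ^ 2)

/-- product of weights over the start vertex and all interior vertices -/
noncomputable def G (n : ℤ) : ℤ → List ℤ → ℝ
  | _, [] => 1
  | p, a :: x => w n p * G n (p + a) x

/-- all lists with `b` entries `-2` and `a` entries `4` -/
def words : ℕ → ℕ → Finset (List ℤ)
  | 0, 0 => {[]}
  | b + 1, 0 => (words b 0).image (List.cons (-2))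
  | 0, a + 1 => (words 0 a).image (List.cons 4)
  | b + 1, a + 1 => (words b (a + 1)).image (List.cons (-2)) ∪ (words (b + 1) a).image (List.cons 4)

lemma mem_words (x : List ℤ) : ∀ b a : ℕ, x ∈ words b a ↔
    (∀ s ∈ x, s = -2 ∨ s = 4) ∧ x.count (-2) = b ∧ x.length = a + b := by
  induction x with
  | nil =>
    intro b a
    rcases b with _ | b <;> rcases a with _ | a <;> simp [words]
  | cons s x ih =>
    intro b a
    have hle := List.count_le_length (a := (-2 : ℤ)) (l := x)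
    rcases b with _ | b <;> rcases a with _ | a
    · simp [words]
    · simp only [words, Finset.mem_image, List.cons.injEq, List.mem_cons, forall_eq_or_imp,
        List.count_cons, List.length_cons]
      constructor
      · rintro ⟨y, hy, rfl, rfl⟩
        have := (ih 0 a).1 hy
        refine ⟨⟨Or.inr rfl, this.1⟩, ?_, ?_⟩
        · simp [this.2.1]
        · omega
      · rintro ⟨⟨h1, h2⟩, h3, h4⟩
        rcases h1 with rfl | rfl
        · simp at h3
        · exact ⟨x, (ih 0 a).2 ⟨h2, by simpa using h3, by omega⟩, rfl, rfl⟩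
    · simp only [words, Finset.mem_image, List.cons.injEq, List.mem_cons, forall_eq_or_imp,
        List.count_cons, List.length_cons]
      constructor
      · rintro ⟨y, hy, rfl, rfl⟩
        have := (ih b 0).1 hy
        refine ⟨⟨Or.inl rfl, this.1⟩, ?_, ?_⟩
        · simp [this.2.1]
        · omega
      · rintro ⟨⟨h1, h2⟩, h3, h4⟩
        rcases h1 with rfl | rfl
        · exact ⟨x, (ih b 0).2 ⟨h2, by simpa using h3, by omega⟩, rfl, rfl⟩
        · simp at h3; omega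
    · simp only [words, Finset.mem_union, Finset.mem_image, List.cons.injEq, List.mem_cons,
        forall_eq_or_imp, List.count_cons, List.length_cons]
      constructor
      · rintro (⟨y, hy, rfl, rfl⟩ | ⟨y, hy, rfl, rfl⟩)
        · have := (ih b (a + 1)).1 hy
          refine ⟨⟨Or.inl rfl, this.1⟩, ?_, ?_⟩
          · simp [this.2.1]
          · omega
        · have := (ih (b + 1) a).1 hy
          refine ⟨⟨Or.inr rfl, this.1⟩, ?_, ?_⟩
          · simp [this.2.1]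
          · omega
      · rintro ⟨⟨h1, h2⟩, h3, h4⟩
        rcases h1 with rfl | rfl
        · exact Or.inl ⟨x, (ih b (a + 1)).2 ⟨h2, by simpa using h3, by omega⟩, rfl, rfl⟩
        · exact Or.inr ⟨x, (ih (b + 1) a).2 ⟨h2, by simpa using h3, by omega⟩, rfl, rfl⟩

noncomputable def E (n : ℤ) (b a : ℕ) (p : ℤ) : ℝ := ∑ x ∈ words b a, G n p x

lemma sum_cons (f : List ℤ → ℝ) (S : Finset (List ℤ)) (s : ℤ) :
    ∑ x ∈ S.image (List.cons s), f x = ∑ x ∈ S, f (s :: x) :=
  Finset.sum_image fun _ _ _ _ h => List.cons_injective h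

lemma sum_words (f : List ℤ → ℝ) (b a : ℕ) :
    ∑ x ∈ words (b + 1) (a + 1), f x
      = ∑ x ∈ words b (a + 1), f (-2 :: x) + ∑ x ∈ words (b + 1) a, f (4 :: x) := by
  rw [words, Finset.sum_union, sum_cons, sum_cons]
  rw [Finset.disjoint_left]
  intro x h1 h2
  simp only [Finset.mem_image] at h1 h2
  obtain ⟨y, _, rfl⟩ := h1
  obtain ⟨z, _, h⟩ := h2
  simp at h

lemma E00 (n p : ℤ) : E n 0 0 p = 1 := by simp [E, words, G]

lemma Eb0 (n p : ℤ) (b : ℕ) : E n (b + 1) 0 p = w n p * E n b 0 (p + -2) := by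
  simp only [E, words, sum_cons, G, Finset.mul_sum]

lemma E0a (n p : ℤ) (a : ℕ) : E n 0 (a + 1) p = w n p * E n 0 a (p + 4) := by
  simp only [E, words, sum_cons, G, Finset.mul_sum]

lemma Eba (n p : ℤ) (b a : ℕ) :
    E n (b + 1) (a + 1) p = w n p * (E n b (a + 1) (p + -2) + E n (b + 1) a (p + 4)) := by
  simp only [E, sum_words, G, mul_add, Finset.mul_sum]

/-- backward sums -/
noncomputable def D (m b a : ℕ) : ℝ := E (2 * m + 1) b a (2 * m + 1 - 4 * a + 2 * b)

noncomputable def u (m b a : ℕ) : ℝ := w (2 * m + 1) (2 * m + 1 - 4 * a + 2 * b)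

lemma D00 (m : ℕ) : D m 0 0 = 1 := E00 _ _

lemma Db0 (m b : ℕ) : D m (b + 1) 0 = u m (b + 1) 0 * D m b 0 := by
  unfold D u; rw [Eb0]; congr 2; push_cast; ring

lemma D0a (m a : ℕ) : D m 0 (a + 1) = u m 0 (a + 1) * D m 0 a := by
  unfold D u; rw [E0a]; congr 2; push_cast; ring

lemma Dba (m b a : ℕ) :
    D m (b + 1) (a + 1) = u m (b + 1) (a + 1) * (D m b (a + 1) + D m (b + 1) a) := by
  unfold D u; rw [Eba]; congr 2
  · congr 1; push_cast; ring
  · congr 1; push_cast; ring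

lemma u_eq (m b a : ℕ) :
    u m b a = 1 / (4 * (2 * (a : ℝ) - b) * (2 * m + 1 - 2 * a + b)) := by
  unfold u w; push_cast; congr 1; ring

lemma u_symm (m b a b' a' : ℕ) (hb : b + b' = 3) (ha : a + a' = m + 2) :
    u m b a = u m b' a' := by
  rw [u_eq, u_eq]
  have h1 : (b' : ℝ) = 3 - b := by rw [← Nat.cast_ofNat (n := 3), ← hb]; push_cast; ring
  have h2 : (a' : ℝ) = m + 2 - a := by
    have : ((a + a' : ℕ) : ℝ) = ((m + 2 : ℕ) : ℝ) := by rw [ha]
    push_cast at this; linarith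
  rw [h1, h2]; congr 1; ring

lemma split (m : ℕ) : ∀ k j : ℕ, k + j = m + 1 →
    ∑ a ∈ range (k + 1), D m 1 a * D m 1 (m + 2 - a) = D m 3 k * D m 0 j + D m 2 k * D m 1 j := by
  intro k
  induction k with
  | zero =>
    intro j hj
    have : j = m + 1 := by omega
    subst this
    simp only [zero_add, Finset.sum_range_one, Nat.sub_zero]
    rw [Db0 m 2, Db0 m 1, Dba m 0 (m + 1), D0a m (m + 1), u_symm m 3 0 0 (m + 2) rfl (by omega),
      u_symm m 2 0 1 (m + 2) rfl (by omega)]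
    ring
  | succ k ih =>
    intro j hj
    rw [Finset.sum_range_succ, ih (j + 1) (by omega), show m + 2 - (k + 1) = j + 1 by omega,
      Dba m 2 k, Dba m 1 k, Dba m 0 j, D0a m j, u_symm m 3 (k + 1) 0 (j + 1) rfl (by omega),
      u_symm m 2 (k + 1) 1 (j + 1) rfl (by omega)]
    ring

lemma total (m : ℕ) : D m 2 (m + 2) + D m 3 (m + 1)
    = ∑ a ∈ range (m + 3), D m 1 a * D m 1 (m + 2 - a) := by
  rw [Finset.sum_range_succ, split m (m + 1) 0 rfl, Nat.sub_self, Dba m 1 (m + 1), Db0 m 0, D00,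
    u_symm m 2 (m + 2) 1 0 rfl rfl]
  ring

lemma odd_ne (m a : ℕ) : (2 * (m : ℝ) + 1 - 2 * a) ≠ 0 := by
  intro h
  have : (2 * (m : ℤ) + 1 - 2 * a) = 0 := by exact_mod_cast h
  omega

lemma D0_step (m a : ℕ) : D m 0 a = 8 * (a + 1) * (2 * m - 1 - 2 * a) * D m 0 (a + 1) := by
  rw [D0a, u_eq]
  have h := odd_ne m (a + 1)
  push_cast at h ⊢
  have h2 : (a : ℝ) + 1 ≠ 0 := by positivity
  have e : (2 * (m : ℝ) - 1 - 2 * a) = 2 * m + 1 - 2 * (a + 1) := by ring
  rw [e, add_zero, sub_zero]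
  generalize (2 * (m : ℝ) + 1 - 2 * (a + 1)) = z at h ⊢
  field_simp
  ring

lemma D1_eq (m : ℕ) (hm : 1 ≤ m) : ∀ a : ℕ, a ≤ m →
    D m 1 a = (2 * a - m) / (8 * m * (m + 1)) * D m 0 a := by
  have hm0 : (m : ℝ) ≠ 0 := by positivity
  have hm1 : (m : ℝ) + 1 ≠ 0 := by positivity
  intro a
  induction a with
  | zero =>
    intro _
    rw [Db0 m 0, u_eq]
    push_cast
    have : (2 * (m : ℝ) + 1 - 2 * 0 + 1) = 2 * (m + 1) := by ring
    rw [this]
    field_simp
    ring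
  | succ a ih =>
    intro ha
    rw [Dba m 0 a, ih (by omega), D0_step m a, u_eq]
    push_cast
    have h1 : (2 * ((a : ℝ) + 1) - 1) ≠ 0 := by
      have : (0:ℝ) ≤ a := by positivity
      linarith [show (0:ℝ) < 2 * ((a : ℝ) + 1) - 1 by linarith]
    have h2 : (2 * (m : ℝ) + 1 - 2 * (a + 1) + 1) ≠ 0 := by
      have : (a : ℝ) + 1 ≤ m := by exact_mod_cast ha
      linarith [show (0:ℝ) < 2 * (m : ℝ) + 1 - 2 * (a + 1) + 1 by linarith]
    field_simp
    ring

lemma D1_block (m : ℕ) : D m 1 (m + 1) = 0 := by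
  rw [Dba m 0 m, u_eq]
  push_cast
  have : (2 * (m : ℝ) + 1 - 2 * (m + 1) + 1) = 0 := by ring
  rw [this]; simp

noncomputable def gam (m : ℝ) : ℝ := -8 * (m ^ 2 + m + 6) / (3 * (m + 2) * m * (m - 1) * (m + 1))

noncomputable def y (m a : ℝ) : ℝ :=
  gam m * a ^ 3 - 3 * (m + 3) * gam m / 2 * a ^ 2 + (-1 + gam m * (3 * m ^ 2 + 33 * m + 52) / 8) * a
    + ((m + 3) / 2 + gam m * (m ^ 3 - 6 * m ^ 2 - 43 * m - 48) / 16)

lemma gosper (m a : ℝ) (hm : 2 ≤ m) :
    y m (a + 1) * (m + 2 - a) * (2 * a - 3) - y m a * a * (2 * m + 1 - 2 * a)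
      = (2 * a - m) * (m + 4 - 2 * a) := by
  have h : gam m * (3 * (m + 2) * m * (m - 1) * (m + 1)) = -8 * (m ^ 2 + m + 6) := by
    unfold gam
    have h0 : m ≠ 0 := by linarith
    have h1 : m - 1 ≠ 0 := by linarith
    have h2 : m + 1 ≠ 0 := by linarith
    have h3 : m + 2 ≠ 0 := by linarith
    field_simp
  unfold y
  linear_combination (-1 / 16) * h

lemma mid (m : ℕ) (hm : 2 ≤ m) : ∀ k j : ℕ, k + j + 1 = m →
    ∑ a ∈ range k, D m 1 (a + 2) * D m 1 (m - a)
      = (y m (k + 2) * (k + 2) * (2 * m - 3 - 2 * k) * (D m 0 (k + 2) * D m 0 (j + 1))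
        - y m 2 * 2 * (2 * m - 3) * (D m 0 2 * D m 0 m)) / (64 * m ^ 2 * (m + 1) ^ 2) := by
  have hm0 : (m : ℝ) ≠ 0 := by positivity
  have hm1 : (m : ℝ) + 1 ≠ 0 := by positivity
  have hm2 : (2 : ℝ) ≤ m := by exact_mod_cast hm
  intro k
  induction k with
  | zero =>
    intro j hj
    have : j + 1 = m := by omega
    rw [this]; simp
  | succ k ih =>
    intro j hj
    have hj' : (j : ℝ) = m - 2 - k := by
      have : ((k + 1 + j + 1 : ℕ) : ℝ) = m := by rw [hj]
      push_cast at this; linarith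
    rw [Finset.sum_range_succ, ih (j + 1) (by omega), show m - k = j + 1 + 1 by omega,
      D1_eq m (by omega) (k + 2) (by omega), D1_eq m (by omega) (j + 1 + 1) (by omega),
      D0_step m (k + 2), D0_step m (j + 1)]
    have g := gosper m (k + 2) hm2
    push_cast
    rw [hj', show (k : ℝ) + 1 + 2 = k + 2 + 1 by ring, show k + 1 + 2 = k + 2 + 1 by ring]
    field_simp
    linear_combination (-64 * (k + 3) * (2 * m - 5 - 2 * k) * D m 0 (k + 2 + 1) * D m 0 (j + 1 + 1)) * g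

lemma D0_prod (m : ℕ) : ∀ a : ℕ,
    (∏ i ∈ range a, (8 * ((i : ℝ) + 1) * (2 * m - 1 - 2 * i))) * D m 0 a = 1 := by
  intro a
  induction a with
  | zero => simp [D00]
  | succ a ih => rw [Finset.prod_range_succ, mul_assoc, ← D0_step, ih]

lemma prod_fact (m : ℕ) :
    ∏ i ∈ range m, (8 * ((i : ℝ) + 1) * (2 * i + 1)) = 4 ^ m * ((2 * m).factorial : ℝ) := by
  induction m with
  | zero => simp
  | succ m ih =>
    rw [Finset.prod_range_succ, ih, show 2 * (m + 1) = 2 * m + 1 + 1 by ring, Nat.factorial_succ,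
      Nat.factorial_succ]
    push_cast; ring

lemma D0_m (m : ℕ) : D m 0 m = 1 / (4 ^ m * ((2 * m).factorial : ℝ)) := by
  have h := D0_prod m m
  rw [Finset.prod_mul_distrib] at h
  have e : ∏ i ∈ range m, (2 * (m : ℝ) - 1 - 2 * i) = ∏ i ∈ range m, (2 * (i : ℝ) + 1) := by
    rw [← Finset.prod_range_reflect]
    refine Finset.prod_congr rfl fun i hi => ?_
    have hi' : i < m := Finset.mem_range.mp hi
    have : ((m - 1 - i : ℕ) : ℝ) = m - 1 - i := by
      rw [Nat.sub_sub, Nat.cast_sub (by omega)]; push_cast; ring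
    rw [this]; ring
  rw [e, ← Finset.prod_mul_distrib, prod_fact] at h
  rw [eq_div_iff (by positivity), mul_comm, h]

theorem closed (m : ℕ) (hm : 2 ≤ m) : D m 2 (m + 2) + D m 3 (m + 1)
    = 3 * (m + 2) / (4 ^ (m + 5) * m ^ 2 * (m + 1) ^ 3 * (2 * m - 1) * (2 * m + 3)
      * ((2 * m).factorial : ℝ)) := by
  have hm2 : (2 : ℝ) ≤ m := by exact_mod_cast hm
  have h0 : (m : ℝ) ≠ 0 := by linarith
  have h1 : (m : ℝ) - 1 ≠ 0 := by linarith
  have h2 : (m : ℝ) + 1 ≠ 0 := by linarith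
  have h3 : (m : ℝ) + 2 ≠ 0 := by linarith
  have h4 : 2 * (m : ℝ) - 1 ≠ 0 := by linarith
  have h5 : 2 * (m : ℝ) - 3 ≠ 0 := by linarith
  have h6 : 2 * (m : ℝ) + 3 ≠ 0 := by linarith
  have h7 : ((2 * m).factorial : ℝ) ≠ 0 := by positivity
  have h8 : (m : ℝ) * 2 - 1 ≠ 0 := by linarith
  have h9 : (m : ℝ) * 2 - 3 ≠ 0 := by linarith
  have h10 : (m : ℝ) * 2 + 3 ≠ 0 := by linarith
  rw [total]
  obtain ⟨k, hk⟩ : ∃ k, k + 1 = m := ⟨m - 1, by omega⟩
  have hk' : (k : ℝ) = m - 1 := by rw [← hk]; push_cast; ring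
  have hs : ∑ a ∈ range (m + 3), D m 1 a * D m 1 (m + 2 - a)
      = ∑ a ∈ range k, D m 1 (a + 2) * D m 1 (m - a) + 2 * (D m 1 0 * D m 1 (m + 2)) := by
    rw [Finset.sum_range_succ, Finset.sum_range_succ, D1_block, Nat.sub_self,
      show m + 1 = k + 1 + 1 by omega, Finset.sum_range_succ', Finset.sum_range_succ',
      show m + 2 - (0 + 1) = m + 1 by omega, D1_block, Nat.sub_zero]
    have : ∀ a ∈ range k, D m 1 (a + 1 + 1) * D m 1 (m + 2 - (a + 1 + 1))
        = D m 1 (a + 2) * D m 1 (m - a) := by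
      intro a _
      rw [show m + 2 - (a + 1 + 1) = m - a by omega]
    rw [Finset.sum_congr rfl this]
    ring
  rw [hs, mid m hm k 0 (by omega), show k + 2 = m + 1 by omega, hk', Dba m 0 (m + 1), D1_block,
    D0a m (m + 1), D0a m m, D0a m 1, D0a m 0, Db0 m 0, D00, D0_m]
  simp only [u_eq, y, gam]
  push_cast
  rw [show (2 * (m : ℝ) + 1 - 2 * (m + 1) + 0) = -1 by ring,
    show (2 * (m : ℝ) + 1 - 2 * (m + 1 + 1) + 0) = -3 by ring,
    show (2 * (m : ℝ) + 1 - 2 * (m + 1 + 1) + 1) = -2 by ring,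
    show (2 * ((m : ℝ) + 1 + 1) - 1) = 2 * m + 3 by ring,
    show (2 * ((m : ℝ) + 1 + 1) - 0) = 2 * (m + 2) by ring,
    show (2 * (m : ℝ) + 1 - 2 * 0 + 1) = 2 * (m + 1) by ring,
    show (2 * (m : ℝ) + 1 - 2 * 1 + 0) = 2 * m - 1 by ring,
    show (2 * (m : ℝ) + 1 - 2 * 2 + 0) = 2 * m - 3 by ring, sub_zero, pow_add]
  field_simp
  ring

end Pool.Agent.H7.HillWalk
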