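import Mathlib
import Pool.Agent.H13.Ramsey

set_option autoImplicit false

namespace Pool.Agent.H7.Lucky

open Finset Classical

section modular

variable {α : Type} [Fintype α] {R : Type} [AddCommGroup R]

noncomputable def g (W : Finset α → R) (S T : Finset α) : R :=
  ∑ b : Finset α, if S ⊆ b ∧ Disjoint b T then W b else 0

theorem g_insert (W : Finset α → R) (S T : Finset α) (t : α) :
    g W S (insert t T) = g W S T - g W (insert t S) T := by
  unfold g
  rw [← sum_sub_distrib]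
  refine sum_congr rfl fun b _ => ?_
  by_cases h : t ∈ b <;> simp [h, insert_subset_iff, disjoint_insert_right]

theorem g_hom (W : Finset α → R) (H : Finset α)
    (hH : ∀ P ⊆ H, ∀ Q ⊆ H, P.card = Q.card → g W P ∅ = g W Q ∅) :
    ∀ k : ℕ, ∀ S T S' T' : Finset α, S ⊆ H → T ⊆ H → S' ⊆ H → T' ⊆ H → Disjoint S T →
      Disjoint S' T' → T.card = k → T'.card = k → S.card = S'.card → g W S T = g W S' T' := by
  intro k
  induction k with
  | zero =>
    intro S T S' T' h1 _ h3 _ _ _ h7 h8 h9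
    rw [card_eq_zero.1 h7, card_eq_zero.1 h8]
    exact hH _ h1 _ h3 h9
  | succ k ih =>
    intro S T S' T' h1 h2 h3 h4 h5 h6 h7 h8 h9
    obtain ⟨t, T0, ht, rfl, hc⟩ := card_eq_succ.1 h7
    obtain ⟨t', T0', ht', rfl, hc'⟩ := card_eq_succ.1 h8
    rw [insert_subset_iff] at h2 h4
    rw [disjoint_insert_right] at h5 h6
    rw [g_insert, g_insert, ih S T0 S' T0' h1 h2.2 h3 h4.2 h5.2 h6.2 hc hc' h9,
      ih (insert t S) T0 (insert t' S') T0' (insert_subset h2.1 h1) h2.2 (insert_subset h4.1 h3) h4.2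
        (disjoint_insert_left.2 ⟨ht, h5.2⟩) (disjoint_insert_left.2 ⟨ht', h6.2⟩) hc hc'
        (by rw [card_insert_of_notMem h5.1, card_insert_of_notMem h6.1, h9])]

theorem ind (a b : Finset α) (w : R) :
    (if (a ∩ b).card = 1 then w else 0) =
      ∑ x ∈ a, if ({x} ⊆ b ∧ Disjoint b (a.erase x)) then w else 0 := by
  have key : ∀ x ∈ a, ({x} ⊆ b ∧ Disjoint b (a.erase x)) ↔ a ∩ b = {x} := by
    intro x hx
    rw [singleton_subset_iff, disjoint_left]
    constructor
    · rintro ⟨h1, h2⟩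
      ext y
      simp only [mem_inter, mem_singleton]
      constructor
      · rintro ⟨h3, h4⟩
        by_contra h5
        exact h2 h4 (mem_erase.2 ⟨h5, h3⟩)
      · rintro rfl
        exact ⟨hx, h1⟩
    · intro h
      constructor
      · have : x ∈ a ∩ b := by rw [h]; exact mem_singleton_self x
        exact (mem_inter.1 this).2
      · intro y h1 h2
        have : y ∈ a ∩ b := mem_inter.2 ⟨(mem_erase.1 h2).2, h1⟩
        rw [h, mem_singleton] at this
        exact (mem_erase.1 h2).1 this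
  rw [sum_congr rfl (fun x hx => if_congr (key x hx) rfl rfl)]
  by_cases h : (a ∩ b).card = 1
  · rw [if_pos h]
    obtain ⟨x, hx⟩ := card_eq_one.1 h
    have hxa : x ∈ a := by
      have : x ∈ a ∩ b := by rw [hx]; exact mem_singleton_self x
      exact (mem_inter.1 this).1
    rw [sum_eq_single_of_mem x hxa]
    · rw [if_pos hx]
    · intro y _ hy
      rw [if_neg]
      rw [hx]
      exact fun h' => hy (singleton_injective h').symm
  · rw [if_neg h]
    symm
    refine sum_eq_zero fun x _ => if_neg fun h' => h ?_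
    rw [h', card_singleton]

theorem vanish (M : ℕ) (W : Finset α → ZMod M) (H : Finset α)
    (hH : ∀ P ⊆ H, ∀ Q ⊆ H, P.card = Q.card → g W P ∅ = g W Q ∅) (a : Finset α) (ha : a ⊆ H)
    (hc : a.card = M) (hM : 0 < M) :
    ∑ b : Finset α, (if (a ∩ b).card = 1 then W b else 0) = 0 := by
  obtain ⟨x0, hx0⟩ : a.Nonempty := card_pos.1 (by omega)
  rw [sum_congr rfl (fun b _ => ind a b (W b)), sum_comm]
  have : ∀ x ∈ a, (∑ b : Finset α, if ({x} ⊆ b ∧ Disjoint b (a.erase x)) then W b else 0) =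
      g W {x0} (a.erase x0) := by
    intro x hx
    refine g_hom W H hH (M - 1) {x} (a.erase x) {x0} (a.erase x0) (singleton_subset_iff.2 (ha hx))
      ((erase_subset _ _).trans ha) (singleton_subset_iff.2 (ha hx0)) ((erase_subset _ _).trans ha)
      (by simp) (by simp) (by rw [card_erase_of_mem hx, hc]) (by rw [card_erase_of_mem hx0, hc])
      (by simp)
  rw [sum_congr rfl this, sum_const, hc, nsmul_eq_mul, ZMod.natCast_self, zero_mul]

end modular

theorem modular (M : ℕ) (hM : 0 < M) : ∃ n : ℕ, ∀ W W' : Finset (Fin n) → ZMod M,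
    ∃ a b : Finset (Fin n), (a ∩ b).card = 1 ∧
      ∑ c : Finset (Fin n), (if (a ∩ c).card = 1 then W c else 0) = 0 ∧
      ∑ c : Finset (Fin n), (if (b ∩ c).card = 1 then W' c else 0) = 0 := by
  have : NeZero M := ⟨hM.ne'⟩
  obtain ⟨n, hn⟩ := H13.Ramsey.ramseyAll (ZMod M × ZMod M) (2 * M) (2 * M - 1)
  refine ⟨n, fun W W' => ?_⟩
  obtain ⟨H, -, hH, h⟩ := hn (Fin n) univ (by simp) (fun P => (g W P ∅, g W' P ∅))
  have h1 : ∀ P ⊆ H, ∀ Q ⊆ H, P.card = Q.card → g W P ∅ = g W Q ∅ := fun P hP Q hQ e =>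
    congrArg Prod.fst (h P hP Q hQ e (by have := card_le_card hP; omega))
  have h2 : ∀ P ⊆ H, ∀ Q ⊆ H, P.card = Q.card → g W' P ∅ = g W' Q ∅ := fun P hP Q hQ e =>
    congrArg Prod.snd (h P hP Q hQ e (by have := card_le_card hP; omega))
  obtain ⟨a, ha, hac⟩ := exists_subset_card_eq (s := H) (n := M) (by omega)
  obtain ⟨x, hx⟩ : a.Nonempty := card_pos.1 (by omega)
  have hxn : x ∉ H \ a := fun h => (mem_sdiff.1 h).2 hx
  refine ⟨a, insert x (H \ a), ?_, ?_, ?_⟩
  · rw [inter_insert_of_mem hx, inter_sdiff_self]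
    simp
  · convert vanish M W H h1 a ha hac hM
  · convert vanish M W' H h2 (insert x (H \ a)) (insert_subset (ha hx) sdiff_subset)
      (by rw [card_insert_of_notMem hxn, card_sdiff_of_subset ha]; omega) hM

theorem subsum (C Z : ℕ) (f : Fin (C * Z + 1) → ℕ) (hf : ∀ v, 1 ≤ f v ∧ f v ≤ C) (z : ℕ)
    (hz : z ≤ Z) (hd : C.factorial ∣ z) : ∃ S : Finset (Fin (C * Z + 1)), ∑ v ∈ S, f v = z := by
  obtain ⟨i, hi, hc⟩ := exists_le_card_fiber_of_mul_le_card_of_maps_to (s := univ)
    (t := Icc 1 C) (f := f) (n := Z) (fun v _ => mem_Icc.2 (hf v)) ⟨f 0, mem_Icc.2 (hf 0)⟩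
    (by simp)
  rw [mem_Icc] at hi
  obtain ⟨k, hk⟩ := (Nat.dvd_factorial hi.1 hi.2).trans hd
  have hkZ : k ≤ Z := by nlinarith
  obtain ⟨S, hS, hSc⟩ := exists_subset_card_eq (hkZ.trans hc)
  refine ⟨S, ?_⟩
  rw [sum_congr rfl (fun v hv => (mem_filter.1 (hS hv)).2), sum_const, hSc, hk, smul_eq_mul, mul_comm]

abbrev V (L n m : ℕ) : Type :=
  Bool × (Fin L ⊕ ((Bool → Fin m → Finset (Fin L)) × Finset (Fin n) × Fin m))

def rel {L n m : ℕ} : V L n m → V L n m → Prop
  | (_, .inl _), (_, .inl _) => False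
  | (_, .inl x), (q, .inr r) => x ∈ r.1 q r.2.2
  | (p, .inr r), (_, .inl y) => y ∈ r.1 p r.2.2
  | (_, .inr r), (_, .inr r') => r.1 = r'.1 ∧ (r.2.1 ∩ r'.2.1).card = 1

def G (L n m : ℕ) : SimpleGraph (V L n m) where
  Adj u v := u.1 ≠ v.1 ∧ rel u v
  symm := ⟨by
    rintro ⟨p, u | u⟩ ⟨q, v | v⟩ ⟨h1, h2⟩
    · exact h2.elim
    · exact ⟨h1.symm, h2⟩
    · exact ⟨h1.symm, h2⟩
    · exact ⟨h1.symm, h2.1.symm, by rw [inter_comm]; exact h2.2⟩⟩
  loopless := ⟨fun _ h => h.1 rfl⟩

theorem col2 (L n m : ℕ) : (G L n m).Colorable 2 := by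
  have : (G L n m).Coloring Bool := SimpleGraph.Coloring.mk (fun v => v.1) (fun h => h.1)
  simpa using this.colorable

theorem nsum {L n m : ℕ} (f : V L n m → ℕ) (p : Bool) (σ : Bool → Fin m → Finset (Fin L))
    (a : Finset (Fin n)) (s : Fin m) :
    (∑ w, if (G L n m).Adj (p, .inr (σ, a, s)) w then f w else 0) =
      ∑ y ∈ σ p s, f (!p, .inl y) +
        ∑ c : Finset (Fin n), if (a ∩ c).card = 1 then ∑ t, f (!p, .inr (σ, c, t)) else 0 := by
  rw [Fintype.sum_prod_type, sum_eq_single (!p)]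
  · rw [Fintype.sum_sum_type]
    congr 1
    · have : ∀ y : Fin L, (G L n m).Adj (p, .inr (σ, a, s)) (!p, .inl y) ↔ y ∈ σ p s := by
        intro y
        simp [G, rel]
      simp only [this]
      rw [← sum_filter]
      congr 1
      ext y
      simp
    · rw [Fintype.sum_prod_type, sum_eq_single σ]
      · rw [Fintype.sum_prod_type]
        refine sum_congr rfl fun c _ => ?_
        have : ∀ t : Fin m, (G L n m).Adj (p, .inr (σ, a, s)) (!p, .inr (σ, c, t)) ↔
            (a ∩ c).card = 1 := by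
          intro t
          simp [G, rel]
        simp only [this]
        split_ifs <;> simp
      · intro τ _ hτ
        refine sum_eq_zero fun r _ => if_neg fun h => hτ h.2.1.symm
      · simp
  · intro q _ hq
    refine sum_eq_zero fun r _ => if_neg fun h => ?_
    have := h.1
    cases p <;> cases q <;> simp_all
  · simp

theorem arith (M K A B : ℕ) (hM : 0 < M) (hA : A ≤ K * (2 * K + 1)) (hB : B ≤ K * (2 * K + 1))
    (h1 : M ∣ A) (h2 : M ∣ B) : ∃ s t : ℕ, s < 2 * K + 1 ∧ t < 2 * K + 1 ∧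
      M * (s + K * (2 * K + 1)) + A = M * ((2 * K + 1) * t) + B := by
  obtain ⟨a, rfl⟩ := h1
  obtain ⟨b, rfl⟩ := h2
  have ha : a ≤ K * (2 * K + 1) := le_trans (Nat.le_mul_of_pos_left a hM) hA
  have hb : b ≤ K * (2 * K + 1) := le_trans (Nat.le_mul_of_pos_left b hM) hB
  set m := 2 * K + 1 with hm
  have hm0 : 0 < m := by omega
  obtain ⟨k, hk⟩ : ∃ k, k + a = K * m + b := ⟨K * m + b - a, by omega⟩
  have e := Nat.div_add_mod k m
  have l := Nat.mod_lt k hm0
  have hq : k / m ≤ 2 * K := by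
    apply Nat.div_le_of_le_mul
    nlinarith
  generalize k / m = q at e hq
  generalize k % m = r at e l
  obtain ⟨t, ht⟩ : ∃ t, t + q = 2 * K := ⟨2 * K - q, by omega⟩
  refine ⟨r, t, l, by omega, ?_⟩
  have : r + K * m + a = m * t + b := by
    have : m * t + m * q = 2 * (K * m) := by rw [← mul_add, ht]; ring
    omega
  rw [← mul_add, ← mul_add, this]

theorem main (C : ℕ) : ∃ L n m : ℕ, ∀ f : V L n m → ℕ, (∀ v, 1 ≤ f v ∧ f v ≤ C) →
    ∃ u v, (G L n m).Adj u v ∧ (∑ w, if (G L n m).Adj u w then f w else 0) =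
      ∑ w, if (G L n m).Adj v w then f w else 0 := by
  have hM : 0 < C.factorial := Nat.factorial_pos C
  obtain ⟨n, hn⟩ := modular C.factorial hM
  set M := C.factorial with hMd
  set K := 2 ^ n * C with hK
  set m := 2 * K + 1 with hm
  set Z := M * (m + K * m + m * m) with hZ
  refine ⟨C * Z + 1, n, m, fun f hf => ?_⟩
  have e1 : ∀ s : Fin m, ∃ S : Finset (Fin (C * Z + 1)),
      ∑ v ∈ S, f (false, .inl v) = M * (s.val + K * m) := fun s =>
    subsum C Z _ (fun v => hf _) _ (Nat.mul_le_mul_left _ (by have := s.isLt; omega))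
      (dvd_mul_right _ _)
  have e2 : ∀ t : Fin m, ∃ S : Finset (Fin (C * Z + 1)),
      ∑ v ∈ S, f (true, .inl v) = M * (m * t.val) := fun t =>
    subsum C Z _ (fun v => hf _) _ (Nat.mul_le_mul_left _ (by
      have := Nat.mul_le_mul_left m t.isLt.le; omega)) (dvd_mul_right _ _)
  choose S1 hS1 using e1
  choose S2 hS2 using e2
  let σ : Bool → Fin m → Finset (Fin (C * Z + 1)) := fun p => if p then S1 else S2
  let W : Bool → Finset (Fin n) → ℕ := fun p c => ∑ t, f (p, .inr (σ, c, t))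
  obtain ⟨a, b, hab, ha, hb⟩ := hn (fun c => (W false c : ZMod M)) (fun c => (W true c : ZMod M))
  have bd : ∀ (p : Bool) (a : Finset (Fin n)),
      (∑ c : Finset (Fin n), if (a ∩ c).card = 1 then W p c else 0) ≤ K * m := by
    intro p a
    have : ∀ c : Finset (Fin n), (if (a ∩ c).card = 1 then W p c else 0) ≤ C * m := by
      intro c
      split_ifs
      · have := sum_le_card_nsmul univ (fun t : Fin m => f (p, .inr (σ, c, t))) C
          (fun t _ => (hf _).2)
        simpa [mul_comm] using this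
      · exact Nat.zero_le _
    have := sum_le_card_nsmul univ _ (C * m) (fun c _ => this c)
    simpa [hK, mul_assoc] using this
  have dv : ∀ (p : Bool) (a : Finset (Fin n)),
      (∑ c : Finset (Fin n), if (a ∩ c).card = 1 then (W p c : ZMod M) else 0) = 0 →
      M ∣ ∑ c : Finset (Fin n), if (a ∩ c).card = 1 then W p c else 0 := by
    intro p a h
    rw [← ZMod.natCast_eq_zero_iff, ← h]
    push_cast
    rfl
  obtain ⟨s, t, hs, ht, e⟩ := arith M K _ _ hM (bd false a) (bd true b) (dv false a ha) (dv true b hb)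
  refine ⟨(true, .inr (σ, a, ⟨s, hs⟩)), (false, .inr (σ, b, ⟨t, ht⟩)), ⟨by simp, rfl, hab⟩, ?_⟩
  rw [nsum, nsum]
  have x1 := hS1 ⟨s, hs⟩
  have x2 := hS2 ⟨t, ht⟩
  simp only [σ, Bool.not_true, Bool.not_false, if_true, Bool.false_eq_true, if_false]
  rw [x1, x2]
  exact e

end Pool.Agent.H7.Lucky
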