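import Mathlib

set_option autoImplicit false

namespace Pool.Agent.H7.MisHub

def r (a b : ℕ) : Bool :=
  (decide (a < 8) && (decide (b = a + 8) || decide (b = 16) || decide (b = 17))) ||
  (decide (8 ≤ a) && decide (a < 16) && (decide (b = 18) || decide (b = 19)))

def G : SimpleGraph (Fin 20) where
  Adj a b := (r a b || r b a) = true
  symm := ⟨fun a b h => by rwa [Bool.or_comm]⟩
  loopless := ⟨by decide +kernel⟩

instance : DecidableRel G.Adj := fun a b => inferInstanceAs (Decidable ((r a b || r b a) = true))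

lemma tf : G.CliqueFree 3 := by
  have h : ∀ a b c : Fin 20, G.Adj a b → G.Adj a c → ¬ G.Adj b c := by decide +kernel
  intro S hS
  obtain ⟨a, b, c, hab, hac, hbc, -⟩ := SimpleGraph.is3Clique_iff.1 hS
  exact h a b c hab hac hbc

lemma deg : ∀ v : Fin 20, 3 ≤ G.degree v := by decide +kernel

def mem (m : ℕ) (v : Fin 20) : Bool :=
  if (v : ℕ) < 8 then (m + 1).testBit v else if (v : ℕ) < 16 then !((m + 1).testBit (v - 8)) else false

lemma h1 : ∀ m < 254, ∀ a b : Fin 20, mem m a = true → mem m b = true → ¬ G.Adj a b := by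
  decide +kernel

lemma h2 : ∀ m < 254, ∀ a : Fin 20, mem m a = true ∨ ∃ b : Fin 20, mem m b = true ∧ G.Adj a b := by
  decide +kernel

def code (f : Fin 20 → Bool) : ℕ :=
  (f 0).toNat + 2 * (f 1).toNat + 4 * (f 2).toNat + 8 * (f 3).toNat + 16 * (f 4).toNat
    + 32 * (f 5).toNat + 64 * (f 6).toNat + 128 * (f 7).toNat

lemma h3 : ∀ m < 254, code (mem m) = m + 1 := by decide +kernel

def st (m : Fin 254) : Set (Fin 20) := {v | mem m v = true}

lemma st_inj : Function.Injective st := by
  intro a b h
  have : mem a = mem b := by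
    funext v
    have := Set.ext_iff.1 h v
    simp only [st, Set.mem_setOf_eq] at this
    exact Bool.eq_iff_iff.2 this
  have ha := h3 a a.2
  have hb := h3 b b.2
  rw [this] at ha
  exact Fin.ext (by omega)

lemma st_max (m : Fin 254) : Maximal G.IsIndepSet (st m) := by
  refine ⟨fun a ha b hb _ => h1 m m.2 a b ha hb, fun t ht hle a ha => ?_⟩
  rcases h2 m m.2 a with h | ⟨b, hb, hab⟩
  · exact h
  · exact absurd hab (ht ha (hle hb) hab.ne)

lemma many : 254 ≤ {s : Set (Fin 20) | Maximal G.IsIndepSet s}.ncard := by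
  have h : Set.range st ⊆ {s : Set (Fin 20) | Maximal G.IsIndepSet s} := by
    rintro _ ⟨m, rfl⟩
    exact st_max m
  have := Set.ncard_le_ncard h (Set.toFinite _)
  rwa [Set.ncard_range_of_injective st_inj, Nat.card_eq_fintype_card, Fintype.card_fin] at this

end Pool.Agent.H7.MisHub
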