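import Mathlib

set_option autoImplicit false

namespace Pool.Agent.H7.OddInd

open SimpleGraph Finset

/-- the hypercube: two 0/1-vectors are adjacent when they differ in exactly one coordinate -/
def Q (d : ℕ) : SimpleGraph (Fin d → ZMod 2) where
  Adj x y := ∃ i, x i ≠ y i ∧ ∀ j, j ≠ i → x j = y j
  symm := ⟨fun _ _ ⟨i, h1, h2⟩ => ⟨i, h1.symm, fun j hj => (h2 j hj).symm⟩⟩
  loopless := ⟨fun _ ⟨_, h, _⟩ => h rfl⟩

/-- odd independent sets -/
def OddIndep {V : Type} (G : SimpleGraph V) (S : Set V) : Prop :=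
  G.IsIndepSet S ∧ ∀ v, v ∉ S → G.neighborSet v ∩ S = ∅ ∨ Odd (G.neighborSet v ∩ S).ncard

/-- the odd independence number -/
noncomputable def alphaOd {V : Type} (G : SimpleGraph V) : ℕ :=
  sSup {k | ∃ S : Set V, OddIndep G S ∧ S.ncard = k}

lemma adj_iff {d : ℕ} (x y : Fin d → ZMod 2) : (Q d).Adj x y ↔ ∃ i, y = x + Pi.single i 1 := by
  have k : ∀ a b : ZMod 2, a ≠ b ↔ b = a + 1 := by decide
  refine exists_congr fun i => ⟨fun ⟨h1, h2⟩ => funext fun j => ?_, ?_⟩
  · by_cases h : j = i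
    · subst h
      simpa using (k _ _).1 h1
    · simp [h, h2 j h]
  · rintro rfl
    exact ⟨(k _ _).2 (by simp), fun j h => by simp [h]⟩

lemma upper {d : ℕ} (hd : 0 < d) (S : Set (Fin d → ZMod 2)) (h : (Q d).IsIndepSet S) :
    2 * S.ncard ≤ 2 ^ d := by
  let e : Fin d → ZMod 2 := Pi.single ⟨0, hd⟩ 1
  have hdis : Disjoint S ((· + e) '' S) := by
    rw [Set.disjoint_left]
    rintro _ h1 ⟨x, hx, rfl⟩
    have a : (Q d).Adj x (x + e) := (adj_iff _ _).2 ⟨_, rfl⟩
    exact h hx h1 a.ne a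
  have := Set.ncard_le_card (S ∪ (· + e) '' S)
  rw [Set.ncard_union_eq hdis, Set.ncard_image_of_injective _ (add_left_injective e)] at this
  simpa [two_mul] using this

lemma bdd {d : ℕ} : BddAbove {k | ∃ S : Set (Fin d → ZMod 2), OddIndep (Q d) S ∧ S.ncard = k} :=
  ⟨_, by rintro k ⟨S, -, rfl⟩; exact Set.ncard_le_card S⟩

lemma alpha_le {d : ℕ} (hd : 0 < d) : 2 * alphaOd (Q d) ≤ 2 ^ d := by
  have : alphaOd (Q d) ≤ 2 ^ d / 2 := csSup_le' (by
    rintro k ⟨S, h, rfl⟩
    have := upper hd S h.1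
    omega)
  omega

lemma exists_h {K : Type} [Fintype K] [DecidableEq K] (z : K) {d : ℕ} (hK : Fintype.card K ≤ d)
    (he : Even (d - Fintype.card K)) :
    ∃ h : Fin d → K, ∀ s, Odd (univ.filter fun i => h i = s).card := by
  obtain ⟨t, rfl⟩ := Nat.exists_eq_add_of_le hK
  rw [Nat.add_sub_cancel_left] at he
  let e : Fin (Fintype.card K + t) ≃ K ⊕ Fin t := Fintype.equivOfCardEq (by simp)
  refine ⟨fun i => Sum.elim id (fun _ => z) (e i), fun s => ?_⟩
  have : (univ.filter fun i => Sum.elim id (fun _ => z) (e i) = s).card =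
      (univ.filter fun i : K ⊕ Fin t => Sum.elim id (fun _ => z) i = s).card :=
    card_equiv e (by simp)
  rw [this, card_filter, Fintype.sum_sum_type]
  have h1 : (∑ x : K, if Sum.elim id (fun _ : Fin t => z) (Sum.inl x) = s then 1 else 0) = 1 :=
    (sum_ite_eq' univ s fun _ => 1).trans (if_pos (mem_univ s))
  rw [h1]
  by_cases h : z = s
  · simp [h, he.add_one, add_comm 1]
  · simp [h]

lemma lower (m d : ℕ) (hm : 1 ≤ m) (hd : Even d) (h2 : 2 ^ m ≤ d) :
    (2 ^ m - 1) * 2 ^ d ≤ 2 * 2 ^ m * alphaOd (Q d) := by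
  classical
  let K := Fin m → ZMod 2
  have cK : Fintype.card K = 2 ^ m := by simp [K]
  have ev : Even (2 ^ m) := (Nat.even_pow.2 ⟨even_two, by omega⟩)
  obtain ⟨h, hh⟩ := exists_h (0 : K) (d := d) (cK ▸ h2) (cK ▸ (Nat.even_sub h2).2 (by simp [hd, ev]))
  let φ : (Fin d → ZMod 2) →ₗ[ZMod 2] ZMod 2 × K := Fintype.linearCombination _ fun i => (1, h i)
  have hφ : ∀ x i, φ (x + Pi.single i 1) = φ x + (1, h i) := fun x i => by
    simp [φ, Fintype.linearCombination_apply_single]
  have two : ∀ a : K, a + a = 0 := fun a => funext fun i => CharTwo.add_self_eq_zero (a i)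
  have surj : Function.Surjective φ := by
    have hs : ∀ s, ∃ i, h i = s := fun s => by
      obtain ⟨i, hi⟩ := card_pos.1 (hh s).pos
      exact ⟨i, by simpa using hi⟩
    rintro ⟨a, s⟩
    obtain ⟨i, hi⟩ := hs s
    obtain ⟨j, hj⟩ := hs 0
    rcases (show ∀ a : ZMod 2, a = 0 ∨ a = 1 by decide) a with rfl | rfl
    · exact ⟨0 + Pi.single i 1 + Pi.single j 1, by
        rw [hφ, hφ, hi, hj, map_zero]; ext <;> simp [CharTwo.add_self_eq_zero]⟩
    · exact ⟨0 + Pi.single i 1, by rw [hφ, hi, map_zero, zero_add]⟩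
  let c := (univ.filter fun x => φ x = 0).card
  have fib : ∀ y, (univ.filter fun x => φ x = y).card = c := fun y =>
    AddMonoidHom.card_fiber_eq_of_mem_range φ (surj y) (surj 0)
  have tot : ∀ T : Finset (ZMod 2 × K), (univ.filter fun x => φ x ∈ T).card = T.card * c := by
    intro T
    rw [card_eq_sum_card_fiberwise (f := φ) (t := T) (fun x hx => by simpa using hx),
      sum_const_nat (m := c)]
    intro y hy
    rw [← fib y, filter_filter]
    congr 1
    exact filter_congr fun x _ => ⟨fun h => h.2, fun h => ⟨h ▸ hy, h⟩⟩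
  have t1 : 2 ^ d = 2 * 2 ^ m * c := by
    have := tot univ
    simpa [cK] using this
  let T : Finset (ZMod 2 × K) := {0} ×ˢ (univ.erase 0)
  have t2 : T.card = 2 ^ m - 1 := by simp [T, cK]
  let S : Set (Fin d → ZMod 2) := ↑(univ.filter fun x => φ x ∈ T)
  have mem : ∀ x, x ∈ S ↔ (φ x).1 = 0 ∧ (φ x).2 ≠ 0 := fun x => by
    simp only [S, T, coe_filter, mem_univ, true_and, Set.mem_ofPred_eq, mem_product, mem_singleton,
      mem_erase, and_true]
  have hS : OddIndep (Q d) S := by
    refine ⟨fun x hx y hy _ a => ?_, fun v hv => ?_⟩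
    · obtain ⟨i, rfl⟩ := (adj_iff _ _).1 a
      have h1 := ((mem _).1 hy).1
      rw [hφ, Prod.fst_add, ((mem _).1 hx).1] at h1
      exact absurd h1 (show ¬ (0 + 1 : ZMod 2) = 0 by decide)
    rcases (show ∀ a : ZMod 2, a = 0 ∨ a = 1 by decide) (φ v).1 with h0 | h0
    · refine Or.inl (Set.eq_empty_of_forall_notMem fun y ⟨a, hy⟩ => ?_)
      obtain ⟨i, rfl⟩ := (adj_iff _ _).1 a
      have h1 := ((mem _).1 hy).1
      rw [hφ, Prod.fst_add, h0] at h1
      exact absurd h1 (show ¬ (0 + 1 : ZMod 2) = 0 by decide)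
    · right
      have inj : Function.Injective fun i : Fin d => v + Pi.single i (1 : ZMod 2) := by
        intro i j e
        by_contra hij
        have := congrFun (add_left_cancel e) i
        simp [hij] at this
      have : (Q d).neighborSet v ∩ S = (fun i : Fin d => v + Pi.single i (1 : ZMod 2)) ''
          ↑(univ.filter fun i => ¬ h i = (φ v).2) := by
        ext y
        simp only [Set.mem_inter_iff, mem_neighborSet, adj_iff, mem, Set.mem_image, coe_filter,
          mem_univ, true_and, Set.mem_ofPred_eq]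
        constructor
        · rintro ⟨⟨i, rfl⟩, -, h3⟩
          refine ⟨i, fun e => h3 ?_, rfl⟩
          rw [hφ, Prod.snd_add, ← e]
          exact two _
        · rintro ⟨i, hi, rfl⟩
          refine ⟨⟨i, rfl⟩, by rw [hφ, Prod.fst_add, h0]; exact (show (1 + 1 : ZMod 2) = 0 by decide), fun e => hi ?_⟩
          rw [hφ, Prod.snd_add] at e
          have e' : (φ v).2 + h i = (φ v).2 + (φ v).2 := by rw [two]; exact e
          exact add_left_cancel e'
      rw [this, Set.ncard_image_of_injective _ inj, Set.ncard_coe_finset]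
      have s1 := card_filter_add_card_filter_not (s := univ) (fun i => h i = (φ v).2)
      rw [card_univ, Fintype.card_fin] at s1
      obtain ⟨a, ha⟩ := hh (φ v).2
      obtain ⟨b, hb⟩ := hd
      exact ⟨b - a - 1, by omega⟩
  have : S.ncard ≤ alphaOd (Q d) := le_csSup bdd ⟨S, hS, rfl⟩
  rw [Set.ncard_coe_finset, tot, t2] at this
  rw [t1]
  nlinarith [Nat.mul_le_mul_left (2 * 2 ^ m) this]

end Pool.Agent.H7.OddInd
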