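import Mathlib

namespace Pool.Agent.H7.Phylo

open SimpleGraph

abbrev V := Fin 7 ⊕ Fin 5

def ix : V → ℕ := Sum.elim (fun i => i.val) (fun j => 7 + j.val)

def ET : List (ℕ × ℕ) := [(9, 0), (5, 10), (11, 1), (3, 11), (7, 8), (8, 4), (6, 7), (8, 9), (2, 7), (9, 10), (10, 11)]
def EF : List (ℕ × ℕ) := [(2, 8), (6, 11), (9, 4), (9, 3), (10, 0), (5, 11), (10, 8), (7, 10), (7, 9), (8, 1), (11, 7)]

def T0 : SimpleGraph V where
  Adj u v := (ix u, ix v) ∈ ET ∨ (ix v, ix u) ∈ ET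
  symm := ⟨fun _ _ h => h.symm⟩
  loopless := ⟨by decide⟩

def F0 : SimpleGraph V where
  Adj u v := (ix u, ix v) ∈ EF ∨ (ix v, ix u) ∈ EF
  symm := ⟨fun _ _ h => h.symm⟩
  loopless := ⟨by decide⟩

instance : DecidableRel T0.Adj := fun u v => by unfold T0; infer_instance
instance : DecidableRel F0.Adj := fun u v => by unfold F0; infer_instance

lemma conn_of_par {W : Type} (G : SimpleGraph W) (r : W) (par : W → W) (dep : W → ℕ)
    (h : ∀ v, v = r ∨ (G.Adj v (par v) ∧ dep (par v) < dep v)) : G.Connected := by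
  have key : ∀ k v, dep v ≤ k → G.Reachable v r := by
    intro k
    induction k with
    | zero =>
      intro v hv
      rcases h v with rfl | ⟨_, h2⟩
      · rfl
      · omega
    | succ k ih =>
      intro v hv
      rcases h v with rfl | ⟨h1, h2⟩
      · rfl
      · exact h1.reachable.trans (ih _ (by omega))
  have : Nonempty W := ⟨r⟩
  exact ⟨fun u v => (key _ u le_rfl).trans (key _ v le_rfl).symm⟩

lemma T0_tree : T0.IsTree := by
  rw [isTree_iff_connected_and_card]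
  refine ⟨conn_of_par T0 (Sum.inr 0) (fun v => [Sum.inr 2, Sum.inr 4, Sum.inr 0, Sum.inr 4, Sum.inr 1, Sum.inr 3, Sum.inr 0, Sum.inr 0, Sum.inr 0, Sum.inr 1, Sum.inr 2, Sum.inr 3].getD (ix v) v)
    (fun v => [3, 5, 1, 5, 2, 4, 1, 0, 1, 2, 3, 4].getD (ix v) 0) (by decide), ?_⟩
  rw [Nat.card_eq_fintype_card, Nat.card_eq_fintype_card, ← edgeFinset_card]
  decide +kernel

lemma F0_tree : F0.IsTree := by
  rw [isTree_iff_connected_and_card]
  refine ⟨conn_of_par F0 (Sum.inr 0) (fun v => [Sum.inr 3, Sum.inr 1, Sum.inr 1, Sum.inr 2, Sum.inr 2, Sum.inr 4, Sum.inr 4, Sum.inr 0, Sum.inr 3, Sum.inr 0, Sum.inr 0, Sum.inr 0].getD (ix v) v)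
    (fun v => [2, 3, 3, 2, 2, 2, 2, 0, 2, 1, 1, 1].getD (ix v) 0) (by decide), ?_⟩
  rw [Nat.card_eq_fintype_card, Nat.card_eq_fintype_card, ← edgeFinset_card]
  decide +kernel

lemma ncard_nb (G : SimpleGraph V) [DecidableRel G.Adj] (v : V) :
    (G.neighborSet v).ncard = (Finset.univ.filter fun w => G.Adj v w).card := by
  rw [← Set.ncard_coe_finset]; congr 1; ext w; simp

lemma T0_deg : (∀ i, (T0.neighborSet (.inl i)).ncard = 1) ∧
    ∀ j, (T0.neighborSet (.inr j)).ncard = 3 := by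
  simp only [ncard_nb]; decide

lemma F0_deg : (∀ i, (F0.neighborSet (.inl i)).ncard = 1) ∧
    ∀ j, (F0.neighborSet (.inr j)).ncard = 3 := by
  simp only [ncard_nb]; decide

lemma T0_path : Nonempty (T0.comap Sum.inr ≃g pathGraph 5) := by
  refine ⟨⟨Equiv.refl _, ?_⟩⟩
  intro a b
  simp only [Equiv.refl_apply, pathGraph_adj, comap_adj]
  revert a b
  decide

lemma through {W : Type} (G H : SimpleGraph W) (hH : H ≤ G) (w : W) (cp : W → ℕ)
    (hcp : ∀ u v, G.Adj u v → u = w ∨ v = w ∨ cp u = cp v) {a b : W} (p : H.Walk a b) :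
    H.Reachable a w ∨ cp a = cp b := by
  induction p with
  | nil => right; rfl
  | cons h q ih =>
    rename_i x y z
    rcases hcp x y (hH h) with rfl | rfl | h2
    · left; rfl
    · left; exact h.reachable
    · rcases ih with h3 | h3
      · left; exact h.reachable.trans h3
      · right; rw [h2, h3]

def cT (w k : ℕ) : ℕ := 332301278008147496837036991524971893 / 4 ^ (12 * w + k) % 4
def cF (w k : ℕ) : ℕ := 331576817035627913259003669001092757 / 4 ^ (12 * w + k) % 4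

lemma cT_ok : ∀ w : Fin 5, ∀ u v, T0.Adj u v →
    u = Sum.inr w ∨ v = Sum.inr w ∨ cT w (ix u) = cT w (ix v) := by decide +kernel
lemma cF_ok : ∀ w : Fin 5, ∀ u v, F0.Adj u v →
    u = Sum.inr w ∨ v = Sum.inr w ∨ cF w (ix u) = cF w (ix v) := by decide +kernel

def crossB (a b c d : ℕ) : Bool :=
  (List.range 5).any fun w => (!Nat.beq (cT w a) (cT w b) && !Nat.beq (cT w c) (cT w d)) ||
    (!Nat.beq (cF w a) (cF w b) && !Nat.beq (cF w c) (cF w d))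

lemma beq_false (a b : ℕ) : Nat.beq a b = false ↔ a ≠ b :=
  ⟨fun h => Nat.ne_of_beq_eq_false h, fun h => by
    cases e : Nat.beq a b
    · rfl
    · exact absurd (Nat.eq_of_beq_eq_true e) h⟩

def cross (a b c d : Fin 7) : Prop :=
  ∃ w : Fin 5, (cT w a ≠ cT w b ∧ cT w c ≠ cT w d) ∨ (cF w a ≠ cF w b ∧ cF w c ≠ cF w d)

lemma cross_of (a b c d : Fin 7) (h : crossB a b c d = true) : cross a b c d := by
  simp only [crossB, List.any_eq_true, List.mem_range, Bool.or_eq_true, Bool.and_eq_true,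
    Bool.not_eq_eq_eq_not, Bool.not_true, beq_false] at h
  obtain ⟨w, hw, h⟩ := h
  exact ⟨⟨w, hw⟩, h⟩

lemma cross_rel (P : Setoid (Fin 7)) (D D' : Set (Sym2 V))
    (h1 : ∀ i j, P i j ↔ (T0.deleteEdges D).Reachable (.inl i) (.inl j))
    (h2 : ∀ i j, P i j ↔ (F0.deleteEdges D').Reachable (.inl i) (.inl j))
    (a b c d : Fin 7) (hx : cross a b c d) (hab : P a b) (hcd : P c d) : P a c := by
  obtain ⟨w, ⟨x1, x2⟩ | ⟨x1, x2⟩⟩ := hx
  · obtain ⟨p⟩ := (h1 a b).1 hab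
    obtain ⟨p'⟩ := (h1 c d).1 hcd
    have e1 := (through T0 _ (deleteEdges_le D) _ (fun v => cT w (ix v)) (cT_ok w) p).resolve_right x1
    have e2 := (through T0 _ (deleteEdges_le D) _ (fun v => cT w (ix v)) (cT_ok w) p').resolve_right x2
    exact (h1 a c).2 (e1.trans e2.symm)
  · obtain ⟨p⟩ := (h2 a b).1 hab
    obtain ⟨p'⟩ := (h2 c d).1 hcd
    have e1 := (through F0 _ (deleteEdges_le D') _ (fun v => cF w (ix v)) (cF_ok w) p).resolve_right x1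
    have e2 := (through F0 _ (deleteEdges_le D') _ (fun v => cF w (ix v)) (cF_ok w) p').resolve_right x2
    exact (h2 a c).2 (e1.trans e2.symm)

abbrev Q4 := ℕ × ℕ × ℕ × ℕ

def L4 : List Q4 := [(0, 1, 4, 6), (0, 2, 3, 5), (1, 3, 5, 6), (2, 6, 3, 4)]
def CR : List Q4 := [(0, 1, 2, 3), (0, 1, 2, 4), (0, 1, 2, 5), (0, 1, 2, 6), (0, 1, 3, 4), (0, 1, 3, 5), (0, 1, 3, 6), (0, 1, 4, 5), (0, 1, 5, 6), (0, 2, 1, 3), (0, 2, 1, 4), (0, 2, 1, 5), (0, 2, 1, 6), (0, 2, 3, 4), (0, 2, 3, 6), (0, 2, 4, 5), (0, 2, 4, 6), (0, 2, 5, 6), (0, 3, 1, 2), (0, 3, 1, 4), (0, 3, 1, 5), (0, 3, 1, 6), (0, 3, 2, 4), (0, 3, 2, 5), (0, 3, 2, 6), (0, 3, 4, 5), (0, 3, 4, 6), (0, 3, 5, 6), (0, 4, 1, 2), (0, 4, 1, 3), (0, 4, 1, 5), (0, 4, 1, 6), (0, 4, 2, 3), (0, 4, 2, 5), (0, 4, 2, 6), (0, 4, 3, 5), (0, 4, 3, 6), (0, 4, 5, 6), (0, 5, 1, 2), (0, 5, 1, 3), (0, 5, 1, 4), (0, 5, 1, 6), (0, 5, 2, 3), (0, 5, 2, 4), (0,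 5, 2, 6), (0, 5, 3, 4), (0, 5, 3, 6), (0, 5, 4, 6), (0, 6, 1, 2), (0, 6, 1, 3), (0, 6, 1, 4), (0, 6, 1, 5), (0, 6, 2, 3), (0, 6, 2, 4), (0, 6, 2, 5), (0, 6, 3, 4), (0, 6, 3, 5), (0, 6, 4, 5), (1, 2, 3, 4), (1, 2, 3, 5), (1, 2, 3, 6), (1, 2, 4, 5), (1, 2, 4, 6), (1, 2, 5, 6), (1, 3, 2, 4), (1, 3, 2, 5), (1, 3, 2, 6), (1, 3, 4, 5), (1, 3, 4, 6), (1, 4, 2, 3), (1, 4, 2, 5), (1, 4, 2, 6), (1, 4, 3, 5), (1, 4, 3, 6), (1, 4, 5, 6), (1, 5, 2, 3), (1, 5, 2, 4), (1, 5, 2, 6), (1, 5, 3, 4), (1, 5, 3, 6), (1, 5, 4, 6), (1, 6, 2, 3), (1, 6, 2, 4), (1, 6, 2, 5), (1, 6, 3, 4), (1, 6, 3, 5), (1, 6, 4, 5), (2, 3, 4, 5), (2, 3, 4, 6), (2, 3, 5, 6), (2, 4, 3, 5), (2, 4, 3, 6), (2, 4, 5, 6), (2, 5, 3, 4), (2, 5, 3, 6), (2, 5, 4, 6), (2, 6, 3, 5), (2, 6, 4, 5), (3, 4, 5, 6), (3, 5, 4, 6), (3, 6, 4, 5)]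

lemma CR_cross : ∀ x ∈ CR, x.1 < 7 ∧ x.2.1 < 7 ∧ x.2.2.1 < 7 ∧ x.2.2.2 < 7 ∧
    crossB x.1 x.2.1 x.2.2.1 x.2.2.2 = true := by decide +kernel

set_option synthInstance.maxSize 1024 in
lemma cross_or : ∀ a b c d : Fin 7, a < b → c < d → a ≠ c → a ≠ d → b ≠ c → b ≠ d →
    crossB a b c d = true ∨ (a.val, b.val, c.val, d.val) ∈ L4 ∨
      (c.val, d.val, a.val, b.val) ∈ L4 := by decide +kernel

def dig (m a : ℕ) : ℕ := m / 8 ^ a % 8

def code (a b c d e f g : ℕ) : ℕ := a + 8 * b + 64 * c + 512 * d + 4096 * e + 32768 * f + 262144 * g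

def enc (f : Fin 7 → ℕ) : ℕ := code (f 0) (f 1) (f 2) (f 3) (f 4) (f 5) (f 6)

lemma dig_enc (f : Fin 7 → ℕ) (hf : ∀ i, f i < 8) (a : Fin 7) : dig (enc f) a = f a := by
  have h0 := hf 0; have h1 := hf 1; have h2 := hf 2; have h3 := hf 3; have h4 := hf 4
  have h5 := hf 5; have h6 := hf 6
  fin_cases a <;> simp [dig, enc, code] <;> omega

def all7 (k : ℕ) (p : ℕ → Bool) : Bool :=
  (List.range k).all fun a => (List.range k).all fun b => (List.range k).all fun c =>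
    (List.range k).all fun d => (List.range k).all fun e => (List.range k).all fun f =>
      (List.range k).all fun g => p (code a b c d e f g)

lemma all7_spec (k : ℕ) (p : ℕ → Bool) (h : all7 k p = true) (f : Fin 7 → ℕ) (hf : ∀ i, f i < k) :
    p (enc f) = true := by
  simp only [all7, List.all_eq_true, List.mem_range] at h
  exact h _ (hf 0) _ (hf 1) _ (hf 2) _ (hf 3) _ (hf 4) _ (hf 5) _ (hf 6)

def act (m : ℕ) (x : Q4) : Bool :=
  Nat.beq (dig m x.1) (dig m x.2.1) && Nat.beq (dig m x.2.2.1) (dig m x.2.2.2) &&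
    !Nat.beq (dig m x.1) (dig m x.2.2.1)

lemma chkD : all7 4 (fun m => !(L4.any (act m)) || CR.any (act m)) = true := by decide +kernel

def Triv (P : Setoid (Fin 7)) : Prop := ∀ a b c d, a ≠ b → c ≠ d → P a b → P c d → P a c

lemma triv_of_common (P : Setoid (Fin 7)) (D D' : Set (Sym2 V))
    (h1 : ∀ i j, P i j ↔ (T0.deleteEdges D).Reachable (.inl i) (.inl j))
    (h2 : ∀ i j, P i j ↔ (F0.deleteEdges D').Reachable (.inl i) (.inl j))
    (h4 : Nat.card (Quotient P) = 4) : Triv P := by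
  classical
  have : Fintype (Quotient P) := Fintype.ofFinite _
  rw [Nat.card_eq_fintype_card] at h4
  let e := Fintype.equivFinOfCardEq h4
  let f : Fin 7 → ℕ := fun i => (e (Quotient.mk P i)).val
  have hf : ∀ i, f i < 4 := fun i => (e _).isLt
  have hP : ∀ i j, f i = f j ↔ P i j := by
    intro i j
    simp only [f, Fin.val_inj, EmbeddingLike.apply_eq_iff_eq]
    exact Quotient.eq
  have hact : ∀ a b c d : Fin 7, act (enc f) (a.val, b.val, c.val, d.val) = true ↔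
      P a b ∧ P c d ∧ ¬ P a c := by
    intro a b c d
    simp only [act, dig_enc f (fun i => (hf i).trans (by norm_num)), Bool.and_eq_true, Nat.beq_eq,
      Bool.not_eq_eq_eq_not, Bool.not_true, ← hP, and_assoc, beq_false]
  have main : ∀ a b c d : Fin 7, a < b → c < d → P a b → P c d → P a c := by
    intro a b c d hab hcd h5 h6
    by_contra h7
    have hac : a ≠ c := by rintro rfl; exact h7 (P.refl _)
    have had : a ≠ d := by rintro rfl; exact h7 (P.symm h6)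
    have hbc : b ≠ c := by rintro rfl; exact h7 h5
    have hbd : b ≠ d := by rintro rfl; exact h7 (P.trans h5 (P.symm h6))
    have := all7_spec 4 _ chkD f hf
    simp only [Bool.or_eq_true, Bool.not_eq_eq_eq_not, Bool.not_true, List.any_eq_true] at this
    rcases this with h8 | ⟨⟨x1, x2, x3, x4⟩, hx, h8⟩
    · rw [List.any_eq_false] at h8
      rcases cross_or a b c d hab hcd hac had hbc hbd with h | h | h
      · exact h7 (cross_rel P D D' h1 h2 a b c d (cross_of _ _ _ _ h) h5 h6)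
      · exact h8 _ h ((hact _ _ _ _).2 ⟨h5, h6, h7⟩)
      · exact h8 _ h ((hact _ _ _ _).2 ⟨h6, h5, fun h => h7 (P.symm h)⟩)
    · obtain ⟨z1, z2, z3, z4, z5⟩ := CR_cross _ hx
      obtain ⟨y1, y2, y3⟩ := (hact ⟨x1, z1⟩ ⟨x2, z2⟩ ⟨x3, z3⟩ ⟨x4, z4⟩).1 h8
      have z6 : crossB x1 x2 x3 x4 = true := z5
      exact y3 (cross_rel P D D' h1 h2 _ _ _ _
        (cross_of ⟨x1, z1⟩ ⟨x2, z2⟩ ⟨x3, z3⟩ ⟨x4, z4⟩ z6) y1 y2)
  intro a b c d hab hcd h5 h6
  rcases lt_or_gt_of_ne hab with h | h <;> rcases lt_or_gt_of_ne hcd with h' | h'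
  · exact main a b c d h h' h5 h6
  · exact P.trans (main a b d c h h' h5 (P.symm h6)) (P.symm h6)
  · exact P.trans h5 (main b a c d h h' (P.symm h5) h6)
  · exact P.trans (P.trans h5 (main b a d c h h' (P.symm h5) (P.symm h6))) (P.symm h6)

def CAND : List (ℕ × List Q4) := [(898184, [(2, 3, 4, 5), (2, 3, 4, 6), (2, 3, 5, 6)]), (856576, [(0, 1, 3, 4), (0, 2, 3, 4), (1, 2, 3, 4)]), (893632, [(0, 1, 2, 5), (0, 1, 2, 6), (0, 1, 5, 6)]), (894536, [(1, 2, 3, 5), (1, 2, 3, 6), (1, 2, 5, 6)]), (894529, [(0, 2, 3, 5), (0, 2, 3, 6), (0, 2, 5, 6)]), (860681, [(0, 1, 4, 5), (0, 3, 4, 5), (1, 3, 4, 5)]), (864777, [(0, 1, 4, 6), (0, 3, 4, 6), (1, 3, 4, 6)]), (894088, [(2, 3, 5, 6), (2, 4, 5, 6), (3, 4, 5, 6)]), (861256, [(1, 2, 3, 4), (1, 2, 3, 5), (1, 2, 4, 5)]), (865864, [(1, 2, 3, 4), (1, 2, 3, 6), (1, 2, 4, 6)]), (861249, [(0, 2, 3, 4), (0, 2, 3, 5), (0, 2, 4, 5)]), (865857, [(0, 2, 3,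 4), (0, 2, 3, 6), (0, 2, 4, 6)]), (857216, [(0, 1, 2, 3), (0, 1, 2, 5), (0, 1, 3, 5)]), (857792, [(0, 1, 2, 3), (0, 1, 2, 6), (0, 1, 3, 6)]), (860744, [(1, 2, 4, 5), (1, 3, 4, 5), (2, 3, 4, 5)]), (864840, [(1, 2, 4, 6), (1, 3, 4, 6), (2, 3, 4, 6)]), (860737, [(0, 2, 4, 5), (0, 3, 4, 5), (2, 3, 4, 5)]), (864833, [(0, 2, 4, 6), (0, 3, 4, 6), (2, 3, 4, 6)])]

def sepB (m : ℕ) (x : Q4) : Bool :=
  (Nat.blt (dig m x.1) (dig m x.2.2.1) && Nat.blt (dig m x.1) (dig m x.2.2.2) &&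
    Nat.blt (dig m x.2.1) (dig m x.2.2.1) && Nat.blt (dig m x.2.1) (dig m x.2.2.2)) ||
  (Nat.blt (dig m x.2.2.1) (dig m x.1) && Nat.blt (dig m x.2.2.2) (dig m x.1) &&
    Nat.blt (dig m x.2.2.1) (dig m x.2.1) && Nat.blt (dig m x.2.2.2) (dig m x.2.1))

def wt (m : ℕ) : ℕ := 8 ^ dig m 0 + 8 ^ dig m 1 + 8 ^ dig m 2 + 8 ^ dig m 3 + 8 ^ dig m 4 +
  8 ^ dig m 5 + 8 ^ dig m 6

lemma chkC : all7 5 (fun m => !(Nat.beq (wt m) 8778) || CAND.any fun g => g.2.all (sepB m)) = true := by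
  decide +kernel

def std (i : Fin 7) : ℕ := dig 1193024 i

lemma cand_std : ∀ g ∈ CAND, g.2.all (sepB 1193024) = true := by decide +kernel

set_option synthInstance.maxSize 1024 in
lemma cand_complete : ∀ g ∈ CAND, ∀ a b c d : Fin 7, a < b → c < d → dig g.1 a = dig g.1 b →
    dig g.1 c = dig g.1 d → dig g.1 a = dig g.1 c ∨ (a.val, b.val, c.val, d.val) ∈ g.2 ∨
      (c.val, d.val, a.val, b.val) ∈ g.2 := by decide +kernel

set_option synthInstance.maxSize 1024 in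
lemma cand_img : ∀ g ∈ CAND, (∀ a : Fin 7, dig g.1 a < 4) ∧ (∀ k : Fin 4, ∃ a : Fin 7, dig g.1 a = k) ∧
    ∃ a b c d : Fin 7, a ≠ b ∧ c ≠ d ∧ dig g.1 a = dig g.1 b ∧ dig g.1 c = dig g.1 d ∧
      dig g.1 a ≠ dig g.1 c := by decide +kernel

end Pool.Agent.H7.Phylo
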