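import Mathlib
import Pool.Agent.H7.Phylo

namespace Pool.Agent.H7.Phylo

open SimpleGraph

/-- interval condition: spans of different non-singleton classes are disjoint -/
def Good (P : Setoid (Fin 7)) (pos : Fin 7 → ℕ) : Prop :=
  ∀ a b c d r, a ≠ b → c ≠ d → P a b → P c d → pos a ≤ r → r ≤ pos b → pos c ≤ r → r ≤ pos d → P a c

lemma parts_of_good (G : SimpleGraph V) (nd : ℕ → Fin 5) (rk : Fin 5 → ℕ) (pos : Fin 7 → ℕ)
    (hpos : ∀ i, pos i < 5) (hrk : ∀ r, r < 5 → rk (nd r) = r)
    (hleaf : ∀ i, G.Adj (.inl i) (.inr (nd (pos i))))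
    (hpath : ∀ r, r + 1 < 5 → G.Adj (.inr (nd r)) (.inr (nd (r + 1))))
    (P : Setoid (Fin 7)) (hP : Good P pos) :
    ∃ D : Set (Sym2 V), ∀ i j, P i j ↔ (G.deleteEdges D).Reachable (.inl i) (.inl j) := by
  let col : V → Set (Fin 7) := Sum.elim (fun i => {j | P i j})
    (fun y => {j | ∃ a b, a ≠ b ∧ P a b ∧ P a j ∧ pos a ≤ rk y ∧ rk y ≤ pos b})
  let D : Set (Sym2 V) := {e | ∃ u v, e = s(u, v) ∧ col u ≠ col v}
  have hD : ∀ u v, s(u, v) ∈ D ↔ col u ≠ col v := by
    intro u v
    constructor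
    · rintro ⟨x, y, h, h2⟩
      simp only [Sym2.eq, Sym2.rel_iff', Prod.mk.injEq, Prod.swap_prod_mk] at h
      rcases h with ⟨rfl, rfl⟩ | ⟨rfl, rfl⟩
      · exact h2
      · exact h2.symm
    · intro h; exact ⟨u, v, rfl, h⟩
  have hadj : ∀ u v, G.Adj u v → col u = col v → (G.deleteEdges D).Adj u v := by
    intro u v h1 h2
    rw [deleteEdges_adj, hD]
    exact ⟨h1, fun h => h h2⟩
  have hcol : ∀ i j r, i ≠ j → P i j → pos i ≤ r → r ≤ pos j →
      col (.inr (nd r)) = {l | P i l} := by
    intro i j r hij h1 h2 h3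
    have hr : rk (nd r) = r := hrk r (lt_of_le_of_lt h3 (hpos j))
    ext l
    simp only [col, Sum.elim_inr, Set.mem_ofPred_eq, hr]
    constructor
    · rintro ⟨a, b, h4, h5, h6, h7, h8⟩
      exact P.trans (hP i j a b r hij h4 h1 h5 h2 h3 h7 h8) h6
    · intro h; exact ⟨i, j, hij, h1, h, h2, h3⟩
  have hup : ∀ i j, i ≠ j → P i j → pos i ≤ pos j →
      (G.deleteEdges D).Reachable (.inl i) (.inl j) := by
    intro i j hij h1 h2
    have step : ∀ t, pos i + t ≤ pos j →
        (G.deleteEdges D).Reachable (.inl i) (.inr (nd (pos i + t))) := by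
      intro t
      induction t with
      | zero =>
        intro _
        exact (hadj _ _ (hleaf i) (hcol i j _ hij h1 le_rfl h2).symm).reachable
      | succ t ih =>
        intro ht
        refine (ih (by omega)).trans (hadj _ _ (hpath _ (by have := hpos j; omega)) ?_).reachable
        rw [hcol i j _ hij h1 (by omega) (by omega), hcol i j _ hij h1 (by omega) (by omega)]
    have h3 := step (pos j - pos i) (by omega)
    rw [show pos i + (pos j - pos i) = pos j by omega] at h3
    refine h3.trans (hadj _ _ (hleaf j).symm ?_).reachable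
    rw [hcol i j _ hij h1 h2 le_rfl]
    ext l
    simp only [col, Sum.elim_inl, Set.mem_ofPred_eq]
    exact ⟨fun h => P.trans (P.symm h1) h, fun h => P.trans h1 h⟩
  refine ⟨D, fun i j => ⟨fun h => ?_, fun h => ?_⟩⟩
  · by_cases hij : i = j
    · subst hij; rfl
    · rcases le_total (pos i) (pos j) with h2 | h2
      · exact hup i j hij h h2
      · exact (hup j i (Ne.symm hij) (P.symm h) h2).symm
  · have : ∀ u v, (G.deleteEdges D).Walk u v → col u = col v := by
      intro u v p
      induction p with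
      | nil => rfl
      | cons h q ih =>
        rw [deleteEdges_adj, hD] at h
        exact (not_not.mp h.2).trans ih
    obtain ⟨p⟩ := h
    have h2 := this _ _ p
    have h3 : j ∈ col (.inl j) := P.refl j
    rw [← h2] at h3
    exact h3

lemma cat_struct (G : SimpleGraph V) (hc : G.Connected)
    (h1 : ∀ i, (G.neighborSet (.inl i)).ncard = 1) (h3 : ∀ j, (G.neighborSet (.inr j)).ncard = 3)
    (φ : G.comap Sum.inr ≃g pathGraph 5) :
    ∃ (pos : Fin 7 → ℕ) (x : Equiv.Perm (Fin 7)), (∀ i, pos (x i) = std i) ∧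
      ∀ P : Setoid (Fin 7), Good P pos →
        ∃ D : Set (Sym2 V), ∀ i j, P i j ↔ (G.deleteEdges D).Reachable (.inl i) (.inl j) := by
  classical
  have hl : ∀ i, ∃ y, G.Adj (.inl i) (.inr y) := by
    intro i
    obtain ⟨w, hw⟩ := Set.ncard_eq_one.mp (h1 i)
    have hw' : G.Adj (.inl i) w := by
      have : w ∈ G.neighborSet (.inl i) := by rw [hw]; rfl
      exact this
    rcases w with j | y
    · exfalso
      obtain ⟨w2, hw2⟩ := Set.ncard_eq_one.mp (h1 j)
      have e2 : w2 = .inl i := by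
        have : (Sum.inl i : V) ∈ G.neighborSet (.inl j) := hw'.symm
        rw [hw2] at this; exact this.symm
      subst e2
      have : ∀ u v, G.Walk u v → (u = .inl i ∨ u = .inl j) → (v = .inl i ∨ v = .inl j) := by
        intro u v p
        induction p with
        | nil => exact id
        | cons h q ih =>
          rename_i a b c
          intro hu
          apply ih
          rcases hu with rfl | rfl
          · right
            have : b ∈ G.neighborSet (.inl i) := h
            rw [hw] at this; exact this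
          · left
            have : b ∈ G.neighborSet (.inl j) := h
            rw [hw2] at this; exact this
      obtain ⟨p⟩ := hc.preconnected (.inl i) (.inr 0)
      rcases this _ _ p (Or.inl rfl) with h | h <;> cases h
    · exact ⟨y, hw'⟩
  choose y hy using hl
  let nd : ℕ → Fin 5 := fun r => φ.symm ⟨r % 5, Nat.mod_lt _ (by norm_num)⟩
  let pos : Fin 7 → ℕ := fun i => (φ (y i)).val
  have hpos : ∀ i, pos i < 5 := fun i => (φ (y i)).isLt
  have hrk : ∀ r, r < 5 → (φ (nd r)).val = r := by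
    intro r hr; simp [nd, Nat.mod_eq_of_lt hr]
  have hnd : ∀ i, nd (pos i) = y i := by
    intro i; apply φ.injective; apply Fin.ext; exact hrk _ (hpos i)
  have hleaf : ∀ i, G.Adj (.inl i) (.inr (nd (pos i))) := fun i => by rw [hnd]; exact hy i
  have hpath : ∀ r, r + 1 < 5 → G.Adj (.inr (nd r)) (.inr (nd (r + 1))) := by
    intro r hr
    have : (pathGraph 5).Adj (φ (nd r)) (φ (nd (r + 1))) := by
      rw [pathGraph_adj, hrk r (by omega), hrk (r + 1) hr]; left; rfl
    exact φ.map_adj_iff.mp this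
  have hinj : ∀ r t, r < 5 → t < 5 → nd r = nd t → r = t := by
    intro r t hr ht h; rw [← hrk r hr, h, hrk t ht]
  have four : ∀ (j : Fin 5) (a b c d : V), G.Adj (.inr j) a → G.Adj (.inr j) b → G.Adj (.inr j) c →
      G.Adj (.inr j) d → a ≠ b → a ≠ c → a ≠ d → b ≠ c → b ≠ d → c ≠ d → False := by
    intro j a b c d ha hb hc hd n1 n2 n3 n4 n5 n6
    have hsub : (({a, b, c, d} : Finset V) : Set V) ⊆ G.neighborSet (.inr j) := by
      intro z hz
      simp only [Finset.coe_insert, Finset.coe_singleton, Set.mem_insert_iff,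
        Set.mem_singleton_iff] at hz
      rcases hz with rfl | rfl | rfl | rfl <;> assumption
    have := Set.ncard_le_ncard hsub (Set.toFinite _)
    rw [h3, Set.ncard_coe_finset, Finset.card_insert_of_notMem (by simp [n1, n2, n3]),
      Finset.card_insert_of_notMem (by simp [n4, n5]), Finset.card_pair n6] at this
    omega
  have c2 : ∀ i j, i ≠ j → pos i = pos j → pos i = 0 ∨ pos i = 4 := by
    intro i j hij h
    by_contra hn
    have := hpos i
    obtain ⟨r, hr⟩ : ∃ r, pos i = r + 1 := ⟨pos i - 1, by omega⟩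
    have a1 := (hleaf i).symm
    have a2 := (hleaf j).symm
    rw [← h] at a2
    rw [hr] at a1 a2
    refine four _ _ _ _ _ a1 a2 (hpath r (by omega)).symm (hpath (r + 1) (by omega))
      (by simpa using hij) (by simp) (by simp) (by simp) (by simp) ?_
    intro h5
    have := hinj r (r + 1 + 1) (by omega) (by omega) (Sum.inr_injective h5)
    omega
  have c3 : ∀ i j l, i ≠ j → i ≠ l → j ≠ l → pos i = pos j → pos j = pos l → False := by
    intro i j l hij hil hjl h h'
    have a1 := (hleaf i).symm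
    have a2 := (hleaf j).symm
    have a3 := (hleaf l).symm
    rw [← h'] at a3
    rw [← h] at a2 a3
    rcases c2 i j hij h with h0 | h0
    · rw [h0] at a1 a2 a3
      exact four _ _ _ _ _ a1 a2 a3 (hpath 0 (by omega)) (by simpa using hij) (by simpa using hil)
        (by simp) (by simpa using hjl) (by simp) (by simp)
    · rw [h0] at a1 a2 a3
      exact four _ _ _ _ _ a1 a2 a3 (hpath 3 (by omega)).symm (by simpa using hij)
        (by simpa using hil) (by simp) (by simpa using hjl) (by simp) (by simp)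
  refine ⟨pos, Tuple.sort pos, ?_,
    fun P hP => parts_of_good G nd (fun z => (φ z).val) pos hpos hrk hleaf hpath P hP⟩
  set x := Tuple.sort pos with hx
  have hm : Monotone (pos ∘ x) := Tuple.monotone_sort pos
  have m0 : pos (x 0) ≤ pos (x 1) := hm (by decide)
  have m1 : pos (x 1) ≤ pos (x 2) := hm (by decide)
  have m2 : pos (x 2) ≤ pos (x 3) := hm (by decide)
  have m3 : pos (x 3) ≤ pos (x 4) := hm (by decide)
  have m4 : pos (x 4) ≤ pos (x 5) := hm (by decide)
  have m5 : pos (x 5) ≤ pos (x 6) := hm (by decide)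
  have m6 := hpos (x 6)
  have ne : ∀ a b : Fin 7, a ≠ b → x a ≠ x b := fun a b h h' => h (x.injective h')
  have d0 := imp_iff_not_or.mp (c2 _ _ (ne 0 1 (by decide)))
  have d1 := imp_iff_not_or.mp (c2 _ _ (ne 1 2 (by decide)))
  have d2 := imp_iff_not_or.mp (c2 _ _ (ne 2 3 (by decide)))
  have d3 := imp_iff_not_or.mp (c2 _ _ (ne 3 4 (by decide)))
  have d4 := imp_iff_not_or.mp (c2 _ _ (ne 4 5 (by decide)))
  have d5 := imp_iff_not_or.mp (c2 _ _ (ne 5 6 (by decide)))
  have e0 := not_and.mpr (c3 _ _ _ (ne 0 1 (by decide)) (ne 0 2 (by decide)) (ne 1 2 (by decide)))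
  have e1 := not_and.mpr (c3 _ _ _ (ne 1 2 (by decide)) (ne 1 3 (by decide)) (ne 2 3 (by decide)))
  have e2 := not_and.mpr (c3 _ _ _ (ne 2 3 (by decide)) (ne 2 4 (by decide)) (ne 3 4 (by decide)))
  have e3 := not_and.mpr (c3 _ _ _ (ne 3 4 (by decide)) (ne 3 5 (by decide)) (ne 4 5 (by decide)))
  have e4 := not_and.mpr (c3 _ _ _ (ne 4 5 (by decide)) (ne 4 6 (by decide)) (ne 5 6 (by decide)))
  have s : std 0 = 0 ∧ std 1 = 0 ∧ std 2 = 1 ∧ std 3 = 2 ∧ std 4 = 3 ∧ std 5 = 4 ∧ std 6 = 4 := by
    decide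
  have key : pos (x 0) = 0 ∧ pos (x 1) = 0 ∧ pos (x 2) = 1 ∧ pos (x 3) = 2 ∧ pos (x 4) = 3 ∧
      pos (x 5) = 4 ∧ pos (x 6) = 4 := by omega
  intro i
  fin_cases i <;> simp [s, key]

lemma good_of_sep (g : ℕ × List Q4) (hg : g ∈ CAND) (m : ℕ) (h : g.2.all (sepB m) = true)
    (x : Equiv.Perm (Fin 7)) (pos : Fin 7 → ℕ) (hpos : ∀ i : Fin 7, pos (x i) = dig m i) :
    Good (Setoid.ker fun i => dig g.1 (x.symm i)) pos := by
  rw [List.all_eq_true] at h
  have main : ∀ a b c d : Fin 7, a < b → c < d → dig g.1 a = dig g.1 b → dig g.1 c = dig g.1 d →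
      dig g.1 a = dig g.1 c ∨
        (dig m a < dig m c ∧ dig m a < dig m d ∧ dig m b < dig m c ∧ dig m b < dig m d) ∨
        (dig m c < dig m a ∧ dig m d < dig m a ∧ dig m c < dig m b ∧ dig m d < dig m b) := by
    intro a b c d hab hcd h1 h2
    rcases cand_complete g hg a b c d hab hcd h1 h2 with h3 | h3 | h3
    · exact Or.inl h3
    · right
      have := h _ h3
      simp only [sepB, Bool.or_eq_true, Bool.and_eq_true, Nat.blt_eq] at this
      tauto
    · right
      have := h _ h3
      simp only [sepB, Bool.or_eq_true, Bool.and_eq_true, Nat.blt_eq] at this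
      tauto
  intro a b c d r hab hcd h1 h2 h3 h4 h5 h6
  obtain ⟨a, rfl⟩ := x.surjective a
  obtain ⟨b, rfl⟩ := x.surjective b
  obtain ⟨c, rfl⟩ := x.surjective c
  obtain ⟨d, rfl⟩ := x.surjective d
  simp only [Setoid.ker_def, Equiv.symm_apply_apply, hpos] at *
  have hab' : a ≠ b := fun h => hab (by rw [h])
  have hcd' : c ≠ d := fun h => hcd (by rw [h])
  rcases lt_or_gt_of_ne hab' with p | p <;> rcases lt_or_gt_of_ne hcd' with q | q
  · have := main a b c d p q h1 h2; omega
  · have := main a b d c p q h1 h2.symm; omega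
  · have := main b a c d p q h1.symm h2; omega
  · have := main b a d c p q h1.symm h2.symm; omega

lemma extra (p1 p2 : Fin 7 → ℕ) (x1 x2 : Equiv.Perm (Fin 7)) (h1 : ∀ i, p1 (x1 i) = std i)
    (h2 : ∀ i, p2 (x2 i) = std i) :
    ∃ P : Setoid (Fin 7), Good P p1 ∧ Good P p2 ∧ Nat.card (Quotient P) = 4 ∧ ¬ Triv P := by
  have hs : ∀ i, std i < 5 := by decide
  have hp2 : ∀ i, p2 i < 5 := fun i => by
    obtain ⟨j, rfl⟩ := x2.surjective i
    rw [h2]; exact hs j
  let q : Fin 7 → ℕ := fun i => p2 (x1 i)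
  have hq : ∀ i, q i < 5 := fun i => hp2 _
  have hd := dig_enc q (fun i => (hq i).trans (by norm_num))
  have hw : wt (enc q) = 8778 := by
    have e1 : ∑ i, 8 ^ q i = ∑ i, 8 ^ p2 i := Equiv.sum_comp x1 (fun i => 8 ^ p2 i)
    have e2 : ∑ i, 8 ^ p2 (x2 i) = ∑ i, 8 ^ p2 i := Equiv.sum_comp x2 (fun i => 8 ^ p2 i)
    have e3 : ∑ i, 8 ^ std i = 8778 := by decide
    simp only [h2] at e2
    rw [← e2, e3, Fin.sum_univ_seven] at e1
    rw [← e1, ← hd 0, ← hd 1, ← hd 2, ← hd 3, ← hd 4, ← hd 5, ← hd 6]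
    rfl
  have := all7_spec 5 _ chkC q hq
  simp only [hw, Nat.beq_refl, Bool.not_true, Bool.false_or, List.any_eq_true] at this
  obtain ⟨g, hg, hsep⟩ := this
  obtain ⟨i1, i2, a, b, c, d, i3, i4, i5, i6, i7⟩ := cand_img g hg
  refine ⟨_, good_of_sep g hg _ (cand_std g hg) x1 p1 h1,
    good_of_sep g hg _ hsep x1 p2 (fun i => (hd i).symm), ?_, ?_⟩
  · rw [Nat.card_congr (Setoid.quotientKerEquivRange _)]
    have : Set.range (fun i => dig g.1 (x1.symm i)) = ((Finset.range 4 : Finset ℕ) : Set ℕ) := by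
      ext k
      simp only [Set.mem_range, Finset.coe_range, Set.mem_Iio]
      constructor
      · rintro ⟨i, rfl⟩; exact i1 _
      · intro hk
        obtain ⟨z, hz⟩ := i2 ⟨k, hk⟩
        exact ⟨x1 z, by simpa using hz⟩
    rw [this]; simp
  · intro ht
    apply i7
    have := ht (x1 a) (x1 b) (x1 c) (x1 d) (fun h => i3 (x1.injective h))
      (fun h => i4 (x1.injective h)) (by simpa [Setoid.ker_def] using i5)
      (by simpa [Setoid.ker_def] using i6)
    simpa [Setoid.ker_def] using this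

end Pool.Agent.H7.Phylo
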