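import Pool.Agent.H7.Erdos

/-! Connected graphs of bounded degree, large odd girth and small independence number. -/

set_option autoImplicit false

namespace Pool.Agent.H7.Rewire

open SimpleGraph Finset Pool.Agent.H11.Girth Pool.Agent.H7.Erdos

/-- no odd closed walk of length at most `g` -/
def NoOdd {V : Type} (G : SimpleGraph V) (g : ℕ) : Prop :=
  ∀ x (p : G.Walk x x), p.length ≤ g → p.length % 2 = 0

theorem walk_add_edge {V : Type} {G : SimpleGraph V} {g : ℕ} {u v : V} (h : NoOdd G g)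
    (hfar : ∀ p : G.Walk u v, g ≤ p.length) {x y : V} (p : (G ⊔ edge u v).Walk x y)
    (hp : p.length ≤ g) :
    (∃ q : G.Walk x y, q.length ≤ p.length ∧ q.length % 2 = p.length % 2) ∨
    (∃ a b, ((a = u ∧ b = v) ∨ (a = v ∧ b = u)) ∧ ∃ (q1 : G.Walk x a) (q2 : G.Walk b y),
      q1.length + 1 + q2.length ≤ p.length ∧ (q1.length + 1 + q2.length) % 2 = p.length % 2) := by
  induction p with
  | nil => exact Or.inl ⟨Walk.nil, le_rfl, rfl⟩
  | @cons x x' y hxx p ih =>
    rw [Walk.length_cons] at hp ⊢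
    rcases hxx with hG | he
    · rcases ih (by omega) with ⟨q, h1, h2⟩ | ⟨a, b, hab, q1, q2, h1, h2⟩
      · exact Or.inl ⟨Walk.cons hG q, by rw [Walk.length_cons]; omega, by rw [Walk.length_cons]; omega⟩
      · exact Or.inr ⟨a, b, hab, Walk.cons hG q1, q2, by rw [Walk.length_cons]; omega,
          by rw [Walk.length_cons]; omega⟩
    · have he' := ((edge_adj u v x x').1 he).1
      rcases ih (by omega) with ⟨q, h1, h2⟩ | ⟨a, b, hab, q1, q2, h1, h2⟩
      · exact Or.inr ⟨x, x', he', Walk.nil, q, by rw [Walk.length_nil]; omega,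
          by rw [Walk.length_nil]; omega⟩
      · rcases he' with ⟨rfl, rfl⟩ | ⟨rfl, rfl⟩ <;> rcases hab with ⟨rfl, rfl⟩ | ⟨rfl, rfl⟩
        · have := hfar q1.reverse
          rw [Walk.length_reverse] at this; omega
        · have := h _ q1 (by omega)
          exact Or.inl ⟨q2, by omega, by omega⟩
        · have := h _ q1 (by omega)
          exact Or.inl ⟨q2, by omega, by omega⟩
        · have := hfar q1; omega

theorem noOdd_add_edge {V : Type} {G : SimpleGraph V} {g : ℕ} {u v : V} (h : NoOdd G g)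
    (hfar : ∀ p : G.Walk u v, g ≤ p.length) : NoOdd (G ⊔ edge u v) g := by
  intro x p hp
  rcases walk_add_edge h hfar p hp with ⟨q, h1, h2⟩ | ⟨a, b, hab, q1, q2, h1, -⟩
  · have := h _ q (by omega); omega
  · rcases hab with ⟨rfl, rfl⟩ | ⟨rfl, rfl⟩
    · have := hfar (q2.append q1).reverse
      rw [Walk.length_reverse, Walk.length_append] at this; omega
    · have := hfar (q2.append q1)
      rw [Walk.length_append] at this; omega

open Classical in
/-- large independent sets -/
noncomputable def inds {n : ℕ} (G : SimpleGraph (Fin n)) : Finset (Finset (Fin n)) :=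
  univ.filter (fun S => n ≤ 3 * S.card ∧ ∀ u ∈ S, ∀ v ∈ S, ¬ G.Adj u v)

theorem mem_inds {n : ℕ} {G : SimpleGraph (Fin n)} {S : Finset (Fin n)} :
    S ∈ inds G ↔ n ≤ 3 * S.card ∧ ∀ u ∈ S, ∀ v ∈ S, ¬ G.Adj u v := by
  simp [inds]

theorem step (g B n : ℕ) (hB : B = (2000 + 1) ^ g) (hn : n = 12 * B)
    (G : SimpleGraph (Fin n)) (hd : ∀ v, (G.neighborSet v).ncard ≤ 2000)
    (hs : ∑ v, (G.neighborSet v).ncard ≤ 290 * n) (hN : (inds G).Nonempty) :
    ∃ u v, u ≠ v ∧ (G.neighborSet u).ncard < 2000 ∧ (G.neighborSet v).ncard < 2000 ∧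
      (∀ p : G.Walk v u, g ≤ p.length) ∧
      (inds G).card ≤ 72 * ((inds G).filter (fun S => u ∈ S ∧ v ∈ S)).card := by
  classical
  have hdeg : ∀ v, (G.neighborSet v).ncard = G.degree v := by
    intro v
    rw [← card_neighborSet_eq_degree, Set.ncard_eq_toFinset_card', Set.toFinset_card]
  have hd' : ∀ v, G.degree v ≤ 2000 := fun v => hdeg v ▸ hd v
  choose Ball hB1 hB2 using fun u => ball_bound G 2000 hd' u g
  set U := univ.filter (fun v => (G.neighborSet v).ncard < 2000) with hU
  set W := univ.filter (fun v => ¬ (G.neighborSet v).ncard < 2000) with hW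
  have hWc : W.card ≤ 2 * B := by
    have h1 : W.card * 2000 ≤ ∑ v, (G.neighborSet v).ncard := by
      calc _ = ∑ _v ∈ W, 2000 := by simp
        _ ≤ ∑ v ∈ W, (G.neighborSet v).ncard := sum_le_sum (fun v hv => by simpa [hW] using hv)
        _ ≤ _ := sum_le_sum_of_subset (subset_univ _)
    omega
  set A : Finset (Fin n × Fin n) := (U ×ˢ U).filter (fun p => p.2 ∉ Ball p.1) with hA
  have hc : ∀ S ∈ inds G, 2 * B * B ≤ (A.filter (fun p => p.1 ∈ S ∧ p.2 ∈ S)).card := by
    intro S hS
    set F := S \ W with hF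
    have hj : 2 * B ≤ F.card := by
      have := le_card_sdiff W S
      have := (mem_inds.1 hS).1
      rw [hF]; omega
    have hsub : (F.sigma (fun u => F \ Ball u)).card ≤
        (A.filter (fun p => p.1 ∈ S ∧ p.2 ∈ S)).card := by
      apply card_le_card_of_injOn (fun x => (x.1, x.2))
      · intro x hx
        simp only [coe_sigma, Set.mem_sigma_iff, mem_coe, mem_sdiff, hF, hW, mem_filter, mem_univ,
          true_and, not_not] at hx
        simp only [hA, hU, coe_filter, mem_filter, mem_product, Set.mem_ofPred_eq, mem_univ, true_and]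
        exact ⟨⟨⟨hx.1.2, hx.2.1.2⟩, hx.2.2⟩, hx.1.1, hx.2.1.1⟩
      · rintro ⟨a, b⟩ _ ⟨a', b'⟩ _ h
        simp only [Prod.mk.injEq] at h
        obtain ⟨rfl, rfl⟩ := h
        rfl
    refine le_trans ?_ hsub
    rw [card_sigma]
    calc 2 * B * B ≤ F.card * B := Nat.mul_le_mul_right _ hj
      _ = ∑ _u ∈ F, B := by simp
      _ ≤ _ := sum_le_sum (fun u _ => by
          have := le_card_sdiff (Ball u) F
          have := hB1 u
          omega)
  have hsum : (inds G).card * (2 * B * B) ≤
      ∑ p ∈ A, ((inds G).filter (fun S => p.1 ∈ S ∧ p.2 ∈ S)).card := by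
    calc _ = ∑ _c ∈ inds G, 2 * B * B := by simp
      _ ≤ ∑ S ∈ inds G, (A.filter (fun p => p.1 ∈ S ∧ p.2 ∈ S)).card := sum_le_sum hc
      _ = _ := by
        simp only [card_filter]
        exact sum_comm
  have hBpos : 0 < B := by rw [hB]; positivity
  have hAne : A.Nonempty := by
    obtain ⟨c, hc'⟩ := hN
    have := hc c hc'
    have h2 : 0 < (A.filter (fun p => p.1 ∈ c ∧ p.2 ∈ c)).card :=
      lt_of_lt_of_le (by positivity) this
    exact (card_pos.1 h2).mono (filter_subset _ _)
  have hAc : A.card ≤ n * n := by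
    have := card_le_univ A
    simpa using this
  obtain ⟨p, hp, hle⟩ := exists_le_of_sum_le (s := A)
    (f := fun _ => (inds G).card * (2 * B * B))
    (g := fun p => n * n * ((inds G).filter (fun S => p.1 ∈ S ∧ p.2 ∈ S)).card) hAne (by
      rw [sum_const, smul_eq_mul, ← mul_sum]
      exact Nat.mul_le_mul hAc hsum)
  simp only [hA, hU, mem_filter, mem_product, mem_univ, true_and] at hp
  refine ⟨p.1, p.2, fun h => hp.2 (hB2 _ _ (h ▸ Walk.nil) (by
      have : ∀ (x y : Fin n) (e : x = y), (e ▸ (Walk.nil : G.Walk x x) : G.Walk y x).length = 0 := by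
        intro x y e; subst e; rfl
      rw [this]; omega)), hp.1.1, hp.1.2, fun w => ?_, ?_⟩
  · by_contra hlt
    exact hp.2 (hB2 _ _ w (by omega))
  · apply Nat.le_of_mul_le_mul_right _ (show 0 < 2 * B * B by positivity)
    refine hle.trans (le_of_eq ?_)
    have : n * n = 72 * (2 * B * B) := by rw [hn]; ring
    rw [this]; ring

theorem path_deg (n : ℕ) (v : Fin n) : ((pathGraph n).neighborSet v).ncard ≤ 2 := by
  have h : ((pathGraph n).neighborSet v).ncard ≤ ({v.val + 1, v.val - 1} : Set ℕ).ncard := by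
    refine Set.ncard_le_ncard_of_injOn Fin.val ?_ Fin.val_injective.injOn (Set.toFinite _)
    intro w hw
    rw [mem_neighborSet, pathGraph_adj] at hw
    simp only [Set.mem_insert_iff, Set.mem_singleton_iff]
    omega
  exact h.trans ((Set.ncard_insert_le _ _).trans (by simp))

theorem path_noOdd (n g : ℕ) : NoOdd (pathGraph n) g := by
  intro x p _
  have := ((pathGraph.bicoloring n).even_length_iff_congr p).2 Iff.rfl
  exact Nat.even_iff.1 this

theorem exists_base (g : ℕ) : ∃ (n : ℕ) (G : SimpleGraph (Fin n)), 2 ≤ n ∧ G.Connected ∧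
    (∀ v, (G.neighborSet v).ncard ≤ 2000) ∧ ∑ v, (G.neighborSet v).ncard ≤ 290 * n ∧ NoOdd G g ∧
    ∀ S : Finset (Fin n), (∀ u ∈ S, ∀ v ∈ S, ¬ G.Adj u v) → 3 * S.card < n := by
  classical
  set B := (2000 + 1) ^ g with hB
  have hB0 : 0 < B := by positivity
  obtain ⟨n, hn⟩ : ∃ n, n + 1 = 12 * B := ⟨12 * B - 1, by omega⟩
  have key : ∀ m, m ≤ 144 * (n + 1) → ∃ G : SimpleGraph (Fin (n + 1)), G.Connected ∧ NoOdd G g ∧
      (∀ v, (G.neighborSet v).ncard ≤ 2000) ∧
      ∑ v, (G.neighborSet v).ncard ≤ 2 * (n + 1) + 2 * m ∧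
      (inds G).card * 72 ^ m ≤ 2 ^ (n + 1) * 71 ^ m := by
    intro m
    induction m with
    | zero =>
      intro _
      refine ⟨pathGraph (n + 1), pathGraph_connected n, path_noOdd _ _,
        fun v => (path_deg _ v).trans (by norm_num), ?_, ?_⟩
      · calc _ ≤ ∑ _v : Fin (n + 1), 2 := sum_le_sum (fun v _ => path_deg _ v)
          _ = _ := by simp [mul_comm]
      · have := card_le_univ (inds (pathGraph (n + 1)))
        simpa using this
    | succ m ih =>
      intro hm
      obtain ⟨G, h0, h1, h2, h3, h4⟩ := ih (by omega)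
      rcases (inds G).eq_empty_or_nonempty with he | hne
      · exact ⟨G, h0, h1, h2, by omega, by simp [he]⟩
      obtain ⟨u, v, huv, hu, hv, hfar, hc⟩ := step g B (n + 1) hB hn G h2 (by omega) hne
      refine ⟨G ⊔ edge v u, h0.mono le_sup_left, noOdd_add_edge h1 hfar, fun x => ?_, ?_, ?_⟩
      · have := ncard_sup_edge G v u x
        have := h2 x
        by_cases hx : x = v
        · subst hx; simp [huv.symm] at *; omega
        · by_cases hx' : x = u
          · subst hx'; simp [hx] at *; omega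
          · simp [hx, hx'] at *; omega
      · have := sum_le_sum (s := univ) (fun x _ => ncard_sup_edge G v u x)
        simp only [sum_add_distrib, sum_ite_eq', mem_univ, if_true] at this
        omega
      · have hsub : inds (G ⊔ edge v u) ⊆ (inds G).filter (fun S => ¬ (u ∈ S ∧ v ∈ S)) := by
          intro S hS
          rw [mem_inds] at hS
          rw [mem_filter, mem_inds]
          exact ⟨⟨hS.1, fun a ha b hb hab => hS.2 a ha b hb (Or.inl hab)⟩,
            fun h => hS.2 u h.1 v h.2 (Or.inr (by simp [edge_adj, huv]))⟩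
        have h5 := card_le_card hsub
        have h6 := card_filter_add_card_filter_not (s := inds G) (fun S => u ∈ S ∧ v ∈ S)
        have h7 : (inds (G ⊔ edge v u)).card * 72 ≤ (inds G).card * 71 := by omega
        calc _ = (inds (G ⊔ edge v u)).card * 72 * 72 ^ m := by ring
          _ ≤ (inds G).card * 71 * 72 ^ m := Nat.mul_le_mul_right _ h7
          _ = (inds G).card * 72 ^ m * 71 := by ring
          _ ≤ 2 ^ (n + 1) * 71 ^ m * 71 := Nat.mul_le_mul_right _ h4
          _ = _ := by ring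
  obtain ⟨G, h0, h1, h2, h3, h4⟩ := key _ le_rfl
  refine ⟨n + 1, G, by clear * - hn hB0; omega, h0, h2, h3.trans (by clear * -; omega), h1,
    fun S hS => ?_⟩
  by_contra hlt
  have hpos : 0 < (inds G).card := card_pos.2 ⟨S, mem_inds.2 ⟨not_lt.1 hlt, hS⟩⟩
  have hb : 4 * 71 ^ 144 ≤ 72 ^ 144 := by decide +kernel
  have hb2 : 4 ^ (n + 1) * 71 ^ (144 * (n + 1)) ≤ 72 ^ (144 * (n + 1)) := by
    have := Nat.pow_le_pow_left hb (n + 1)
    rwa [mul_pow, ← pow_mul, ← pow_mul] at this
  have hb3 : 2 ^ (n + 1) < 4 ^ (n + 1) := Nat.pow_lt_pow_left (by norm_num) (by omega)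
  have hb4 : 2 ^ (n + 1) * 71 ^ (144 * (n + 1)) < 4 ^ (n + 1) * 71 ^ (144 * (n + 1)) :=
    Nat.mul_lt_mul_of_pos_right hb3 (by positivity)
  have hb5 : 72 ^ (144 * (n + 1)) ≤ (inds G).card * 72 ^ (144 * (n + 1)) :=
    Nat.le_mul_of_pos_left _ hpos
  exact absurd (hb2.trans (hb5.trans h4)) (not_le.2 hb4)

end Pool.Agent.H7.Rewire
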