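import Pool.Agent.H7.Rewire1

/-! Ball statistics under coverings, and the rewiring cost with constant two. -/

set_option autoImplicit false

namespace Pool.Agent.H7.Rewire

open SimpleGraph

/-- the ball of radius `r` around `v` looks like the rooted graph `(F, o)` -/
def Looks {β : Type} (G : SimpleGraph β) (r k : ℕ) (F : SimpleGraph (Fin k)) (o : Fin k) (v : β) :
    Prop :=
  ∃ e : {w : β // G.dist v w ≤ r} ≃ Fin k,
    (∀ a : {w : β // G.dist v w ≤ r}, (a.1 = v ↔ e a = o)) ∧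
    (∀ a b : {w : β // G.dist v w ≤ r}, (G.Adj a.1 b.1 ↔ F.Adj (e a) (e b)))

theorem looks_congr {β β' : Type} {G : SimpleGraph β} {G' : SimpleGraph β'} {r k : ℕ}
    {F : SimpleGraph (Fin k)} {o : Fin k} {v : β} {v' : β'}
    (φ : {w : β' // G'.dist v' w ≤ r} ≃ {w : β // G.dist v w ≤ r})
    (h1 : ∀ a, a.1 = v' ↔ (φ a).1 = v) (h2 : ∀ a b, G'.Adj a.1 b.1 ↔ G.Adj (φ a).1 (φ b).1) :
    Looks G' r k F o v' ↔ Looks G r k F o v := by
  constructor
  · rintro ⟨e, a1, a2⟩
    refine ⟨φ.symm.trans e, fun a => ?_, fun a b => ?_⟩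
    · have := h1 (φ.symm a)
      rw [Equiv.apply_symm_apply] at this
      rw [← this]; exact a1 _
    · have := h2 (φ.symm a) (φ.symm b)
      rw [Equiv.apply_symm_apply, Equiv.apply_symm_apply] at this
      rw [← this]; exact a2 _ _
  · rintro ⟨e, a1, a2⟩
    exact ⟨φ.trans e, fun a => (h1 a).trans (a1 _), fun a b => (h2 a b).trans (a2 _ _)⟩

theorem lift_walk {β β' : Type} {G : SimpleGraph β} {G' : SimpleGraph β'} (π : β' → β)
    (hl : ∀ a y, G.Adj (π a) y → ∃ b, G'.Adj a b ∧ π b = y) {x y : β} (p : G.Walk x y) :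
    ∀ a, π a = x → ∃ b, π b = y ∧ ∃ q : G'.Walk a b, q.length = p.length := by
  induction p with
  | nil => exact fun a ha => ⟨a, ha, Walk.nil, rfl⟩
  | @cons x x' y h p ih =>
    intro a ha
    obtain ⟨b, hb, hb'⟩ := hl a x' (ha ▸ h)
    obtain ⟨c, hc, q, hq⟩ := ih b hb'
    exact ⟨c, hc, Walk.cons hb q, by simp [hq]⟩

theorem looks_cover {β β' : Type} {G : SimpleGraph β} {G' : SimpleGraph β'} (hG : G.Connected)
    (hG' : G'.Connected) (π : G' →g G)
    (hl : ∀ a y, G.Adj (π a) y → ∃ b, G'.Adj a b ∧ π b = y) (r : ℕ)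
    (hi : ∀ a b c (p : G'.Walk a b) (q : G'.Walk a c), p.length ≤ r + 1 → q.length ≤ r + 1 →
      π b = π c → b = c) (k : ℕ) (F : SimpleGraph (Fin k)) (o : Fin k) (a : β') :
    Looks G' r k F o a ↔ Looks G r k F o (π a) := by
  have wk : ∀ b : {w : β' // G'.dist a w ≤ r}, ∃ p : G'.Walk a b.1, p.length ≤ r := fun b => by
    obtain ⟨p, hp⟩ := hG'.exists_walk_length_eq_dist a b.1
    exact ⟨p, hp ▸ b.2⟩
  let f : {w : β' // G'.dist a w ≤ r} → {w : β // G.dist (π a) w ≤ r} := fun b =>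
    ⟨π b.1, by
      obtain ⟨p, hp⟩ := wk b
      exact (dist_le (p.map π)).trans (by rwa [Walk.length_map])⟩
  have inj : Function.Injective f := by
    intro b c h
    obtain ⟨p, hp⟩ := wk b
    obtain ⟨q, hq⟩ := wk c
    exact Subtype.ext (hi a _ _ p q (by omega) (by omega) (congrArg Subtype.val h))
  have sur : Function.Surjective f := by
    intro y
    obtain ⟨p, hp⟩ := hG.exists_walk_length_eq_dist (π a) y.1
    obtain ⟨b, hb, q, hq⟩ := lift_walk π hl p a rfl
    exact ⟨⟨b, (dist_le q).trans (by rw [hq, hp]; exact y.2)⟩, Subtype.ext hb⟩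
  refine looks_congr (Equiv.ofBijective f ⟨inj, sur⟩) (fun b => ?_) (fun b c => ?_)
  · constructor
    · intro h; exact congrArg π h
    · intro h
      obtain ⟨p, hp⟩ := wk b
      exact hi a _ _ p Walk.nil (by omega) (by simp) h
  · constructor
    · exact fun h => π.map_adj h
    · intro h
      obtain ⟨p, hp⟩ := wk b
      obtain ⟨q, hq⟩ := wk c
      obtain ⟨c', h1, h2⟩ := hl b.1 (π c.1) h
      have := hi a c' c.1 (p.concat h1) q (by rw [Walk.length_concat]; omega) (by omega) h2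
      exact this ▸ h1

/-- every edge of `G` joins vertices at distance at most two in `H` -/
def Two {β : Type} (G H : SimpleGraph β) : Prop :=
  ∀ x y, G.Adj x y → H.Adj x y ∨ ∃ z, H.Adj x z ∧ H.Adj z y

theorem Two.walk {β : Type} {G H : SimpleGraph β} (h : Two G H) {x y : β} (p : G.Walk x y) :
    ∃ q : H.Walk x y, q.length ≤ 2 * p.length := by
  induction p with
  | nil => exact ⟨Walk.nil, by simp⟩
  | @cons x x' y hx p ih =>
    obtain ⟨q, hq⟩ := ih
    rcases h x x' hx with h1 | ⟨z, h1, h2⟩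
    · exact ⟨Walk.cons h1 q, by simp only [Walk.length_cons]; omega⟩
    · exact ⟨Walk.cons h1 (Walk.cons h2 q), by simp only [Walk.length_cons]; omega⟩

theorem Two.connected {β : Type} {G H : SimpleGraph β} (h : Two G H) (hG : G.Connected) :
    H.Connected := by
  have := hG.nonempty
  refine ⟨fun x y => ?_⟩
  obtain ⟨p⟩ := hG.preconnected x y
  obtain ⟨q, -⟩ := h.walk p
  exact ⟨q⟩

theorem Two.dist_le {β : Type} {G H : SimpleGraph β} (h : Two G H) (hG : G.Connected) (x y : β) :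
    (H.dist x y : ℝ) ≤ 2 * (G.dist x y : ℝ) := by
  obtain ⟨p, hp⟩ := hG.exists_walk_length_eq_dist x y
  obtain ⟨q, hq⟩ := h.walk p
  have : H.dist x y ≤ 2 * G.dist x y := (SimpleGraph.dist_le q).trans (hp ▸ hq)
  exact_mod_cast this

theorem two_of_dist {β : Type} {G H : SimpleGraph β} (hH : H.Connected)
    (h : ∀ x y, (H.dist x y : ℝ) ≤ 2 * (G.dist x y : ℝ)) : Two G H := by
  intro x y hxy
  have h1 := h x y
  rw [dist_eq_one_iff_adj.2 hxy] at h1
  have h2 : H.dist x y ≤ 2 := by exact_mod_cast (by simpa using h1 : (H.dist x y : ℝ) ≤ 2)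
  obtain ⟨p, hp⟩ := hH.exists_walk_length_eq_dist x y
  rw [← hp] at h2
  match p, h2 with
  | Walk.nil, _ => exact absurd rfl hxy.ne
  | Walk.cons h Walk.nil, _ => exact Or.inl h
  | Walk.cons h (Walk.cons h' Walk.nil), _ => exact Or.inr ⟨_, h, h'⟩
  | Walk.cons _ (Walk.cons _ (Walk.cons _ _)), h2 => simp at h2

/-- the rewiring cost with constant two -/
noncomputable def cost {N : ℕ} (G : SimpleGraph (Fin N)) : ℝ :=
  sInf {x : ℝ | ∃ H : SimpleGraph (Fin N), H.Connected ∧
    (∀ u v : Fin N, ((H.dist u v : ℝ) ≤ 2 * (G.dist u v : ℝ)) ∧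
      ((G.dist u v : ℝ) ≤ 2 * (H.dist u v : ℝ))) ∧ x = (H.edgeSet.ncard : ℝ) / (N : ℝ)}

theorem Two.refl {β : Type} (G : SimpleGraph β) : Two G G := fun _ _ h => Or.inl h

theorem cost_le {N : ℕ} {G H : SimpleGraph (Fin N)} (hG : G.Connected) (h1 : Two G H)
    (h2 : Two H G) : cost G ≤ (H.edgeSet.ncard : ℝ) / (N : ℝ) := by
  refine csInf_le ⟨0, ?_⟩ ⟨H, h1.connected hG,
    fun u v => ⟨h1.dist_le hG u v, h2.dist_le (h1.connected hG) u v⟩, rfl⟩
  rintro x ⟨H, -, -, rfl⟩
  positivity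

theorem le_cost {N : ℕ} {G : SimpleGraph (Fin N)} (hG : G.Connected) (a : ℝ)
    (h : ∀ H, Two G H → Two H G → a ≤ (H.edgeSet.ncard : ℝ)) : a / (N : ℝ) ≤ cost G := by
  refine le_csInf ⟨_, G, hG, fun u v => ⟨(Two.refl G).dist_le hG u v, (Two.refl G).dist_le hG u v⟩,
    rfl⟩ ?_
  rintro x ⟨H, hH, hd, rfl⟩
  exact div_le_div_of_nonneg_right
    (h H (two_of_dist hH (fun u v => (hd u v).1)) (two_of_dist hG (fun u v => (hd u v).2)))
    (Nat.cast_nonneg _)

theorem Two.comap {β β' : Type} {G H : SimpleGraph β} (h : Two G H) (e : β' ≃ β) :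
    Two (G.comap e) (H.comap e) := by
  intro x y hxy
  rcases h _ _ hxy with h1 | ⟨z, h1, h2⟩
  · exact Or.inl h1
  · exact Or.inr ⟨e.symm z, by simpa using h1, by simpa using h2⟩

theorem ncard_edge_comap {β β' : Type} (H : SimpleGraph β) (e : β' ≃ β) :
    (H.comap e).edgeSet.ncard = H.edgeSet.ncard :=
  Set.ncard_congr' (Iso.comap e H).mapEdgeSet

theorem comap_comap_symm {β β' : Type} (H : SimpleGraph β) (e : β' ≃ β) :
    (H.comap e).comap e.symm = H := by
  ext x y; simp

theorem comap_connected {β β' : Type} {H : SimpleGraph β} (hH : H.Connected) (e : β' ≃ β) :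
    (H.comap e).Connected := (Iso.comap e H).connected_iff.2 hH

theorem comap_deg {β β' : Type} (H : SimpleGraph β) (e : β' ≃ β) (v : β') :
    ((H.comap e).neighborSet v).ncard = (H.neighborSet (e v)).ncard :=
  Set.ncard_congr' ((Iso.comap e H).mapNeighborSet v)

/-- the double cover given by a voltage -/
def cover {α : Type} (G : SimpleGraph α) (φ : α → α → Bool) (hφ : ∀ x y, φ x y = φ y x) :
    SimpleGraph (α × Bool) where
  Adj a b := G.Adj a.1 b.1 ∧ b.2 = xor a.2 (φ a.1 b.1)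
  symm := ⟨fun a b h => ⟨h.1.symm, by rw [h.2, hφ]; cases a.2 <;> cases φ b.1 a.1 <;> rfl⟩⟩
  loopless := ⟨fun a h => G.loopless.1 _ h.1⟩

section
variable {α : Type} {G : SimpleGraph α} {φ : α → α → Bool} {hφ : ∀ x y, φ x y = φ y x}

theorem cover_lift {x y : α} (p : G.Walk x y) :
    ∃ s : Bool, ∀ i, (cover G φ hφ).Reachable (x, i) (y, xor i s) := by
  induction p with
  | nil => exact ⟨false, fun i => by simp⟩
  | @cons x x' y h p ih =>
    obtain ⟨s, hs⟩ := ih
    refine ⟨xor (φ x x') s, fun i => ?_⟩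
    have h1 : (cover G φ hφ).Adj (x, i) (x', xor i (φ x x')) := ⟨h, rfl⟩
    have h2 := hs (xor i (φ x x'))
    rw [Bool.xor_assoc] at h2
    exact h1.reachable.trans h2

theorem cover_connected (hG : G.Connected) (x : α)
    (hx : (cover G φ hφ).Reachable (x, false) (x, true)) : (cover G φ hφ).Connected := by
  have key : ∀ a : α × Bool, (cover G φ hφ).Reachable (x, false) a := by
    rintro ⟨y, j⟩
    obtain ⟨p⟩ := hG.preconnected x y
    obtain ⟨s, hs⟩ := cover_lift (φ := φ) (hφ := hφ) p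
    have h1 := hs false
    have h2 := hx.trans (hs true)
    cases s <;> cases j <;> simp_all
  haveI : Nonempty (α × Bool) := ⟨(x, false)⟩
  exact ⟨fun a b => (key a).symm.trans (key b)⟩

theorem cover_deg [Finite α] (a : α × Bool) :
    ((cover G φ hφ).neighborSet a).ncard ≤ (G.neighborSet a.1).ncard := by
  refine Set.ncard_le_ncard_of_injOn Prod.fst (fun b hb => hb.1) ?_ (Set.toFinite _)
  intro b hb c hc h
  exact Prod.ext h (by rw [hb.2, hc.2, h])

theorem cover_anchor {V : Type} {B : SimpleGraph V} (an : α → V)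
    (han : ∀ x y, G.Adj x y → (an x = an y ∧ φ x y = false) ∨ (B.Adj (an x) (an y) ∧ φ x y = true))
    {a b : α × Bool} (p : (cover G φ hφ).Walk a b) :
    ∃ q : B.Walk (an a.1) (an b.1), q.length ≤ p.length ∧
      (q.length % 2 = 0 ↔ a.2 = b.2) := by
  induction p with
  | nil => exact ⟨Walk.nil, by simp, by simp⟩
  | @cons a a' b h p ih =>
    obtain ⟨q, h1, h2⟩ := ih
    rcases han _ _ h.1 with ⟨e1, e2⟩ | ⟨e1, e2⟩
    · refine ⟨q.copy e1.symm rfl, by simp only [Walk.length_copy, Walk.length_cons]; omega, ?_⟩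
      rw [Walk.length_copy, h2, h.2, e2]; simp
    · refine ⟨Walk.cons e1 q, by simp only [Walk.length_cons]; omega, ?_⟩
      have h3 := h.2
      rw [e2] at h3
      rw [Walk.length_cons]
      rw [h3] at h2
      revert h2
      cases a.2 <;> cases b.2 <;> simp <;> omega

theorem cover_inj {V : Type} {B : SimpleGraph V} (an : α → V)
    (han : ∀ x y, G.Adj x y → (an x = an y ∧ φ x y = false) ∨ (B.Adj (an x) (an y) ∧ φ x y = true))
    {g : ℕ} (hB : NoOdd B g) {a b c : α × Bool} (p : (cover G φ hφ).Walk a b)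
    (q : (cover G φ hφ).Walk a c) (hl : p.length + q.length ≤ g) (h : b.1 = c.1) : b = c := by
  obtain ⟨w, h1, h2⟩ := cover_anchor an han (p.reverse.append q)
  rw [Walk.length_append, Walk.length_reverse] at h1
  have := hB _ (w.copy rfl (congrArg an h.symm)) (by rw [Walk.length_copy]; omega)
  rw [Walk.length_copy] at this
  exact Prod.ext h (h2.1 this)

end

end Pool.Agent.H7.Rewire
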