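import Pool.Agent.H7.Rewire2

/-! The gadget graph: two twins per vertex, six midpoints per edge. -/

set_option autoImplicit false

namespace Pool.Agent.H7.Rewire

open SimpleGraph Finset

variable {n : ℕ} (B : SimpleGraph (Fin n))

/-- edges of the base graph, written with the smaller end first -/
def Ed : Type := {p : Fin n × Fin n // B.Adj p.1 p.2 ∧ p.1 < p.2}

noncomputable instance : Fintype (Ed B) := by
  classical
  unfold Ed; infer_instance

noncomputable instance : DecidableEq (Ed B) := Classical.decEq _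

/-- vertices of the gadget graph -/
abbrev Vx : Type := (Fin n × Bool) ⊕ (Ed B × Fin 6)

def gadAdj : Vx B → Vx B → Prop
  | Sum.inl p, Sum.inr q => p.1 = q.1.1.1 ∨ p.1 = q.1.1.2
  | Sum.inr q, Sum.inl p => p.1 = q.1.1.1 ∨ p.1 = q.1.1.2
  | Sum.inl _, Sum.inl _ => False
  | Sum.inr _, Sum.inr _ => False

def gad : SimpleGraph (Vx B) where
  Adj := gadAdj B
  symm := ⟨fun x y h => by cases x <;> cases y <;> exact h⟩
  loopless := ⟨fun x h => by cases x <;> exact h⟩

def volt : Vx B → Vx B → Bool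
  | Sum.inl p, Sum.inr q => decide (p.1 = q.1.1.2)
  | Sum.inr q, Sum.inl p => decide (p.1 = q.1.1.2)
  | Sum.inl _, Sum.inl _ => false
  | Sum.inr _, Sum.inr _ => false

theorem volt_symm (x y : Vx B) : volt B x y = volt B y x := by cases x <;> cases y <;> rfl

def anchor : Vx B → Fin n
  | Sum.inl p => p.1
  | Sum.inr q => q.1.1.1

theorem anchor_spec (x y : Vx B) (h : (gad B).Adj x y) :
    (anchor B x = anchor B y ∧ volt B x y = false) ∨
      (B.Adj (anchor B x) (anchor B y) ∧ volt B x y = true) := by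
  rcases x with p | q <;> rcases y with p' | q'
  · exact h.elim
  · rcases h with h | h
    · exact Or.inl ⟨h, decide_eq_false (by rw [h]; exact q'.1.2.2.ne)⟩
    · exact Or.inr ⟨by show B.Adj p.1 _; rw [h]; exact q'.1.2.1.symm, decide_eq_true h⟩
  · rcases h with h | h
    · exact Or.inl ⟨h.symm, decide_eq_false (by rw [h]; exact q.1.2.2.ne)⟩
    · exact Or.inr ⟨by show B.Adj _ p'.1; rw [h]; exact q.1.2.1, decide_eq_true h⟩
  · exact h.elim

theorem exists_ed {u v : Fin n} (h : B.Adj u v) :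
    ∃ e : Ed B, (u = e.1.1 ∧ v = e.1.2) ∨ (u = e.1.2 ∧ v = e.1.1) := by
  rcases lt_or_gt_of_ne h.ne with h1 | h1
  · exact ⟨⟨(u, v), h, h1⟩, Or.inl ⟨rfl, rfl⟩⟩
  · exact ⟨⟨(v, u), h.symm, h1⟩, Or.inr ⟨rfl, rfl⟩⟩

theorem exists_nbr (hn : 2 ≤ n) (hB : B.Connected) (u : Fin n) : ∃ v, B.Adj u v := by
  have : Nontrivial (Fin n) := Fin.nontrivial_iff_two_le.2 hn
  obtain ⟨v, hv⟩ := exists_ne u
  obtain ⟨p⟩ := hB.preconnected u v
  cases p with
  | nil => exact absurd rfl hv
  | cons h _ => exact ⟨_, h⟩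

theorem gad_connected (hn : 2 ≤ n) (hB : B.Connected) : (gad B).Connected := by
  have step : ∀ u v b b', B.Adj u v → (gad B).Reachable (Sum.inl (u, b)) (Sum.inl (v, b')) := by
    intro u v b b' h
    obtain ⟨e, he⟩ := exists_ed B h
    have h1 : (gad B).Adj (Sum.inl (u, b)) (Sum.inr (e, 0)) := he.imp (·.1) (·.1)
    have h2 : (gad B).Adj (Sum.inr (e, 0)) (Sum.inl (v, b')) := he.symm.imp (·.2) (·.2)
    exact h1.reachable.trans h2.reachable
  have wk : ∀ u v (_ : B.Walk u v), (gad B).Reachable (Sum.inl (u, false)) (Sum.inl (v, false)) := by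
    intro u v p
    induction p with
    | nil => rfl
    | cons h _ ih => exact (step _ _ _ _ h).trans ih
  let v0 : Fin n := ⟨0, by omega⟩
  have k1 : ∀ u b, (gad B).Reachable (Sum.inl (v0, false)) (Sum.inl (u, b)) := by
    intro u b
    obtain ⟨v, hv⟩ := exists_nbr B hn hB u
    obtain ⟨p⟩ := hB.preconnected v0 v
    exact (wk _ _ p).trans (step _ _ _ _ hv.symm)
  have key : ∀ x, (gad B).Reachable (Sum.inl (v0, false)) x := by
    rintro (⟨u, b⟩ | q)
    · exact k1 u b
    · have h : (gad B).Adj (Sum.inl (q.1.1.1, false)) (Sum.inr q) := Or.inl rfl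
      exact (k1 _ _).trans h.reachable
  have : Nonempty (Vx B) := ⟨Sum.inl (v0, false)⟩
  exact ⟨fun a b => (key a).symm.trans (key b)⟩

theorem gad_deg (hd : ∀ v, (B.neighborSet v).ncard ≤ 2000) (x : Vx B) :
    ((gad B).neighborSet x).ncard ≤ 12000 := by
  classical
  rcases x with p | q
  · let f : Vx B → Fin n × Fin 6 := fun y => match y with
      | Sum.inl _ => (p.1, 0)
      | Sum.inr q => (if p.1 = q.1.1.1 then q.1.1.2 else q.1.1.1, q.2)
    have h : ((gad B).neighborSet (Sum.inl p)).ncard ≤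
        (B.neighborSet p.1 ×ˢ (Set.univ : Set (Fin 6))).ncard := by
      refine Set.ncard_le_ncard_of_injOn f ?_ ?_ (Set.toFinite _)
      · rintro (p' | q) hy
        · exact hy.elim
        · refine ⟨?_, trivial⟩
          show B.Adj p.1 (if p.1 = q.1.1.1 then q.1.1.2 else q.1.1.1)
          split_ifs with h1
          · rw [h1]; exact q.1.2.1
          · rw [hy.resolve_left h1]; exact q.1.2.1.symm
      · rintro (p' | q) hy (p'' | q') hy' h
        · exact hy.elim
        · exact hy.elim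
        · exact hy'.elim
        · have h1 : (if p.1 = q.1.1.1 then q.1.1.2 else q.1.1.1) =
              (if p.1 = q'.1.1.1 then q'.1.1.2 else q'.1.1.1) := congrArg Prod.fst h
          have h2 : q.2 = q'.2 := congrArg (fun x : Fin n × Fin 6 => x.2) h
          have l1 := q.1.2.2
          have l2 := q'.1.2.2
          have hy1 : p.1 = q.1.1.1 ∨ p.1 = q.1.1.2 := hy
          have hy2 : p.1 = q'.1.1.1 ∨ p.1 = q'.1.1.2 := hy'
          congr 1
          refine Prod.ext (Subtype.ext (Prod.ext ?_ ?_)) h2 <;> split_ifs at h1 <;> omega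
    rw [Set.ncard_prod, Set.ncard_univ, Nat.card_eq_fintype_card, Fintype.card_fin] at h
    have := hd p.1
    omega
  · have h : (gad B).neighborSet (Sum.inr q) ⊆
        {Sum.inl (q.1.1.1, false), Sum.inl (q.1.1.1, true), Sum.inl (q.1.1.2, false),
          Sum.inl (q.1.1.2, true)} := by
      rintro (⟨u, b⟩ | q') hy
      · rcases hy with h | h <;> simp only at h <;> subst h <;> cases b <;> simp
      · exact hy.elim
    refine (Set.ncard_le_ncard h).trans ?_
    refine (Set.ncard_insert_le _ _).trans ?_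
    have := Set.ncard_insert_le (Sum.inl (q.1.1.1, true) : Vx B)
      {Sum.inl (q.1.1.2, false), Sum.inl (q.1.1.2, true)}
    have := Set.ncard_insert_le (Sum.inl (q.1.1.2, false) : Vx B) {Sum.inl (q.1.1.2, true)}
    simp only [Set.ncard_singleton] at this
    omega

/-- the double cover of the gadget graph -/
abbrev gad2 : SimpleGraph (Vx B × Bool) := cover (gad B) (volt B) (volt_symm B)

theorem adj_lo (e : Ed B) (i : Fin 6) (b j : Bool) :
    (gad2 B).Adj (Sum.inr (e, i), j) (Sum.inl (e.1.1, b), j) :=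
  ⟨Or.inl rfl, by
    have : volt B (Sum.inr (e, i)) (Sum.inl (e.1.1, b)) = false := decide_eq_false e.2.2.ne
    simp [this]⟩

theorem adj_hi (e : Ed B) (i : Fin 6) (b j : Bool) :
    (gad2 B).Adj (Sum.inr (e, i), j) (Sum.inl (e.1.2, b), !j) :=
  ⟨Or.inr rfl, by
    have : volt B (Sum.inr (e, i)) (Sum.inl (e.1.2, b)) = true := decide_eq_true rfl
    simp [this]⟩

theorem gad2_connected (hn : 2 ≤ n) (hB : B.Connected)
    (hI : ∀ S : Finset (Fin n), (∀ u ∈ S, ∀ v ∈ S, ¬ B.Adj u v) → 3 * S.card < n) :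
    (gad2 B).Connected := by
  classical
  have hG := gad_connected B hn hB
  by_contra hc
  have hno : ∀ x, ¬ (gad2 B).Reachable (x, false) (x, true) := fun x hx =>
    hc (cover_connected hG x hx)
  let x0 : Vx B × Bool := (Sum.inl (⟨0, by omega⟩, false), false)
  let S : Bool → Finset (Fin n) := fun j =>
    univ.filter (fun v => (gad2 B).Reachable x0 (Sum.inl (v, false), j))
  have flip : ∀ u v j, B.Adj u v →
      (gad2 B).Reachable (Sum.inl (u, false), j) (Sum.inl (v, false), !j) := by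
    intro u v j h
    obtain ⟨e, ⟨rfl, rfl⟩ | ⟨rfl, rfl⟩⟩ := exists_ed B h
    · exact (adj_lo B e 0 false j).symm.reachable.trans (adj_hi B e 0 false j).reachable
    · have := adj_hi B e 0 false (!j)
      rw [Bool.not_not] at this
      exact this.symm.reachable.trans (adj_lo B e 0 false (!j)).reachable
  have hS : ∀ j, 3 * (S j).card < n := by
    intro j
    apply hI
    intro u hu v hv h
    have h1 := (mem_filter.1 hv).2
    have h2 := (mem_filter.1 hu).2.trans (flip u v j h)
    cases j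
    · exact hno _ (h1.symm.trans h2)
    · exact hno _ (h2.symm.trans h1)
  have hcov : (univ : Finset (Fin n)) ⊆ S false ∪ S true := by
    intro v _
    obtain ⟨p⟩ := hG.preconnected x0.1 (Sum.inl (v, false))
    obtain ⟨s, hs⟩ := cover_lift (φ := volt B) (hφ := volt_symm B) p
    have := hs false
    cases s
    · exact mem_union_left _ (mem_filter.2 ⟨mem_univ _, this⟩)
    · exact mem_union_right _ (mem_filter.2 ⟨mem_univ _, this⟩)
  have h1 := (card_le_card hcov).trans (card_union_le _ _)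
  rw [card_univ, Fintype.card_fin] at h1
  have := hS false
  have := hS true
  omega

/-- the end of the lifted edge on the first sheet -/
def ctr (e : Ed B) (j : Bool) : Fin n := if j then e.1.2 else e.1.1

/-- the end of the lifted edge on the second sheet -/
def oth (e : Ed B) (j : Bool) : Fin n := if j then e.1.1 else e.1.2

theorem adj_ctr (e : Ed B) (i : Fin 6) (b j : Bool) :
    (gad2 B).Adj (Sum.inr (e, i), j) (Sum.inl (ctr B e j, b), false) := by
  cases j
  · exact adj_lo B e i b false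
  · exact adj_hi B e i b true

theorem adj_oth (e : Ed B) (i : Fin 6) (b j : Bool) :
    (gad2 B).Adj (Sum.inr (e, i), j) (Sum.inl (oth B e j, b), true) := by
  cases j
  · exact adj_hi B e i b false
  · exact adj_lo B e i b true

theorem adj_cases {e : Ed B} {i : Fin 6} {u : Fin n} {b j l : Bool}
    (h : (gad2 B).Adj (Sum.inr (e, i), j) (Sum.inl (u, b), l)) :
    (u = ctr B e j ∧ l = false) ∨ (u = oth B e j ∧ l = true) := by
  obtain ⟨h1, h2⟩ := h
  have h3 : l = xor j (decide (u = e.1.2)) := h2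
  have hne := e.2.2.ne
  rcases h1 with h1 | h1 <;> simp only at h1 <;> subst h1 <;> cases j <;> simp_all [ctr, oth]

/-- edges of the cheap rewiring of the double cover -/
def cheapE : (Ed B × Fin 6 × Bool) ⊕ (Ed B × Bool × Bool) ⊕ Fin n → Sym2 (Vx B × Bool)
  | Sum.inl (e, i, j) => s((Sum.inr (e, i), j), (Sum.inl (ctr B e j, false), false))
  | Sum.inr (Sum.inl (e, b, j)) =>
      s((Sum.inl (ctr B e j, false), false), (Sum.inl (oth B e j, b), true))
  | Sum.inr (Sum.inr w) => s((Sum.inl (w, false), false), (Sum.inl (w, true), false))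

def cheap : SimpleGraph (Vx B × Bool) := fromEdgeSet (Set.range (cheapE B))

theorem cheap_card : (cheap B).edgeSet.ncard ≤ 16 * Fintype.card (Ed B) + n := by
  have h : (cheap B).edgeSet ⊆ cheapE B '' Set.univ := by
    rw [cheap, edgeSet_fromEdgeSet, Set.image_univ]; exact Set.sdiff_subset
  refine (Set.ncard_le_ncard h).trans ((Set.ncard_image_le).trans (le_of_eq ?_))
  rw [Set.ncard_univ, Nat.card_eq_fintype_card]
  simp only [Fintype.card_sum, Fintype.card_prod, Fintype.card_fin, Fintype.card_bool]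
  ring

theorem two_gad2_cheap : Two (gad2 B) (cheap B) := by
  have key : ∀ e i u b j l, (gad2 B).Adj (Sum.inr (e, i), j) (Sum.inl (u, b), l) →
      (cheap B).Adj (Sum.inr (e, i), j) (Sum.inl (u, b), l) ∨
        ∃ z, (cheap B).Adj (Sum.inr (e, i), j) z ∧ (cheap B).Adj z (Sum.inl (u, b), l) := by
    intro e i u b j l h
    have a1 : (cheap B).Adj (Sum.inr (e, i), j) (Sum.inl (ctr B e j, false), false) :=
      (fromEdgeSet_adj _).2 ⟨⟨Sum.inl (e, i, j), rfl⟩, by simp⟩
    rcases adj_cases B h with ⟨rfl, rfl⟩ | ⟨rfl, rfl⟩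
    · cases b
      · exact Or.inl a1
      · exact Or.inr ⟨_, a1, (fromEdgeSet_adj _).2 ⟨⟨Sum.inr (Sum.inr _), rfl⟩, by simp⟩⟩
    · exact Or.inr ⟨_, a1, (fromEdgeSet_adj _).2 ⟨⟨Sum.inr (Sum.inl (e, b, j)), rfl⟩, by simp⟩⟩
  rintro ⟨p | ⟨e, i⟩, j⟩ ⟨⟨u, b⟩ | ⟨e', i'⟩, l⟩ h
  · exact h.1.elim
  · rcases key _ _ _ _ _ _ h.symm with h1 | ⟨z, h1, h2⟩
    · exact Or.inl h1.symm
    · exact Or.inr ⟨z, h2.symm, h1.symm⟩
  · exact key _ _ _ _ _ _ h
  · exact h.1.elim

theorem two_cheap_gad2 (hn : 2 ≤ n) (hB : B.Connected) : Two (cheap B) (gad2 B) := by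
  have key : ∀ t x y, cheapE B t = s(x, y) →
      (gad2 B).Adj x y ∨ ∃ z, (gad2 B).Adj x z ∧ (gad2 B).Adj z y := by
    have sy : ∀ a b x y : Vx B × Bool, s(a, b) = s(x, y) →
        ((gad2 B).Adj a b ∨ ∃ z, (gad2 B).Adj a z ∧ (gad2 B).Adj z b) →
        (gad2 B).Adj x y ∨ ∃ z, (gad2 B).Adj x z ∧ (gad2 B).Adj z y := by
      intro a b x y h h'
      rcases Sym2.eq_iff.1 h with ⟨rfl, rfl⟩ | ⟨rfl, rfl⟩
      · exact h'
      · rcases h' with h1 | ⟨z, h1, h2⟩
        · exact Or.inl h1.symm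
        · exact Or.inr ⟨z, h2.symm, h1.symm⟩
    rintro (⟨e, i, j⟩ | ⟨e, b, j⟩ | w) x y h
    · exact sy _ _ _ _ h (Or.inl (adj_ctr B e i false j))
    · exact sy _ _ _ _ h (Or.inr ⟨_, (adj_ctr B e 0 false j).symm, adj_oth B e 0 b j⟩)
    · obtain ⟨v, hv⟩ := exists_nbr B hn hB w
      obtain ⟨e, ⟨rfl, -⟩ | ⟨rfl, -⟩⟩ := exists_ed B hv
      · exact sy _ _ _ _ h (Or.inr ⟨_, (adj_lo B e 0 false false).symm, adj_lo B e 0 true false⟩)
      · exact sy _ _ _ _ h (Or.inr ⟨_, (adj_hi B e 0 false true).symm, adj_hi B e 0 true true⟩)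
  intro x y h
  obtain ⟨⟨t, ht⟩, -⟩ := (fromEdgeSet_adj _).1 h
  exact key t x y ht

theorem card_ed (hs : ∑ v, (B.neighborSet v).ncard ≤ 290 * n) : Fintype.card (Ed B) ≤ 290 * n := by
  classical
  refine le_trans ?_ hs
  have e : ∑ v, (B.neighborSet v).ncard = Fintype.card (Σ v, B.neighborSet v) := by
    rw [Fintype.card_sigma]
    exact sum_congr rfl (fun v _ => by rw [Set.ncard_eq_toFinset_card', Set.toFinset_card])
  rw [e]
  refine Fintype.card_le_of_injective (fun e : Ed B => (⟨e.1.1, e.1.2, e.2.1⟩ : Σ v, B.neighborSet v)) ?_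
  intro e e' h
  have h1 : e.1.1 = e'.1.1 := congrArg Sigma.fst h
  have h2 : e.1.2 = e'.1.2 := congrArg (fun x : Σ v, B.neighborSet v => x.2.1) h
  exact Subtype.ext (Prod.ext h1 h2)

end Pool.Agent.H7.Rewire
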