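import Pool.Agent.H7.Rewire3

/-! A lower bound for rewirings of the gadget graph. -/

set_option autoImplicit false

namespace Pool.Agent.H7.Rewire

open SimpleGraph Finset

theorem sum_inj_le {ι α : Type} [Fintype ι] [Fintype α] (g : ι → α) (hg : Function.Injective g)
    (f : α → ℕ) : ∑ t, f (g t) ≤ ∑ x, f x := by
  have := sum_le_sum_of_subset (f := f) (subset_univ (univ.map ⟨g, hg⟩))
  rwa [sum_map] at this

theorem two_le_sum {α : Type} [Fintype α] (f : α → ℕ) {a b : α} (h : a ≠ b) :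
    f a + f b ≤ ∑ x, f x := by
  have := sum_inj_le (fun t : Bool => if t then a else b)
    (by intro s t hst; cases s <;> cases t <;> simp_all [eq_comm]) f
  simpa using this

variable {n : ℕ} {B : SimpleGraph (Fin n)} (H : SimpleGraph (Vx B))

/-- a midpoint with two neighbours among the twins -/
def Rich (y : Ed B × Fin 6) : Prop :=
  ∃ x x' : Fin n × Bool, x ≠ x' ∧ H.Adj (Sum.inr y) (Sum.inl x) ∧ H.Adj (Sum.inr y) (Sum.inl x')

open Classical in
noncomputable def wt0 : Vx B → Vx B → ℕ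
  | Sum.inl _, Sum.inl _ => 1
  | Sum.inl _, Sum.inr _ => 0
  | Sum.inr _, Sum.inl _ => 2
  | Sum.inr a, Sum.inr b => if Rich H a then (if Rich H b then 1 else 0) else
      (if Rich H b then 2 else 1)

open Classical in
noncomputable def wt (x y : Vx B) : ℕ := if H.Adj x y then wt0 H x y else 0

theorem wt0_add (x y : Vx B) : wt0 H x y + wt0 H y x = 2 := by
  rcases x with a | a <;> rcases y with b | b <;> simp only [wt0]
  split_ifs <;> rfl

theorem wt_total : ∑ x, ∑ y, wt H x y ≤ 2 * H.edgeSet.ncard := by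
  classical
  have h1 : ∑ x, ∑ y, wt H x y = ∑ x, ∑ y, wt H y x := sum_comm
  have h2 : ∑ x, ∑ y, wt H x y + ∑ x, ∑ y, wt H y x = ∑ x, 2 * H.degree x := by
    rw [← sum_add_distrib]
    refine sum_congr rfl (fun x _ => ?_)
    rw [← sum_add_distrib, ← card_neighborFinset_eq_degree, neighborFinset_eq_filter,
      card_filter, mul_sum]
    refine sum_congr rfl (fun y _ => ?_)
    by_cases h : H.Adj x y
    · simp only [wt, if_pos h, if_pos h.symm, wt0_add, mul_one]
    · have h' : ¬ H.Adj y x := fun h' => h h'.symm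
      simp only [wt, if_neg h, if_neg h', mul_zero, add_zero]
  rw [← mul_sum, sum_degrees_eq_twice_card_edges] at h2
  have h3 : H.edgeSet.ncard = H.edgeFinset.card := by
    rw [Set.ncard_eq_toFinset_card']; rfl
  omega

/-- charge received by a midpoint -/
noncomputable def ch (y : Ed B × Fin 6) : ℕ := ∑ z, wt H (Sum.inr y) z

/-- edges between the twins of `u` and the twins of `v` -/
noncomputable def cr (u v : Fin n) : ℕ :=
  ∑ b : Bool, ∑ b' : Bool, wt H (Sum.inl (u, b)) (Sum.inl (v, b'))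

def Tw (u : Fin n) : Prop := H.Adj (Sum.inl (u, false)) (Sum.inl (u, true))

/-- the four twins at the ends of an edge -/
def quad (e : Ed B) (t : Bool × Bool) : Fin n × Bool := (if t.1 then e.1.2 else e.1.1, t.2)

theorem quad_inj (e : Ed B) : Function.Injective (quad e) := by
  rintro ⟨s, b⟩ ⟨s', b'⟩ h
  have hne := e.2.2.ne
  cases s <;> cases s' <;> simp_all [quad, eq_comm]

theorem quad_adj (e : Ed B) (i : Fin 6) (t : Bool × Bool) :
    (gad B).Adj (Sum.inr (e, i)) (Sum.inl (quad e t)) := by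
  rcases t with ⟨s, b⟩
  cases s
  · exact Or.inl rfl
  · exact Or.inr rfl

variable {H}

theorem wt_rl {y : Ed B × Fin 6} {x : Fin n × Bool} (h : H.Adj (Sum.inr y) (Sum.inl x)) :
    wt H (Sum.inr y) (Sum.inl x) = 2 := by simp only [wt, if_pos h, wt0]

theorem wt_ll {y x : Fin n × Bool} (h : H.Adj (Sum.inl y) (Sum.inl x)) :
    wt H (Sum.inl y) (Sum.inl x) = 1 := by simp only [wt, if_pos h, wt0]

theorem wt_poor {y : Ed B × Fin 6} (hy : ¬ Rich H y) {z : Vx B} (h : H.Adj (Sum.inr y) z) :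
    1 ≤ wt H (Sum.inr y) z := by
  rcases z with x | z
  · rw [wt_rl h]; omega
  · simp only [wt, if_pos h, wt0, if_neg hy]
    split_ifs <;> omega

theorem wt_rich {y z : Ed B × Fin 6} (hy : ¬ Rich H y) (hz : Rich H z)
    (h : H.Adj (Sum.inr y) (Sum.inr z)) : wt H (Sum.inr y) (Sum.inr z) = 2 := by
  simp only [wt, if_pos h, wt0, if_neg hy, if_pos hz]

theorem end_of_adj (h2 : Two H (gad B)) {y : Ed B × Fin 6} {x : Fin n × Bool}
    (h : H.Adj (Sum.inr y) (Sum.inl x)) : x.1 = y.1.1.1 ∨ x.1 = y.1.1.2 := by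
  rcases h2 _ _ h with h | ⟨z | z, h, h'⟩
  · exact h
  · exact h'.elim
  · exact h.elim

theorem cr_hub {u v : Fin n} {b : Bool} (h : ∀ b', H.Adj (Sum.inl (u, b)) (Sum.inl (v, b'))) :
    4 ≤ cr H u v + cr H v u := by
  have a1 := wt_ll (h false)
  have a2 := wt_ll (h true)
  have a3 := wt_ll (h false).symm
  have a4 := wt_ll (h true).symm
  simp only [cr, Fintype.sum_bool]
  cases b <;> omega

theorem mid (h1 : Two (gad B) H) (h2 : Two H (gad B)) (e : Ed B) (i : Fin 6) :
    3 ≤ ch H (e, i) ∨ (2 ≤ ch H (e, i) ∧ (Tw H e.1.1 ∨ Tw H e.1.2) ∧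
      4 ≤ cr H e.1.1 e.1.2 + cr H e.1.2 e.1.1) ∨ (2 ≤ ch H (e, i) ∧ ∃ j, 8 ≤ ch H (e, j)) := by
  have hne := e.2.2.ne
  by_cases hr : Rich H (e, i)
  · obtain ⟨x, x', hx, a1, a2⟩ := hr
    have := two_le_sum (wt H (Sum.inr (e, i))) (a := Sum.inl x) (b := Sum.inl x') (by simpa using hx)
    rw [wt_rl a1, wt_rl a2] at this
    exact Or.inl (by unfold ch; omega)
  by_cases hx : ∃ x, H.Adj (Sum.inr (e, i)) (Sum.inl x)
  · obtain ⟨x, hx⟩ := hx
    by_cases hz : ∃ z, H.Adj (Sum.inr (e, i)) (Sum.inr z)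
    · obtain ⟨z, hz⟩ := hz
      have := two_le_sum (wt H (Sum.inr (e, i))) (a := Sum.inl x) (b := Sum.inr z) (by simp)
      have := wt_poor hr hz
      rw [wt_rl hx] at *
      exact Or.inl (by unfold ch; omega)
    have uniq : ∀ x', H.Adj (Sum.inr (e, i)) (Sum.inl x') → x' = x := fun x' h => by
      by_contra hc; exact hr ⟨x', x, hc, h, hx⟩
    have hub : ∀ t, quad e t ≠ x → H.Adj (Sum.inl x) (Sum.inl (quad e t)) := by
      intro t ht
      rcases h1 _ _ (quad_adj e i t) with h | ⟨z | z, h, h'⟩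
      · exact absurd (uniq _ h) ht
      · exact uniq _ h ▸ h'
      · exact absurd ⟨z, h⟩ hz
    have c2 : 2 ≤ ch H (e, i) := by
      have := single_le_sum (f := wt H (Sum.inr (e, i))) (fun _ _ => Nat.zero_le _)
        (mem_univ (Sum.inl x))
      rwa [wt_rl hx] at this
    refine Or.inr (Or.inl ⟨c2, ?_⟩)
    obtain ⟨u, b⟩ := x
    rcases end_of_adj h2 hx with h | h <;> simp only at h <;> subst h
    · refine ⟨Or.inl ?_, cr_hub (b := b) (fun b' => hub (true, b') (by simp [quad, hne.symm]))⟩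
      cases b
      · exact hub (false, true) (by simp [quad])
      · exact (hub (false, false) (by simp [quad])).symm
    · refine ⟨Or.inr ?_, ?_⟩
      · cases b
        · exact hub (true, true) (by simp [quad])
        · exact (hub (true, false) (by simp [quad])).symm
      · rw [add_comm]
        exact cr_hub (b := b) (fun b' => hub (false, b') (by simp [quad, hne]))
  have via : ∀ t, ∃ z, H.Adj (Sum.inr (e, i)) (Sum.inr z) ∧
      H.Adj (Sum.inr z) (Sum.inl (quad e t)) := by
    intro t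
    rcases h1 _ _ (quad_adj e i t) with h | ⟨z | z, h, h'⟩
    · exact absurd ⟨_, h⟩ hx
    · exact absurd ⟨_, h⟩ hx
    · exact ⟨z, h, h'⟩
  choose z z1 z2 using via
  by_cases hz : ∃ t, Rich H (z t)
  · obtain ⟨t, ht⟩ := hz
    by_cases ha : ∀ s, z s = z t
    · have c2 : 2 ≤ ch H (e, i) := by
        have := single_le_sum (f := wt H (Sum.inr (e, i))) (fun _ _ => Nat.zero_le _)
          (mem_univ (Sum.inr (z t)))
        rwa [wt_rich hr ht (z1 t)] at this
      have z3 : ∀ s, H.Adj (Sum.inr (z t)) (Sum.inl (quad e s)) := fun s => ha s ▸ z2 s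
      have b1 : e.1.1 = (z t).1.1.1 ∨ e.1.1 = (z t).1.1.2 := end_of_adj h2 (z3 (false, false))
      have b2 : e.1.2 = (z t).1.1.1 ∨ e.1.2 = (z t).1.1.2 := end_of_adj h2 (z3 (true, false))
      have l1 := e.2.2
      have l2 := (z t).1.2.2
      have he : (e, (z t).2) = z t :=
        Prod.ext (Subtype.ext (Prod.ext (by show e.1.1 = _; omega) (by show e.1.2 = _; omega))) rfl
      refine Or.inr (Or.inr ⟨c2, (z t).2, ?_⟩)
      rw [he]
      have := sum_inj_le (fun s => (Sum.inl (quad e s) : Vx B))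
        (fun s s' h => quad_inj e (Sum.inl.inj h)) (wt H (Sum.inr (z t)))
      simp only [fun s => wt_rl (z3 s), sum_const, card_univ, Fintype.card_prod,
        Fintype.card_bool, smul_eq_mul] at this
      exact this
    · push Not at ha
      obtain ⟨s, hs⟩ := ha
      have := two_le_sum (wt H (Sum.inr (e, i))) (a := Sum.inr (z s)) (b := Sum.inr (z t))
        (by simpa using hs)
      have := wt_poor hr (z1 s)
      rw [wt_rich hr ht (z1 t)] at *
      exact Or.inl (by unfold ch; omega)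
  · push Not at hz
    have inj : Function.Injective (fun s => (Sum.inr (z s) : Vx B)) := by
      intro s s' h
      by_contra hc
      exact hz s ⟨_, _, fun h' => hc (quad_inj e h'), z2 s, (Sum.inr.inj h) ▸ z2 s'⟩
    have a1 := sum_inj_le _ inj (wt H (Sum.inr (e, i)))
    have a2 : ∑ _s : Bool × Bool, 1 ≤ ∑ s, wt H (Sum.inr (e, i)) (Sum.inr (z s)) :=
      sum_le_sum (fun s _ => wt_poor hr (z1 s))
    simp only [sum_const, card_univ, Fintype.card_prod, Fintype.card_bool, smul_eq_mul] at a2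
    have a3 : 2 * 2 * 1 ≤ ch H (e, i) := le_trans a2 a1
    exact Or.inl (by omega)

open Classical in
theorem per_edge (h1 : Two (gad B) H) (h2 : Two H (gad B)) (e : Ed B) :
    16 + (if Tw H e.1.1 ∨ Tw H e.1.2 then 0 else 2) ≤
      ∑ i, ch H (e, i) + (cr H e.1.1 e.1.2 + cr H e.1.2 e.1.1) := by
  have m := mid h1 h2 e
  have c2 : ∀ i, 2 ≤ ch H (e, i) := fun i => by rcases m i with h | h | h <;> omega
  have k : (if Tw H e.1.1 ∨ Tw H e.1.2 then 0 else 2) ≤ 2 := by split_ifs <;> omega
  by_cases h8 : ∃ j, 8 ≤ ch H (e, j)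
  · obtain ⟨j, hj⟩ := h8
    have a0 := c2 0
    have a1 := c2 1
    have a2 := c2 2
    have a3 := c2 3
    have a4 := c2 4
    have a5 := c2 5
    rw [Fin.sum_univ_six]
    fin_cases j <;> simp only [Fin.zero_eta, Fin.mk_one, Fin.reduceFinMk] at hj <;> omega
  by_cases hh : (Tw H e.1.1 ∨ Tw H e.1.2) ∧ 4 ≤ cr H e.1.1 e.1.2 + cr H e.1.2 e.1.1
  · have a : ∑ _i : Fin 6, 2 ≤ ∑ i, ch H (e, i) := sum_le_sum (fun i _ => c2 i)
    simp only [sum_const, card_univ, Fintype.card_fin, smul_eq_mul] at a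
    rw [if_pos hh.1]
    omega
  · have a : ∑ _i : Fin 6, 3 ≤ ∑ i, ch H (e, i) := sum_le_sum (fun i _ => by
      rcases m i with h | h | h
      · exact h
      · exact absurd h.2 hh
      · exact absurd h.2 h8)
    simp only [sum_const, card_univ, Fintype.card_fin, smul_eq_mul] at a
    omega

theorem lower (h1 : Two (gad B) H) (h2 : Two H (gad B)) :
    ∃ S : Finset (Fin n), (∀ u ∈ S, ∀ v ∈ S, ¬ B.Adj u v) ∧
      8 * Fintype.card (Ed B) + n ≤ H.edgeSet.ncard + S.card := by
  classical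
  let T : Finset (Fin n) := univ.filter (Tw H)
  let X : Finset (Ed B) := univ.filter (fun e => ¬ (Tw H e.1.1 ∨ Tw H e.1.2))
  refine ⟨(T ∪ X.image (fun e => e.1.1))ᶜ, ?_, ?_⟩
  · intro u hu v hv h
    simp only [mem_compl, mem_union, not_or, T, X, mem_filter, mem_univ, true_and, mem_image,
      not_exists, not_and] at hu hv
    obtain ⟨e, ⟨rfl, rfl⟩ | ⟨rfl, rfl⟩⟩ := exists_ed B h
    · exact hu.2 e ⟨hu.1, hv.1⟩ rfl
    · exact hv.2 e ⟨hv.1, hu.1⟩ rfl
  have c1 : n ≤ (T ∪ X.image (fun e => e.1.1))ᶜ.card + T.card + X.card := by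
    have a := card_add_card_compl (T ∪ X.image (fun e => e.1.1))
    rw [Fintype.card_fin] at a
    have b := card_union_le T (X.image (fun e => e.1.1))
    have c := card_image_le (s := X) (f := fun e => e.1.1)
    omega
  have t := wt_total H
  rw [Fintype.sum_sum_type] at t
  have t1 : ∑ p : Fin n × Fin n, cr H p.1 p.2 ≤ ∑ x : Fin n × Bool, ∑ y, wt H (Sum.inl x) y := by
    rw [Fintype.sum_prod_type, Fintype.sum_prod_type]
    refine sum_le_sum (fun u _ => ?_)
    unfold cr
    rw [sum_comm]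
    refine sum_le_sum (fun b _ => ?_)
    rw [Fintype.sum_sum_type, Fintype.sum_prod_type]
    exact Nat.le_add_right _ _
  let g : Fin n ⊕ Ed B ⊕ Ed B → Fin n × Fin n := fun s => match s with
    | Sum.inl u => (u, u)
    | Sum.inr (Sum.inl e) => (e.1.1, e.1.2)
    | Sum.inr (Sum.inr e) => (e.1.2, e.1.1)
  have gi : Function.Injective g := by
    rintro (u | e | e) (u' | e' | e') h <;> simp only [g, Prod.mk.injEq] at h
    · rw [h.1]
    · have := e'.2.2; omega
    · have := e'.2.2; omega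
    · have := e.2.2; omega
    · congr 2; exact Subtype.ext (Prod.ext h.1 h.2)
    · have := e.2.2; have := e'.2.2; omega
    · have := e.2.2; omega
    · have := e.2.2; have := e'.2.2; omega
    · congr 2; exact Subtype.ext (Prod.ext h.2 h.1)
  have t2 := sum_inj_le g gi (fun p => cr H p.1 p.2)
  rw [Fintype.sum_sum_type, Fintype.sum_sum_type] at t2
  simp only [g] at t2
  have t3 : T.card * 2 ≤ ∑ u, cr H u u := by
    rw [card_filter, sum_mul]
    refine sum_le_sum (fun u _ => ?_)
    split_ifs with h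
    · have a1 := wt_ll h
      have a2 := wt_ll h.symm
      simp only [cr, Fintype.sum_bool]
      omega
    · omega
  have t4 := sum_le_sum (s := univ) (fun e _ => per_edge h1 h2 e)
  rw [sum_add_distrib, sum_add_distrib, sum_add_distrib] at t4
  have t5 : ∑ e : Ed B, (if Tw H e.1.1 ∨ Tw H e.1.2 then 0 else 2) = X.card * 2 := by
    rw [card_filter, sum_mul]
    exact sum_congr rfl (fun e _ => by split_ifs <;> rfl)
  have t6 : ∑ e : Ed B, ∑ i, ch H (e, i) = ∑ y : Ed B × Fin 6, ∑ z, wt H (Sum.inr y) z := by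
    rw [Fintype.sum_prod_type]; rfl
  rw [t5, t6, sum_const, card_univ, smul_eq_mul] at t4
  omega

end Pool.Agent.H7.Rewire
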