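import Pool.Agent.H7.Rewire4

/-! Pairs of locally identical graphs with different rewiring cost. -/

set_option autoImplicit false

namespace Pool.Agent.H7.Rewire

open SimpleGraph Filter Topology

/-- frequency of a rooted ball -/
noncomputable def stat {N : ℕ} (G : SimpleGraph (Fin N)) (r k : ℕ) (F : SimpleGraph (Fin k))
    (o : Fin k) : ℝ := (({v : Fin N | Looks G r k F o v}.ncard : ℕ) : ℝ) / (N : ℝ)

theorem stat_mem {N : ℕ} (G : SimpleGraph (Fin N)) (r k : ℕ) (F : SimpleGraph (Fin k))
    (o : Fin k) : stat G r k F o ∈ Set.Icc (0 : ℝ) 1 := by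
  refine ⟨by unfold stat; positivity, div_le_one_of_le₀ ?_ (Nat.cast_nonneg _)⟩
  have := Set.ncard_le_ncard (Set.subset_univ {v : Fin N | Looks G r k F o v})
  rw [Set.ncard_univ, Nat.card_eq_fintype_card, Fintype.card_fin] at this
  exact_mod_cast this

theorem exists_pair (j : ℕ) : ∃ (P Q : Σ N : ℕ, SimpleGraph (Fin N)),
    P.2.Connected ∧ Q.2.Connected ∧ (∀ v, (P.2.neighborSet v).ncard ≤ 12000) ∧
    (∀ v, (Q.2.neighborSet v).ncard ≤ 12000) ∧ cost Q.2 + 1 / 20000 ≤ cost P.2 ∧
    ∀ r k F o, 2 * r + 2 ≤ j → stat Q.2 r k F o = stat P.2 r k F o := by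
  classical
  obtain ⟨n, B, hn, hB, hd, hs, hO, hI⟩ := exists_base j
  let e := (Fintype.equivFin (Vx B)).symm
  let e' := (Fintype.equivFin (Vx B × Bool)).symm
  have c1 := comap_connected (gad_connected B hn hB) e
  have c2 := comap_connected (gad2_connected B hn hB hI) e'
  have hN : Fintype.card (Vx B) = 2 * n + 6 * Fintype.card (Ed B) := by
    simp only [Fintype.card_sum, Fintype.card_prod, Fintype.card_fin, Fintype.card_bool]; ring
  have hN' : Fintype.card (Vx B × Bool) = 2 * Fintype.card (Vx B) := by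
    rw [Fintype.card_prod, Fintype.card_bool]; ring
  have hm := card_ed B hs
  refine ⟨⟨_, (gad B).comap e⟩, ⟨_, (gad2 B).comap e'⟩, c1, c2, fun v => ?_, fun v => ?_, ?_, ?_⟩
  · exact (comap_deg _ e v).trans_le (gad_deg B hd _)
  · exact (comap_deg _ e' v).trans_le ((cover_deg _).trans (gad_deg B hd _))
  · have a1 := cost_le c2 ((two_gad2_cheap B).comap e') ((two_cheap_gad2 B hn hB).comap e')
    rw [ncard_edge_comap] at a1
    have a2 := le_cost c1 (8 * (Fintype.card (Ed B) : ℝ) + 2 * n / 3) (fun H h1 h2 => by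
      have b1 := h1.comap e.symm
      have b2 := h2.comap e.symm
      rw [comap_comap_symm] at b1 b2
      obtain ⟨S, s1, s2⟩ := lower b1 b2
      rw [ncard_edge_comap] at s2
      have s3 := hI S s1
      have s4 : 24 * Fintype.card (Ed B) + 2 * n ≤ 3 * H.edgeSet.ncard := by omega
      have s5 : (24 * Fintype.card (Ed B) + 2 * n : ℝ) ≤ 3 * H.edgeSet.ncard := by exact_mod_cast s4
      linarith)
    have a3 : ((cheap B).edgeSet.ncard : ℝ) ≤ 16 * Fintype.card (Ed B) + n := by
      exact_mod_cast cheap_card B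
    have a4 : (Fintype.card (Vx B × Bool) : ℝ) = 2 * Fintype.card (Vx B) := by exact_mod_cast hN'
    have a5 : (Fintype.card (Vx B) : ℝ) ≤ 1742 * n := by
      have : Fintype.card (Vx B) ≤ 1742 * n := by omega
      exact_mod_cast this
    have a6 : (0 : ℝ) < Fintype.card (Vx B) := by
      have : 0 < Fintype.card (Vx B) := by omega
      exact_mod_cast this
    refine le_trans ?_ a2
    refine le_trans (add_le_add a1 le_rfl) ?_
    rw [a4, div_add_div _ _ (by positivity) (by norm_num), div_le_div_iff₀ (by positivity) a6]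
    nlinarith
  · intro r k F o hr
    let π : (gad2 B).comap e' →g (gad B).comap e :=
      ⟨fun a => e.symm (e' a).1, fun {a b} h => by simpa using h.1⟩
    have key : ∀ a, Looks ((gad2 B).comap e') r k F o a ↔ Looks ((gad B).comap e) r k F o (π a) := by
      refine looks_cover c1 c2 π (fun a y h => ?_) r (fun a b c p q hp hq h => ?_) k F o
      · have h' : (gad B).Adj (e' a).1 (e y) := by simpa [π] using h
        refine ⟨e'.symm (e y, xor (e' a).2 (volt B (e' a).1 (e y))), ?_, by simp [π]⟩
        rw [comap_adj, Equiv.apply_symm_apply]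
        exact ⟨h', rfl⟩
      · apply e'.injective
        let ι := (Iso.comap e' (gad2 B)).toHom
        have l1 : (p.map ι).length = p.length := Walk.length_map _ _
        have l2 : (q.map ι).length = q.length := Walk.length_map _ _
        have l3 : (p.map ι).length + (q.map ι).length ≤ j := by omega
        exact cover_inj (anchor B) (anchor_spec B) hO (p.map ι) (q.map ι) l3 (e.symm.injective h)
    let ψ := e'.trans (e.symm.prodCongr (Equiv.refl Bool))
    have k2 : {a | Looks ((gad2 B).comap e') r k F o a} =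
        ψ.symm '' ({v | Looks ((gad B).comap e) r k F o v} ×ˢ (Set.univ : Set Bool)) := by
      ext a
      rw [Equiv.image_symm_eq_preimage]
      exact (key a).trans ⟨fun h => ⟨h, trivial⟩, fun h => h.1⟩
    unfold stat
    simp only
    rw [k2, Set.ncard_image_of_injective _ ψ.symm.injective, Set.ncard_prod, Set.ncard_univ,
      Nat.card_eq_fintype_card, Fintype.card_bool, hN']
    push_cast
    rw [mul_comm (2 : ℝ), mul_div_mul_right _ _ (by norm_num)]

theorem exists_seq : ∃ S : ℕ → Σ N : ℕ, SimpleGraph (Fin N), (∀ m, (S m).2.Connected) ∧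
    (∀ m v, ((S m).2.neighborSet v).ncard ≤ 12000) ∧
    (∀ r k F o, ∃ p : ℝ, Tendsto (fun m => stat (S m).2 r k F o) atTop (𝓝 p)) ∧
    ¬ ∃ c : ℝ, Tendsto (fun m => cost (S m).2) atTop (𝓝 c) := by
  classical
  choose P Q h1 h2 h3 h4 h5 h6 using exists_pair
  let x : ℕ → (Σ _r : ℕ, Σ k : ℕ, SimpleGraph (Fin k) × Fin k) → ℝ :=
    fun j i => stat (P j).2 i.1 i.2.1 i.2.2.1 i.2.2.2
  obtain ⟨p, -, φ, hφ, hp⟩ := (isCompact_univ_pi (fun _ => isCompact_Icc)).tendsto_subseq (x := x)
    (fun j i _ => stat_mem _ _ _ _ _)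
  let S : ℕ → Σ N : ℕ, SimpleGraph (Fin N) :=
    fun m => if m % 2 = 0 then P (φ (m / 2)) else Q (φ (m / 2))
  have hS : ∀ m, S m = P (φ (m / 2)) ∨ S m = Q (φ (m / 2)) := fun m => by
    by_cases h : m % 2 = 0
    · exact Or.inl (if_pos h)
    · exact Or.inr (if_neg h)
  refine ⟨S, fun m => ?_, fun m => ?_, fun r k F o => ⟨p ⟨r, k, F, o⟩, ?_⟩, ?_⟩
  · rcases hS m with h | h <;> rw [h]
    exacts [h1 _, h2 _]
  · rcases hS m with h | h <;> rw [h]
    exacts [h3 _, h4 _]
  · have t := ((tendsto_pi_nhds.1 hp) ⟨r, k, F, o⟩).comp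
      (Nat.tendsto_div_const_atTop (n := 2) (by norm_num))
    refine t.congr' ?_
    filter_upwards [eventually_ge_atTop (4 * r + 4)] with m hm
    have := hφ.id_le (m / 2)
    rcases hS m with h | h <;> rw [h]
    · rfl
    · exact (h6 (φ (m / 2)) r k F o (by simp only [id] at this; omega)).symm
  · rintro ⟨c, hc⟩
    have t1 := hc.comp (tendsto_atTop_mono (f := id) (g := fun j : ℕ => 2 * j)
      (fun j => by simp only [id]; omega) tendsto_id)
    have t2 := (hc.comp (tendsto_atTop_mono (f := id) (g := fun j : ℕ => 2 * j + 1)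
      (fun j => by simp only [id]; omega) tendsto_id)).add_const (1 / 20000)
    have := le_of_tendsto_of_tendsto' t2 t1 (fun j => by
      have e1 : S (2 * j) = P (φ j) := by
        simp only [S]; rw [if_pos (by omega)]; congr 2; omega
      have e2 : S (2 * j + 1) = Q (φ j) := by
        simp only [S]; rw [if_neg (by omega)]; congr 2; omega
      simp only [Function.comp]
      rw [e1, e2]
      exact h5 _)
    linarith

end Pool.Agent.H7.Rewire
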