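import Mathlib

/-! Balls, independent subsets and oscillation bounds in graphs of bounded degree. -/

set_option autoImplicit false

namespace Pool.Agent.H7.Steklov

open SimpleGraph Finset Classical

theorem ball_walk {V : Type} (G : SimpleGraph V) (D : ℕ)
    (hD : ∀ v, (G.neighborSet v).encard ≤ (D : ℕ∞)) (r : ℕ) :
    ∀ y, ∃ F : Finset V, F.card ≤ (D + 1) ^ r ∧ ∀ z (p : G.Walk y z), p.length ≤ r → z ∈ F := by
  induction r with
  | zero =>
    intro y
    refine ⟨{y}, by simp, fun z p hp => ?_⟩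
    rw [mem_singleton]
    exact (p.eq_of_length_eq_zero (by omega)).symm
  | succ r ih =>
    intro y
    choose F hF hF' using ih
    have fin : (G.neighborSet y).Finite := Set.finite_of_encard_le_coe (hD y)
    have c : fin.toFinset.card ≤ D := by
      have := hD y
      rw [fin.encard_eq_coe_toFinset_card] at this
      exact_mod_cast this
    refine ⟨(insert y fin.toFinset).biUnion F, ?_, fun z p hp => ?_⟩
    · refine (card_biUnion_le_card_mul _ _ _ (fun a _ => hF a)).trans ?_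
      rw [pow_succ, mul_comm]
      exact Nat.mul_le_mul_left _ ((card_insert_le _ _).trans (by omega))
    · cases p with
      | nil => exact mem_biUnion.2 ⟨y, mem_insert_self _ _, hF' _ _ Walk.nil (by simp)⟩
      | cons h q =>
        exact mem_biUnion.2 ⟨_, mem_insert_of_mem (fin.mem_toFinset.2 h),
          hF' _ _ q (by simpa using hp)⟩

theorem ball_dist {V : Type} {G : SimpleGraph V} (hG : G.Connected) (D : ℕ)
    (hD : ∀ v, (G.neighborSet v).encard ≤ (D : ℕ∞)) (r : ℕ) (y : V) :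
    ∃ F : Finset V, F.card ≤ (D + 1) ^ r ∧ ∀ z, G.dist y z ≤ r → z ∈ F := by
  obtain ⟨F, h1, h2⟩ := ball_walk G D hD r y
  refine ⟨F, h1, fun z hz => ?_⟩
  obtain ⟨p, hp⟩ := hG.exists_walk_length_eq_dist y z
  exact h2 z p (hp ▸ hz)

theorem exists_indep {V : Type} (G : SimpleGraph V) (S : Finset V) :
    ∃ I ⊆ S, (∀ x ∈ I, ∀ y ∈ I, ¬ G.Adj x y) ∧ ∀ s ∈ S, ∃ x ∈ I, G.dist x s ≤ 1 := by
  let P : Finset V → Prop := fun I => ∀ x ∈ I, ∀ y ∈ I, ¬ G.Adj x y
  obtain ⟨I, hI, hm⟩ := exists_max_image (S.powerset.filter P) card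
    ⟨∅, mem_filter.2 ⟨by simp, by simp [P]⟩⟩
  have hI1 : I ⊆ S := mem_powerset.1 (mem_filter.1 hI).1
  have hI2 : P I := (mem_filter.1 hI).2
  refine ⟨I, hI1, hI2, fun s hs => ?_⟩
  by_contra hc
  push Not at hc
  have h1 : s ∉ I := fun h => by have := hc s h; simp at this
  have h2 : ∀ x ∈ I, ¬ G.Adj x s := fun x hx h => by
    have := hc x hx
    rw [dist_eq_one_iff_adj.2 h] at this
    omega
  have h3 : P (insert s I) := by
    intro x hx y hy h
    rcases mem_insert.1 hx with e | hx' <;> rcases mem_insert.1 hy with e' | hy'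
    · exact h.ne (e.trans e'.symm)
    · exact h2 y hy' (e ▸ h.symm)
    · exact h2 x hx' (e' ▸ h)
    · exact hI2 x hx' y hy' h
  have := hm (insert s I) (mem_filter.2 ⟨mem_powerset.2 (insert_subset hs hI1), h3⟩)
  rw [card_insert_of_notMem h1] at this
  omega

theorem dc {α β : Type} (A : Finset α) (B : Finset β) (r : α → β → Prop)
    [∀ a b, Decidable (r a b)] (w : β → ℝ)
    (hw : ∀ b, 0 ≤ w b) (M : ℕ) (h : ∀ b ∈ B, (A.filter (fun a => r a b)).card ≤ M) :
    ∑ a ∈ A, ∑ b ∈ B.filter (r a), w b ≤ M * ∑ b ∈ B, w b := by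
  simp only [sum_filter]
  rw [sum_comm, mul_sum]
  refine sum_le_sum (fun b hb => ?_)
  rw [← sum_filter, sum_const, nsmul_eq_mul]
  exact mul_le_mul_of_nonneg_right (by exact_mod_cast h b hb) (hw b)

/-- joined by a short walk all of whose edges touch `Ω` -/
inductive Nr {V : Type} (G : SimpleGraph V) (Ω : Finset V) : ℕ → V → V → Prop
  | refl (n : ℕ) (x : V) : Nr G Ω n x x
  | step {n : ℕ} {x y z : V} : G.Adj x y → (x ∈ Ω ∨ y ∈ Ω) → Nr G Ω n y z → Nr G Ω (n + 1) x z

section
variable {V : Type} {G : SimpleGraph V} {Ω : Finset V}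

theorem Nr.mono {n m : ℕ} {x y : V} (h : Nr G Ω n x y) (hm : n ≤ m) : Nr G Ω m x y := by
  induction h generalizing m with
  | refl => exact Nr.refl _ _
  | step h1 h2 _ ih =>
    obtain ⟨k, rfl⟩ : ∃ k, m = k + 1 := ⟨m - 1, by omega⟩
    exact Nr.step h1 h2 (ih (by omega))

theorem Nr.trans {n m : ℕ} {x y z : V} (h : Nr G Ω n x y) (h' : Nr G Ω m y z) :
    Nr G Ω (n + m) x z := by
  induction h with
  | refl => exact h'.mono (by omega)
  | step h1 h2 _ ih => exact (Nr.step h1 h2 (ih h')).mono (by omega)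

theorem Nr.symm {n : ℕ} {x y : V} (h : Nr G Ω n x y) : Nr G Ω n y x := by
  induction h with
  | refl => exact Nr.refl _ _
  | step h1 h2 _ ih => exact ih.trans (Nr.step h1.symm h2.symm (Nr.refl 0 _))

theorem Nr.dist_le (hG : G.Connected) {n : ℕ} {x y : V} (h : Nr G Ω n x y) : G.dist x y ≤ n := by
  induction h with
  | refl => simp
  | @step n x y z h1 _ _ ih =>
    have := hG.dist_triangle (u := x) (v := y) (w := z)
    rw [dist_eq_one_iff_adj.2 h1] at this
    omega

theorem Nr.osc (hG : G.Connected) (f : V → ℝ) (x0 : V) (L : ℕ) (s : ℝ) (hs : 0 ≤ s)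
    (he : ∀ u v, G.Adj u v → u ∈ Ω → G.dist x0 u ≤ L → |f u - f v| ≤ s)
    {n : ℕ} {x y : V} (h : Nr G Ω n x y) (hl : G.dist x0 x + n ≤ L) : |f x - f y| ≤ n * s := by
  induction h with
  | refl => simp only [sub_self, abs_zero]; positivity
  | @step n x y z h1 h2 _ ih =>
    have t := hG.dist_triangle (u := x0) (v := x) (w := y)
    rw [dist_eq_one_iff_adj.2 h1] at t
    have a : |f x - f y| ≤ s := by
      rcases h2 with h2 | h2
      · exact he _ _ h1 h2 (by omega)
      · rw [abs_sub_comm]; exact he _ _ h1.symm h2 (by omega)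
    have b := ih (by omega)
    have c := abs_sub_le (f x) (f y) (f z)
    push_cast
    linarith

theorem nr_of_walk (hG : G.Connected) (x0 : V) (R : ℕ)
    (hin : ∀ u v, G.Adj u v → G.dist x0 u ≤ R → G.dist x0 v ≤ R → u ∈ Ω ∨ v ∈ Ω)
    {x y : V} (p : G.Walk x y) (hl : G.dist x0 x + p.length ≤ R) : Nr G Ω p.length x y := by
  induction p with
  | nil => exact Nr.refl _ _
  | @cons x y z h p ih =>
    have t := hG.dist_triangle (u := x0) (v := x) (w := y)
    rw [dist_eq_one_iff_adj.2 h] at t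
    rw [Walk.length_cons] at hl ⊢
    exact Nr.step h (hin _ _ h (by omega) (by omega)) (ih (by omega))

theorem nr_of_dist (hG : G.Connected) (x0 : V) (R : ℕ)
    (hin : ∀ u v, G.Adj u v → G.dist x0 u ≤ R → G.dist x0 v ≤ R → u ∈ Ω ∨ v ∈ Ω)
    {y : V} {n : ℕ} (hn : G.dist x0 y ≤ n) (hR : n ≤ R) : Nr G Ω n x0 y := by
  obtain ⟨p, hp⟩ := hG.exists_walk_length_eq_dist x0 y
  exact (nr_of_walk hG x0 R hin p (by rw [SimpleGraph.dist_self]; omega)).mono (by omega)

end

end Pool.Agent.H7.Steklov
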