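import Pool.Agent.H7.Steklov1

/-! Transferring a domain and a test function along a rough isometry. -/

set_option autoImplicit false

namespace Pool.Agent.H7.Steklov

open SimpleGraph Finset Classical

def Bd {V : Type} (G : SimpleGraph V) (Ω B : Finset V) : Prop :=
  ∀ v : V, v ∈ B ↔ v ∉ Ω ∧ ∃ u ∈ Ω, G.Adj u v

noncomputable def en {V : Type} (G : SimpleGraph V) (Ω B : Finset V) (f : V → ℝ) : ℝ :=
  (∑ x ∈ Ω, ∑ y ∈ Ω, (if G.Adj x y then (f x - f y) ^ 2 else 0)) / 2 +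
    (∑ x ∈ Ω, ∑ y ∈ B, (if G.Adj x y then (f x - f y) ^ 2 else 0))

variable {V₁ V₂ : Type} {G₁ : SimpleGraph V₁} {G₂ : SimpleGraph V₂}

theorem transfer [Infinite V₁] (h1 : G₁.Connected) (h2 : G₂.Connected) (φ : V₁ → V₂) (ψ : V₂ → V₁)
    (K T M L : ℕ) (hL : K + 2 + K * T ≤ L)
    (hfin : ∀ r y, ∃ F : Finset V₁, ∀ z, G₁.dist y z ≤ r → z ∈ F)
    (hK : ∀ z z', G₂.Adj z z' → G₁.dist (ψ z) (ψ z') ≤ K)
    (hK' : ∀ x, G₁.dist (ψ (φ x)) x ≤ K)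
    (hT : ∀ x z, G₁.dist (ψ z) x ≤ K + 2 → G₂.dist z (φ x) ≤ T)
    (hM : ∀ x (Z : Finset V₂), (∀ z ∈ Z, G₁.dist x (ψ z) ≤ L) → Z.card ≤ M)
    (Ω₂ B₂ : Finset V₂) (hB : Bd G₂ Ω₂ B₂) :
    ∃ Ω₁ B₁ : Finset V₁, Bd G₁ Ω₁ B₁ ∧ B₂.card ≤ M * B₁.card ∧
      (∀ z ∈ Ω₂, ∀ z', G₂.Adj z z' → Nr G₁ Ω₁ L (ψ z) (ψ z')) ∧
      (∀ x ∈ B₁, ∃ z ∈ B₂, Nr G₁ Ω₁ L x (ψ z)) := by
  choose F hF using hfin
  obtain ⟨I, hI1, hI2, hI3⟩ := exists_indep G₁ (B₂.image ψ)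
  obtain ⟨Ω₁, hΩ⟩ : ∃ Ω₁ : Finset V₁, ∀ x, x ∈ Ω₁ ↔
      (∃ z ∈ Ω₂, G₁.dist (ψ z) x ≤ K + 1) ∧ x ∉ I := by
    refine ⟨(Ω₂.biUnion (fun z => F (K + 1) (ψ z))).filter
      (fun x => (∃ z ∈ Ω₂, G₁.dist (ψ z) x ≤ K + 1) ∧ x ∉ I), fun x => ?_⟩
    rw [mem_filter]
    refine ⟨fun h => h.2, fun h => ⟨?_, h⟩⟩
    obtain ⟨z, hz, hd⟩ := h.1
    exact mem_biUnion.2 ⟨z, hz, hF _ _ _ hd⟩
  obtain ⟨B₁, hB₁⟩ : ∃ B₁ : Finset V₁, Bd G₁ Ω₁ B₁ := by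
    refine ⟨(Ω₁.biUnion (fun u => F 1 u)).filter (fun v => v ∉ Ω₁ ∧ ∃ u ∈ Ω₁, G₁.Adj u v),
      fun v => ?_⟩
    rw [mem_filter]
    refine ⟨fun h => h.2, fun h => ⟨?_, h⟩⟩
    obtain ⟨u, hu, hd⟩ := h.2
    exact mem_biUnion.2 ⟨u, hu, hF _ _ _ (dist_eq_one_iff_adj.2 hd).le⟩
  have geo : ∀ z ∈ Ω₂, ∀ y n, G₁.dist (ψ z) y ≤ n → n ≤ K + 1 → Nr G₁ Ω₁ n (ψ z) y := by
    intro z hz y n hn hR
    refine nr_of_dist h1 (ψ z) (K + 1) (fun u v huv hu hv => ?_) hn hR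
    by_contra hc
    push Not at hc
    have a : u ∈ I := by
      by_contra h; exact hc.1 ((hΩ u).2 ⟨⟨z, hz, hu⟩, h⟩)
    have b : v ∈ I := by
      by_contra h; exact hc.2 ((hΩ v).2 ⟨⟨z, hz, hv⟩, h⟩)
    exact hI2 u a v b huv
  have ext : ∀ z w (p : G₂.Walk z w), z ∈ Ω₂ → w ∉ Ω₂ →
      ∃ b ∈ B₂, Nr G₁ Ω₁ (K * p.length) (ψ z) (ψ b) := by
    intro z w p
    induction p with
    | nil => exact fun a b => absurd a b
    | @cons z z' w h p ih =>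
      intro hz hw
      have g := geo z hz _ K (hK z z' h) (by omega)
      rw [Walk.length_cons, mul_add, mul_one]
      by_cases hz' : z' ∈ Ω₂
      · obtain ⟨b, hb, hn⟩ := ih hz' hw
        exact ⟨b, hb, (g.trans hn).mono (by omega)⟩
      · exact ⟨z', (hB z').2 ⟨hz', z, hz, h⟩, g.mono (by omega)⟩
  have hIB : I ⊆ B₁ := by
    intro x hx
    obtain ⟨b, hb, rfl⟩ := mem_image.1 (hI1 hx)
    obtain ⟨-, z, hz, hzb⟩ := (hB b).1 hb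
    obtain ⟨y', hy'⟩ := exists_ne (ψ b)
    obtain ⟨y, hy⟩ : ∃ y, G₁.Adj (ψ b) y := by
      obtain ⟨p⟩ := h1.preconnected (ψ b) y'
      cases p with
      | nil => exact absurd rfl hy'
      | cons h _ => exact ⟨_, h⟩
    refine (hB₁ _).2 ⟨fun h => ((hΩ _).1 h).2 hx, y, (hΩ y).2 ⟨⟨z, hz, ?_⟩, fun h => ?_⟩, hy.symm⟩
    · have t := h1.dist_triangle (u := ψ z) (v := ψ b) (w := y)
      rw [dist_eq_one_iff_adj.2 hy] at t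
      have := hK z b hzb
      omega
    · exact hI2 _ hx _ h hy
  refine ⟨Ω₁, B₁, hB₁, ?_, fun z hz z' h => (geo z hz _ K (hK z z' h) (by omega)).mono (by omega),
    fun x hx => ?_⟩
  · refine le_trans ?_ (Nat.mul_le_mul_left M (card_le_card hIB))
    have sub : B₂ ⊆ I.biUnion (fun x => B₂.filter (fun z => G₁.dist x (ψ z) ≤ L)) := by
      intro z hz
      obtain ⟨x, hx, hd⟩ := hI3 _ (mem_image_of_mem ψ hz)
      exact mem_biUnion.2 ⟨x, hx, mem_filter.2 ⟨hz, by omega⟩⟩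
    refine (card_le_card sub).trans ?_
    rw [mul_comm]
    exact card_biUnion_le_card_mul _ _ _ (fun x _ => hM x _ (fun z hz => (mem_filter.1 hz).2))
  · by_cases hxI : x ∈ I
    · obtain ⟨b, hb, rfl⟩ := mem_image.1 (hI1 hxI)
      exact ⟨b, hb, Nr.refl _ _⟩
    obtain ⟨hx1, y, hy, hyx⟩ := (hB₁ x).1 hx
    obtain ⟨⟨z, hz, hd⟩, -⟩ := (hΩ y).1 hy
    have hφ : φ x ∉ Ω₂ := fun h =>
      hx1 ((hΩ x).2 ⟨⟨φ x, h, (hK' x).trans (by omega)⟩, hxI⟩)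
    have t := h1.dist_triangle (u := ψ z) (v := y) (w := x)
    rw [dist_eq_one_iff_adj.2 hyx] at t
    obtain ⟨p, hp⟩ := h2.exists_walk_length_eq_dist z (φ x)
    obtain ⟨b, hb, hn⟩ := ext z _ p hz hφ
    have hp' : K * p.length ≤ K * T := Nat.mul_le_mul_left K (hp ▸ hT x z (by omega))
    exact ⟨b, hb, (Nr.step hyx.symm (Or.inr hy) ((geo z hz y (K + 1) hd le_rfl).symm.trans hn)).mono
      (by omega)⟩

theorem compare (h1 : G₁.Connected) (ψ : V₂ → V₁) (M L : ℕ)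
    (hM1 : ∀ x (Z : Finset V₁), (∀ y ∈ Z, G₁.dist x y ≤ L) → Z.card ≤ M)
    (hM : ∀ x (Z : Finset V₂), (∀ z ∈ Z, G₁.dist x (ψ z) ≤ L) → Z.card ≤ M)
    (hD : ∀ z (Z : Finset V₂), (∀ y ∈ Z, G₂.Adj z y) → Z.card ≤ M)
    {Ω₁ B₁ : Finset V₁} {Ω₂ B₂ : Finset V₂} (hB : Bd G₁ Ω₁ B₁)
    (ha : ∀ z ∈ Ω₂, ∀ z', G₂.Adj z z' → Nr G₁ Ω₁ L (ψ z) (ψ z'))
    (hb : ∀ x ∈ B₁, ∃ z ∈ B₂, Nr G₁ Ω₁ L x (ψ z)) (f : V₁ → ℝ) (m : ℝ) :
    en G₂ Ω₂ B₂ (fun z => f (ψ z) - m) ≤ 4 * M ^ 2 * L ^ 2 * en G₁ Ω₁ B₁ f ∧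
    ∑ x ∈ B₁, (f x - m) ^ 2 ≤
      2 * M * ∑ z ∈ B₂, (f (ψ z) - m) ^ 2 + 4 * M * L ^ 2 * en G₁ Ω₁ B₁ f := by
  have nn : ∀ x y, (0 : ℝ) ≤ if G₁.Adj x y then (f x - f y) ^ 2 else 0 := fun x y => by
    split_ifs <;> positivity
  let e : V₁ → ℝ := fun x => ∑ y ∈ Ω₁, (if G₁.Adj x y then (f x - f y) ^ 2 else 0) +
    ∑ y ∈ B₁, (if G₁.Adj x y then (f x - f y) ^ 2 else 0)
  have n1 : ∀ x, 0 ≤ ∑ y ∈ Ω₁, (if G₁.Adj x y then (f x - f y) ^ 2 else 0) :=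
    fun x => sum_nonneg (fun y _ => nn x y)
  have n2 : ∀ x, 0 ≤ ∑ y ∈ B₁, (if G₁.Adj x y then (f x - f y) ^ 2 else 0) :=
    fun x => sum_nonneg (fun y _ => nn x y)
  have e0 : ∀ x, 0 ≤ e x := fun x => add_nonneg (n1 x) (n2 x)
  have e1 : ∀ u v, G₁.Adj u v → u ∈ Ω₁ → (f u - f v) ^ 2 ≤ e u := by
    intro u v h hu
    by_cases hv : v ∈ Ω₁
    · have := single_le_sum (fun y _ => nn u y) hv
      rw [if_pos h] at this
      exact this.trans (le_add_of_nonneg_right (n2 u))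
    · have := single_le_sum (fun y _ => nn u y) ((hB v).2 ⟨hv, u, hu, h⟩)
      rw [if_pos h] at this
      exact this.trans (le_add_of_nonneg_left (n1 u))
  have e2 : ∑ x ∈ Ω₁, e x ≤ 2 * en G₁ Ω₁ B₁ f := by
    have := sum_nonneg (s := Ω₁) (fun x _ => n2 x)
    simp only [e, en, sum_add_distrib]
    linarith
  let h : V₁ → ℝ := fun x => ∑ y ∈ Ω₁.filter (fun y => G₁.dist x y ≤ L), e y
  have h0 : ∀ x, 0 ≤ h x := fun x => sum_nonneg (fun y _ => e0 y)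
  have osc : ∀ x y, Nr G₁ Ω₁ L x y → (f x - f y) ^ 2 ≤ L ^ 2 * h x := by
    intro x y hn
    have := hn.osc h1 f x L (√(h x)) (Real.sqrt_nonneg _) (fun u v huv hu hd => by
      apply Real.abs_le_sqrt
      exact (e1 u v huv hu).trans (single_le_sum (fun y _ => e0 y) (mem_filter.2 ⟨hu, hd⟩)))
      (by simp)
    have h2 := pow_le_pow_left₀ (abs_nonneg _) this 2
    rwa [sq_abs, mul_pow, Real.sq_sqrt (h0 x)] at h2
  have s1 : ∑ z ∈ Ω₂, h (ψ z) ≤ M * ∑ x ∈ Ω₁, e x :=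
    dc Ω₂ Ω₁ (fun z y => G₁.dist (ψ z) y ≤ L) e e0 M (fun y _ => hM y _ (fun z hz => by
      rw [SimpleGraph.dist_comm]; exact (mem_filter.1 hz).2))
  have s2 : ∑ x ∈ B₁, h x ≤ M * ∑ x ∈ Ω₁, e x :=
    dc B₁ Ω₁ (fun x y => G₁.dist x y ≤ L) e e0 M (fun y _ => hM1 y _ (fun z hz => by
      rw [SimpleGraph.dist_comm]; exact (mem_filter.1 hz).2))
  have s3 := dc B₁ B₂ (fun x z => G₁.dist x (ψ z) ≤ L) (fun z => (f (ψ z) - m) ^ 2)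
    (fun z => sq_nonneg _) M (fun z _ => hM1 (ψ z) _ (fun x hx => by
      rw [SimpleGraph.dist_comm]; exact (mem_filter.1 hx).2))
  have M0 : (0 : ℝ) ≤ M := Nat.cast_nonneg _
  have L0 : (0 : ℝ) ≤ (L : ℝ) ^ 2 := sq_nonneg _
  have s4 : (M : ℝ) * ∑ x ∈ Ω₁, e x ≤ M * (2 * en G₁ Ω₁ B₁ f) := mul_le_mul_of_nonneg_left e2 M0
  constructor
  · have k : ∀ Z : Finset V₂, ∑ z ∈ Ω₂, ∑ y ∈ Z,
        (if G₂.Adj z y then (f (ψ z) - m - (f (ψ y) - m)) ^ 2 else 0) ≤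
        M * L ^ 2 * (M * (2 * en G₁ Ω₁ B₁ f)) := by
      intro Z
      refine le_trans ?_ (mul_le_mul_of_nonneg_left (s1.trans s4) (mul_nonneg M0 L0))
      rw [mul_sum]
      refine sum_le_sum (fun z hz => ?_)
      rw [← sum_filter]
      refine (sum_le_card_nsmul _ _ (L ^ 2 * h (ψ z)) (fun y hy => ?_)).trans ?_
      · rw [sub_sub_sub_cancel_right]
        exact osc _ _ (ha z hz y (mem_filter.1 hy).2)
      · rw [nsmul_eq_mul, mul_assoc]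
        exact mul_le_mul_of_nonneg_right
          (by exact_mod_cast hD z _ (fun y hy => (mem_filter.1 hy).2)) (mul_nonneg L0 (h0 _))
    have k1 := k Ω₂
    have k2 := k B₂
    have k3 : 0 ≤ ∑ z ∈ Ω₂, ∑ y ∈ Ω₂,
        (if G₂.Adj z y then (f (ψ z) - m - (f (ψ y) - m)) ^ 2 else 0) :=
      sum_nonneg (fun _ _ => sum_nonneg (fun _ _ => by split_ifs <;> positivity))
    unfold en at k1 k2 ⊢
    linarith
  · have k : ∑ x ∈ B₁, (f x - m) ^ 2 ≤ ∑ x ∈ B₁,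
        (2 * ∑ z ∈ B₂.filter (fun z => G₁.dist x (ψ z) ≤ L), (f (ψ z) - m) ^ 2 +
          2 * L ^ 2 * h x) := by
      refine sum_le_sum (fun x hx => ?_)
      obtain ⟨z, hz, hn⟩ := hb x hx
      have a := osc _ _ hn
      have b := single_le_sum (f := fun z => (f (ψ z) - m) ^ 2) (fun _ _ => sq_nonneg _)
        (mem_filter.2 ⟨hz, hn.dist_le h1⟩ : z ∈ B₂.filter (fun z => G₁.dist x (ψ z) ≤ L))
      nlinarith [sq_nonneg (f x - f (ψ z) - (f (ψ z) - m))]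
    rw [sum_add_distrib, ← mul_sum, ← mul_sum] at k
    have := mul_le_mul_of_nonneg_left (s2.trans s4) L0
    linarith

end Pool.Agent.H7.Steklov
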