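import Mathlib

namespace Pool.Agent.H7.UC

open Finset

variable {α : Type} [Fintype α] [DecidableEq α] {k : ℕ}

def sl (j : Fin k) (C : Finset (Fin k × α)) : Finset α := {i | (j, i) ∈ C}

def pw (k : ℕ) (G : Finset (Finset α)) : Finset (Finset (Fin k × α)) := {C | ∀ j, sl j C ∈ G}

theorem sl_union (j : Fin k) (C D : Finset (Fin k × α)) : sl j (C ∪ D) = sl j C ∪ sl j D := by
  ext i
  simp [sl]

theorem card_gen (T : Fin k → Finset (Finset α)) :
    #{C : Finset (Fin k × α) | ∀ j, sl j C ∈ T j} = ∏ j, #(T j) := by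
  rw [← Fintype.card_piFinset]
  refine card_nbij' (fun C j => sl j C) (fun f => univ.filter fun p : Fin k × α => p.2 ∈ f p.1) (fun C hC => ?_)
    (fun f hf => ?_) (fun C _ => ?_) (fun f _ => ?_)
  · simpa using hC
  · simpa [sl] using hf
  · ext p
    simp [sl]
  · funext j
    ext i
    simp [sl]

theorem card_pw (G : Finset (Finset α)) : #(pw k G) = #G ^ k := by
  rw [pw, card_gen fun _ => G]
  simp

theorem deg_pw (G : Finset (Finset α)) (h : ∀ i, 2 * #{A ∈ G | i ∈ A} < #G)
    (z : Fin (k + 1) × α) : 2 * #{C ∈ pw (k + 1) G | z ∈ C} + #G ^ k ≤ #G ^ (k + 1) := by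
  have : ({C ∈ pw (k + 1) G | z ∈ C} : Finset _) = ({C | ∀ j, sl j C ∈
      Function.update (fun _ => G) z.1 {A ∈ G | z.2 ∈ A} j} : Finset _) := by
    ext C
    simp only [pw, mem_filter, mem_univ, true_and]
    refine ⟨fun a j => ?_, fun a => ⟨fun j => ?_, ?_⟩⟩
    · by_cases e : j = z.1
      · subst e
        simpa [a.1, sl] using And.intro (a.1 z.1) a.2
      · rw [Function.update_of_ne e]
        exact a.1 j
    · have := a j
      by_cases e : j = z.1
      · subst e
        rw [Function.update_self] at this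
        exact (mem_filter.1 this).1
      · rwa [Function.update_of_ne e] at this
    · have := a z.1
      rw [Function.update_self] at this
      simpa [sl] using (mem_filter.1 this).2
  rw [this, card_gen, ← mul_prod_erase univ _ (mem_univ z.1), Function.update_self,
    prod_congr rfl fun j hj => by rw [Function.update_of_ne (mem_erase.1 hj).1]]
  simp only [prod_const, card_erase_of_mem (mem_univ z.1), card_univ, Fintype.card_fin,
    Nat.add_sub_cancel, pow_succ]
  nlinarith [Nat.mul_le_mul_left (#G ^ k) (h z.2)]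

theorem norm (G : Finset (Finset α)) (hU : ∀ A ∈ G, ∀ B ∈ G, A ∪ B ∈ G) (hn : ∃ A ∈ G, A.Nonempty)
    (h : ∀ i, 2 * #{A ∈ G | i ∈ A} < #G) (d : ℕ) :
    ∃ (β : Type) (_ : Fintype β) (_ : DecidableEq β) (_ : Nonempty β) (H : Finset (Finset β)),
      ∅ ∈ H ∧ univ ∈ H ∧ (∀ A ∈ H, ∀ B ∈ H, A ∪ B ∈ H) ∧ ∀ i, 2 * #{A ∈ H | i ∈ A} + d ≤ #H := by
  obtain ⟨A, hA, i, hi⟩ := hn
  have g : 2 ≤ #G := by
    have := h i
    have : 0 < #{A ∈ G | i ∈ A} := card_pos.2 ⟨A, mem_filter.2 ⟨hA, hi⟩⟩
    omega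
  refine ⟨Fin (d + 2 + 1) × α, inferInstance, inferInstance, ⟨(0, i)⟩,
    insert ∅ (insert univ (pw _ G)), by simp, by simp, fun A hA B hB => ?_, fun z => ?_⟩
  · simp only [mem_insert] at hA hB ⊢
    rcases hA with rfl | rfl | hA
    · rwa [empty_union]
    · simp
    · rcases hB with rfl | rfl | hB
      · simp [hA]
      · simp
      · refine Or.inr (Or.inr (mem_filter.2 ⟨mem_univ _, fun j => ?_⟩))
        rw [sl_union]
        exact hU _ ((mem_filter.1 hA).2 j) _ ((mem_filter.1 hB).2 j)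
  · have a := deg_pw G h z
    have b : #(pw (d + 2 + 1) G) ≤ #(insert ∅ (insert univ (pw (d + 2 + 1) G))) :=
      card_le_card ((subset_insert _ _).trans (subset_insert _ _))
    have c : #{A ∈ insert ∅ (insert univ (pw (d + 2 + 1) G)) | z ∈ A} ≤
        #{A ∈ pw (d + 2 + 1) G | z ∈ A} + 1 := by
      rw [filter_insert, if_neg (notMem_empty _), filter_insert, if_pos (mem_univ _)]
      exact card_insert_le _ _
    have e := Nat.lt_pow_self (n := d + 2) (show 1 < #G by omega)
    rw [card_pw] at b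
    omega

end Pool.Agent.H7.UC
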